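import Pool.Agent.Lib.MP_8a899a_lc.Main

set_option autoImplicit false

/-!
# Superatomicity for strong limit cardinals
-/

universe u

namespace Pool.Agent.Lib.MP_8a899a_lc

open Set Cardinal

variable {B : Type u} [BooleanAlgebra B] {κ : Cardinal.{u}}

/-- `ht B` is not zero. -/
theorem HasStar.ht_pos (h : HasStar κ B) (hκ : ℵ₀ ≤ κ) : 0 < ht B := by
  by_contra hcon
  have h0 : ht B = 0 := by
    by_contra h1
    exact hcon (pos_iff_ne_zero.2 h1)
  have cb0 : ∀ x : B, x ∈ cb (ht B) → x = ⊥ := by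
    intro x hx
    rw [h0, mem_cb] at hx
    rcases hx with h1 | ⟨β, hβ, _⟩
    · exact h1
    · exact absurd hβ not_lt_zero
  have hsmall : ∀ b : B, b ≠ ⊥ → #(Iic bᶜ) < κ := by
    intro b hb
    by_contra h1
    push Not at h1
    obtain ⟨α, hα, _⟩ := h.bound (fun h2 => hb (cb0 b h2)) h1
    rw [h0] at hα
    exact absurd hα not_lt_zero
  have hκ1 : κ ≤ #(Iic (⊤ : B)) := by rw [Iic_top, mk_univ, h.1]
  -- there is a `b` different from `⊥` and `⊤`
  obtain ⟨b, hb0, hb1⟩ : ∃ b : B, b ≠ ⊥ ∧ b ≠ ⊤ := by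
    by_contra h1
    push Not at h1
    have h2 : (univ : Set B) ⊆ {⊥, ⊤} := by
      intro x _
      by_cases hx : x = ⊥
      · exact Or.inl hx
      · exact Or.inr (h1 x hx)
    have h3 : (univ : Set B).Finite := (Set.toFinite _).subset h2
    have h4 : #B < ℵ₀ := by
      rw [← mk_univ]
      exact h3.lt_aleph0
    rw [h.1] at h4
    exact absurd hκ (not_le_of_gt h4)
  rcases exists_split hκ b hκ1 with h1 | h1
  · have := hsmall bᶜ (by rwa [Ne, compl_eq_bot])
    rw [compl_compl] at this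
    exact absurd h1 (not_le_of_gt this)
  · rw [top_sdiff] at h1
    exact absurd h1 (not_le_of_gt (hsmall b hb0))

/-- `κ ≤ 2 ^ #S` where `S` is the superatomic ideal. -/
theorem HasStar.superatomic_of_strongLimit (h : HasStar κ B) (hκ : κ.IsStrongLimit) :
    Superatomic B := by
  by_contra hns
  have hω : ℵ₀ ≤ κ := hκ.aleph0_le
  set S : Set B := cb (ht B) with hS
  have hSid : IsId S := cb_isId _
  have hScard : #S < κ := h.card_lt hns
  have hQcard := h.card_lt_of_lt_ht hω hns (h.ht_pos hω)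
  set Q : Set B := {y : B | ∀ x ∈ S, x ≤ y → x ∈ cb 0} with hQ
  -- code an element by its trace and its distance to a chosen element with the same trace
  let tr : B → Set S := fun b => {s : S | (s : B) ≤ b}
  have hrep : ∀ t : Set.range tr, ∃ b : B, tr b = t := fun t => t.2
  choose rep hrep using hrep
  have cb0 : ∀ x : B, x ∈ cb 0 → x = ⊥ := by
    intro x hx
    rw [mem_cb] at hx
    rcases hx with h1 | ⟨β, hβ, _⟩
    · exact h1
    · exact absurd hβ not_lt_zero
  have hdiff : ∀ b c : B, tr b = tr c → b \ c ∈ Q := by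
    intro b c hbc x hx hxle
    have h1 : (⟨x, hx⟩ : S) ∈ tr b := hxle.trans sdiff_le
    rw [hbc] at h1
    have h2 : x ≤ c := h1
    have h3 : x ≤ c ⊓ (b \ c) := le_inf h2 hxle
    rw [inf_sdiff_self_right, le_bot_iff] at h3
    rw [h3]
    exact (cb_isId 0).bot
  let r : B → B := fun b => rep ⟨tr b, b, rfl⟩
  have hr : ∀ b, tr (r b) = tr b := fun b => hrep ⟨tr b, b, rfl⟩
  let f : B → Set S × (Q × Q) := fun b =>
    (tr b, (⟨b \ r b, hdiff _ _ (hr b).symm⟩, ⟨r b \ b, hdiff _ _ (hr b)⟩))
  have hf : Function.Injective f := by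
    intro b c hbc
    have h1 : tr b = tr c := congrArg Prod.fst hbc
    have h2 : r b = r c := by
      simp only [r]
      congr 1
      exact Subtype.ext h1
    have h3 : b \ r b = c \ r c := congrArg (fun p : Set S × (Q × Q) => (p.2.1 : B)) hbc
    have h4 : r b \ b = r c \ c := congrArg (fun p : Set S × (Q × Q) => (p.2.2 : B)) hbc
    rw [h2] at h3 h4
    have key : ∀ x y : B, (x \ y) ⊔ (y \ (y \ x)) = x := by
      intro x y
      rw [_root_.sdiff_sdiff_right_self, inf_comm, sup_comm]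
      exact sup_inf_sdiff x y
    have e1 := key b (r c)
    have e2 := key c (r c)
    rw [h3, h4] at e1
    exact e1.symm.trans e2
  have hle : #B ≤ 2 ^ #S * (#Q * #Q) := by
    have h1 := mk_le_of_injective hf
    rw [← mul_def, ← mul_def, mk_set] at h1
    exact h1
  rw [h.1] at hle
  have h2 : (2 : Cardinal.{u}) ^ #S < κ := hκ.isStrongPrelimit hScard
  exact absurd hle (not_le_of_gt (mul_lt_of_lt hω h2 (mul_lt_of_lt hω hQcard hQcard)))

end Pool.Agent.Lib.MP_8a899a_lc
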