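import Pool.Agent.Lib.MP_8a899a_lc.Fam
import Pool.Agent.Lib.MP_8a899a_lc.StrongLimit

set_option autoImplicit false
set_option linter.unusedSectionVars false

/-!
# Families of prime classes in algebras isomorphic to all their full-size subalgebras
-/

universe u

namespace Pool.Agent.Lib.MP_8a899a_lc

open Set Cardinal

variable {B : Type u} [BooleanAlgebra B] {κ : Cardinal.{u}}

/-- Subfamilies. -/
theorem Fam.comp {Λ Λ' : Type u} {P : Λ → Cls.{u}} (hF : Fam Λ P) (g : Λ' → Λ)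
    (hg : Function.Injective g) : Fam Λ' (fun i => P (g i)) :=
  ⟨fun i => hF.loc (g i), fun i C _ => hF.bot (g i) C, fun i C _ z b h => hF.split (g i) C z b h,
    fun i j C _ z z' hz h h' => hg (hF.indep (g i) (g j) C z z' hz h h')⟩

/-- Some independent family of `θ` prime classes is realized in the canonical ideal. -/
def RealF (κ : Cardinal.{u}) (B : Type u) [BooleanAlgebra B] (θ : Cardinal.{u}) : Prop :=
  ∃ (Λ : Type u) (P : Λ → Cls.{u}), #Λ = θ ∧ Fam Λ P ∧ ∀ x, ∃ z ∈ small κ B, P x B z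

/-- Some independent family of `θ` prime classes is realized below one element of the canonical
ideal. -/
def JointF (κ : Cardinal.{u}) (B : Type u) [BooleanAlgebra B] (θ : Cardinal.{u}) : Prop :=
  ∃ (Λ : Type u) (P : Λ → Cls.{u}), #Λ = θ ∧ Fam Λ P ∧ ∃ b ∈ small κ B, ∀ x, ∃ z ≤ b, P x B z

/-- Local subalgebras of full size are isomorphic to the whole algebra. -/
theorem HasStar.exists_iso_of_isLoc (h : HasStar κ B) (hκ : ℵ₀ ≤ κ) {A : BooleanSubalgebra B}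
    {b : B} (hb : b ∈ small κ B) (hloc : IsLoc A b) :
    ∃ e : A ≃o B, e ⟨b, hloc.1⟩ ∈ small κ B := by
  have h3 : ∀ x ∈ Iic bᶜ, x ∈ A := by
    intro x hx
    apply hloc.2
    have hx' : x ≤ bᶜ := hx
    rw [(le_compl_iff_disjoint_right.1 hx').eq_bot]
    exact A.bot_mem
  have h4 : κ ≤ #(Iic bᶜ) := not_lt.1 (h.compl_notMem_small hκ hb)
  obtain ⟨e⟩ := h.iso A _ h3 h4
  refine ⟨e, (mem_small_iso e _).2 ?_⟩
  rw [mem_small] at hb ⊢
  refine lt_of_le_of_lt ?_ hb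
  refine mk_le_of_injective (f := fun y : Iic (⟨b, hloc.1⟩ : A) => (⟨((y : A) : B), y.2⟩ : Iic b))
    ?_
  intro y z hyz
  have h5 : ((y : A) : B) = ((z : A) : B) := congrArg (fun w : Iic b => (w : B)) hyz
  exact Subtype.ext (Subtype.ext h5)

theorem LocInv.iso {P : Cls.{u}} (hP : LocInv P) {A C : Type u} [BooleanAlgebra A]
    [BooleanAlgebra C] (e : A ≃o C) (z : A) : P A z ↔ P C (e z) :=
  hP A C (e : BoundedLatticeHom A C) e.injective z fun y _ => ⟨e.symm y, e.apply_symm_apply y⟩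

theorem RealF.le (h : HasStar κ B) {θ : Cardinal.{u}} (hR : RealF κ B θ) : θ ≤ κ := by
  obtain ⟨Λ, P, hΛ, hF, hall⟩ := hR
  choose z hz hPz using hall
  rw [← hΛ, ← h.1]
  refine mk_le_of_injective (f := z) ?_
  intro x y hxy
  refine hF.indep x y B (z x) (z x) le_rfl (hPz x) ?_
  rw [hxy]; exact hPz y

theorem RealF.mono {θ θ' : Cardinal.{u}} (hR : RealF κ B θ) (hθ : θ' ≤ θ) : RealF κ B θ' := by
  obtain ⟨Λ, P, hΛ, hF, hall⟩ := hR
  obtain ⟨g⟩ : Nonempty (θ'.out ↪ Λ) := by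
    change #θ'.out ≤ #Λ
    rw [mk_out, hΛ]; exact hθ
  exact ⟨θ'.out, fun i => P (g i), mk_out θ', hF.comp g g.injective, fun i => hall (g i)⟩

/-- The elements of the canonical ideal avoiding a realized prime class are few. -/
theorem HasStar.card_avoid_lt (h : HasStar κ B) (hκ : ℵ₀ ≤ κ) {Λ : Type u} {P : Λ → Cls.{u}}
    (hF : Fam Λ P) {x : Λ} (hx : ∃ z ∈ small κ B, P x B z) :
    #{b : B | b ∈ small κ B ∧ ∀ z ≤ b, ¬ P x B z} < κ := by
  set R : Set B := {b : B | b ∈ small κ B ∧ ∀ z ≤ b, ¬ P x B z} with hR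
  by_contra hcon
  rw [not_lt] at hcon
  have hsm : IsId (small κ B) := small_isId hκ
  have hRid : IsId R := by
    refine ⟨⟨hsm.bot, ?_⟩, ?_, ?_⟩
    · intro z hz
      rw [le_bot_iff] at hz
      subst hz
      exact hF.bot x B
    · rintro a c hca ⟨h1, h2⟩
      exact ⟨hsm.down _ _ hca h1, fun z hz => h2 z (hz.trans hca)⟩
    · rintro a c ⟨h1, h2⟩ ⟨h3, h4⟩
      refine ⟨hsm.sup _ _ h1 h3, fun z hz hPz => ?_⟩
      rcases hF.split x B z a hPz with h5 | h5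
      · exact h2 _ inf_le_right h5
      · refine h4 _ ?_ h5
        rw [sdiff_le_iff]
        exact hz
  obtain ⟨e, he⟩ := h.exists_iso hκ hRid (fun b hb => hb.1) hcon
  obtain ⟨z0, hz0, hPz0⟩ := hx
  set a0 : ofId R hRid := e.symm z0 with ha0
  have hea : e a0 = z0 := e.apply_symm_apply z0
  have ha0R : (a0 : B) ∈ R := (he a0).2 (by rw [hea]; exact hz0)
  have h1 : P x (ofId R hRid) a0 := by
    rw [(hF.loc x).iso e a0, hea]
    exact hPz0
  have h2 : P x B (a0 : B) := by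
    refine (hF.loc x (ofId R hRid) B (ofId R hRid).subtype (ofId R hRid).subtype_injective a0
      ?_).1 h1
    intro y hy
    exact ⟨⟨y, mem_ofId_of_mem (hRid.down _ _ hy ha0R)⟩, rfl⟩
  exact ha0R.2 _ le_rfl h2

theorem HasStar.jointF_of_bound (h : HasStar κ B) (hκ : ℵ₀ ≤ κ) (hns : ¬ Superatomic B)
    {Λ : Type u} {P : Λ → Cls.{u}} (hF : Fam Λ P) (hΛ : #Λ < κ) {ν : Cardinal.{u}} (hν : ν < κ)
    (hle : ∀ x, #{b : B | b ∈ small κ B ∧ ∀ z ≤ b, ¬ P x B z} ≤ ν) : JointF κ B #Λ := by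
  have h1 : #(⋃ x, {b : B | b ∈ small κ B ∧ ∀ z ≤ b, ¬ P x B z}) < κ := by
    refine (mk_iUnion_le _).trans_lt (mul_lt_of_lt hκ hΛ ?_)
    exact lt_of_le_of_lt (ciSup_le' hle) hν
  obtain ⟨b, hb, hb'⟩ : ∃ b ∈ small κ B, b ∉ ⋃ x, {b : B | b ∈ small κ B ∧ ∀ z ≤ b, ¬ P x B z} := by
    by_contra hcon
    push Not at hcon
    exact absurd ((h.le_card_small hκ hns).trans (mk_le_mk_of_subset hcon)) (not_le_of_gt h1)
  refine ⟨Λ, P, rfl, hF, b, hb, fun x => ?_⟩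
  by_contra hcon
  push Not at hcon
  exact hb' (mem_iUnion.2 ⟨x, hb, hcon⟩)

theorem HasStar.jointF_of_lt_cof (h : HasStar κ B) (hκ : ℵ₀ ≤ κ) (hns : ¬ Superatomic B)
    {θ : Cardinal.{u}} (hR : RealF κ B θ) (hθ : θ < κ.ord.cof) : JointF κ B θ := by
  obtain ⟨Λ, P, rfl, hF, hall⟩ := hR
  refine h.jointF_of_bound hκ hns hF (hθ.trans_le (Ordinal.cof_ord_le κ))
    (ν := ⨆ x, #{b : B | b ∈ small κ B ∧ ∀ z ≤ b, ¬ P x B z}) ?_ ?_
  · exact iSup_lt_of_lt_cof_ord hθ fun x => h.card_avoid_lt hκ hF (hall x)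
  · intro x
    exact le_ciSup (f := fun x => #{b : B | b ∈ small κ B ∧ ∀ z ≤ b, ¬ P x B z})
      bddAbove_of_small x

theorem HasStar.jointF_of_cof_lt (h : HasStar κ B) (hκ : ℵ₀ ≤ κ) (hns : ¬ Superatomic B)
    {θ : Cardinal.{u}} (hR : RealF κ B θ) (hθω : ℵ₀ ≤ θ) (hθ : κ.ord.cof < θ.ord.cof)
    (hθκ : θ < κ) : JointF κ B θ := by
  obtain ⟨Λ, P, rfl, hF, hall⟩ := hR
  obtain ⟨ι, c, hι, hc, hcof⟩ := exists_cofinal_family κ
  have h1 : ∀ x, ∃ i, #{b : B | b ∈ small κ B ∧ ∀ z ≤ b, ¬ P x B z} ≤ c i := fun x =>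
    hcof _ (h.card_avoid_lt hκ hF (hall x))
  choose f hf using h1
  obtain ⟨i, hi⟩ := infinite_pigeonhole_card f #Λ le_rfl hθω (by rw [hι]; exact hθ)
  have h2 : #(f ⁻¹' {i}) = #Λ := le_antisymm (mk_set_le _) hi
  have h3 := h.jointF_of_bound hκ hns (hF.comp (fun x : f ⁻¹' {i} => (x : Λ))
    Subtype.val_injective) (by rw [h2]; exact hθκ) (hc i) (by
      intro x
      have h4 : f x = i := x.2
      exact (hf x).trans (le_of_eq (congrArg c h4)))
  rwa [h2] at h3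

/-- The exponential step. -/
theorem HasStar.realF_two_power (h : HasStar κ B) (hκ : ℵ₀ ≤ κ) {θ : Cardinal.{u}}
    (hJ : JointF κ B θ) (hθ : ℵ₀ ≤ θ) : RealF κ B (2 ^ θ) := by
  obtain ⟨Λ, P, rfl, hF, b, hb, hall⟩ := hJ
  obtain ⟨c⟩ : Nonempty (Λ × ULift.{u} ℕ ↪ Λ) := by
    change #(Λ × ULift.{u} ℕ) ≤ #Λ
    rw [mk_prod, lift_id, lift_id, mk_uLift, mk_nat, lift_aleph0]
    exact mul_le_of_le hθ le_rfl hθ
  let g : Set Λ → Set Λ := fun Z => c '' {p | p.1 ∈ Z ∨ p.2.down % 2 = 0}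
  have hgdiff : ∀ Z Z' : Set Λ, ∀ x ∈ Z, x ∉ Z' → (g Z \ g Z').Infinite := by
    intro Z Z' x hx hx'
    have h1 : Function.Injective (fun n : ℕ => c (x, ULift.up (2 * n + 1))) := by
      intro m n hmn
      have h2 := c.injective hmn
      have h3 : (2 * m + 1 : ℕ) = 2 * n + 1 := congrArg (fun p => p.2.down) h2
      omega
    refine Set.infinite_of_injective_forall_mem h1 ?_
    intro n
    refine ⟨⟨_, Or.inl hx, rfl⟩, ?_⟩
    rintro ⟨p, hp, hpc⟩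
    have h2 := c.injective hpc
    subst h2
    rcases hp with h3 | h3
    · exact hx' h3
    · have h4 : (2 * n + 1) % 2 = 0 := h3
      omega
  have hg : ∀ Z Z' : Set Λ, Z ≠ Z' → (g Z \ g Z').Infinite ∨ (g Z' \ g Z).Infinite := by
    intro Z Z' hne
    by_cases h1 : Z ⊆ Z'
    · obtain ⟨x, hx, hx'⟩ := Set.not_subset.1 (fun h2 => hne (h1.antisymm h2))
      exact Or.inr (hgdiff _ _ x hx hx')
    · obtain ⟨x, hx, hx'⟩ := Set.not_subset.1 h1
      exact Or.inl (hgdiff _ _ x hx hx')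
  have hginf : ∀ Z, (g Z).Infinite := by
    intro Z
    have hne : Nonempty Λ := by
      rw [← mk_ne_zero_iff]
      exact (aleph0_pos.trans_le hθ).ne'
    obtain ⟨x⟩ := hne
    have h1 : Function.Injective (fun n : ℕ => c (x, ULift.up (2 * n))) := by
      intro m n hmn
      have h2 := c.injective hmn
      have h3 : (2 * m : ℕ) = 2 * n := congrArg (fun p => p.2.down) h2
      omega
    refine Set.infinite_of_injective_forall_mem h1 ?_
    intro n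
    refine ⟨_, Or.inr ?_, rfl⟩
    change (2 * n) % 2 = 0
    omega
  have hF' := hF.next g hg
  refine ⟨Set Λ, fun Z => Nxt P (g Z), mk_set, hF', fun Z => ?_⟩
  obtain ⟨A, hloc, hbA, hN⟩ := hF.exists_alg hall (hginf Z)
  obtain ⟨e, he⟩ := h.exists_iso_of_isLoc hκ hb hloc
  refine ⟨_, he, ?_⟩
  exact ((hF'.loc Z).iso e _).1 hN

/-- Powers above the cofinality. -/
theorem HasStar.jointF_two_power (h : HasStar κ B) (hκ : ℵ₀ ≤ κ) (hns : ¬ Superatomic B)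
    {θ : Cardinal.{u}} (hJ : JointF κ B θ) (hθ : ℵ₀ ≤ θ) (hcof : κ.ord.cof ≤ θ) :
    2 ^ θ < κ ∧ JointF κ B (2 ^ θ) := by
  have hR := h.realF_two_power hκ hJ hθ
  have hlt : θ < ((2 : Cardinal.{u}) ^ θ).ord.cof := lt_cof_ord_power hθ one_lt_two
  have h1 : 2 ^ θ < κ := by
    refine lt_of_le_of_ne (hR.le h) ?_
    intro h2
    rw [h2] at hlt
    exact absurd hcof (not_le_of_gt hlt)
  exact ⟨h1, h.jointF_of_cof_lt hκ hns hR (hθ.trans (cantor θ).le) (hcof.trans_lt hlt) h1⟩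

/-! ### The countable family -/

theorem phi_split {C : Type u} [BooleanAlgebra C] {j : Ordinal.{u}} {z b : C} (hz : Phi j z) :
    Phi j (z ⊓ b) ∨ Phi j (z \ b) := by
  obtain ⟨w, hw, hwQ, hs⟩ := hz
  by_contra hcon
  rw [not_or] at hcon
  have h1 : ∃ s ∈ (cb (ht C) : Set C), (w ⊓ b) \ s ∈ Qs j C := by
    by_contra hcon2
    push Not at hcon2
    exact hcon.1 ⟨w ⊓ b, inf_le_inf_right _ hw, (Qs_isId _).down _ _ inf_le_left hwQ, hcon2⟩
  have h2 : ∃ s ∈ (cb (ht C) : Set C), (w \ b) \ s ∈ Qs j C := by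
    by_contra hcon2
    push Not at hcon2
    exact hcon.2 ⟨w \ b, sdiff_le_sdiff_right hw, (Qs_isId _).down _ _ sdiff_le hwQ, hcon2⟩
  obtain ⟨s, hs1, hs2⟩ := h1
  obtain ⟨t, ht1, ht2⟩ := h2
  refine hs (s ⊔ t) ((cb_isId _).sup _ _ hs1 ht1) ?_
  refine (Qs_isId j).down _ _ ?_ ((Qs_isId j).sup _ _ hs2 ht2)
  calc w \ (s ⊔ t) = ((w ⊓ b) ⊔ (w \ b)) \ (s ⊔ t) := by rw [sup_inf_sdiff]
    _ = (w ⊓ b) \ (s ⊔ t) ⊔ (w \ b) \ (s ⊔ t) := sup_sdiff
    _ ≤ (w ⊓ b) \ s ⊔ (w \ b) \ t :=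
      sup_le_sup (sdiff_le_sdiff_left le_sup_left) (sdiff_le_sdiff_left le_sup_right)

theorem not_phi_bot {C : Type u} [BooleanAlgebra C] {j : Ordinal.{u}} : ¬ Phi j (⊥ : C) :=
  not_phi_of_mem_cb (cb_isId _).bot

/-- The class of the elements with the invariant `{n}`. -/
def Pn (n : ULift.{u} ℕ) : Cls.{u} := fun (C : Type u) [BooleanAlgebra C] (z : C) =>
  ∀ i : Ordinal.{u}, Phi i z ↔ i = (n.down : Ordinal.{u})

theorem fam_pn : Fam (ULift.{u} ℕ) Pn.{u} := by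
  refine ⟨?_, ?_, ?_, ?_⟩
  · intro n A C _ _ f hf z hz
    exact forall_congr' fun i => iff_congr (phi_local f hf hz i) Iff.rfl
  · intro n C _ h
    exact not_phi_bot ((h _).2 rfl)
  · intro n C _ z b h
    rcases phi_split (b := b) ((h _).2 rfl) with h1 | h1
    · left
      intro i
      exact ⟨fun h2 => (h i).1 (phi_mono inf_le_left h2), fun h2 => by rw [h2]; exact h1⟩
    · right
      intro i
      exact ⟨fun h2 => (h i).1 (phi_mono sdiff_le h2), fun h2 => by rw [h2]; exact h1⟩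
  · intro m n C _ z z' hz h h'
    have h1 := (h _).1 (phi_mono hz ((h' _).2 rfl))
    apply ULift.ext
    exact (Nat.cast_injective (R := Ordinal.{u}) h1).symm

theorem HasStar.exists_small_notMem (h : HasStar κ B) (hκ : ℵ₀ ≤ κ) (hns : ¬ Superatomic B) :
    ∃ x0 ∈ small κ B, x0 ∉ (cb (ht B) : Set B) := by
  have htop : (⊤ : B) ∉ (cb (ht B) : Set B) := fun h1 => hns (superatomic_of_top_mem h1)
  obtain ⟨y, _, hdis, hyl⟩ := exists_pieces_of_notMem (ULift.{u} Bool) mk_le_aleph0 htop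
  have hd : y ⟨true⟩ ≤ (y ⟨false⟩)ᶜ := by
    have h1 : Disjoint (y ⟨true⟩) (y ⟨false⟩) := hdis (by simp)
    exact h1.le_compl_right
  rcases h.mem_small_or hκ hns (y ⟨false⟩) with h1 | h1
  · exact ⟨_, h1, hyl _⟩
  · exact ⟨_, (small_isId hκ).down _ _ hd h1, hyl _⟩

theorem HasStar.jointF_aleph0 (h : HasStar κ B) (hκ : ℵ₀ ≤ κ) (hns : ¬ Superatomic B) :
    JointF κ B ℵ₀ := by
  obtain ⟨x0, hx0, hx0S⟩ := h.exists_small_notMem hκ hns
  obtain ⟨y, hyx, hdis, hyl⟩ := exists_pieces_of_notMem (ULift.{u} ℕ) mk_le_aleph0 hx0S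
  have hR : ∀ n : ULift.{u} ℕ, ∃ A : BooleanSubalgebra B, IsLoc A (y n) ∧ ∃ hx : y n ∈ A,
      Pn n A ⟨y n, hx⟩ := by
    intro n
    obtain ⟨A, h1, _, h3, _, h5, _⟩ := spec_of_notMem (n.down : Ordinal.{u})
      (by rw [ord_aleph0]; exact Ordinal.natCast_lt_omega0 _) (hyl n)
    exact ⟨A, h1, h3, h5⟩
  choose A hloc hyA hPA using hR
  have hSloc : IsLoc (sumAlg x0 y A hyA) x0 := sumAlg_isLoc x0 y A hyA hyx
  have hyS : ∀ n, y n ∈ sumAlg x0 y A hyA := fun n =>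
    mem_sumAlg_of_le x0 y A hyA hdis le_rfl (hyA n)
  have hPS : ∀ n, Pn n (sumAlg x0 y A hyA) ⟨y n, hyS n⟩ := by
    intro n
    have hsub := sumAlg_le x0 y A hyA hloc n
    refine (fam_pn.loc n (sumAlg x0 y A hyA) (A n) (BooleanSubalgebra.inclusion hsub) ?_ _
      ?_).2 (hPA n)
    · intro a b hab
      apply Subtype.ext
      exact congrArg (fun w : A n => (w : B)) hab
    · intro w hw
      have h1 : (w : B) ≤ y n := hw
      exact ⟨⟨w, mem_sumAlg_of_le x0 y A hyA hdis h1 w.2⟩, rfl⟩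
  obtain ⟨e, he⟩ := h.exists_iso_of_isLoc hκ hx0 hSloc
  refine ⟨ULift.{u} ℕ, Pn, ?_, fam_pn, _, he, fun n => ⟨e ⟨y n, hyS n⟩, ?_, ?_⟩⟩
  · rw [mk_uLift, mk_nat, lift_aleph0]
  · exact e.monotone (show (⟨y n, hyS n⟩ : sumAlg x0 y A hyA) ≤ ⟨x0, hSloc.1⟩ from hyx n)
  · exact ((fam_pn.loc n).iso e _).1 (hPS n)

/-! ### The conclusion -/

theorem HasStar.beth_lt (h : HasStar κ B) (hκ : ℵ₀ ≤ κ) (hns : ¬ Superatomic B)
    {c : Cardinal.{u}} (hJ : JointF κ B c) (hc : ℵ₀ ≤ c) (hcof : κ.ord.cof ≤ c) (hcκ : c < κ)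
    (n : ℕ) : ∃ θ, ℶ_ (n : Ordinal.{u}) ≤ θ ∧ κ.ord.cof ≤ θ ∧ θ < κ ∧ JointF κ B θ := by
  induction n with
  | zero =>
    refine ⟨c, ?_, hcof, hcκ, hJ⟩
    rw [Nat.cast_zero, beth_zero]
    exact hc
  | succ n ih =>
    obtain ⟨θ, h1, h2, h3, h4⟩ := ih
    have hθω : ℵ₀ ≤ θ := le_trans (by
      rw [← beth_zero]
      exact beth_le_beth.2 bot_le) h1
    obtain ⟨h5, h6⟩ := h.jointF_two_power hκ hns h4 hθω h2
    refine ⟨2 ^ θ, ?_, h2.trans (cantor θ).le, h5, h6⟩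
    rw [Nat.cast_succ, beth_add_one]
    exact power_le_power_left two_ne_zero h1

theorem exists_lt_beth {χ : Cardinal.{u}} (hχ : χ < ℶ_ (Ordinal.omega0 : Ordinal.{u})) :
    ∃ n : ℕ, χ < ℶ_ (n : Ordinal.{u}) := by
  have hne : Nonempty (Iio (Ordinal.omega0 : Ordinal.{u})) := ⟨⟨0, Ordinal.omega0_pos⟩⟩
  rw [beth_limit Ordinal.isSuccLimit_omega0, lt_ciSup_iff (bddAbove_of_small)] at hχ
  obtain ⟨⟨a, ha⟩, hχa⟩ := hχ
  obtain ⟨n, rfl⟩ := Ordinal.lt_omega0.1 ha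
  exact ⟨n, hχa⟩

/-- Families of all sizes below the cofinality and below `ℶ_ω`. -/
theorem HasStar.jointF_of_lt (h : HasStar κ B) (hκ : ℵ₀ ≤ κ) (hns : ¬ Superatomic B)
    {χ : Cardinal.{u}} (hχω : ℵ₀ ≤ χ) (hχ : χ < κ.ord.cof)
    (hχ2 : χ < ℶ_ (Ordinal.omega0 : Ordinal.{u})) : JointF κ B χ := by
  have key : ∀ n : ℕ, JointF κ B (min (ℶ_ (n : Ordinal.{u})) χ) := by
    intro n
    induction n with
    | zero =>
      rw [Nat.cast_zero, beth_zero, min_eq_left hχω]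
      exact h.jointF_aleph0 hκ hns
    | succ n ih =>
      have hω : ℵ₀ ≤ min (ℶ_ (n : Ordinal.{u})) χ := by
        refine le_min ?_ hχω
        rw [← beth_zero]
        exact beth_le_beth.2 bot_le
      have hR := h.realF_two_power hκ ih hω
      have hle : min (ℶ_ ((n + 1 : ℕ) : Ordinal.{u})) χ ≤ 2 ^ min (ℶ_ (n : Ordinal.{u})) χ := by
        rcases le_total (ℶ_ (n : Ordinal.{u})) χ with h1 | h1
        · rw [min_eq_left h1, Nat.cast_succ, beth_add_one]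
          exact min_le_left _ _
        · rw [min_eq_right h1]
          exact (min_le_right _ _).trans (cantor χ).le
      exact h.jointF_of_lt_cof hκ hns (hR.mono hle) ((min_le_right _ _).trans_lt hχ)
  obtain ⟨n, hn⟩ := exists_lt_beth hχ2
  have h1 := key n
  rwa [min_eq_right hn.le] at h1

/-- Singular cardinals up to `ℶ_ω`. -/
theorem HasStar.superatomic_of_le_beth (h : HasStar κ B) (hκ : κ.IsSingular)
    (hκ2 : κ ≤ ℶ_ (Ordinal.omega0 : Ordinal.{u}))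
    (hc : κ.ord.cof = ℵ₀ ∨ ∃ χ < κ.ord.cof, κ.ord.cof < 2 ^ χ) : Superatomic B := by
  by_contra hns
  have hκω : ℵ₀ ≤ κ := hκ.aleph0_le
  have hμκ : κ.ord.cof < κ := hκ.cof_ord_lt
  have hμω : ℵ₀ ≤ κ.ord.cof := aleph0_le_cof hκω
  obtain ⟨c, hJ, hcω, hcof, hcκ⟩ : ∃ c, JointF κ B c ∧ ℵ₀ ≤ c ∧ κ.ord.cof ≤ c ∧ c < κ := by
    rcases hc with hc | ⟨χ, hχ, hχ2⟩
    · exact ⟨ℵ₀, h.jointF_aleph0 hκω hns, le_rfl, hc.le, by rw [← hc]; exact hμκ⟩
    · have hχω : ℵ₀ ≤ χ := by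
        by_contra hcon
        rw [not_le] at hcon
        have h1 : (2 : Cardinal.{u}) ^ χ < ℵ₀ := power_lt_aleph0 (natCast_lt_aleph0 (n := 2)) hcon
        exact absurd (hχ2.trans h1) (not_lt_of_ge hμω)
      have hJ := h.jointF_of_lt hκω hns hχω hχ ((hχ.trans hμκ).trans_le hκ2)
      have hR := (h.realF_two_power hκω hJ hχω).mono (Order.succ_le_of_lt hχ2)
      have hsκ : Order.succ κ.ord.cof < κ := hκ.isSuccLimit.succ_lt hμκ
      have hreg : (Order.succ κ.ord.cof).IsRegular := isRegular_succ hμω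
      refine ⟨Order.succ κ.ord.cof, h.jointF_of_cof_lt hκω hns hR
        (hμω.trans (Order.le_succ _)) ?_ hsκ, hμω.trans (Order.le_succ _), Order.le_succ _, hsκ⟩
      rw [hreg.cof_ord]
      exact Order.lt_succ _
  have h1 : ∀ n : ℕ, ℶ_ (n : Ordinal.{u}) < κ := by
    intro n
    obtain ⟨θ, h1, _, h3, _⟩ := h.beth_lt hκω hns hJ hcω hcof hcκ n
    exact h1.trans_lt h3
  have h2 : κ = ℶ_ (Ordinal.omega0 : Ordinal.{u}) := by
    refine le_antisymm hκ2 ?_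
    by_contra hcon
    rw [not_le] at hcon
    obtain ⟨n, hn⟩ := exists_lt_beth hcon
    exact absurd hn (not_lt_of_gt (h1 n))
  refine hns (h.superatomic_of_strongLimit ?_)
  rw [h2, isStrongLimit_beth]
  exact Ordinal.isSuccLimit_omega0.isSuccPrelimit

end Pool.Agent.Lib.MP_8a899a_lc
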