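import Pool.Agent.Lib.MP_8a899a_lc.Ctx
import Pool.Agent.Lib.MP_8a899a_lc.Beth

set_option autoImplicit false
set_option linter.unusedSectionVars false

/-!
# Families of prime classes in a context: realization, sums and blocks
-/

universe u

namespace Pool.Agent.Lib.MP_8a899a_lc

open Set Cardinal

variable {B : Type u} [BooleanAlgebra B] {κ : Cardinal.{u}}

/-- All classes of the family are realized in the canonical ideal. -/
def RealP (κ : Cardinal.{u}) (B : Type u) [BooleanAlgebra B] {Λ : Type u}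
    (P : Λ → Cls.{u}) : Prop :=
  ∀ x, ∃ z ∈ small κ B, P x B z

/-- All classes of the family are realized below one element of the canonical ideal. -/
def JointP (κ : Cardinal.{u}) (B : Type u) [BooleanAlgebra B] {Λ : Type u}
    (P : Λ → Cls.{u}) : Prop :=
  ∃ b ∈ small κ B, ∀ x, ∃ z ≤ b, P x B z

/-- The elements of the canonical ideal below which the class is not realized. -/
def Avoid (κ : Cardinal.{u}) (B : Type u) [BooleanAlgebra B] (Q : Cls.{u}) : Set B :=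
  {b : B | b ∈ small κ B ∧ ∀ z ≤ b, ¬ Q B z}

theorem JointP.comp {Λ Λ' : Type u} {P : Λ → Cls.{u}} (h : JointP κ B P) (g : Λ' → Λ) :
    JointP κ B (fun i => P (g i)) := by
  obtain ⟨b, hb, h1⟩ := h
  exact ⟨b, hb, fun i => h1 (g i)⟩

theorem Over.comp {K D : Cls.{u}} {Λ Λ' : Type u} {P : Λ → Cls.{u}} (h : Over K D P)
    (g : Λ' → Λ) : Over K D (fun i => P (g i)) := fun i => h (g i)

theorem HasStar.jointP_of_bound (h : HasStar κ B) (hκ : ℵ₀ ≤ κ) (hns : ¬ Superatomic B)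
    {Λ : Type u} {P : Λ → Cls.{u}} (hΛ : #Λ < κ) {ν : Cardinal.{u}} (hν : ν < κ)
    (hle : ∀ x, #(Avoid κ B (P x)) ≤ ν) : JointP κ B P := by
  have h1 : #(⋃ x, Avoid κ B (P x)) < κ := by
    refine (mk_iUnion_le _).trans_lt (mul_lt_of_lt hκ hΛ ?_)
    exact lt_of_le_of_lt (ciSup_le' hle) hν
  obtain ⟨b, hb, hb'⟩ : ∃ b ∈ small κ B, b ∉ ⋃ x, Avoid κ B (P x) := by
    by_contra hcon
    push Not at hcon
    exact absurd ((h.le_card_small hκ hns).trans (mk_le_mk_of_subset hcon)) (not_le_of_gt h1)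
  refine ⟨b, hb, fun x => ?_⟩
  by_contra hcon
  push Not at hcon
  exact hb' (mem_iUnion.2 ⟨x, hb, hcon⟩)

theorem HasStar.jointP_of_lt_cof (h : HasStar κ B) (hκ : ℵ₀ ≤ κ) (hns : ¬ Superatomic B)
    {Λ : Type u} {P : Λ → Cls.{u}} (hF : Fam Λ P) (hR : RealP κ B P) (hθ : #Λ < κ.ord.cof) :
    JointP κ B P := by
  refine h.jointP_of_bound hκ hns (hθ.trans_le (Ordinal.cof_ord_le κ))
    (ν := ⨆ x, #(Avoid κ B (P x))) ?_ ?_
  · exact iSup_lt_of_lt_cof_ord hθ fun x => h.card_avoid_lt hκ hF (hR x)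
  · intro x
    exact le_ciSup (f := fun x => #(Avoid κ B (P x))) bddAbove_of_small x

theorem HasStar.exists_bound (h : HasStar κ B) (hκ : ℵ₀ ≤ κ)
    {Λ : Type u} {P : Λ → Cls.{u}} (hF : Fam Λ P) (hR : RealP κ B P) (hΛω : ℵ₀ ≤ #Λ)
    (hθ : κ.ord.cof < (#Λ).ord.cof) : ∃ (s : Set Λ) (ν : Cardinal.{u}), #s = #Λ ∧ ν < κ ∧
      ∀ x ∈ s, #(Avoid κ B (P x)) ≤ ν := by
  obtain ⟨ι, c, hι, hc, hcof⟩ := exists_cofinal_family κ
  have h1 : ∀ x, ∃ i, #(Avoid κ B (P x)) ≤ c i := fun x =>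
    hcof _ (h.card_avoid_lt hκ hF (hR x))
  choose f hf using h1
  obtain ⟨i, hi⟩ := infinite_pigeonhole_card f #Λ le_rfl hΛω (by rw [hι]; exact hθ)
  refine ⟨f ⁻¹' {i}, c i, le_antisymm (mk_set_le _) hi, hc i, ?_⟩
  rintro x hx
  have h4 : f x = i := hx
  exact (hf x).trans (le_of_eq (congrArg c h4))

theorem HasStar.jointP_of_cof_lt (h : HasStar κ B) (hκ : ℵ₀ ≤ κ) (hns : ¬ Superatomic B)
    {Λ : Type u} {P : Λ → Cls.{u}} (hF : Fam Λ P) (hR : RealP κ B P) (hΛω : ℵ₀ ≤ #Λ)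
    (hθ : κ.ord.cof < (#Λ).ord.cof) (hΛκ : #Λ < κ) :
    ∃ s : Set Λ, #s = #Λ ∧ JointP κ B (fun i : s => P i) := by
  obtain ⟨s, ν, hs, hν, hle⟩ := h.exists_bound hκ hF hR hΛω hθ
  exact ⟨s, hs, h.jointP_of_bound hκ hns (by rw [hs]; exact hΛκ) hν fun x => hle x x.2⟩

theorem RealP.le {Λ : Type u} {P : Λ → Cls.{u}} (h : HasStar κ B) (hF : Fam Λ P)
    (hR : RealP κ B P) : #Λ ≤ κ :=
  RealF.le h ⟨Λ, P, rfl, hF, hR⟩

/-- The next classes of a jointly realized family are realized. -/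
theorem HasStar.realP_nextK (h : HasStar κ B) (hκ : ℵ₀ ≤ κ) {K D : Cls.{u}} (hc : Ctx K D)
    {Λ : Type u} {P : Λ → Cls.{u}} (hF : Fam Λ P) (hO : Over K D P) (hJ : JointP κ B P)
    {Y : Set Λ} (hY : Y.Infinite) : ∃ z ∈ small κ B, NxtK K P Y B z := by
  obtain ⟨b, hb, hall⟩ := hJ
  have hloc : LocInv (NxtK K P Y) :=
    (Fam.nextK hc hF (Λ' := PUnit.{u + 1}) (fun _ => Y)
      (fun i j hij => absurd (Subsingleton.elim i j) hij)).loc PUnit.unit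
  obtain ⟨A, hlA, hbA, hN⟩ := Fam.exists_algK hc hF hO hall hY
  obtain ⟨e, he⟩ := h.exists_iso_of_isLoc hκ hb hlA
  exact ⟨_, he, (hloc.iso e _).1 hN⟩

/-- Many sets which differ infinitely often. -/
theorem exists_sets (Λ : Type u) (hθ : ℵ₀ ≤ #Λ) : ∃ g : Set Λ → Set Λ,
    (∀ Z, (g Z).Infinite) ∧ ∀ Z Z', Z ≠ Z' → (g Z \ g Z').Infinite ∨ (g Z' \ g Z).Infinite := by
  obtain ⟨c⟩ : Nonempty (Λ × ULift.{u} ℕ ↪ Λ) := by
    change #(Λ × ULift.{u} ℕ) ≤ #Λ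
    rw [mk_prod, lift_id, lift_id, mk_uLift, mk_nat, lift_aleph0]
    exact mul_le_of_le hθ le_rfl hθ
  let g : Set Λ → Set Λ := fun Z => c '' {p | p.1 ∈ Z ∨ p.2.down % 2 = 0}
  have hgdiff : ∀ Z Z' : Set Λ, ∀ x ∈ Z, x ∉ Z' → (g Z \ g Z').Infinite := by
    intro Z Z' x hx hx'
    have h1 : Function.Injective (fun n : ℕ => c (x, ULift.up (2 * n + 1))) := by
      intro m n hmn
      have h2 := c.injective hmn
      have h3 : (2 * m + 1 : ℕ) = 2 * n + 1 := congrArg (fun p => p.2.down) h2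
      omega
    refine Set.infinite_of_injective_forall_mem h1 ?_
    intro n
    refine ⟨⟨_, Or.inl hx, rfl⟩, ?_⟩
    rintro ⟨p, hp, hpc⟩
    have h2 := c.injective hpc
    subst h2
    rcases hp with h3 | h3
    · exact hx' h3
    · have h4 : (2 * n + 1) % 2 = 0 := h3
      omega
  refine ⟨g, ?_, ?_⟩
  · intro Z
    have hne : Nonempty Λ := by
      rw [← mk_ne_zero_iff]
      exact (aleph0_pos.trans_le hθ).ne'
    obtain ⟨x⟩ := hne
    have h1 : Function.Injective (fun n : ℕ => c (x, ULift.up (2 * n))) := by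
      intro m n hmn
      have h2 := c.injective hmn
      have h3 : (2 * m : ℕ) = 2 * n := congrArg (fun p => p.2.down) h2
      omega
    refine Set.infinite_of_injective_forall_mem h1 ?_
    intro n
    refine ⟨_, Or.inr ?_, rfl⟩
    change (2 * n) % 2 = 0
    omega
  · intro Z Z' hne
    by_cases h1 : Z ⊆ Z'
    · obtain ⟨x, hx, hx'⟩ := Set.not_subset.1 (fun h2 => hne (h1.antisymm h2))
      exact Or.inr (hgdiff _ _ x hx hx')
    · obtain ⟨x, hx, hx'⟩ := Set.not_subset.1 h1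
      exact Or.inl (hgdiff _ _ x hx hx')

/-- The exponential step in a context. -/
theorem HasStar.exists_step (h : HasStar κ B) (hκ : ℵ₀ ≤ κ) {K D : Cls.{u}} (hc : Ctx K D)
    {Λ : Type u} {P : Λ → Cls.{u}} (hF : Fam Λ P) (hO : Over K D P) (hJ : JointP κ B P)
    (hΛ : ℵ₀ ≤ #Λ) : ∃ P' : Set Λ → Cls.{u}, Fam (Set Λ) P' ∧ Over K D P' ∧ RealP κ B P' := by
  obtain ⟨g, hg1, hg2⟩ := exists_sets Λ hΛ
  exact ⟨fun Z => NxtK K P (g Z), Fam.nextK hc hF g hg2, Over.next hc hO g,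
    fun Z => h.realP_nextK hκ hc hF hO hJ (hg1 Z)⟩

/-! ### Sums -/

section Sum

variable {K D : Cls.{u}} {Λ Λ1 Λ2 : Type u} {P : Λ → Cls.{u}} {P1 : Λ1 → Cls.{u}}
  {P2 : Λ2 → Cls.{u}} {E1 E2 : Set Λ}

theorem Fam.sum (hE : Disjoint E1 E2) (h1 : Fam Λ1 P1) (h2 : Fam Λ2 P2)
    (hO1 : Over (subK K P E1) (subD D P E1) P1) (hO2 : Over (subK K P E2) (subD D P E2) P2) :
    Fam (Λ1 ⊕ Λ2) (Sum.elim P1 P2) := by
  refine ⟨?_, ?_, ?_, ?_⟩
  · rintro (x | x)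
    · exact h1.loc x
    · exact h2.loc x
  · rintro (x | x) C _
    · exact h1.bot x C
    · exact h2.bot x C
  · rintro (x | x) C _ z b hz
    · exact h1.split x C z b hz
    · exact h2.split x C z b hz
  · rintro (x | x) (y | y) C _ z z' hzz hx hy
    · exact congrArg Sum.inl (h1.indep x y C z z' hzz hx hy)
    · exfalso
      obtain ⟨h3, _⟩ := hO1.rz_sub x (C := C) (z := z) hx
      obtain ⟨_, d, hd, hdE⟩ := hO2.rz_sub y (C := C) (z := z') hy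
      exact Set.disjoint_left.1 hE (h3 (Rz_mono hzz hd)) hdE
    · exfalso
      obtain ⟨h3, _⟩ := hO2.rz_sub x (C := C) (z := z) hx
      obtain ⟨_, d, hd, hdE⟩ := hO1.rz_sub y (C := C) (z := z') hy
      exact Set.disjoint_left.1 hE hdE (h3 (Rz_mono hzz hd))
    · exact congrArg Sum.inr (h2.indep x y C z z' hzz hx hy)

theorem Over.sum (h1 : Over K D P1) (h2 : Over K D P2) : Over K D (Sum.elim P1 P2) := by
  rintro (x | x) C _ z hz
  · exact h1 x C z hz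
  · exact h2 x C z hz

theorem JointP.sum (hκ : ℵ₀ ≤ κ) (h1 : JointP κ B P1) (h2 : JointP κ B P2) :
    JointP κ B (Sum.elim P1 P2) := by
  obtain ⟨b, hb, h3⟩ := h1
  obtain ⟨c, hc, h4⟩ := h2
  refine ⟨b ⊔ c, (small_isId hκ).sup _ _ hb hc, ?_⟩
  rintro (x | x)
  · obtain ⟨z, hz, h5⟩ := h3 x
    exact ⟨z, hz.trans le_sup_left, h5⟩
  · obtain ⟨z, hz, h5⟩ := h4 x
    exact ⟨z, hz.trans le_sup_right, h5⟩

end Sum

/-! ### Blocks -/

section Blocks

variable {K D : Cls.{u}} {Λ1 ι : Type u} {G : ι → Type u} {P1 : Λ1 → Cls.{u}}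
  {Q : ∀ i, G i → Cls.{u}} (hc : Ctx K D)
  (hT : ∀ i, Fam (Λ1 ⊕ G i) (Sum.elim P1 (Q i)))
  (C : ι → Set Λ1) (Y : ∀ i, G i → Set (G i))

/-- The family of the next classes of all blocks. -/
def blk (K : Cls.{u}) (P1 : Λ1 → Cls.{u}) (Q : ∀ i, G i → Cls.{u}) (C : ι → Set Λ1)
    (Y : ∀ i, G i → Set (G i)) : (Σ i, G i) → Cls.{u} := fun p =>
  NxtK K (Sum.elim P1 (Q p.1)) (Sum.inl '' C p.1 ∪ Sum.inr '' Y p.1 p.2)

include hc hT in
theorem fam_blk (hC : ∀ i, (C i).Infinite) (hCd : ∀ i j, i ≠ j → Disjoint (C i) (C j))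
    (hY : ∀ i x, (Y i x).Infinite) (hYd : ∀ i x y, x ≠ y → Disjoint (Y i x) (Y i y)) :
    Fam (Σ i, G i) (blk K P1 Q C Y) := by
  have hN : ∀ i, Fam (G i) (fun x => NxtK K (Sum.elim P1 (Q i))
      (Sum.inl '' C i ∪ Sum.inr '' Y i x)) := by
    intro i
    refine Fam.nextK hc (hT i) (fun x => Sum.inl '' C i ∪ Sum.inr '' Y i x) ?_
    intro x y hxy
    left
    refine ((hY i x).image (f := (Sum.inr : G i → Λ1 ⊕ G i)) Sum.inr_injective.injOn).mono ?_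
    rintro _ ⟨a, ha, rfl⟩
    refine ⟨Or.inr ⟨a, ha, rfl⟩, ?_⟩
    rintro (⟨c, _, hc'⟩ | ⟨a', ha', h1⟩)
    · exact Sum.inl_ne_inr hc'
    · rw [Sum.inr.injEq] at h1
      subst h1
      exact Set.disjoint_left.1 (hYd i x y hxy) ha ha'
  refine ⟨?_, ?_, ?_, ?_⟩
  · rintro ⟨i, x⟩
    exact (hN i).loc x
  · rintro ⟨i, x⟩ A _
    exact (hN i).bot x A
  · rintro ⟨i, x⟩ A _ z b hz
    exact (hN i).split x A z b hz
  · rintro ⟨i, x⟩ ⟨j, y⟩ A _ z z' hzz hx hy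
    by_cases hij : i = j
    · subst hij
      rw [(hN i).indep x y A z z' hzz hx hy]
    · exfalso
      obtain ⟨_, _, hsub, _, _⟩ := hx
      obtain ⟨_, _, _, hfin, _⟩ := hy
      have h1 : ((Sum.inl : Λ1 → Λ1 ⊕ G j) ⁻¹' ((Sum.inl '' C j ∪ Sum.inr '' Y j y) \
          Rz (Sum.elim P1 (Q j)) A z')).Finite :=
        hfin.preimage Sum.inl_injective.injOn
      obtain ⟨c, hcC, hc2⟩ := ((hC j).sdiff h1).nonempty
      have h2 : (Sum.inl c : Λ1 ⊕ G j) ∈ Rz (Sum.elim P1 (Q j)) A z' := by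
        by_contra h3
        exact hc2 ⟨Or.inl ⟨c, hcC, rfl⟩, h3⟩
      obtain ⟨w, hw, hPw⟩ := h2
      have h4 : (Sum.inl c : Λ1 ⊕ G i) ∈ Rz (Sum.elim P1 (Q i)) A z :=
        ⟨w, hw.trans hzz, hPw⟩
      rcases hsub h4 with ⟨c', hc', h5⟩ | ⟨a, _, h5⟩
      · rw [Sum.inl.injEq] at h5
        subst h5
        exact Set.disjoint_left.1 (hCd i j hij) hc' hcC
      · exact Sum.inr_ne_inl h5

include hc in
theorem over_blk (hO : ∀ i, Over K D (Sum.elim P1 (Q i))) : Over K D (blk K P1 Q C Y) := by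
  rintro ⟨i, x⟩ A _ z hz
  exact Over.next hc (hO i) (fun x => Sum.inl '' C i ∪ Sum.inr '' Y i x) x A z hz

include hc hT in
theorem HasStar.realP_blk (h : HasStar κ B) (hκ : ℵ₀ ≤ κ)
    (hO : ∀ i, Over K D (Sum.elim P1 (Q i))) (hJ : ∀ i, JointP κ B (Sum.elim P1 (Q i)))
    (hY : ∀ i x, (Y i x).Infinite) : RealP κ B (blk K P1 Q C Y) := by
  rintro ⟨i, x⟩
  refine h.realP_nextK hκ hc (hT i) (hO i) (hJ i) ?_
  exact ((hY i x).image (f := (Sum.inr : G i → Λ1 ⊕ G i)) Sum.inr_injective.injOn).mono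
    Set.subset_union_right

end Blocks

end Pool.Agent.Lib.MP_8a899a_lc
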