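import Pool.Agent.Lib.MP_8a899a_lc.Unbounded

set_option autoImplicit false
set_option linter.unusedSectionVars false

/-!
# Canonical ideals against covering families
-/

universe u

namespace Pool.Agent.Lib.MP_8a899a_lc

open Set Cardinal

variable {B : Type u} [BooleanAlgebra B] {κ : Cardinal.{u}}

/-- There is a family of fewer than `κ` subsets of a set of size `l` such that every subset of
size at most `ν` is contained in a member of the family, and the union of any `κ.ord.cof` members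
of the family has size less than `l`. -/
def SmallCover (κ ν l : Cardinal.{u}) : Prop :=
  ∃ (X : Type u) (F : Set (Set X)), #X = l ∧ #F < κ ∧
    (∀ D ⊆ F, #D ≤ κ.ord.cof → #(⋃₀ D : Set X) < l) ∧ ∀ s : Set X, #s ≤ ν → ∃ A ∈ F, s ⊆ A

section Star

variable (h : HasStar κ B) (hκ : ℵ₀ ≤ κ) (hns : ¬ Superatomic B)

include h hκ hns

theorem HasStar.Qs_subset_small {α : Ordinal.{u}} (hα : α < ht B) :
    (Qs α B : Set B) ⊆ small κ B := fun _ hy => h.card_iic_lt hκ hα hy

/-- The sizes of the ideals `Qs α` are cofinal in `κ`. -/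
theorem HasStar.exists_card_Qs (hκ' : ℵ₀ < κ) {ρ : Cardinal.{u}} (hρ : ρ < κ) :
    ∃ α < ht B, ρ < #(Qs α B) := by
  by_contra hcon
  push Not at hcon
  have hS := h.card_lt hns
  set S : Set B := cb (ht B) with hSdef
  set c : Cardinal.{u} := max (max #S ρ) ℵ₀ with hc
  have hcκ : c < κ := max_lt (max_lt hS hρ) hκ'
  have hcω : ℵ₀ ≤ c := le_max_right _ _
  have hY : #(⋃ α < ht B, Qs α B) ≤ c := by
    refine mk_biUnion_le_of_le ?_ hcω _ ?_
    · exact (card_ht_le_cb B).trans ((le_max_left _ _).trans (le_max_left _ _))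
    · intro α hα
      exact (hcon α hα).trans ((le_max_right _ _).trans (le_max_left _ _))
  have h1 : small κ B ⊆ S ∪ image2 (· ⊔ ·) S (⋃ α < ht B, Qs α B) := by
    intro x hx
    by_cases hxS : x ∈ S
    · exact Or.inl hxS
    · right
      obtain ⟨α, hα, s, hs, hαs⟩ := h.bound hxS (not_lt.1 (h.compl_notMem_small hκ hx))
      refine ⟨x ⊓ s, (cb_isId _).down _ _ inf_le_right hs, x \ s, ?_, sup_inf_sdiff x s⟩
      exact mem_iUnion₂.2 ⟨α, hα, hαs⟩
  have hSc : #S ≤ c := (le_max_left _ _).trans (le_max_left _ _)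
  have h2 : #(small κ B) ≤ c := (mk_le_mk_of_subset h1).trans
    (card_union_le_of_le hcω hSc (mk_image2_le.trans (mul_le_of_le hcω hSc hY)))
  exact absurd ((h.le_card_small hκ hns).trans h2) (not_le_of_gt hcκ)

theorem HasStar.not_smallCover {ν : Cardinal.{u}} (hν : ∀ x ∈ small κ B, #(Iic x) ≤ ν)
    (hνω : ℵ₀ ≤ ν) {α : Ordinal.{u}} (hα : α < ht B) (hνα : ν < #(Qs α B)) :
    ¬ SmallCover κ ν #(Qs α B) := by
  classical
  rintro ⟨X, F, hX, hF, hun, hcov⟩
  obtain ⟨e⟩ : Nonempty (X ≃ Qs α B) := by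
    rw [← Cardinal.eq]; exact hX
  have hsm : IsId (small κ B) := small_isId hκ
  have hQid : IsId (Qs α B : Set B) := Qs_isId α
  have hQsm := h.Qs_subset_small hκ hns hα
  let G : Set X → Set B := fun A => gen (fun x : A => ((e x : Qs α B) : B))
  have hGQ : ∀ A, G A ⊆ Qs α B := fun A => gen_subset hQid fun x => (e x).2
  have hGmono : ∀ A A' : Set X, A ⊆ A' → G A ⊆ G A' := by
    rintro A A' hAA' 
    refine gen_subset (gen_isId _) fun x => ?_
    exact le_gen (fun x : A' => ((e x : Qs α B) : B)) ⟨x, hAA' x.2⟩ le_rfl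
  have hGcard : ∀ A : Set X, #A < #(Qs α B) → #(G A) < #(Qs α B) := by
    intro A hA
    have h1 : G A ⊆ ⋃ t : Finset A, Iic (t.sup (fun x : A => ((e x : Qs α B) : B))) := by
      rintro y ⟨t, hyt⟩
      exact mem_iUnion.2 ⟨t, hyt⟩
    refine (mk_le_mk_of_subset h1).trans_lt ((mk_iUnion_le _).trans_lt ?_)
    refine mul_lt_of_lt (hνω.trans hνα.le) ?_ (lt_of_le_of_lt (ciSup_le' ?_) hνα)
    · rcases finite_or_infinite A with hf | hf
      · exact (lt_aleph0_of_finite _).trans_le (hνω.trans hνα.le)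
      · rw [mk_finset_of_infinite]; exact hA
    · intro t
      exact hν _ (hsm.sup_mem t _ fun i _ => hQsm (e i).2)
  let I : Set X → Set B := fun A => {x | x ∈ small κ B ∧ ∀ y ∈ Qs α B, y ≤ x → y ∈ G A}
  have hIid : ∀ A, IsId (I A) := by
    intro A
    refine ⟨⟨hsm.bot, ?_⟩, ?_, ?_⟩
    · intro y _ hy
      rw [le_bot_iff.1 hy]; exact (gen_isId _).bot
    · rintro x z hzx ⟨hx1, hx2⟩
      exact ⟨hsm.down _ _ hzx hx1, fun y hy hyz => hx2 y hy (hyz.trans hzx)⟩
    · rintro x z ⟨hx1, hx2⟩ ⟨hz1, hz2⟩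
      refine ⟨hsm.sup _ _ hx1 hz1, fun y hy hyxz => ?_⟩
      have h1 : y = (y ⊓ x) ⊔ (y ⊓ z) := by
        rw [← inf_sup_left]; exact (inf_eq_left.2 hyxz).symm
      rw [h1]
      exact (gen_isId _).sup _ _ (hx2 _ (hQid.down _ _ inf_le_left hy) inf_le_right)
        (hz2 _ (hQid.down _ _ inf_le_left hy) inf_le_right)
  have hImono : ∀ A A' : Set X, A ⊆ A' → I A ⊆ I A' := fun A A' hAA' x hx =>
    ⟨hx.1, fun y hy hyx => hGmono A A' hAA' (hx.2 y hy hyx)⟩
  have hIcov : ∀ x ∈ small κ B, ∃ A ∈ F, x ∈ I A := by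
    intro x hx
    obtain ⟨A, hA, hsA⟩ := hcov {z | ((e z : Qs α B) : B) ≤ x} (by
      refine le_trans ?_ (hν x hx)
      refine mk_le_of_injective (f := fun z : {z | ((e z : Qs α B) : B) ≤ x} =>
        (⟨((e z : Qs α B) : B), z.2⟩ : Iic x)) ?_
      intro z w hzw
      have h1 : ((e z : Qs α B) : B) = ((e w : Qs α B) : B) :=
        congrArg (fun v : Iic x => (v : B)) hzw
      exact Subtype.ext (e.injective (Subtype.ext h1)))
    refine ⟨A, hA, hx, fun y hy hyx => ?_⟩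
    have h2 : e.symm ⟨y, hy⟩ ∈ A := hsA (by
      change ((e (e.symm ⟨y, hy⟩) : Qs α B) : B) ≤ x
      rw [e.apply_symm_apply]; exact hyx)
    have h3 := le_gen (fun x : A => ((e x : Qs α B) : B)) ⟨_, h2⟩ (y := y) (by
      rw [e.apply_symm_apply])
    exact h3
  have hbig : ∀ ρ < κ, ∃ A ∈ F, ρ < #(I A) := by
    intro ρ hρ
    by_contra hcon
    push Not at hcon
    have h1 : small κ B ⊆ ⋃ A ∈ F, I A := by
      intro x hx
      obtain ⟨A, hA, hxA⟩ := hIcov x hx
      exact mem_iUnion₂.2 ⟨A, hA, hxA⟩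
    have h2 : #(small κ B) ≤ #F * ρ := by
      refine (mk_le_mk_of_subset h1).trans ((mk_biUnion_le _ _).trans ?_)
      refine mul_le_mul' le_rfl (ciSup_le' ?_)
      intro A
      exact hcon A A.2
    exact absurd ((h.le_card_small hκ hns).trans h2) (not_le_of_gt (mul_lt_of_lt hκ hF hρ))
  obtain ⟨ι, c, hι, hc, hcof⟩ := exists_cofinal_family κ
  have h1 : ∀ i, ∃ A ∈ F, c i < #(I A) := fun i => hbig _ (hc i)
  choose A hAF hcA using h1
  set Ā : Set X := ⋃₀ (range A) with hĀ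
  have hĀcard : #Ā < #(Qs α B) := hun (range A) (by rintro _ ⟨i, rfl⟩; exact hAF i)
    (mk_range_le.trans hι.le)
  set R : Set B := I Ā with hR
  have hRid : IsId R := hIid _
  have hRs : R ⊆ small κ B := fun x hx => hx.1
  have hRκ : κ ≤ #R := by
    by_contra hcon
    push Not at hcon
    obtain ⟨i, hi⟩ := hcof _ hcon
    have h2 : #(I (A i)) ≤ #R := mk_le_mk_of_subset
      (hImono _ _ (subset_sUnion_of_mem (mem_range_self i)))
    exact absurd (h2.trans hi) (not_le_of_gt (hcA i))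
  obtain ⟨e', he'⟩ := h.exists_iso hκ hRid hRs hRκ
  have hcardQ : #(Qs α B) ≤ #(Qs α (ofId R hRid)) := by
    refine mk_le_of_injective (f := fun y : Qs α B => (⟨e'.symm y, by
      rw [mem_Qs_iso e']
      simpa using y.2⟩ : Qs α (ofId R hRid))) ?_
    intro y z hyz
    have h2 : e'.symm y = e'.symm z :=
      congrArg (fun w : Qs α (ofId R hRid) => (w : ofId R hRid)) hyz
    exact Subtype.ext (e'.symm.injective h2)
  have hcardG : #(Qs α (ofId R hRid)) ≤ #(G Ā) := by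
    have hmem : ∀ y : ofId R hRid, y ∈ Qs α (ofId R hRid) → (y : B) ∈ G Ā := by
      intro y hy
      have h2 : (y : B) ∈ R := (he' y).2 (hQsm ((mem_Qs_iso e' α y).1 hy))
      refine h2.2 _ ?_ le_rfl
      intro x hx hxy
      have hxR : x ∈ R := hRid.down _ _ hxy h2
      have hcoe := fun β => cb_coe_iff (ofId R hRid) R hRid.down
        (fun x hx => mem_ofId_of_mem hx) β ⟨x, mem_ofId_of_mem hxR⟩ hxR
      have h3 : (⟨x, mem_ofId_of_mem hxR⟩ : ofId R hRid) ∈
          (cb (ht (ofId R hRid)) : Set (ofId R hRid)) := by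
        rw [ht_iso e']
        exact (hcoe _).2 hx
      exact (hcoe α).1 (hy _ h3 hxy)
    refine mk_le_of_injective (f := fun y : Qs α (ofId R hRid) =>
      (⟨((y : ofId R hRid) : B), hmem y y.2⟩ : G Ā)) ?_
    intro y z hyz
    have h2 : ((y : ofId R hRid) : B) = ((z : ofId R hRid) : B) :=
      congrArg (fun w : G Ā => (w : B)) hyz
    exact Subtype.ext (Subtype.ext h2)
  exact absurd (hcardQ.trans hcardG) (not_le_of_gt (hGcard _ hĀcard))

end Star

/-- The main theorem. -/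
theorem HasStar.superatomic_of_cover (h : HasStar κ B) (hκ : ℵ₀ < κ)
    (h1 : ∃ δ < κ, Order.succ κ.ord.cof ≤ δ ∧ ∀ ρ < κ.ord.cof, δ ^ ρ ≤ δ)
    (h2 : ∀ ν < κ, ∃ l1 < κ, ∀ l, l1 < l → l < κ → SmallCover κ ν l) : Superatomic B := by
  by_contra hns
  obtain ⟨δ, hδκ, hμδ, hpow⟩ := h1
  obtain ⟨ν, hν, hbd⟩ := h.bounded hκ.le hns hδκ hμδ hpow
  obtain ⟨l1, hl1, hcov⟩ := h2 (max ν ℵ₀) (max_lt hν hκ)
  obtain ⟨α, hα, hαc⟩ := h.exists_card_Qs hκ.le hns hκ
    (max_lt hl1 (max_lt hν hκ) : max l1 (max ν ℵ₀) < κ)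
  refine h.not_smallCover hκ.le hns (ν := max ν ℵ₀) (fun x hx => (hbd x hx).trans
    (le_max_left _ _)) (le_max_right _ _) hα ((le_max_right _ _).trans_lt hαc) ?_
  exact hcov _ ((le_max_left _ _).trans_lt hαc) (h.card_lt_of_lt_ht hκ.le hns hα)

end Pool.Agent.Lib.MP_8a899a_lc
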