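import Pool.Agent.Lib.MP_8a899a_lc.Beth
import Pool.Agent.Lib.MP_8a899a_lc.Cover

set_option autoImplicit false
set_option linter.unusedSectionVars false

/-!
# The prime classes given by the ranks of the superatomic elements
-/

universe u

namespace Pool.Agent.Lib.MP_8a899a_lc

open Set Cardinal

variable {B : Type u} [BooleanAlgebra B] {κ : Cardinal.{u}}

/-- The class of the elements with the invariant `{i}`. -/
def Po (i : Ordinal.{u}) : Cls.{u} := fun (C : Type u) [BooleanAlgebra C] (z : C) =>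
  ∀ j : Ordinal.{u}, Phi j z ↔ j = i

theorem fam_po {Λ : Type u} (f : Λ → Ordinal.{u}) (hf : Function.Injective f) :
    Fam Λ (fun x => Po (f x)) := by
  refine ⟨?_, ?_, ?_, ?_⟩
  · intro n A C _ _ g hg z hz
    exact forall_congr' fun i => iff_congr (phi_local g hg hz i) Iff.rfl
  · intro n C _ h
    exact not_phi_bot ((h _).2 rfl)
  · intro n C _ z b h
    rcases phi_split (b := b) ((h _).2 rfl) with h1 | h1
    · left
      intro i
      exact ⟨fun h2 => (h i).1 (phi_mono inf_le_left h2), fun h2 => by rw [h2]; exact h1⟩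
    · right
      intro i
      exact ⟨fun h2 => (h i).1 (phi_mono sdiff_le h2), fun h2 => by rw [h2]; exact h1⟩
  · intro m n C _ z z' hz h h'
    have h1 := (h _).1 (phi_mono hz ((h' _).2 rfl))
    exact (hf h1).symm

/-- Below a superatomic element which is not in `cb i` there is an element of rank `i`. -/
theorem exists_atomMod_le {i : Ordinal.{u}} (α : Ordinal.{u}) :
    ∀ x ∈ (cb α : Set B), x ∉ (cb i : Set B) → ∃ p ≤ x, AtomMod (cb i : Set B) p := by
  induction α using WellFoundedLT.induction with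
  | ind α ih =>
    intro x hx hxi
    rw [mem_cb] at hx
    rcases hx with rfl | ⟨β, hβ, hx⟩
    · exact absurd (cb_isId i).bot hxi
    · induction hx with
      | base x hx => exact ih β hβ x hx hxi
      | sup x1 x2 _ _ ih1 ih2 =>
        by_cases h1 : x1 ∈ (cb i : Set B)
        · have h2 : x2 ∉ (cb i : Set B) := fun h2 => hxi ((cb_isId i).sup _ _ h1 h2)
          obtain ⟨p, hp, hpa⟩ := ih2 h2
          exact ⟨p, hp.trans le_sup_right, hpa⟩
        · obtain ⟨p, hp, hpa⟩ := ih1 h1
          exact ⟨p, hp.trans le_sup_left, hpa⟩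
      | atom a ha =>
        by_cases h1 : ∃ y ≤ a, y ∈ (cb β : Set B) ∧ y ∉ (cb i : Set B)
        · obtain ⟨y, hya, hyβ, hyi⟩ := h1
          obtain ⟨p, hp, hpa⟩ := ih β hβ y hyβ hyi
          exact ⟨p, hp.trans hya, hpa⟩
        · push Not at h1
          refine ⟨a, le_rfl, hxi, fun y hy => ?_⟩
          rcases ha.2 y hy with h2 | h2
          · exact Or.inl (h1 y hy h2)
          · exact Or.inr (h1 _ sdiff_le h2)

/-- The elements which are in `Qs i` up to a superatomic element. -/
def Es (i : Ordinal.{u}) (B : Type u) [BooleanAlgebra B] : Set B :=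
  {x | ∃ s ∈ (cb (ht B) : Set B), x \ s ∈ Qs i B}

theorem Es_sup {i : Ordinal.{u}} {x y : B} (hx : x ∈ Es i B) (hy : y ∈ Es i B) :
    x ⊔ y ∈ Es i B := by
  obtain ⟨s, hs, hxs⟩ := hx
  obtain ⟨t, ht, hyt⟩ := hy
  refine ⟨s ⊔ t, (cb_isId _).sup _ _ hs ht, ?_⟩
  refine (Qs_isId i).down _ _ ?_ ((Qs_isId i).sup _ _ hxs hyt)
  rw [sup_sdiff]
  exact sup_le_sup (sdiff_le_sdiff_left le_sup_left) (sdiff_le_sdiff_left le_sup_right)

theorem cb_subset_Es (i : Ordinal.{u}) : (cb (ht B) : Set B) ⊆ Es i B := by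
  intro x hx
  refine ⟨x, hx, ?_⟩
  rw [_root_.sdiff_self]
  exact (Qs_isId i).bot

/-- Infinitely many disjoint elements of rank `i`. -/
theorem exists_rank_pieces {i : Ordinal.{u}} {a : B} (ha : a ∉ Es i B) :
    ∃ y : ℕ → B, (∀ n, y n ≤ a) ∧ Pairwise (Function.onFun Disjoint y) ∧
      ∀ n, AtomMod (cb i : Set B) (y n) := by
  have h1 : ∀ c : B, ∃ p, c ∉ Es i B → p ≤ c ∧ AtomMod (cb i : Set B) p ∧ c \ p ∉ Es i B := by
    intro c
    by_cases hc : c ∈ Es i B
    · exact ⟨⊥, fun h2 => absurd hc h2⟩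
    · have h2 : c ∉ Qs i B := by
        intro h3
        refine hc ⟨⊥, (cb_isId _).bot, ?_⟩
        rwa [sdiff_bot]
      have h3 : ∃ x ∈ (cb (ht B) : Set B), x ≤ c ∧ x ∉ (cb i : Set B) := by
        by_contra hcon
        push Not at hcon
        exact h2 hcon
      obtain ⟨x, hx, hxc, hxi⟩ := h3
      obtain ⟨p, hp, hpa⟩ := exists_atomMod_le (ht B) x hx hxi
      refine ⟨p, fun _ => ⟨hp.trans hxc, hpa, fun h4 => hc ?_⟩⟩
      have h5 : p ∈ Es i B := cb_subset_Es i ((cb_isId _).down _ _ hp hx)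
      have h6 := Es_sup h5 h4
      rwa [sup_sdiff_cancel_right (hp.trans hxc)] at h6
  choose g hg using h1
  let c : ℕ → B := fun n => Nat.rec a (fun _ b => b \ g b) n
  have hc : ∀ n, c n ∉ Es i B := by
    intro n
    induction n with
    | zero => exact ha
    | succ n ih => exact (hg _ ih).2.2
  have hmono : ∀ n m, n ≤ m → c m ≤ c n := by
    intro n m hnm
    induction m, hnm using Nat.le_induction with
    | base => exact le_rfl
    | succ m _ ih => exact le_trans sdiff_le ih
  have hdis : ∀ n m, n < m → Disjoint (g (c n)) (g (c m)) := by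
    intro n m hnm
    have h2 : g (c m) ≤ c n \ g (c n) := ((hg _ (hc m)).1).trans (hmono (n + 1) m hnm)
    exact (disjoint_sdiff_self_right).mono_right h2
  refine ⟨fun n => g (c n), fun n => ?_, ?_, fun n => (hg _ (hc n)).2.1⟩
  · exact ((hg _ (hc n)).1).trans (hmono 0 _ (Nat.zero_le _))
  · intro n m hnm
    rcases lt_or_gt_of_ne hnm with h2 | h2
    · exact hdis _ _ h2
    · exact (hdis _ _ h2).symm

/-- A local algebra with invariant `{i}` from pieces of rank `i` and atomless pieces. -/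
theorem exists_po_of_pieces {i : Ordinal.{u}} {x0 : B} (y : ULift.{u} ℕ × Bool → B)
    (hyx : ∀ k, y k ≤ x0) (hdis : Pairwise (Function.onFun Disjoint y))
    (hyne : ∀ k, y k ≠ ⊥)
    (hR : ∀ k : ULift.{u} ℕ × Bool, ∃ A : BooleanSubalgebra B, IsLoc A (y k) ∧
      ∃ hx : y k ∈ A, (k.2 = true → (⟨y k, hx⟩ : A) ∈ (cb (Order.succ i) : Set A) ∧
        (⟨y k, hx⟩ : A) ∉ (cb i : Set A)) ∧
      (k.2 = false → ∀ z ∈ (cb (ht A) : Set A), (z : B) ≤ y k → z = ⊥)) :
    ∃ A : BooleanSubalgebra B, IsLoc A x0 ∧ ∃ hx : x0 ∈ A, Po i A ⟨x0, hx⟩ := by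
  have : Infinite (ULift.{u} ℕ × Bool) := inferInstance
  choose A hloc hyA hT hF using hR
  have hSloc : IsLoc (sumAlg x0 y A hyA) x0 := sumAlg_isLoc x0 y A hyA hyx
  have hinj : ∀ b : Bool, Function.Injective
      (fun n : ℕ => ((ULift.up n, b) : ULift.{u} ℕ × Bool)) := by
    intro b m n hmn
    simpa using hmn
  have hnsa : ∀ k : ULift.{u} ℕ × Bool, k.2 = false →
      (⟨y k, hyA k⟩ : A k) ∉ (cb (ht (A k)) : Set (A k)) := by
    intro k hk h1
    exact hyne k (congrArg Subtype.val (hF k hk _ h1 le_rfl))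
  have hN : {k | (⟨y k, hyA k⟩ : A k) ∉ (cb (ht (A k)) : Set (A k))}.Infinite :=
    Set.infinite_of_injective_forall_mem (hinj false) fun n => hnsa _ rfl
  have hQT : ∀ k : ULift.{u} ℕ × Bool, k.2 = true → ∀ α, (⟨y k, hyA k⟩ : A k) ∈ Qs α (A k) ↔
      Order.succ i ≤ α := by
    intro k hk α
    rw [mem_Qs_iff_of_mem_cb (cb_subset_ht _ (hT k hk).1)]
    constructor
    · intro h1
      by_contra h2
      rw [Order.succ_le_iff, not_lt] at h2
      exact (hT k hk).2 (cb_mono h2 h1)
    · intro h1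
      exact cb_mono h1 (hT k hk).1
  have hQF : ∀ k : ULift.{u} ℕ × Bool, k.2 = false →
      ∀ α, (⟨y k, hyA k⟩ : A k) ∈ Qs α (A k) := by
    intro k hk α
    exact mem_Qs_of_atomless (hF k hk)
  have hP : ∀ (k : ULift.{u} ℕ × Bool) (j : Ordinal.{u}), ¬ Phi j (⟨y k, hyA k⟩ : A k) := by
    rintro k j
    rcases hb : k.2 with _ | _
    · exact not_phi_of_atomless (hF k hb)
    · exact not_phi_of_mem_cb (cb_subset_ht _ (hT k hb).1)
  refine ⟨sumAlg x0 y A hyA, hSloc, hSloc.1, ?_⟩
  intro j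
  rw [sumAlg_phi_iff hyx hdis hloc hN]
  constructor
  · rintro (⟨k, hk⟩ | ⟨hfin, hinf⟩)
    · exact absurd hk (hP k j)
    · apply le_antisymm
      · by_contra h1
        rw [not_le] at h1
        obtain ⟨k, hk⟩ := hinf.nonempty
        apply hk
        rcases hb : k.2 with _ | _
        · exact hQF k hb j
        · exact (hQT k hb j).2 (Order.succ_le_of_lt h1)
      · by_contra h1
        rw [not_le] at h1
        refine Set.infinite_of_injective_forall_mem (hinj true) (fun n => ?_) hfin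
        intro h2
        have h3 := (hQT (ULift.up n, true) rfl _).1 h2
        exact absurd (Order.succ_le_succ_iff.1 h3) (not_le_of_gt h1)
  · rintro rfl
    right
    constructor
    · convert Set.finite_empty
      rw [Set.eq_empty_iff_forall_notMem]
      intro k hk
      apply hk
      rcases hb : k.2 with _ | _
      · exact hQF k hb _
      · exact (hQT k hb _).2 le_rfl
    · refine Set.infinite_of_injective_forall_mem (hinj true) (fun n => ?_)
      intro h2
      have h3 := (hQT (ULift.up n, true) rfl _).1 h2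
      exact absurd (Order.lt_succ j) (not_lt_of_ge h3)

/-- Below an element which is not in `Qs i` up to a superatomic element, the invariant `{i}` is
realized by a local algebra. -/
theorem exists_po {i : Ordinal.{u}} {x : B} (hx : x ∉ Es i B) :
    ∃ A : BooleanSubalgebra B, IsLoc A x ∧ ∃ hx' : x ∈ A, Po i A ⟨x, hx'⟩ := by
  have hxS : x ∉ (cb (ht B) : Set B) := fun h1 => hx (cb_subset_Es i h1)
  obtain ⟨w, hwx, hwdis, hwS⟩ := exists_pieces_of_notMem (ULift.{u} Bool) mk_le_aleph0 hxS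
  -- a part not in `Es i` and a disjoint part which is not superatomic
  obtain ⟨a, b, hax, hbx, hab, haE, hbS⟩ : ∃ a b : B, a ≤ x ∧ b ≤ x ∧ Disjoint a b ∧
      a ∉ Es i B ∧ b ∉ (cb (ht B) : Set B) := by
    by_cases h1 : w ⟨true⟩ ∈ Es i B
    · refine ⟨x \ w ⟨true⟩, w ⟨true⟩, sdiff_le, hwx _, disjoint_sdiff_self_left, ?_, hwS _⟩
      intro h2
      have h3 := Es_sup h1 h2
      rw [sup_sdiff_cancel_right (hwx _)] at h3
      exact hx h3
    · refine ⟨w ⟨true⟩, w ⟨false⟩, hwx _, hwx _, hwdis (by simp), h1, hwS _⟩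
  obtain ⟨p, hpa, hpdis, hpat⟩ := exists_rank_pieces haE
  obtain ⟨q, hqb, hqdis, hqS⟩ := exists_pieces_of_notMem (ULift.{u} ℕ) mk_le_aleph0 hbS
  let y : ULift.{u} ℕ × Bool → B := fun k => if k.2 = true then p k.1.down else q k.1
  have hyt : ∀ n : ULift.{u} ℕ, y (n, true) = p n.down := fun n => if_pos rfl
  have hyf : ∀ n : ULift.{u} ℕ, y (n, false) = q n := fun n => if_neg (by simp)
  refine exists_po_of_pieces y ?_ ?_ ?_ ?_
  · rintro ⟨n, b'⟩
    cases b' with
    | true => rw [hyt]; exact (hpa _).trans hax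
    | false => rw [hyf]; exact (hqb _).trans hbx
  · rintro ⟨n, b1⟩ ⟨m, b2⟩ hnm
    change Disjoint (y (n, b1)) (y (m, b2))
    cases b1 with
    | true =>
      cases b2 with
      | true =>
        rw [hyt, hyt]
        refine hpdis ?_
        intro h1
        exact hnm (by rw [ULift.ext _ _ h1])
      | false =>
        rw [hyt, hyf]
        exact hab.mono (hpa _) (hqb _)
    | false =>
      cases b2 with
      | true =>
        rw [hyt, hyf]
        exact (hab.mono (hpa _) (hqb _)).symm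
      | false =>
        rw [hyf, hyf]
        refine hqdis ?_
        intro h1
        exact hnm (by rw [h1])
  · rintro ⟨n, b'⟩
    cases b' with
    | true =>
      rw [hyt]
      intro h1
      exact (hpat n.down).1 (by rw [h1]; exact (cb_isId i).bot)
    | false =>
      rw [hyf]
      intro h1
      exact hqS n (by rw [h1]; exact (cb_isId _).bot)
  · rintro ⟨n, b'⟩
    cases b' with
    | true =>
      have htop : ∀ z : B, z ∈ (⊤ : BooleanSubalgebra B) := fun z => BooleanSubalgebra.mem_top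
      refine ⟨⊤, ⟨htop _, fun z _ => htop z⟩, htop _, fun _ => ?_, fun h5 => by simp at h5⟩
      have hcoe := fun α => cb_coe_iff (⊤ : BooleanSubalgebra B) Set.univ
        (fun _ _ _ _ => Set.mem_univ _) (fun z _ => htop z) α ⟨y (n, true), htop _⟩
        (Set.mem_univ _)
      rw [hcoe, hcoe]
      change y (n, true) ∈ (cb (Order.succ i) : Set B) ∧ y (n, true) ∉ (cb i : Set B)
      rw [hyt]
      exact ⟨(hpat n.down).mem_cb (Order.lt_succ i), (hpat n.down).1⟩
    | false =>
      obtain ⟨A, h1, h2, h3⟩ := atl_of_notMem (le_refl (ℵ₀ : Cardinal.{u}))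
        (y := y (n, false)) (by rw [hyf]; exact hqS n)
      exact ⟨A, h1, h1.1, fun h5 => by simp at h5, fun _ => h3⟩

section Star

variable (h : HasStar κ B) (hκ : ℵ₀ ≤ κ) (hns : ¬ Superatomic B)

include h hκ hns

/-- The rank classes are realized. -/
theorem HasStar.exists_small_po {i : Ordinal.{u}} (hi : i < ht B) :
    ∃ z ∈ small κ B, Po i B z := by
  obtain ⟨x, hx, hxE⟩ : ∃ x ∈ small κ B, x ∉ Es i B := by
    by_contra hcon
    push Not at hcon
    have h1 : small κ B ⊆ image2 (· ⊔ ·) (cb (ht B) : Set B) (Qs i B) := by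
      intro x hx
      obtain ⟨s, hs, hxs⟩ := hcon x hx
      exact ⟨x ⊓ s, (cb_isId _).down _ _ inf_le_right hs, x \ s, hxs, sup_inf_sdiff x s⟩
    have h2 : #(small κ B) < κ := ((mk_le_mk_of_subset h1).trans mk_image2_le).trans_lt
      (mul_lt_of_lt hκ (h.card_lt hns) (h.card_lt_of_lt_ht hκ hns hi))
    exact absurd (h.le_card_small hκ hns) (not_le_of_gt h2)
  obtain ⟨A, hloc, hxA, hP⟩ := exists_po hxE
  obtain ⟨e, he⟩ := h.exists_iso_of_isLoc hκ hx hloc
  refine ⟨_, he, ?_⟩
  have hF : Fam PUnit.{u + 1} (fun _ => Po i) :=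
    fam_po (fun _ => i) (fun a b _ => Subsingleton.elim a b)
  exact ((hF.loc PUnit.unit).iso e _).1 hP

theorem HasStar.realF_ht : RealF κ B (ht B).card := by
  refine ⟨(ht B).ToType, fun a => Po (a.toOrd : Ordinal.{u}), mk_toType _, fam_po _ ?_, ?_⟩
  · intro a b hab
    exact Ordinal.ToType.mk.symm.injective (Subtype.ext hab)
  · intro a
    exact h.exists_small_po hκ hns a.toOrd.2

/-- The height has at least the cofinality of `κ` many elements. -/
theorem HasStar.cof_le_card_ht (hκ' : ℵ₀ < κ) : κ.ord.cof ≤ (ht B).card := by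
  by_contra hcon
  rw [not_le] at hcon
  have h1 : (⨆ a : (ht B).ToType, #(Qs (a.toOrd : Ordinal.{u}) B)) < κ := by
    refine iSup_lt_of_lt_cof_ord (by rw [mk_toType]; exact hcon) fun a => ?_
    exact h.card_lt_of_lt_ht hκ hns a.toOrd.2
  obtain ⟨α, hα, h2⟩ := h.exists_card_Qs hκ hns hκ' h1
  have h3 := le_ciSup (f := fun a : (ht B).ToType => #(Qs (a.toOrd : Ordinal.{u}) B))
    bddAbove_of_small (Ordinal.ToType.mk ⟨α, hα⟩)
  have h4 : (((Ordinal.ToType.mk ⟨α, hα⟩ : (ht B).ToType).toOrd : Iio (ht B)) : Ordinal.{u}) =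
      α := by simp
  rw [h4] at h3
  exact absurd h2 (not_lt_of_ge h3)

/-- Families of all sizes below the cofinality. -/
theorem HasStar.jointF_below_cof (hκ' : ℵ₀ < κ) {χ : Cardinal.{u}} (hχ : χ < κ.ord.cof) :
    JointF κ B χ :=
  h.jointF_of_lt_cof hκ hns
    ((h.realF_ht hκ hns).mono (hχ.le.trans (h.cof_le_card_ht hκ hns hκ'))) hχ

end Star

end Pool.Agent.Lib.MP_8a899a_lc
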