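import Pool.Agent.Lib.MP_8a899a_lc.AmpA
import Pool.Agent.Lib.MP_8a899a_lc.Rank

set_option autoImplicit false
set_option linter.unusedSectionVars false

/-!
# Jointly realized families of all sizes
-/

universe u

namespace Pool.Agent.Lib.MP_8a899a_lc

open Set Cardinal

variable {B : Type u} [BooleanAlgebra B] {κ : Cardinal.{u}}

/-- Every jointly realized family of size at least `m` in a context yields one of size `θ` in the
same context. -/
def Amp (κ : Cardinal.{u}) (B : Type u) [BooleanAlgebra B] (m θ : Cardinal.{u}) : Prop :=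
  ∀ K D : Cls.{u}, Ctx K D → ∀ (Λ : Type u) (P : Λ → Cls.{u}), m ≤ #Λ → Fam Λ P →
    Over K D P → JointP κ B P → ∃ (Λ' : Type u) (P' : Λ' → Cls.{u}), #Λ' = θ ∧ Fam Λ' P' ∧
      Over K D P' ∧ JointP κ B P'

theorem exists_restrict {K D : Cls.{u}} {Λ : Type u} {P : Λ → Cls.{u}} {θ : Cardinal.{u}}
    (hθ : θ ≤ #Λ) (hF : Fam Λ P) (hO : Over K D P) : ∃ (Λ' : Type u) (P' : Λ' → Cls.{u}),
      #Λ' = θ ∧ Fam Λ' P' ∧ Over K D P' ∧ (JointP κ B P → JointP κ B P') ∧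
        (RealP κ B P → RealP κ B P') := by
  obtain ⟨g⟩ : Nonempty (θ.out ↪ Λ) := by
    change #θ.out ≤ #Λ
    rw [mk_out]; exact hθ
  exact ⟨θ.out, fun i => P (g i), mk_out θ, hF.comp g g.injective, hO.comp g,
    fun h => h.comp g, fun h i => h (g i)⟩

theorem Amp.mono {m θ θ' : Cardinal.{u}} (h : Amp κ B m θ) (hθ : θ' ≤ θ) : Amp κ B m θ' := by
  intro K D hc Λ P hΛ hF hO hJ
  obtain ⟨Λ', P', hΛ', hF', hO', hJ'⟩ := h K D hc Λ P hΛ hF hO hJ
  obtain ⟨Λ'', P'', h1, h2, h3, h4, _⟩ := exists_restrict (κ := κ) (B := B) (θ := θ')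
    (by rw [hΛ']; exact hθ) hF' hO'
  exact ⟨Λ'', P'', h1, h2, h3, h4 hJ'⟩

theorem amp_self {m : Cardinal.{u}} : Amp κ B m m := by
  intro K D _ Λ P hΛ hF hO hJ
  obtain ⟨Λ'', P'', h1, h2, h3, h4, _⟩ := exists_restrict (κ := κ) (B := B) hΛ hF hO
  exact ⟨Λ'', P'', h1, h2, h3, h4 hJ⟩

theorem Amp.jointF {m θ : Cardinal.{u}} (hA : Amp κ B m θ) (hJ0 : JointF κ B m) :
    JointF κ B θ := by
  obtain ⟨Λ, P, hΛ, hF, hJ⟩ := hJ0
  obtain ⟨Λ', P', h1, h2, _, h4⟩ := hA _ _ ctx_top Λ P hΛ.ge hF (over_top P) hJ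
  exact ⟨Λ', P', h1, h2, h4⟩

section Star

variable (h : HasStar κ B) (hκ : ℵ₀ ≤ κ) (hns : ¬ Superatomic B)

include h hκ hns

/-- Sizes of large cofinality. -/
theorem HasStar.amp_of_cof_lt {m μ θ : Cardinal.{u}} (hA : Amp κ B m μ) (hμ : ℵ₀ ≤ μ)
    (hθ : θ ≤ 2 ^ μ) (hθω : ℵ₀ ≤ θ) (hθ2 : κ.ord.cof < θ.ord.cof) (hθκ : θ < κ) :
    Amp κ B m θ := by
  intro K D hc Λ P hΛ hF hO hJ
  obtain ⟨Λ1, P1, h1, hF1, hO1, hJ1⟩ := hA K D hc Λ P hΛ hF hO hJ
  obtain ⟨P2, hF2, hO2, hR2⟩ := h.exists_step hκ hc hF1 hO1 hJ1 (by rw [h1]; exact hμ)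
  obtain ⟨Λ3, P3, h3, hF3, hO3, _, hR3⟩ := exists_restrict (κ := κ) (B := B) (θ := θ)
    (by rw [mk_set, h1]; exact hθ) hF2 hO2
  obtain ⟨s, hs, hJs⟩ := h.jointP_of_cof_lt hκ hns hF3 (hR3 hR2) (by rw [h3]; exact hθω)
    (by rw [h3]; exact hθ2) (by rw [h3]; exact hθκ)
  exact ⟨s, fun i => P3 i, by rw [hs, h3], hF3.comp _ Subtype.val_injective, hO3.comp _, hJs⟩

/-- The exponential step above the cofinality. -/
theorem HasStar.amp_two_power {m μ : Cardinal.{u}} (hJ0 : JointF κ B m) (hA : Amp κ B m μ)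
    (hμ : ℵ₀ ≤ μ) (hcof : κ.ord.cof ≤ μ) : 2 ^ μ < κ ∧ Amp κ B m (2 ^ μ) := by
  have h1 := (h.jointF_two_power hκ hns (hA.jointF hJ0) hμ hcof).1
  have hlt : μ < ((2 : Cardinal.{u}) ^ μ).ord.cof := lt_cof_ord_power hμ one_lt_two
  exact ⟨h1, h.amp_of_cof_lt hκ hns hA hμ le_rfl (hμ.trans (cantor μ).le)
    (hcof.trans_lt hlt) h1⟩

/-- The limit step. -/
theorem HasStar.amp_singular {m θ : Cardinal.{u}} (hm : ℵ₀ ≤ m) (hcm : κ.ord.cof ≤ m)
    (hmθ : m < θ) (hθ : θ.IsSingular) (hθκ : θ < κ) (hne : θ.ord.cof ≠ κ.ord.cof)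
    (ih : ∀ μ, m ≤ μ → μ < θ → Amp κ B m μ) : Amp κ B m θ := by
  intro K D hc Λ P hΛ hF hO hJ
  have hθω : ℵ₀ ≤ θ := hθ.aleph0_le
  have hξω : ℵ₀ ≤ θ.ord.cof := aleph0_le_cof hθω
  have hξθ : θ.ord.cof < θ := hθ.cof_ord_lt
  have hΛω : ℵ₀ ≤ #Λ := hm.trans hΛ
  -- two disjoint subcontexts
  obtain ⟨c⟩ : Nonempty (Λ × ULift.{u} Bool ↪ Λ) := by
    change #(Λ × ULift.{u} Bool) ≤ #Λ
    rw [mk_prod, lift_id, lift_id]
    exact mul_le_of_le hΛω le_rfl (mk_le_aleph0.trans hΛω)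
  let g1 : Λ → Λ := fun x => c (x, ULift.up true)
  let g2 : Λ → Λ := fun x => c (x, ULift.up false)
  have hg1 : Function.Injective g1 := fun x y hxy => congrArg Prod.fst (c.injective hxy)
  have hg2 : Function.Injective g2 := fun x y hxy => congrArg Prod.fst (c.injective hxy)
  have hE : Disjoint (range g1) (range g2) := by
    rw [Set.disjoint_left]
    rintro _ ⟨x, rfl⟩ ⟨y, hy⟩
    have h2 : (ULift.up false : ULift.{u} Bool) = ULift.up true :=
      congrArg Prod.snd (c.injective hy)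
    exact Bool.false_ne_true (congrArg ULift.down h2)
  -- the colours
  have hAξ : Amp κ B m θ.ord.cof := by
    rcases le_total m θ.ord.cof with h1 | h1
    · exact ih _ h1 hξθ
    · exact (ih m le_rfl hmθ).mono h1
  obtain ⟨Λ1, P1, hΛ1, hF1, hO1, hJ1⟩ := hAξ _ _ (hc.subctx hF (range g1))
    Λ (fun n => P (g1 n)) hΛ (hF.comp g1 hg1)
    (hO.sub hc hF g1 fun n => mem_range_self n) (hJ.comp g1)
  obtain ⟨ι, d, hι, hdθ, hdcof⟩ := exists_cofinal_family θ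
  let t : ι → Cardinal.{u} := fun i => Order.succ (max (d i) m)
  have htω : ∀ i, ℵ₀ ≤ max (d i) m := fun i => hm.trans (le_max_right _ _)
  have htω' : ∀ i, ℵ₀ ≤ t i := fun i => (htω i).trans (Order.le_succ _)
  have htm : ∀ i, m ≤ t i := fun i => (le_max_right _ _).trans (Order.le_succ _)
  have htθ : ∀ i, t i < θ := fun i => hθ.isSuccLimit.succ_lt (max_lt (hdθ i) hmθ)
  have hQ : ∀ i, ∃ (G : Type u) (Q : G → Cls.{u}), #G = t i ∧ Fam G Q ∧
      Over (subK K P (range g2)) (subD D P (range g2)) Q ∧ JointP κ B Q := fun i =>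
    ih (t i) (htm i) (htθ i) _ _ (hc.subctx hF (range g2)) Λ (fun n => P (g2 n))
      hΛ (hF.comp g2 hg2) (hO.sub hc hF g2 fun n => mem_range_self n) (hJ.comp g2)
  choose G Q hG hFQ hOQ hJQ using hQ
  have hT : ∀ i, Fam (Λ1 ⊕ G i) (Sum.elim P1 (Q i)) := fun i =>
    Fam.sum hE hF1 (hFQ i) hO1 (hOQ i)
  have hOT : ∀ i, Over K D (Sum.elim P1 (Q i)) := fun i => hO1.of_sub.sum (hOQ i).of_sub
  have hJT : ∀ i, JointP κ B (Sum.elim P1 (Q i)) := fun i => hJ1.sum hκ (hJQ i)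
  -- the blocks
  obtain ⟨c1⟩ : Nonempty (ι × ULift.{u} ℕ ↪ Λ1) := by
    change #(ι × ULift.{u} ℕ) ≤ #Λ1
    rw [mk_prod, lift_id, lift_id, mk_uLift, mk_nat, lift_aleph0, hι, hΛ1]
    exact mul_le_of_le hξω le_rfl hξω
  have hc2 : ∀ i, Nonempty (G i × ULift.{u} ℕ ↪ G i) := by
    intro i
    change #(G i × ULift.{u} ℕ) ≤ #(G i)
    rw [mk_prod, lift_id, lift_id, mk_uLift, mk_nat, lift_aleph0, hG]
    exact mul_le_of_le (htω' i) le_rfl (htω' i)
  let C : ι → Set Λ1 := fun i => range (fun n : ULift.{u} ℕ => c1 (i, n))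
  let Y : ∀ i, G i → Set (G i) := fun i x => range (fun n : ULift.{u} ℕ => (hc2 i).some (x, n))
  have hinfN : Infinite (ULift.{u} ℕ) := inferInstance
  have hC : ∀ i, (C i).Infinite := by
    intro i
    refine Set.infinite_range_of_injective ?_
    intro a n hmn
    exact congrArg Prod.snd (c1.injective hmn)
  have hCd : ∀ i j, i ≠ j → Disjoint (C i) (C j) := by
    intro i j hij
    rw [Set.disjoint_left]
    rintro _ ⟨a, rfl⟩ ⟨n, hn⟩
    exact hij (congrArg Prod.fst (c1.injective hn)).symm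
  have hY : ∀ i x, (Y i x).Infinite := by
    intro i x
    refine Set.infinite_range_of_injective ?_
    intro a n hmn
    exact congrArg Prod.snd ((hc2 i).some.injective hmn)
  have hYd : ∀ i x y, x ≠ y → Disjoint (Y i x) (Y i y) := by
    intro i x y hxy
    rw [Set.disjoint_left]
    rintro _ ⟨a, rfl⟩ ⟨n, hn⟩
    exact hxy (congrArg Prod.fst ((hc2 i).some.injective hn)).symm
  have hM := fam_blk hc hT C Y hC hCd hY hYd
  have hOM := over_blk (Q := Q) hc C Y hOT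
  have hRM := h.realP_blk hc hT C Y hκ hOT hJT hY
  -- the sizes
  have hsum : ∀ G' : ι → Type u, (∀ i, #(G' i) = t i) → #(Σ i, G' i) = θ := by
    intro G' hG'
    rw [mk_sigma]
    have h1 : (fun i => #(G' i)) = t := funext hG'
    rw [h1]
    apply le_antisymm
    · refine (sum_le_sum _ (fun _ : ι => θ) fun i => (htθ i).le).trans ?_
      rw [sum_const', hι]
      exact mul_le_of_le hθω hξθ.le le_rfl
    · by_contra hcon
      rw [not_le] at hcon
      obtain ⟨i, hi⟩ := hdcof _ hcon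
      have h2 : d i < t i := Order.lt_succ_of_le (le_max_left _ _)
      exact absurd ((le_sum t i).trans hi) (not_le_of_gt h2)
  have hcard := hsum G hG
  rcases lt_trichotomy (κ.ord.cof) (θ.ord.cof) with h1 | h1 | h1
  · obtain ⟨s, hs, hJs⟩ := h.jointP_of_cof_lt hκ hns hM hRM (by rw [hcard]; exact hθω)
      (by rw [hcard]; exact h1) (by rw [hcard]; exact hθκ)
    exact ⟨s, fun i => blk K P1 Q C Y i, by rw [hs, hcard],
      hM.comp _ Subtype.val_injective, hOM.comp _, hJs⟩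
  · exact absurd h1.symm hne
  · have hb : ∀ i, ∃ (s : Set (G i)) (ν : Cardinal.{u}), #s = #(G i) ∧ ν < κ ∧
        ∀ x ∈ s, #(Avoid κ B (blk K P1 Q C Y ⟨i, x⟩)) ≤ ν := by
      intro i
      refine h.exists_bound hκ (P := fun x : G i => blk K P1 Q C Y ⟨i, x⟩)
        (hM.comp (fun x : G i => (⟨i, x⟩ : Σ i, G i)) sigma_mk_injective)
        (fun x => hRM ⟨i, x⟩) (by rw [hG]; exact htω' i) ?_
      rw [hG, (isRegular_succ (htω i)).cof_ord]
      exact Order.lt_succ_of_le (hcm.trans (le_max_right _ _))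
    choose s ν hs hν hle using hb
    let f : (Σ i, s i) → (Σ i, G i) := fun p => ⟨p.1, p.2⟩
    have hf : Function.Injective f := by
      rintro ⟨i, x⟩ ⟨j, y⟩ hxy
      obtain ⟨h5, h6⟩ := Sigma.mk.inj_iff.1 hxy
      dsimp only at h5
      subst h5
      have h7 : (x : G i) = y := eq_of_heq h6
      rw [Subtype.ext h7]
    have hcard2 := hsum (fun i => s i) fun i => (hs i).trans (hG i)
    refine ⟨Σ i, s i, fun p => blk K P1 Q C Y (f p), hcard2, hM.comp f hf, hOM.comp f,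
      h.jointP_of_bound hκ hns (by rw [hcard2]; exact hθκ) (ν := ⨆ i, ν i) ?_ ?_⟩
    · exact iSup_lt_of_lt_cof_ord (by rw [hι]; exact h1) hν
    · rintro ⟨i, x⟩
      exact (hle i x x.2).trans (le_ciSup (f := ν) bddAbove_of_small i)

/-- All sizes from `m` on below `κ`. -/
theorem HasStar.amp_all {m : Cardinal.{u}} (hm : ℵ₀ ≤ m) (hcm : κ.ord.cof ≤ m)
    (hJ0 : JointF κ B m)
    (hsl : ∀ θ, m < θ → θ < κ → θ.IsStrongLimit → θ.IsSingular ∧ θ.ord.cof ≠ κ.ord.cof)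
    (θ : Cardinal.{u}) (hmθ : m ≤ θ) (hθ : θ < κ) : Amp κ B m θ := by
  induction θ using WellFoundedLT.induction with
  | ind θ ih =>
    rcases hmθ.eq_or_lt with h1 | h1
    · rw [← h1]; exact amp_self
    · have ih' : ∀ μ, m ≤ μ → μ < θ → Amp κ B m μ := fun μ h2 h3 => ih μ h3 h2 (h3.trans hθ)
      by_cases hs : θ.IsStrongLimit
      · obtain ⟨h2, h3⟩ := hsl θ h1 hθ hs
        exact h.amp_singular hκ hns hm hcm h1 h2 hθ h3 ih'
      · obtain ⟨μ, hμ, hμ2⟩ : ∃ μ < θ, θ ≤ 2 ^ μ := by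
          by_contra hcon
          push Not at hcon
          exact hs ⟨(aleph0_pos.trans_le (hm.trans hmθ)).ne', hcon⟩
        rcases le_total m μ with h2 | h2
        · exact (h.amp_two_power hκ hns hJ0 (ih' μ h2 hμ) (hm.trans h2) (hcm.trans h2)).2.mono hμ2
        · exact (h.amp_two_power hκ hns hJ0 amp_self hm hcm).2.mono
            (hμ2.trans (power_le_power_left two_ne_zero h2))

/-- A jointly realized family of size at least the cofinality of `κ`. -/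
theorem HasStar.exists_jointF (hsing : κ.IsSingular)
    (hcof : κ.ord.cof = ℵ₀ ∨ ∃ χ < κ.ord.cof, κ.ord.cof < 2 ^ χ) :
    ∃ m, ℵ₀ ≤ m ∧ κ.ord.cof ≤ m ∧ m < κ ∧ JointF κ B m := by
  have hμκ : κ.ord.cof < κ := hsing.cof_ord_lt
  have hμω : ℵ₀ ≤ κ.ord.cof := aleph0_le_cof hκ
  rcases hcof with hc | ⟨χ, hχ, hχ2⟩
  · exact ⟨ℵ₀, le_rfl, hc.le, by rw [← hc]; exact hμκ, h.jointF_aleph0 hκ hns⟩
  · have hχω : ℵ₀ ≤ χ := by
      by_contra hcon
      rw [not_le] at hcon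
      have h1 : (2 : Cardinal.{u}) ^ χ < ℵ₀ := power_lt_aleph0 (natCast_lt_aleph0 (n := 2)) hcon
      exact absurd (hχ2.trans h1) (not_lt_of_ge hμω)
    have hJ := h.jointF_below_cof hκ hns (hμω.trans_lt hμκ) hχ
    have hR := (h.realF_two_power hκ hJ hχω).mono (Order.succ_le_of_lt hχ2)
    have hsκ : Order.succ κ.ord.cof < κ := hsing.isSuccLimit.succ_lt hμκ
    have hreg : (Order.succ κ.ord.cof).IsRegular := isRegular_succ hμω
    refine ⟨Order.succ κ.ord.cof, hμω.trans (Order.le_succ _), Order.le_succ _, hsκ,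
      h.jointF_of_cof_lt hκ hns hR (hμω.trans (Order.le_succ _)) ?_ hsκ⟩
    rw [hreg.cof_ord]
    exact Order.lt_succ _

end Star

/-- Between a regular cardinal and a larger inaccessible cardinal there is a strong limit cardinal
whose cofinality is the regular cardinal. -/
theorem exists_strongLimit_cof {μ θ : Cardinal.{u}} (hμ : μ.IsRegular) (hμθ : μ < θ)
    (hθ : θ.IsInaccessible) : ∃ τ, μ < τ ∧ τ < θ ∧ τ.IsStrongLimit ∧ τ.ord.cof = μ := by
  have hlimμ : Order.IsSuccLimit μ.ord := isSuccLimit_ord hμ.aleph0_le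
  have hlim : Order.IsSuccLimit (μ.ord + μ.ord) := Ordinal.isSuccLimit_add _ hlimμ
  have hpos : μ.ord ≠ 0 := hμ.ord_pos.ne'
  refine ⟨ℶ_ (μ.ord + μ.ord), ?_, ?_, ?_, ?_⟩
  · have h1 : μ.ord < μ.ord + μ.ord := lt_add_of_pos_right _ (pos_iff_ne_zero.2 hpos)
    exact lt_of_le_of_lt (le_beth_ord μ) (beth_lt_beth.2 h1)
  · rw [← hθ.beth_ord, beth_lt_beth]
    exact (Ordinal.isPrincipal_add_ord hθ.isRegular.aleph0_le) (ord_lt_ord.2 hμθ) (ord_lt_ord.2 hμθ)
  · rw [isStrongLimit_beth]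
    exact hlim.isSuccPrelimit
  · have h1 := Ordinal.cof_map_of_isNormal (isNormal_ord.comp isNormal_beth) hlim
    have h2 : (ℶ_ (μ.ord + μ.ord)).ord.cof = (μ.ord + μ.ord).cof := h1
    rw [h2, Ordinal.cof_add _ hpos, hμ.cof_ord]

/-- Singular cardinals `κ` such that no strong limit cardinal between the cofinality of `κ` and
`κ` has the cofinality of `κ`. -/
theorem HasStar.superatomic_of_no_strongLimit (h : HasStar κ B) (hκ : κ.IsSingular)
    (hcof : κ.ord.cof = ℵ₀ ∨ ∃ χ < κ.ord.cof, κ.ord.cof < 2 ^ χ)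
    (hsl : ∀ θ, κ.ord.cof < θ → θ < κ → θ.IsStrongLimit → θ.ord.cof ≠ κ.ord.cof) :
    Superatomic B := by
  by_contra hns
  have hκω : ℵ₀ ≤ κ := hκ.aleph0_le
  have hμκ : κ.ord.cof < κ := hκ.cof_ord_lt
  have hμω : ℵ₀ ≤ κ.ord.cof := aleph0_le_cof hκω
  obtain ⟨m, hm, hcm, hmκ, hJ0⟩ := h.exists_jointF hκω hns hκ hcof
  have hsl' : ∀ θ, m < θ → θ < κ → θ.IsStrongLimit →
      θ.IsSingular ∧ θ.ord.cof ≠ κ.ord.cof := by
    intro θ h1 h2 h3
    refine ⟨⟨hm.trans h1.le, fun h4 => ?_⟩, hsl θ (hcm.trans_lt h1) h2 h3⟩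
    obtain ⟨τ, h5, h6, h7, h8⟩ := exists_strongLimit_cof
      (isRegular_cof (isSuccLimit_ord hκω)) (hcm.trans_lt h1)
      (isInaccessible_def.2 ⟨hm.trans_lt h1, ⟨hm.trans h1.le, h4.ge⟩, h3⟩)
    exact hsl τ h5 (h6.trans h2) h7 h8
  refine hns (h.superatomic_of_strongLimit ⟨(aleph0_pos.trans_le hκω).ne', ?_⟩)
  intro θ hθ
  have hm' : max θ m < κ := max_lt hθ hmκ
  have hmω : ℵ₀ ≤ max θ m := hm.trans (le_max_right _ _)
  have h1 := (h.amp_two_power hκω hns hJ0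
    (h.amp_all hκω hns hm hcm hJ0 hsl' _ (le_max_right _ _) hm') hmω
    (hcm.trans (le_max_right _ _))).1
  exact lt_of_le_of_lt (power_le_power_left two_ne_zero (le_max_left _ _)) h1

end Pool.Agent.Lib.MP_8a899a_lc
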