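import Pool.Agent.Lib.MP_8a899a_lc.Cover

set_option autoImplicit false
set_option linter.unusedSectionVars false

/-!
# Cardinal arithmetic from covering families
-/

universe u

namespace Pool.Agent.Lib.MP_8a899a_lc

open Set Cardinal

/-- Some family of fewer than `κ` subsets of size at most `ν` of a set of size `l` is cofinal:
every subset of size at most `ν` is contained in a member of the family. -/
def FewCover (κ ν l : Cardinal.{u}) : Prop :=
  ∃ (X : Type u) (F : Set (Set X)), #X = l ∧ #F < κ ∧ (∀ A ∈ F, #A ≤ ν) ∧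
    ∀ s : Set X, #s ≤ ν → ∃ A ∈ F, s ⊆ A

theorem FewCover.power_lt {κ ν l : Cardinal.{u}} (h : FewCover κ ν l) (hκ : ℵ₀ ≤ κ)
    (hν : ℵ₀ ≤ ν) (h2 : 2 ^ ν < κ) : l ^ ν < κ := by
  obtain ⟨X, F, hX, hF, hFν, hcov⟩ := h
  have hN : #ν.out = ν := mk_out ν
  have h1 : (Set.univ : Set (ν.out → X)) ⊆ ⋃ A ∈ F, {f | range f ⊆ A} := by
    intro f _
    obtain ⟨A, hA, hfA⟩ := hcov (range f) (mk_range_le.trans hN.le)
    exact mem_iUnion₂.2 ⟨A, hA, hfA⟩
  have h3 : #(ν.out → X) ≤ #F * 2 ^ ν := by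
    rw [← mk_univ]
    refine (mk_le_mk_of_subset h1).trans ((mk_biUnion_le _ _).trans ?_)
    refine mul_le_mul' le_rfl (ciSup_le' ?_)
    intro A
    have h4 : #{f : ν.out → X | range f ⊆ (A : Set X)} ≤ #(ν.out → (A : Set X)) := by
      refine mk_le_of_injective (f := fun f n => ⟨(f : ν.out → X) n, f.2 ⟨n, rfl⟩⟩) ?_
      intro f g hfg
      apply Subtype.ext
      funext n
      exact congrArg Subtype.val (congrFun hfg n)
    refine h4.trans ?_
    rw [← power_def, hN]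
    refine (power_le_power_right (hFν A A.2)).trans ?_
    rw [power_self_eq hν]
  rw [← power_def, hN, hX] at h3
  exact h3.trans_lt (mul_lt_of_lt hκ hF h2)

theorem exists_gt_of_card_lt {l : Cardinal.{u}} (hl : l.IsRegular) (s : Set l.ord.ToType)
    (hs : #s < l) : ∃ j, ∀ x ∈ s, x < j := by
  by_contra hcon
  push Not at hcon
  have h1 : IsCofinal s := fun j => by
    obtain ⟨x, hx, hjx⟩ := hcon j
    exact ⟨x, hx, hjx⟩
  have h2 := Order.cof_le h1
  rw [Ordinal.cof_toType, hl.cof_ord] at h2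
  exact absurd hs (not_lt_of_ge h2)

theorem bounded_power {X : Type u} {ρ χ : Cardinal.{u}} (hρ : ρ.IsRegular) (hρX : ρ ≤ #X)
    (hχ : χ < ρ) : #{s : Set X | #s < ρ} ^ χ ≤ #{s : Set X | #s < ρ} := by
  have hN : #χ.out = χ := mk_out χ
  have h1 : #(χ.out → {s : Set X | #s < ρ}) ≤ #{s : Set (χ.out × X) | #s < ρ} := by
    refine mk_le_of_injective (f := fun g => ⟨{p | p.2 ∈ (g p.1 : Set X)}, ?_⟩) ?_
    · have h2 : {p : χ.out × X | p.2 ∈ (g p.1 : Set X)} =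
          ⋃ n, (fun x => (n, x)) '' (g n : Set X) := by
        ext ⟨n, x⟩
        simp
      change #{p : χ.out × X | p.2 ∈ (g p.1 : Set X)} < ρ
      rw [h2, card_iUnion_lt_iff_forall_of_isRegular hρ (by rw [hN]; exact hχ)]
      intro n
      exact mk_image_le.trans_lt (g n).2
    · intro g g' hgg
      have h2 : {p : χ.out × X | p.2 ∈ (g p.1 : Set X)} =
          {p : χ.out × X | p.2 ∈ (g' p.1 : Set X)} := congrArg Subtype.val hgg
      funext n
      apply Subtype.ext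
      ext x
      have h3 : (n, x) ∈ {p : χ.out × X | p.2 ∈ (g p.1 : Set X)} ↔
          (n, x) ∈ {p : χ.out × X | p.2 ∈ (g' p.1 : Set X)} := by rw [h2]
      exact h3
  rw [← power_def, hN] at h1
  refine h1.trans ?_
  obtain ⟨e⟩ : Nonempty (χ.out × X ↪ X) := by
    change #(χ.out × X) ≤ #X
    rw [mk_prod, lift_id, lift_id, hN]
    exact mul_le_of_le (hρ.aleph0_le.trans hρX) (hχ.le.trans hρX) le_rfl
  refine mk_le_of_injective (f := fun s => ⟨e '' (s : Set (χ.out × X)),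
    mk_image_le.trans_lt s.2⟩) ?_
  intro s t hst
  apply Subtype.ext
  exact e.injective.image_injective (congrArg Subtype.val hst)

theorem bounded_subsets_le {A : Type u} {ρ μ : Cardinal.{u}} (hρ : ρ.IsRegular) (hρμ : ρ ≤ μ)
    (h2 : ∀ χ < ρ, 2 ^ χ ≤ μ) (hA : #A ≤ ρ) : #{s : Set A | #s < ρ} ≤ μ := by
  obtain ⟨e⟩ : Nonempty (A ↪ ρ.ord.ToType) := by
    change #A ≤ #ρ.ord.ToType
    rw [mk_toType, card_ord]; exact hA
  have h1 : #{s : Set A | #s < ρ} ≤ #(⋃ i : ρ.ord.ToType, 𝒫 (Iio i)) := by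
    refine mk_le_of_injective (f := fun s => ⟨e '' (s : Set A), ?_⟩) ?_
    · obtain ⟨j, hj⟩ := exists_gt_of_card_lt hρ (e '' (s : Set A)) (mk_image_le.trans_lt s.2)
      exact mem_iUnion.2 ⟨j, hj⟩
    · intro s t hst
      apply Subtype.ext
      exact e.injective.image_injective (congrArg Subtype.val hst)
  refine h1.trans ((mk_iUnion_le _).trans ?_)
  refine mul_le_of_le (hρ.aleph0_le.trans hρμ) ?_ (ciSup_le' fun i => ?_)
  · rw [mk_toType, card_ord]; exact hρμ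
  · rw [mk_powerset]
    exact h2 _ (mk_Iio_toType_ord_lt i)

theorem two_power_le_of_singular {ρ μ : Cardinal.{u}} (hρ : ρ.IsSingular)
    (h2 : ∀ χ < ρ, 2 ^ χ ≤ μ) : 2 ^ ρ ≤ μ ^ ρ.ord.cof := by
  obtain ⟨ι, c, hι, hc, hcof⟩ := exists_cofinal_family ρ
  have h1 : ρ ≤ sum c := by
    by_contra hcon
    push Not at hcon
    obtain ⟨i, hi⟩ := hcof _ (hρ.isSuccLimit.succ_lt hcon)
    exact absurd (Order.lt_succ (sum c)) (not_lt_of_ge (hi.trans (le_sum c i)))
  calc (2 : Cardinal.{u}) ^ ρ ≤ 2 ^ sum c := power_le_power_left two_ne_zero h1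
    _ = prod (fun i => (2 : Cardinal.{u}) ^ c i) := power_sum _ _
    _ ≤ prod (fun _ : ι => μ) := prod_le_prod _ _ fun i => h2 _ (hc i)
    _ = μ ^ ρ.ord.cof := by rw [prod_const', hι]

theorem exists_rho_delta {κ : Cardinal.{u}} (hκ : κ.IsSingular)
    (hcov : ∀ ν l : Cardinal.{u}, ℵ₀ ≤ ν → ν < l → l < κ → FewCover κ ν l) :
    ∃ ρ δ : Cardinal.{u}, ℵ₀ ≤ ρ ∧ ρ ≤ κ.ord.cof ∧ κ.ord.cof < 2 ^ ρ ∧ δ < κ ∧
      Order.succ κ.ord.cof ≤ δ ∧ ∀ χ < ρ, δ ^ χ ≤ δ := by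
  set μ : Cardinal.{u} := κ.ord.cof with hμ
  have hμκ : μ < κ := hκ.cof_ord_lt
  have hμω : ℵ₀ ≤ μ := aleph0_le_cof hκ.aleph0_le
  have hsκ : Order.succ μ < κ := hκ.isSuccLimit.succ_lt hμκ
  set ρ : Cardinal.{u} := sInf {ρ : Cardinal.{u} | μ < 2 ^ ρ} with hρ
  have hμρ : μ < 2 ^ ρ :=
    csInf_mem (s := {ρ : Cardinal.{u} | μ < 2 ^ ρ}) ⟨μ, cantor μ⟩
  have hρμ : ρ ≤ μ := csInf_le' (cantor μ)
  have hlt : ∀ χ < ρ, (2 : Cardinal.{u}) ^ χ ≤ μ := by
    intro χ hχ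
    have h1 : χ ∉ {ρ : Cardinal.{u} | μ < 2 ^ ρ} := notMem_of_lt_csInf' hχ
    have h2 : ¬ μ < 2 ^ χ := h1
    exact le_of_not_gt h2
  have hρω : ℵ₀ ≤ ρ := by
    by_contra hcon
    push Not at hcon
    have h1 : (2 : Cardinal.{u}) ^ ρ < ℵ₀ := power_lt_aleph0 (natCast_lt_aleph0 (n := 2)) hcon
    exact absurd (hμρ.trans h1) (not_lt_of_ge hμω)
  by_cases hreg : ρ.IsRegular
  · -- regular `ρ`
    obtain ⟨X, F, hX, hF, hFρ, hc⟩ := hcov ρ (Order.succ μ) hρω (Order.lt_succ_of_le hρμ) hsκ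
    refine ⟨ρ, #{s : Set X | #s < ρ}, hρω, hρμ, hμρ, ?_, ?_, ?_⟩
    · have h1 : {s : Set X | #s < ρ} ⊆ ⋃ A ∈ F, {s : Set X | s ⊆ A ∧ #s < ρ} := by
        intro s hs
        obtain ⟨A, hA, hsA⟩ := hc s (le_of_lt hs)
        exact mem_iUnion₂.2 ⟨A, hA, hsA, hs⟩
      have h2 : ∀ A ∈ F, #{s : Set X | s ⊆ A ∧ #s < ρ} ≤ μ := by
        intro A hA
        refine le_trans ?_ (bounded_subsets_le hreg hρμ hlt (hFρ A hA))
        refine mk_le_of_injective (f := fun s : {s : Set X | s ⊆ A ∧ #s < ρ} =>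
          (⟨Subtype.val ⁻¹' (s : Set X), ?_⟩ : {t : Set A | #t < ρ})) ?_
        · refine lt_of_le_of_lt ?_ s.2.2
          exact mk_preimage_of_injective _ _ Subtype.val_injective
        · intro s t hst
          have h3 : (Subtype.val ⁻¹' (s : Set X) : Set A) = Subtype.val ⁻¹' (t : Set X) :=
            congrArg Subtype.val hst
          apply Subtype.ext
          rw [Subtype.preimage_coe_eq_preimage_coe_iff] at h3
          rwa [inter_eq_right.2 s.2.1, inter_eq_right.2 t.2.1] at h3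
      refine (mk_le_mk_of_subset h1).trans_lt ((mk_biUnion_le _ _).trans_lt ?_)
      refine mul_lt_of_lt hκ.aleph0_le hF (lt_of_le_of_lt (ciSup_le' ?_) hμκ)
      intro A
      exact h2 A A.2
    · rw [← hX]
      refine mk_le_of_injective (f := fun x => ⟨{x}, ?_⟩) ?_
      · change #({x} : Set X) < ρ
        rw [mk_singleton]
        exact one_lt_aleph0.trans_le hρω
      · intro x y hxy
        exact singleton_injective (congrArg Subtype.val hxy)
    · intro χ hχ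
      refine bounded_power hreg ?_ hχ
      rw [hX]
      exact hρμ.trans (Order.le_succ μ)
  · -- singular `ρ`
    have hsing : ρ.IsSingular := ⟨hρω, fun h1 => hreg ⟨hρω, h1.ge⟩⟩
    have hcρ : ρ.ord.cof < ρ := hsing.cof_ord_lt
    have hcω : ℵ₀ ≤ ρ.ord.cof := aleph0_le_cof hρω
    have h1 : (Order.succ μ) ^ ρ.ord.cof < κ := by
      refine (hcov _ _ hcω ?_ hsκ).power_lt hκ.aleph0_le hcω ((hlt _ hcρ).trans_lt hμκ)
      exact Order.lt_succ_of_le (hcρ.le.trans hρμ)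
    have h2 : (2 : Cardinal.{u}) ^ ρ < κ :=
      (two_power_le_of_singular hsing hlt).trans_lt
        ((power_le_power_right (Order.le_succ μ)).trans_lt h1)
    have h3 : (Order.succ μ) ^ ρ < κ :=
      (hcov ρ _ hρω (Order.lt_succ_of_le hρμ) hsκ).power_lt hκ.aleph0_le hρω h2
    have h4 : Order.succ μ ≤ (Order.succ μ) ^ ρ :=
      self_le_power _ (one_le_aleph0.trans hρω)
    refine ⟨ρ, (Order.succ μ) ^ ρ, hρω, hρμ, hμρ, h3, h4, fun χ hχ => ?_⟩
    rw [← power_mul, mul_comm]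
    refine power_le_power_left ?_ ?_
    · exact (lt_of_lt_of_le (aleph0_pos.trans_le hμω) (Order.le_succ μ)).ne'
    · exact mul_le_of_le hρω hχ.le le_rfl

theorem SmallCover.of_fewCover {κ ν l1 l : Cardinal.{u}} (h : FewCover κ l1 l)
    (hω : ℵ₀ ≤ l1) (hcof : κ.ord.cof ≤ l1) (hν : ν ≤ l1) (hl : l1 < l) : SmallCover κ ν l := by
  obtain ⟨X, F, hX, hF, hFν, hc⟩ := h
  refine ⟨X, F, hX, hF, ?_, fun s hs => hc s (hs.trans hν)⟩
  intro D hD hDc
  refine lt_of_le_of_lt ((mk_sUnion_le _).trans ?_) hl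
  refine mul_le_of_le hω (hDc.trans hcof) (ciSup_le' ?_)
  intro A
  exact hFν A (hD A.2)

theorem SmallCover.of_isRegular {κ ν l : Cardinal.{u}} (hl : l.IsRegular) (hlκ : l < κ)
    (hcof : κ.ord.cof < l) (hν : ν < l) : SmallCover κ ν l := by
  refine ⟨l.ord.ToType, range (fun i => Iio i), by rw [mk_toType, card_ord], ?_, ?_, ?_⟩
  · refine lt_of_le_of_lt mk_range_le ?_
    rw [mk_toType, card_ord]; exact hlκ
  · intro D hD hDc
    have h1 : ∀ A : D, ∃ i, Iio i = (A : Set l.ord.ToType) := fun A => hD A.2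
    choose f hf using h1
    obtain ⟨j, hj⟩ := exists_gt_of_card_lt hl (range f)
      ((mk_range_le.trans hDc).trans_lt hcof)
    have h2 : ⋃₀ D ⊆ Iio j := by
      intro x hx
      obtain ⟨A, hA, hxA⟩ := hx
      have h3 : x ∈ Iio (f ⟨A, hA⟩) := by rw [hf]; exact hxA
      exact lt_trans (show x < f ⟨A, hA⟩ from h3) (hj _ ⟨_, rfl⟩)
    exact (mk_le_mk_of_subset h2).trans_lt (mk_Iio_toType_ord_lt j)
  · intro s hs
    obtain ⟨j, hj⟩ := exists_gt_of_card_lt hl s (hs.trans_lt hν)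
    exact ⟨_, ⟨j, rfl⟩, hj⟩

end Pool.Agent.Lib.MP_8a899a_lc
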