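import Mathlib

set_option autoImplicit false

/-!
# Cantor-Bendixson ideals of a Boolean algebra
-/

universe u

namespace Pool.Agent.Lib.MP_8a899a_lc

open Set Cardinal

section Basic

variable {B : Type u} [BooleanAlgebra B]

/-- `J` is an ideal (possibly improper). -/
structure IsId (J : Set B) : Prop where
  bot : ⊥ ∈ J
  down : ∀ x y, y ≤ x → x ∈ J → y ∈ J
  sup : ∀ x y, x ∈ J → y ∈ J → x ⊔ y ∈ J

/-- `a` becomes an atom modulo `J`. -/
def AtomMod (J : Set B) (a : B) : Prop := a ∉ J ∧ ∀ y, y ≤ a → y ∈ J ∨ a \ y ∈ J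

/-- The ideal generated by `J` and the elements which are atoms modulo `J`. -/
inductive Step (J : Set B) : B → Prop
  | base (x : B) : x ∈ J → Step J x
  | atom (x : B) : AtomMod J x → Step J x
  | sup (x y : B) : Step J x → Step J y → Step J (x ⊔ y)

theorem AtomMod.mono_right {J : Set B} (hJ : IsId J) {a y : B} (ha : AtomMod J a) (hy : y ≤ a)
    (hyJ : y ∉ J) : AtomMod J y := by
  refine ⟨hyJ, fun z hz => ?_⟩
  rcases ha.2 z (hz.trans hy) with h | h
  · exact Or.inl h
  · exact Or.inr (hJ.down _ _ (sdiff_le_sdiff_right hy) h)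

theorem AtomMod.mono_left {J J' : Set B} {a : B} (ha : AtomMod J a) (h : J ⊆ J')
    (haJ : a ∉ J') : AtomMod J' a :=
  ⟨haJ, fun z hz => (ha.2 z hz).imp (fun h' => h h') (fun h' => h h')⟩

theorem Step.down {J : Set B} (hJ : IsId J) {x : B} (hx : Step J x) :
    ∀ y, y ≤ x → Step J y := by
  induction hx with
  | base x hx => exact fun y hy => Step.base y (hJ.down _ _ hy hx)
  | atom x hx =>
    intro y hy
    by_cases hyJ : y ∈ J
    · exact Step.base y hyJ
    · exact Step.atom y (hx.mono_right hJ hy hyJ)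
  | sup x1 x2 _ _ ih1 ih2 =>
    intro y hy
    have : y = (y ⊓ x1) ⊔ (y ⊓ x2) := by
      rw [← inf_sup_left]; exact (inf_eq_left.2 hy).symm
    rw [this]
    exact Step.sup _ _ (ih1 _ inf_le_right) (ih2 _ inf_le_right)

theorem Step.mono {J J' : Set B} (h : J ⊆ J') {x : B} (hx : Step J x) : Step J' x := by
  induction hx with
  | base x hx => exact Step.base x (h hx)
  | atom x hx =>
    by_cases hxJ : x ∈ J'
    · exact Step.base x hxJ
    · exact Step.atom x (hx.mono_left h hxJ)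
  | sup x1 x2 _ _ ih1 ih2 => exact Step.sup _ _ ih1 ih2

theorem Step.isId {J : Set B} (hJ : IsId J) : IsId {x | Step J x} where
  bot := Step.base _ hJ.bot
  down _ _ h hx := Step.down hJ hx _ h
  sup _ _ hx hy := Step.sup _ _ hx hy

theorem Step.mem_of_no_atom {J : Set B} (hJ : IsId J) (h : ∀ a, ¬ AtomMod J a) {x : B}
    (hx : Step J x) : x ∈ J := by
  induction hx with
  | base x hx => exact hx
  | atom x hx => exact absurd hx (h x)
  | sup x1 x2 _ _ ih1 ih2 => exact hJ.sup _ _ ih1 ih2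

/-- The Cantor-Bendixson ideals. -/
def cb (α : Ordinal.{u}) : Set B := {x | x = ⊥ ∨ ∃ β, ∃ (_ : β < α), Step (cb β) x}
termination_by α

theorem mem_cb {α : Ordinal.{u}} {x : B} : x ∈ cb α ↔ x = ⊥ ∨ ∃ β, β < α ∧ Step (cb β) x := by
  rw [cb]; simp

theorem cb_mono {α β : Ordinal.{u}} (h : α ≤ β) : (cb α : Set B) ⊆ cb β := by
  intro x hx
  rw [mem_cb] at hx ⊢
  rcases hx with hx | ⟨γ, hγ, hx⟩
  · exact Or.inl hx
  · exact Or.inr ⟨γ, hγ.trans_le h, hx⟩

theorem cb_isId (α : Ordinal.{u}) : IsId (cb α : Set B) := by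
  induction α using WellFoundedLT.induction with
  | ind α ih =>
    refine ⟨mem_cb.2 (Or.inl rfl), ?_, ?_⟩
    · intro x y hyx hx
      rw [mem_cb] at hx ⊢
      rcases hx with hx | ⟨γ, hγ, hx⟩
      · left; rw [hx] at hyx; exact le_bot_iff.1 hyx
      · exact Or.inr ⟨γ, hγ, hx.down (ih γ hγ) _ hyx⟩
    · intro x y hx hy
      rw [mem_cb] at hx hy
      rcases hx with hx | ⟨γ, hγ, hx⟩
      · rw [hx, bot_sup_eq]; exact mem_cb.2 hy
      · rcases hy with hy | ⟨δ, hδ, hy⟩
        · rw [hy, sup_bot_eq]; exact mem_cb.2 (Or.inr ⟨γ, hγ, hx⟩)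
        · refine mem_cb.2 (Or.inr ⟨max γ δ, max_lt hγ hδ, ?_⟩)
          exact Step.sup _ _ (hx.mono (cb_mono (le_max_left _ _)))
            (hy.mono (cb_mono (le_max_right _ _)))

theorem Step.mem_cb {α β : Ordinal.{u}} (h : β < α) {x : B} (hx : Step (cb β) x) : x ∈ cb α :=
  Pool.Agent.Lib.MP_8a899a_lc.mem_cb.2 (Or.inr ⟨β, h, hx⟩)

theorem AtomMod.mem_cb {α β : Ordinal.{u}} (h : β < α) {x : B} (hx : AtomMod (cb β) x) :
    x ∈ cb α := (Step.atom x hx).mem_cb h

variable (B) in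
/-- Some Cantor-Bendixson ideal has no atoms above it. -/
theorem exists_no_atom : ∃ α : Ordinal.{u}, ∀ a : B, ¬ AtomMod (cb α) a := by
  by_contra hcon
  push Not at hcon
  choose f hf using hcon
  refine not_injective_of_ordinal f ?_
  intro α β hαβ
  rcases lt_trichotomy α β with h | h | h
  · exact absurd ((hf α).mem_cb h) (by rw [hαβ]; exact (hf β).1)
  · exact h
  · exact absurd ((hf β).mem_cb h) (by rw [← hαβ]; exact (hf α).1)

variable (B) in
/-- The Cantor-Bendixson height: the least `α` such that there is no atom modulo `cb α`. -/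
noncomputable def ht : Ordinal.{u} := sInf {α : Ordinal.{u} | ∀ a : B, ¬ AtomMod (cb α) a}

theorem ht_spec (a : B) : ¬ AtomMod (cb (ht B)) a :=
  (csInf_mem (s := {α : Ordinal.{u} | ∀ a : B, ¬ AtomMod (cb α) a}) (exists_no_atom B)) a

theorem exists_atom_of_lt_ht {α : Ordinal.{u}} (h : α < ht B) : ∃ a : B, AtomMod (cb α) a := by
  have := notMem_of_lt_csInf' h
  simpa using this

/-- All Cantor-Bendixson ideals are contained in `cb (ht B)`. -/
theorem cb_subset_ht (α : Ordinal.{u}) : (cb α : Set B) ⊆ cb (ht B) := by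
  induction α using WellFoundedLT.induction with
  | ind α ih =>
    intro x hx
    rw [mem_cb] at hx
    rcases hx with hx | ⟨γ, hγ, hx⟩
    · rw [hx]; exact (cb_isId _).bot
    · exact (hx.mono (ih γ hγ)).mem_of_no_atom (cb_isId _) ht_spec

end Basic

section Hom

variable {A B : Type u} [BooleanAlgebra A] [BooleanAlgebra B]

theorem Step.iff_of_local (f : BoundedLatticeHom A B) (hf : Function.Injective f) (Q : Set A)
    (hQ : ∀ x y, y ≤ x → x ∈ Q → y ∈ Q) (hfQ : ∀ x ∈ Q, ∀ y ≤ f x, ∃ z, f z = y)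
    (JA : Set A) (JB : Set B) (hJ : ∀ x ∈ Q, x ∈ JA ↔ f x ∈ JB) :
    ∀ x ∈ Q, Step JA x ↔ Step JB (f x) := by
  have hle : ∀ x y : A, f x ≤ f y → x ≤ y := by
    intro x y h
    have : f (x ⊓ y) = f x := by rw [map_inf]; exact inf_eq_left.2 h
    exact inf_eq_left.1 (hf this)
  have hat : ∀ x ∈ Q, AtomMod JA x ↔ AtomMod JB (f x) := by
    intro x hx
    constructor
    · rintro ⟨h1, h2⟩
      refine ⟨fun h => h1 ((hJ x hx).2 h), fun y hy => ?_⟩
      obtain ⟨z, rfl⟩ := hfQ x hx y hy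
      have hz := hle _ _ hy
      rw [← map_sdiff']
      exact (h2 z hz).imp (fun h => (hJ z (hQ _ _ hz hx)).1 h)
        (fun h => (hJ _ (hQ _ _ sdiff_le hx)).1 h)
    · rintro ⟨h1, h2⟩
      refine ⟨fun h => h1 ((hJ x hx).1 h), fun z hz => ?_⟩
      have := h2 (f z) (OrderHomClass.mono f hz)
      rw [← map_sdiff'] at this
      exact this.imp (fun h => (hJ z (hQ _ _ hz hx)).2 h)
        (fun h => (hJ _ (hQ _ _ sdiff_le hx)).2 h)
  intro x hx
  constructor
  · intro h
    induction h with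
    | base x h => exact Step.base _ ((hJ x hx).1 h)
    | atom x h => exact Step.atom _ ((hat x hx).1 h)
    | sup x y _ _ ih1 ih2 =>
      rw [map_sup]
      exact Step.sup _ _ (ih1 (hQ _ _ le_sup_left hx)) (ih2 (hQ _ _ le_sup_right hx))
  · intro h
    generalize hw : f x = w at h
    induction h generalizing x with
    | base w h => subst hw; exact Step.base _ ((hJ x hx).2 h)
    | atom w h => subst hw; exact Step.atom _ ((hat x hx).2 h)
    | sup w1 w2 _ _ ih1 ih2 =>
      obtain ⟨x1, hx1⟩ := hfQ x hx w1 (by rw [hw]; exact le_sup_left)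
      obtain ⟨x2, hx2⟩ := hfQ x hx w2 (by rw [hw]; exact le_sup_right)
      have h1 : x1 ≤ x := hle _ _ (by rw [hx1, hw]; exact le_sup_left)
      have h2 : x2 ≤ x := hle _ _ (by rw [hx2, hw]; exact le_sup_right)
      have h3 : x = x1 ⊔ x2 := hf (by rw [map_sup, hx1, hx2, hw])
      rw [h3]
      exact Step.sup _ _ (ih1 x1 (hQ _ _ h1 hx) hx1) (ih2 x2 (hQ _ _ h2 hx) hx2)

theorem cb_iff_of_local (f : BoundedLatticeHom A B) (hf : Function.Injective f) (Q : Set A)
    (hQ : ∀ x y, y ≤ x → x ∈ Q → y ∈ Q) (hfQ : ∀ x ∈ Q, ∀ y ≤ f x, ∃ z, f z = y)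
    (α : Ordinal.{u}) : ∀ x ∈ Q, x ∈ cb α ↔ f x ∈ cb α := by
  induction α using WellFoundedLT.induction with
  | ind α ih =>
    intro x hx
    rw [mem_cb, mem_cb]
    have h0 : f x = ⊥ ↔ x = ⊥ := by
      rw [← map_bot f]; exact hf.eq_iff
    rw [h0]
    refine or_congr Iff.rfl (exists_congr fun β => and_congr_right fun hβ => ?_)
    exact Step.iff_of_local f hf Q hQ hfQ _ _ (ih β hβ) x hx

theorem cb_iff_of_iso (e : A ≃o B) (α : Ordinal.{u}) (x : A) : x ∈ cb α ↔ e x ∈ cb α :=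
  cb_iff_of_local (e : BoundedLatticeHom A B) e.injective Set.univ (fun _ _ _ _ => trivial)
    (fun _ _ y _ => ⟨e.symm y, e.apply_symm_apply y⟩) α x trivial

/-- Atoms modulo `cb α` are transported by isomorphisms. -/
theorem atomMod_iff_of_iso (e : A ≃o B) (α : Ordinal.{u}) (x : A) :
    AtomMod (cb α) x ↔ AtomMod (cb α) (e x) := by
  unfold AtomMod
  rw [← cb_iff_of_iso e α x]
  refine and_congr_right fun _ => ?_
  constructor
  · intro h y hy
    have := h (e.symm y) (by rw [← e.le_iff_le]; simpa using hy)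
    rw [cb_iff_of_iso e, cb_iff_of_iso e, map_sdiff'] at this
    simpa using this
  · intro h y hy
    have := h (e y) (e.monotone hy)
    rw [← map_sdiff', ← cb_iff_of_iso e, ← cb_iff_of_iso e] at this
    exact this

end Hom

end Pool.Agent.Lib.MP_8a899a_lc
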