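import Pool.Agent.Lib.MP_8a899a_lc.Tree

set_option autoImplicit false
set_option linter.unusedSectionVars false

/-!
# Coding subsets of a cardinal by small algebras below a large element
-/

universe u

namespace Pool.Agent.Lib.MP_8a899a_lc

open Set Cardinal

variable {B : Type u} [BooleanAlgebra B] {κ : Cardinal.{u}}

section Star

variable (h : HasStar κ B) (hκ : ℵ₀ ≤ κ) (hns : ¬ Superatomic B)
  {μ ρ δ : Cardinal.{u}} (hgen : CofGen (small κ B) μ) (hμω : ℵ₀ ≤ μ) (hρω : ℵ₀ ≤ ρ)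
  (hρμ : ρ ≤ μ) (hμδ : Order.succ μ ≤ δ) (hpow : ∀ χ < ρ, δ ^ χ ≤ δ)

include h hκ hns hgen hμω hρω hρμ hμδ hpow

theorem HasStar.spec_of_large (i : Ordinal.{u}) (hi : i < ρ.ord) {x0 : B}
    (hx0 : x0 ∈ small κ B) (hx0δ : δ < #(Iic x0)) : Spec μ x0 i := by
  have hδω : ℵ₀ ≤ δ := hμω.trans ((Order.le_succ _).trans hμδ)
  have hne : ∀ x : B, δ < #(Iic x) → x ≠ ⊥ := by
    rintro x hx rfl
    rw [card_iic_bot] at hx
    exact absurd (one_lt_aleph0.trans_le hδω) (not_lt_of_gt hx)
  let ι : Type u := ULift.{u} ℕ × Bool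
  have hι : #ι ≤ ρ := mk_le_aleph0.trans hρω
  have : Infinite ι := inferInstance
  obtain ⟨y, hyx, hdis, hyl⟩ := h.exists_pieces hκ hns hgen hμω hρω hρμ hμδ hpow hx0 hx0δ
    ι hι
  have hyne : ∀ k, y k ≠ ⊥ := fun k => hne _ (hyl k).2
  have hR : ∀ k : ι, ∃ A : BooleanSubalgebra B, IsLoc A (y k) ∧ LocCard A (y k) μ ∧
      ∃ hx : y k ∈ A, (k.2 = true → (⟨y k, hx⟩ : A) ∈ (cb (Order.succ i) : Set A) ∧
        (⟨y k, hx⟩ : A) ∉ (cb i : Set A)) ∧
      (k.2 = false → ∀ z ∈ (cb (ht A) : Set A), (z : B) ≤ y k → z = ⊥) := by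
    rintro ⟨n, b⟩
    cases b with
    | true =>
      obtain ⟨A, h1, h2, h3, h4⟩ := h.exRank_of_large hκ hns hgen hμω hρω hρμ hμδ hpow i hi
        (y (n, true)) (hyl _).1 (hyl _).2
      exact ⟨A, h1, h2, h3, fun _ => h4, fun h5 => by simp at h5⟩
    | false =>
      obtain ⟨A, h1, h2, h3⟩ := atl_of_notMem hμω (y := y (n, false)) (by
        intro h4
        have h5 := h.cb_subset_low hκ hns hgen hμω (ht B) h4
        exact absurd ((mem_low.1 h5).trans ((Order.le_succ _).trans hμδ))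
          (not_le_of_gt (hyl _).2))
      exact ⟨A, h1, h2, h1.1, fun h5 => by simp at h5, fun _ => h3⟩
  choose A hloc hcard hyA hT hF using hR
  have hSloc : IsLoc (sumAlg x0 y A hyA) x0 := sumAlg_isLoc x0 y A hyA hyx
  have hinj : ∀ b : Bool, Function.Injective (fun n : ℕ => ((ULift.up n, b) : ι)) := by
    intro b m n hmn
    simpa using hmn
  have hnsa : ∀ k : ι, k.2 = false → (⟨y k, hyA k⟩ : A k) ∉ (cb (ht (A k)) : Set (A k)) := by
    intro k hk h1
    exact hyne k (congrArg Subtype.val (hF k hk _ h1 le_rfl))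
  have hN : {k | (⟨y k, hyA k⟩ : A k) ∉ (cb (ht (A k)) : Set (A k))}.Infinite :=
    Set.infinite_of_injective_forall_mem (hinj false) fun n => hnsa _ rfl
  have hQT : ∀ k : ι, k.2 = true → ∀ α, (⟨y k, hyA k⟩ : A k) ∈ Qs α (A k) ↔
      Order.succ i ≤ α := by
    intro k hk α
    rw [mem_Qs_iff_of_mem_cb (cb_subset_ht _ (hT k hk).1)]
    constructor
    · intro h1
      by_contra h2
      rw [Order.succ_le_iff, not_lt] at h2
      exact (hT k hk).2 (cb_mono h2 h1)
    · intro h1
      exact cb_mono h1 (hT k hk).1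
  have hQF : ∀ k : ι, k.2 = false → ∀ α, (⟨y k, hyA k⟩ : A k) ∈ Qs α (A k) := by
    intro k hk α
    exact mem_Qs_of_atomless (hF k hk)
  have hP : ∀ (k : ι) (j : Ordinal.{u}), ¬ Phi j (⟨y k, hyA k⟩ : A k) := by
    rintro k j
    rcases hb : k.2 with _ | _
    · exact not_phi_of_atomless (hF k hb)
    · exact not_phi_of_mem_cb (cb_subset_ht _ (hT k hb).1)
  refine ⟨sumAlg x0 y A hyA, hSloc, ?_, hSloc.1, ?_, ?_, ?_⟩
  · exact sumAlg_locCard x0 y A hyA hμω (hι.trans hρμ) hyx hcard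
  · intro h1
    have hyS : y (ULift.up 0, false) ∈ sumAlg x0 y A hyA :=
      mem_sumAlg_of_le x0 y A hyA hdis le_rfl (hyA _)
    refine hnsa (ULift.up 0, false) rfl ?_
    rw [← sumAlg_sa_iff hyx hdis hloc (ULift.up 0, false) le_rfl hyS]
    exact (cb_isId _).down _ _
      (show (⟨y (ULift.up 0, false), hyS⟩ : sumAlg x0 y A hyA) ≤ ⟨x0, hSloc.1⟩ from hyx _) h1
  · intro j
    rw [sumAlg_phi_iff hyx hdis hloc hN]
    constructor
    · rintro (⟨k, hk⟩ | ⟨hfin, hinf⟩)
      · exact absurd hk (hP k j)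
      · apply le_antisymm
        · by_contra h1
          rw [not_le] at h1
          obtain ⟨k, hk⟩ := hinf.nonempty
          apply hk
          rcases hb : k.2 with _ | _
          · exact hQF k hb j
          · exact (hQT k hb j).2 (Order.succ_le_of_lt h1)
        · by_contra h1
          rw [not_le] at h1
          refine Set.infinite_of_injective_forall_mem (hinj true) (fun n => ?_) hfin
          intro h2
          have h3 := (hQT (ULift.up n, true) rfl _).1 h2
          exact absurd (Order.succ_le_succ_iff.1 h3) (not_le_of_gt h1)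
    · rintro rfl
      right
      constructor
      · convert Set.finite_empty
        rw [Set.eq_empty_iff_forall_notMem]
        intro k hk
        apply hk
        rcases hb : k.2 with _ | _
        · exact hQF k hb _
        · exact (hQT k hb _).2 le_rfl
      · refine Set.infinite_of_injective_forall_mem (hinj true) (fun n => ?_)
        intro h2
        have h3 := (hQT (ULift.up n, true) rfl _).1 h2
        exact absurd (Order.lt_succ j) (not_lt_of_ge h3)
  · intro α
    have hcoe : ∀ k, (⟨x0 ⊓ y k, hSloc.1.1 k⟩ : A k) = ⟨y k, hyA k⟩ := fun k =>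
      Subtype.ext (inf_eq_right.2 (hyx k))
    rw [sumAlg_mem_Qs_iff hyx hdis hloc hN hSloc.1 le_rfl]
    constructor
    · intro h1
      have h2 := h1 (ULift.up 0, true)
      rw [hcoe] at h2
      exact (hQT (ULift.up 0, true) rfl _).1 h2
    · intro h1 k
      rw [hcoe]
      rcases hb : k.2 with _ | _
      · exact hQF k hb _
      · exact (hQT k hb _).2 h1

theorem HasStar.coded_of_large (f : ρ.ord.ToType → Ordinal.{u}) (hf : Function.Injective f)
    (hfρ : ∀ k, f k < ρ.ord) {x0 : B}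
    (hx0 : x0 ∈ small κ B) (hx0δ : δ < #(Iic x0)) : Coded μ x0 (range f) := by
  have hι : #ρ.ord.ToType ≤ ρ := by rw [mk_toType, card_ord]
  have : Infinite ρ.ord.ToType := by
    rw [infinite_iff, mk_toType, card_ord]; exact hρω
  obtain ⟨y, hyx, hdis, hyl⟩ := h.exists_pieces hκ hns hgen hμω hρω hρμ hμδ hpow hx0 hx0δ
    _ hι
  have hR : ∀ k, Spec μ (y k) (f k) := fun k =>
    h.spec_of_large hκ hns hgen hμω hρω hρμ hμδ hpow (f k) (hfρ k) (hyl k).1 (hyl k).2
  choose A hloc hcard hyA hnot hphi hQs using hR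
  have hSloc : IsLoc (sumAlg x0 y A hyA) x0 := sumAlg_isLoc x0 y A hyA hyx
  have hN : {k | (⟨y k, hyA k⟩ : A k) ∉ (cb (ht (A k)) : Set (A k))}.Infinite := by
    have h1 : {k | (⟨y k, hyA k⟩ : A k) ∉ (cb (ht (A k)) : Set (A k))} = Set.univ :=
      Set.eq_univ_of_forall fun k => hnot k
    rw [h1]; exact Set.infinite_univ
  refine ⟨sumAlg x0 y A hyA, hSloc, ?_, hSloc.1, ?_⟩
  · exact sumAlg_locCard x0 y A hyA hμω (hι.trans hρμ) hyx hcard
  · intro j
    rw [sumAlg_phi_iff hyx hdis hloc hN]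
    constructor
    · rintro (⟨k, hk⟩ | ⟨hfin, hinf⟩)
      · exact ⟨k, ((hphi k j).1 hk).symm⟩
      · exfalso
        have h1 : {k | (⟨y k, hyA k⟩ : A k) ∉ Qs j (A k)} ⊆
            {k | (⟨y k, hyA k⟩ : A k) ∉ Qs (Order.succ j) (A k)} ∪ {k | f k = j} := by
          intro k hk
          have h2 : ¬ Order.succ (f k) ≤ j := fun h3 => hk ((hQs k j).2 h3)
          rw [Order.succ_le_iff, not_lt] at h2
          rcases h2.lt_or_eq with h3 | h3
          · left
            intro h4
            have h5 := (hQs k _).1 h4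
            exact absurd (Order.succ_le_succ_iff.1 h5) (not_le_of_gt h3)
          · right
            exact h3.symm
        have h2 : {k | f k = j}.Finite := by
          refine Set.Subsingleton.finite ?_
          intro k hk k' hk'
          exact hf (hk.trans hk'.symm)
        exact hinf ((hfin.union h2).subset h1)
    · rintro ⟨k, rfl⟩
      exact Or.inl ⟨k, (hphi k _).2 rfl⟩

/-- If some element of the canonical ideal has more than `δ` elements below it, then there are
`2 ^ ρ` isomorphism types of algebras of size at most `μ`. -/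
theorem HasStar.two_power_le {x0 : B} (hx0 : x0 ∈ small κ B) (hx0δ : δ < #(Iic x0)) :
    2 ^ ρ ≤ μ := by
  classical
  have hμκ : μ < κ := ((Order.le_succ _).trans hμδ).trans_lt (hx0δ.trans hx0)
  let ι : Type u := ρ.ord.ToType
  have hιc : #ι = ρ := by rw [mk_toType, card_ord]
  obtain ⟨c⟩ : Nonempty (ι × ULift.{u} Bool ↪ ι) := by
    change #(ι × ULift.{u} Bool) ≤ #ι
    rw [mk_prod, lift_id, lift_id, hιc]
    refine mul_le_of_le hρω le_rfl ?_
    exact (lt_aleph0_of_finite _).le.trans hρω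
  let f : Set ι → ι → Ordinal.{u} := fun Z k =>
    ((c (k, ULift.up (decide (k ∈ Z)))).toOrd : Ordinal.{u})
  have hfeq : ∀ (a b : ι × ULift.{u} Bool),
      ((c a).toOrd : Ordinal.{u}) = ((c b).toOrd : Ordinal.{u}) → a = b := by
    intro a b hab
    have h1 : (c a).toOrd = (c b).toOrd := Subtype.ext hab
    exact c.injective (Ordinal.ToType.mk.symm.injective h1)
  have hfinj : ∀ Z, Function.Injective (f Z) := by
    intro Z k k' hkk
    have h1 := hfeq _ _ hkk
    exact congrArg Prod.fst h1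
  have hfρ : ∀ Z k, f Z k < ρ.ord := fun Z k => (c (k, ULift.up (decide (k ∈ Z)))).toOrd.2
  have hcode : ∀ Z, Coded μ x0 (range (f Z)) := fun Z =>
    h.coded_of_large hκ hns hgen hμω hρω hρμ hμδ hpow (f Z) (hfinj Z) (hfρ Z) hx0 hx0δ
  have hw : ∀ Z : Set ι, ∃ w : B, w ∈ low μ B ∩ small κ B ∧ ∀ j, Phi j w ↔ j ∈ range (f Z) := by
    intro Z
    obtain ⟨A, hloc, hcard, hxA, hphi⟩ := hcode Z
    have h3 : ∀ b ∈ Iic x0ᶜ, b ∈ A := by
      intro b hb
      apply hloc.2
      have hb' : b ≤ x0ᶜ := hb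
      rw [(le_compl_iff_disjoint_right.1 hb').eq_bot]
      exact A.bot_mem
    have h4 : κ ≤ #(Iic x0ᶜ) := not_lt.1 (h.compl_notMem_small hκ hx0)
    obtain ⟨e⟩ := h.iso A _ h3 h4
    have h5 : #(Iic (e ⟨x0, hxA⟩)) ≤ μ := by
      rw [card_iic_iso]
      refine le_trans ?_ hcard
      refine mk_le_of_injective (f := fun y : Iic (⟨x0, hxA⟩ : A) =>
        (⟨((y : A) : B), (y : A).2, y.2⟩ : {b : B | b ∈ A ∧ b ≤ x0})) ?_
      intro y z hyz
      have h6 : ((y : A) : B) = ((z : A) : B) :=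
        congrArg (fun w : {b : B | b ∈ A ∧ b ≤ x0} => (w : B)) hyz
      exact Subtype.ext (Subtype.ext h6)
    refine ⟨e ⟨x0, hxA⟩, ⟨h5, h5.trans_lt hμκ⟩, fun j => ?_⟩
    rw [← phi_iso e, hphi]
  choose w hw1 hw2 using hw
  have hwinj : Function.Injective (fun Z => (⟨w Z, hw1 Z⟩ : (low μ B ∩ small κ B : Set B))) := by
    intro Z Z' hZ
    have h1 : w Z = w Z' := congrArg Subtype.val hZ
    have h2 : ∀ j, j ∈ range (f Z) ↔ j ∈ range (f Z') := by
      intro j
      rw [← hw2, ← hw2, h1]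
    have h3 : ∀ (Y : Set ι) (k : ι), ((c (k, ULift.up true)).toOrd : Ordinal.{u}) ∈ range (f Y) ↔
        k ∈ Y := by
      intro Y k
      constructor
      · rintro ⟨k', hk'⟩
        have h4 := hfeq _ _ hk'
        have h5 : k' = k := congrArg Prod.fst h4
        have h6 : decide (k' ∈ Y) = true := congrArg (fun p => p.2.down) h4
        rw [← h5]
        exact of_decide_eq_true h6
      · intro hk
        refine ⟨k, ?_⟩
        change ((c (k, ULift.up (decide (k ∈ Y)))).toOrd : Ordinal.{u}) = _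
        rw [decide_eq_true hk]
    ext k
    rw [← h3 Z, ← h3 Z', h2]
  have h1 := mk_le_of_injective hwinj
  rw [mk_set, hιc] at h1
  exact h1.trans (h.card_low_inter_small_le hκ hns hgen hμω le_rfl)

end Star

/-- In an algebra with property `(∗)_κ` which is not superatomic, the principal ideals of the
canonical ideal are of bounded size, under a hypothesis on the cardinal arithmetic below `κ`. -/
theorem HasStar.bounded' (h : HasStar κ B) (hκ : ℵ₀ ≤ κ) (hns : ¬ Superatomic B)
    {ρ δ : Cardinal.{u}} (hρω : ℵ₀ ≤ ρ) (hρμ : ρ ≤ κ.ord.cof) (hμρ : κ.ord.cof < 2 ^ ρ)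
    (hδκ : δ < κ) (hμδ : Order.succ κ.ord.cof ≤ δ) (hpow : ∀ χ < ρ, δ ^ χ ≤ δ) :
    ∃ ν < κ, ∀ x ∈ small κ B, #(Iic x) ≤ ν := by
  by_contra hcon
  push Not at hcon
  have hgen := h.cofGen_small hκ hns hcon
  obtain ⟨x, hx, hxδ⟩ := hcon δ hδκ
  exact absurd (h.two_power_le hκ hns hgen (aleph0_le_cof hκ) hρω hρμ hμδ hpow hx hxδ)
    (not_le_of_gt hμρ)

end Pool.Agent.Lib.MP_8a899a_lc
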