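import Pool.Agent.Lib.MP_8a899a_lc.Tree

set_option autoImplicit false
set_option linter.unusedSectionVars false

/-!
# Countable algebras below an element which is not superatomic
-/

universe u

namespace Pool.Agent.Lib.MP_8a899a_lc

open Set Cardinal

variable {B : Type u} [BooleanAlgebra B] {κ : Cardinal.{u}}

/-- Below an element which is not superatomic there are infinitely many disjoint elements which
are not superatomic. -/
theorem exists_pieces_of_notMem (ι : Type u) (hι : #ι ≤ ℵ₀) {x0 : B}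
    (hx0 : x0 ∉ (cb (ht B) : Set B)) : ∃ y : ι → B, (∀ i, y i ≤ x0) ∧
      Pairwise (Function.onFun Disjoint y) ∧ ∀ i, y i ∉ (cb (ht B) : Set B) := by
  set S : Set B := cb (ht B) with hS
  have h1 : ∀ a : B, ∃ z, a ∉ S → z ≤ a ∧ z ∉ S ∧ a \ z ∉ S := by
    intro a
    by_cases ha : a ∈ S
    · exact ⟨⊥, fun h2 => absurd ha h2⟩
    · by_contra hcon
      push Not at hcon
      refine ht_spec a ⟨ha, fun z hz => ?_⟩
      by_contra hcon2
      push Not at hcon2
      exact hcon2.2 ((hcon z).2 hz hcon2.1)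
  choose g hg using h1
  let a : ℕ → B := fun n => Nat.rec x0 (fun _ b => b \ g b) n
  have ha : ∀ n, a n ∉ S := by
    intro n
    induction n with
    | zero => exact hx0
    | succ n ih => exact (hg _ ih).2.2
  have hmono : ∀ n m, n ≤ m → a m ≤ a n := by
    intro n m hnm
    induction m, hnm using Nat.le_induction with
    | base => exact le_rfl
    | succ m _ ih => exact le_trans sdiff_le ih
  have hdis : ∀ n m, n < m → Disjoint (g (a n)) (g (a m)) := by
    intro n m hnm
    have h2 : g (a m) ≤ a n \ g (a n) := ((hg _ (ha m)).1).trans (hmono (n + 1) m hnm)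
    exact (disjoint_sdiff_self_right).mono_right h2
  have hc : Countable ι := mk_le_aleph0_iff.1 hι
  obtain ⟨e, he⟩ := exists_injective_nat ι
  refine ⟨fun i => g (a (e i)), fun i => ?_, ?_, fun i => (hg _ (ha _)).2.1⟩
  · exact ((hg _ (ha _)).1).trans (hmono 0 _ (Nat.zero_le _))
  · intro i j hij
    rcases lt_or_gt_of_ne (he.ne hij) with h2 | h2
    · exact hdis _ _ h2
    · exact (hdis _ _ h2).symm

theorem exRank_of_notMem (β : Ordinal.{u}) : β < (ℵ₀ : Cardinal.{u}).ord →
    ∀ x0 : B, x0 ∉ (cb (ht B) : Set B) → ExRank (ℵ₀ : Cardinal.{u}) x0 β := by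
  have hne : ∀ x : B, x ∉ (cb (ht B) : Set B) → x ≠ ⊥ := by
    rintro x hx rfl
    exact hx (cb_isId _).bot
  induction β using WellFoundedLT.induction with
  | ind β ih =>
    intro hβρ x0 hx0
    by_cases hβ0 : β = 0
    · rw [hβ0]
      exact exRank_zero le_rfl (hne x0 hx0)
    · let ι : Type u := β.ToType × ULift.{u} ℕ
      have hβne : Nonempty β.ToType := by
        rw [← mk_ne_zero_iff, mk_toType]
        simpa using hβ0
      have hι : #ι ≤ ℵ₀ := by
        rw [mk_prod, lift_id, lift_id, mk_toType, mk_uLift, mk_nat, lift_aleph0]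
        exact mul_le_of_le le_rfl (lt_ord.1 hβρ).le le_rfl
      have : Infinite ι := inferInstance
      obtain ⟨y, hyx, hdis, hyl⟩ := exists_pieces_of_notMem ι hι hx0
      have hR : ∀ i : ι, ExRank (ℵ₀ : Cardinal.{u}) (y i) (i.1.toOrd : Ordinal.{u}) := fun i =>
        ih _ i.1.toOrd.2 ((show (i.1.toOrd : Ordinal.{u}) < β from i.1.toOrd.2).trans hβρ) _
          (hyl i)
      choose A hloc hcard hyA hsucc hnot using hR
      have hSloc : IsLoc (sumAlg x0 y A hyA) x0 := sumAlg_isLoc x0 y A hyA hyx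
      have hx0not := sumAlg_notMem_cb (hy := hyA) hyx hdis hloc (fun i => hne _ (hyl i)) β (by
        intro γ hγ
        have h1 : Function.Injective
            (fun n : ℕ => ((Ordinal.ToType.mk ⟨γ, hγ⟩, ULift.up n) : ι)) := by
          intro m n hmn
          simpa using hmn
        refine Set.infinite_of_injective_forall_mem h1 ?_
        intro n h2
        apply hnot (Ordinal.ToType.mk ⟨γ, hγ⟩, ULift.up n)
        simpa using h2) hSloc.1
      refine ⟨sumAlg x0 y A hyA, hSloc, ?_, hSloc.1, ?_, hx0not⟩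
      · exact sumAlg_locCard x0 y A hyA le_rfl hι hyx hcard
      · refine sumAlg_mem_cb_succ hyx hdis hloc β ?_ hSloc.1 hx0not
        intro i
        exact cb_mono (Order.succ_le_of_lt i.1.toOrd.2) (hsucc i)

theorem spec_of_notMem (i : Ordinal.{u}) (hi : i < (ℵ₀ : Cardinal.{u}).ord) {x0 : B}
    (hx0 : x0 ∉ (cb (ht B) : Set B)) : Spec (ℵ₀ : Cardinal.{u}) x0 i := by
  have hne : ∀ x : B, x ∉ (cb (ht B) : Set B) → x ≠ ⊥ := by
    rintro x hx rfl
    exact hx (cb_isId _).bot
  let ι : Type u := ULift.{u} ℕ × Bool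
  have hι : #ι ≤ ℵ₀ := mk_le_aleph0
  have : Infinite ι := inferInstance
  obtain ⟨y, hyx, hdis, hyl⟩ := exists_pieces_of_notMem ι hι hx0
  have hyne : ∀ k, y k ≠ ⊥ := fun k => hne _ (hyl k)
  have hR : ∀ k : ι, ∃ A : BooleanSubalgebra B, IsLoc A (y k) ∧
      LocCard A (y k) (ℵ₀ : Cardinal.{u}) ∧
      ∃ hx : y k ∈ A, (k.2 = true → (⟨y k, hx⟩ : A) ∈ (cb (Order.succ i) : Set A) ∧
        (⟨y k, hx⟩ : A) ∉ (cb i : Set A)) ∧
      (k.2 = false → ∀ z ∈ (cb (ht A) : Set A), (z : B) ≤ y k → z = ⊥) := by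
    rintro ⟨n, b⟩
    cases b with
    | true =>
      obtain ⟨A, h1, h2, h3, h4⟩ := exRank_of_notMem i hi (y (n, true)) (hyl _)
      exact ⟨A, h1, h2, h3, fun _ => h4, fun h5 => by simp at h5⟩
    | false =>
      obtain ⟨A, h1, h2, h3⟩ := atl_of_notMem (le_refl (ℵ₀ : Cardinal.{u}))
        (y := y (n, false)) (hyl _)
      exact ⟨A, h1, h2, h1.1, fun h5 => by simp at h5, fun _ => h3⟩
  choose A hloc hcard hyA hT hF using hR
  have hSloc : IsLoc (sumAlg x0 y A hyA) x0 := sumAlg_isLoc x0 y A hyA hyx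
  have hinj : ∀ b : Bool, Function.Injective (fun n : ℕ => ((ULift.up n, b) : ι)) := by
    intro b m n hmn
    simpa using hmn
  have hnsa : ∀ k : ι, k.2 = false → (⟨y k, hyA k⟩ : A k) ∉ (cb (ht (A k)) : Set (A k)) := by
    intro k hk h1
    exact hyne k (congrArg Subtype.val (hF k hk _ h1 le_rfl))
  have hN : {k | (⟨y k, hyA k⟩ : A k) ∉ (cb (ht (A k)) : Set (A k))}.Infinite :=
    Set.infinite_of_injective_forall_mem (hinj false) fun n => hnsa _ rfl
  have hQT : ∀ k : ι, k.2 = true → ∀ α, (⟨y k, hyA k⟩ : A k) ∈ Qs α (A k) ↔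
      Order.succ i ≤ α := by
    intro k hk α
    rw [mem_Qs_iff_of_mem_cb (cb_subset_ht _ (hT k hk).1)]
    constructor
    · intro h1
      by_contra h2
      rw [Order.succ_le_iff, not_lt] at h2
      exact (hT k hk).2 (cb_mono h2 h1)
    · intro h1
      exact cb_mono h1 (hT k hk).1
  have hQF : ∀ k : ι, k.2 = false → ∀ α, (⟨y k, hyA k⟩ : A k) ∈ Qs α (A k) := by
    intro k hk α
    exact mem_Qs_of_atomless (hF k hk)
  have hP : ∀ (k : ι) (j : Ordinal.{u}), ¬ Phi j (⟨y k, hyA k⟩ : A k) := by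
    rintro k j
    rcases hb : k.2 with _ | _
    · exact not_phi_of_atomless (hF k hb)
    · exact not_phi_of_mem_cb (cb_subset_ht _ (hT k hb).1)
  refine ⟨sumAlg x0 y A hyA, hSloc, ?_, hSloc.1, ?_, ?_, ?_⟩
  · exact sumAlg_locCard x0 y A hyA le_rfl hι hyx hcard
  · intro h1
    have hyS : y (ULift.up 0, false) ∈ sumAlg x0 y A hyA :=
      mem_sumAlg_of_le x0 y A hyA hdis le_rfl (hyA _)
    refine hnsa (ULift.up 0, false) rfl ?_
    rw [← sumAlg_sa_iff hyx hdis hloc (ULift.up 0, false) le_rfl hyS]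
    exact (cb_isId _).down _ _
      (show (⟨y (ULift.up 0, false), hyS⟩ : sumAlg x0 y A hyA) ≤ ⟨x0, hSloc.1⟩ from hyx _) h1
  · intro j
    rw [sumAlg_phi_iff hyx hdis hloc hN]
    constructor
    · rintro (⟨k, hk⟩ | ⟨hfin, hinf⟩)
      · exact absurd hk (hP k j)
      · apply le_antisymm
        · by_contra h1
          rw [not_le] at h1
          obtain ⟨k, hk⟩ := hinf.nonempty
          apply hk
          rcases hb : k.2 with _ | _
          · exact hQF k hb j
          · exact (hQT k hb j).2 (Order.succ_le_of_lt h1)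
        · by_contra h1
          rw [not_le] at h1
          refine Set.infinite_of_injective_forall_mem (hinj true) (fun n => ?_) hfin
          intro h2
          have h3 := (hQT (ULift.up n, true) rfl _).1 h2
          exact absurd (Order.succ_le_succ_iff.1 h3) (not_le_of_gt h1)
    · rintro rfl
      right
      constructor
      · convert Set.finite_empty
        rw [Set.eq_empty_iff_forall_notMem]
        intro k hk
        apply hk
        rcases hb : k.2 with _ | _
        · exact hQF k hb _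
        · exact (hQT k hb _).2 le_rfl
      · refine Set.infinite_of_injective_forall_mem (hinj true) (fun n => ?_)
        intro h2
        have h3 := (hQT (ULift.up n, true) rfl _).1 h2
        exact absurd (Order.lt_succ j) (not_lt_of_ge h3)
  · intro α
    have hcoe : ∀ k, (⟨x0 ⊓ y k, hSloc.1.1 k⟩ : A k) = ⟨y k, hyA k⟩ := fun k =>
      Subtype.ext (inf_eq_right.2 (hyx k))
    rw [sumAlg_mem_Qs_iff hyx hdis hloc hN hSloc.1 le_rfl]
    constructor
    · intro h1
      have h2 := h1 (ULift.up 0, true)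
      rw [hcoe] at h2
      exact (hQT (ULift.up 0, true) rfl _).1 h2
    · intro h1 k
      rw [hcoe]
      rcases hb : k.2 with _ | _
      · exact hQF k hb _
      · exact (hQT k hb _).2 h1

/-- Every set of natural numbers with infinitely many elements is coded by a countable local
algebra below an element which is not superatomic. -/
theorem coded_of_notMem (f : ULift.{u} ℕ → Ordinal.{u}) (hf : Function.Injective f)
    (hfρ : ∀ k, f k < (ℵ₀ : Cardinal.{u}).ord) {x0 : B} (hx0 : x0 ∉ (cb (ht B) : Set B)) :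
    Coded (ℵ₀ : Cardinal.{u}) x0 (range f) := by
  have hι : #(ULift.{u} ℕ) ≤ ℵ₀ := mk_le_aleph0
  obtain ⟨y, hyx, hdis, hyl⟩ := exists_pieces_of_notMem (ULift.{u} ℕ) hι hx0
  have hR : ∀ k, Spec (ℵ₀ : Cardinal.{u}) (y k) (f k) := fun k =>
    spec_of_notMem (f k) (hfρ k) (hyl k)
  choose A hloc hcard hyA hnot hphi hQs using hR
  have hSloc : IsLoc (sumAlg x0 y A hyA) x0 := sumAlg_isLoc x0 y A hyA hyx
  have hN : {k | (⟨y k, hyA k⟩ : A k) ∉ (cb (ht (A k)) : Set (A k))}.Infinite := by
    have h1 : {k | (⟨y k, hyA k⟩ : A k) ∉ (cb (ht (A k)) : Set (A k))} = Set.univ :=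
      Set.eq_univ_of_forall fun k => hnot k
    rw [h1]; exact Set.infinite_univ
  refine ⟨sumAlg x0 y A hyA, hSloc, ?_, hSloc.1, ?_⟩
  · exact sumAlg_locCard x0 y A hyA le_rfl hι hyx hcard
  · intro j
    rw [sumAlg_phi_iff hyx hdis hloc hN]
    constructor
    · rintro (⟨k, hk⟩ | ⟨hfin, hinf⟩)
      · exact ⟨k, ((hphi k j).1 hk).symm⟩
      · exfalso
        have h1 : {k | (⟨y k, hyA k⟩ : A k) ∉ Qs j (A k)} ⊆
            {k | (⟨y k, hyA k⟩ : A k) ∉ Qs (Order.succ j) (A k)} ∪ {k | f k = j} := by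
          intro k hk
          have h2 : ¬ Order.succ (f k) ≤ j := fun h3 => hk ((hQs k j).2 h3)
          rw [Order.succ_le_iff, not_lt] at h2
          rcases h2.lt_or_eq with h3 | h3
          · left
            intro h4
            have h5 := (hQs k _).1 h4
            exact absurd (Order.succ_le_succ_iff.1 h5) (not_le_of_gt h3)
          · right
            exact h3.symm
        have h2 : {k | f k = j}.Finite := by
          refine Set.Subsingleton.finite ?_
          intro k hk k' hk'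
          exact hf (hk.trans hk'.symm)
        exact hinf ((hfin.union h2).subset h1)
    · rintro ⟨k, rfl⟩
      exact Or.inl ⟨k, (hphi k _).2 rfl⟩

/-- An algebra with property `(∗)_κ` which is not superatomic has at least `2 ^ ω` elements:
there are `2 ^ ω` isomorphism types of countable algebras below its small elements. -/
theorem HasStar.two_power_aleph0_le (h : HasStar κ B) (hκ : ℵ₀ ≤ κ) (hns : ¬ Superatomic B) :
    2 ^ (ℵ₀ : Cardinal.{u}) ≤ κ := by
  classical
  -- a small element which is not superatomic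
  have htop : (⊤ : B) ∉ (cb (ht B) : Set B) := fun h1 => hns (superatomic_of_top_mem h1)
  obtain ⟨x0, hx0, hx0S⟩ : ∃ x0 ∈ small κ B, x0 ∉ (cb (ht B) : Set B) := by
    obtain ⟨y, _, hdis, hyl⟩ := exists_pieces_of_notMem (ULift.{u} Bool) mk_le_aleph0 htop
    have hd : y ⟨true⟩ ≤ (y ⟨false⟩)ᶜ := by
      have h1 : Disjoint (y ⟨true⟩) (y ⟨false⟩) := hdis (by simp)
      exact h1.le_compl_right
    rcases h.mem_small_or hκ hns (y ⟨false⟩) with h1 | h1
    · exact ⟨_, h1, hyl _⟩
    · exact ⟨_, (small_isId hκ).down _ _ hd h1, hyl _⟩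
  -- the codes
  let f : Set ℕ → ULift.{u} ℕ → Ordinal.{u} := fun Z k =>
    ((2 * k.down + (if k.down ∈ Z then 1 else 0) : ℕ) : Ordinal.{u})
  have hf : ∀ (Z Z' : Set ℕ) (k k' : ULift.{u} ℕ), f Z k = f Z' k' →
      k = k' ∧ (k.down ∈ Z ↔ k'.down ∈ Z') := by
    intro Z Z' k k' hkk
    have h1 : 2 * k.down + (if k.down ∈ Z then 1 else 0) =
        2 * k'.down + (if k'.down ∈ Z' then 1 else 0) := Nat.cast_injective (R := Ordinal.{u}) hkk
    have h2 : k.down = k'.down ∧ (k.down ∈ Z ↔ k'.down ∈ Z') := by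
      by_cases h3 : k.down ∈ Z <;> by_cases h4 : k'.down ∈ Z' <;>
        simp only [h3, h4, if_true, if_false, iff_self, and_true, iff_false, iff_true,
          not_true_eq_false, and_false] at h1 ⊢ <;> omega
    exact ⟨ULift.ext _ _ h2.1, h2.2⟩
  have hfinj : ∀ Z, Function.Injective (f Z) := fun Z k k' hkk => (hf Z Z k k' hkk).1
  have hfρ : ∀ Z k, f Z k < (ℵ₀ : Cardinal.{u}).ord := by
    intro Z k
    rw [ord_aleph0]
    exact Ordinal.natCast_lt_omega0 _
  have hw : ∀ Z : Set ℕ, ∃ w : B, ∀ j, Phi j w ↔ j ∈ range (f Z) := by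
    intro Z
    obtain ⟨A, hloc, _, hxA, hphi⟩ := coded_of_notMem (f Z) (hfinj Z) (hfρ Z) hx0S
    have h3 : ∀ b ∈ Iic x0ᶜ, b ∈ A := by
      intro b hb
      apply hloc.2
      have hb' : b ≤ x0ᶜ := hb
      rw [(le_compl_iff_disjoint_right.1 hb').eq_bot]
      exact A.bot_mem
    have h4 : κ ≤ #(Iic x0ᶜ) := not_lt.1 (h.compl_notMem_small hκ hx0)
    obtain ⟨e⟩ := h.iso A _ h3 h4
    refine ⟨e ⟨x0, hxA⟩, fun j => ?_⟩
    rw [← phi_iso e, hphi]
  choose w hw using hw
  have hwinj : Function.Injective (fun Z : ULift.{u} (Set ℕ) => w Z.down) := by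
    intro Z Z' hZ
    have h2 : ∀ j, j ∈ range (f Z.down) ↔ j ∈ range (f Z'.down) := by
      intro j
      rw [← hw, ← hw]
      have h1 : w Z.down = w Z'.down := hZ
      rw [h1]
    have h3 : ∀ (Y Y' : Set ℕ), (∀ j, j ∈ range (f Y) → j ∈ range (f Y')) →
        ∀ k ∈ Y, k ∈ Y' := by
      intro Y Y' hYY k hk
      obtain ⟨k', hk'⟩ := hYY _ ⟨ULift.up k, rfl⟩
      obtain ⟨h4, h5⟩ := hf _ _ _ _ hk'
      have h6 : k'.down = k := congrArg ULift.down h4
      rw [h6] at h5
      exact h5.2 hk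
    apply ULift.ext
    ext k
    exact ⟨h3 _ _ (fun j => (h2 j).1) k, h3 _ _ (fun j => (h2 j).2) k⟩
  have h1 := mk_le_of_injective hwinj
  rw [mk_uLift, mk_set, mk_nat, h.1] at h1
  simpa using h1

end Pool.Agent.Lib.MP_8a899a_lc
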