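import Pool.Agent.Lib.MP_8a899a_lc.Sum

set_option autoImplicit false
set_option linter.unusedSectionVars false

/-!
# The principal ideals of the canonical ideal are of bounded size
-/

universe u

namespace Pool.Agent.Lib.MP_8a899a_lc

open Set Cardinal

variable {B : Type u} [BooleanAlgebra B] {κ : Cardinal.{u}}

/-- A map onto the ordinals below `β` with infinite fibres. -/
theorem exists_fibres {D : Type u} (β : Ordinal.{u}) (hβ : β ≠ 0) (hD : ℵ₀ ≤ #D)
    (hβD : β.card ≤ #D) : ∃ f : D → Ordinal.{u}, (∀ d, f d < β) ∧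
      ∀ γ < β, {d | γ ≤ f d}.Infinite := by
  classical
  have hne : Nonempty β.ToType := by
    rw [← mk_ne_zero_iff, mk_toType]
    simpa using hβ
  have h1 : #(β.ToType × ULift.{u} ℕ) ≤ #D := by
    rw [mk_prod, lift_id, lift_id, mk_toType, mk_uLift, mk_nat, lift_aleph0]
    exact mul_le_of_le hD hβD hD
  obtain ⟨g⟩ := h1
  have hne2 : Nonempty (β.ToType × ULift.{u} ℕ) := inferInstance
  refine ⟨fun d => ((Function.invFun g d).1.toOrd : Ordinal.{u}), fun d => ?_, fun γ hγ => ?_⟩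
  · exact (Function.invFun g d).1.toOrd.2
  · set i : β.ToType := Ordinal.ToType.mk ⟨γ, hγ⟩ with hi
    have h2 : Function.Injective (fun n : ℕ => g (i, ULift.up n)) := by
      intro m n hmn
      have := g.injective hmn
      simpa using this
    refine Set.infinite_of_injective_forall_mem h2 ?_
    intro n
    have h3 : Function.invFun g (g (i, ULift.up n)) = (i, ULift.up n) :=
      Function.leftInverse_invFun g.injective _
    change γ ≤ ((Function.invFun g (g (i, ULift.up n))).1.toOrd : Ordinal.{u})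
    rw [h3, hi]
    simp

/-- In an algebra with property `(∗)_κ` which is not superatomic, the principal ideals of the
canonical ideal are of bounded size, if `δ ^ ρ ≤ δ` for all `ρ < cof κ`, for some `δ` with
`cof κ < δ < κ`. -/
theorem HasStar.bounded (h : HasStar κ B) (hκ : ℵ₀ ≤ κ) (hns : ¬ Superatomic B)
    {δ : Cardinal.{u}} (hδκ : δ < κ) (hμδ : Order.succ κ.ord.cof ≤ δ)
    (hpow : ∀ ρ < κ.ord.cof, δ ^ ρ ≤ δ) :
    ∃ ν < κ, ∀ x ∈ small κ B, #(Iic x) ≤ ν := by
  by_contra hcon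
  push Not at hcon
  have hgen := h.cofGen_small hκ hns hcon
  have hμω := aleph0_le_cof hκ
  have hreg : κ.ord.cof.IsRegular := isRegular_cof (isSuccLimit_ord hκ)
  have hδω : ℵ₀ ≤ δ := hμω.trans ((Order.le_succ _).trans hμδ)
  set E : Set Ordinal.{u} := {β | ∃ x ∈ small κ B, δ < #(Iic x) ∧ ¬ HasRank x β} with hE
  have hEne : ht B ∈ E := by
    obtain ⟨x, hx, hxδ⟩ := hcon δ hδκ
    exact ⟨x, hx, hxδ, h.not_hasRank hκ hx⟩
  obtain ⟨x0, hx0, hx0δ, hx0r⟩ : sInf E ∈ E := csInf_mem ⟨_, hEne⟩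
  set β := sInf E with hβ
  have hmin : ∀ y ∈ small κ B, δ < #(Iic y) → ∀ γ < β, HasRank y γ := by
    intro y hy hyδ γ hγ
    by_contra hcon2
    have hγE : γ ∈ E := ⟨y, hy, hyδ, hcon2⟩
    exact absurd (csInf_le' hγE) (not_le_of_gt hγ)
  have hβcard : β.card ≤ κ.ord.cof :=
    (Ordinal.card_le_card (csInf_le' hEne)).trans (h.card_ht_le hκ hns hgen hμω)
  -- there is a disjoint family
  obtain ⟨D, hDx, hDdis, hDδ, hDμ⟩ : ∃ D : Set B, D ⊆ Iic x0 ∧ D.PairwiseDisjoint id ∧
      (∀ d ∈ D, d ∉ low δ B) ∧ κ.ord.cof ≤ #D := by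
    by_contra hcon2
    push Not at hcon2
    obtain ⟨N, hN, hNx, hNg⟩ := exists_not_cofGen x0 (low δ B) κ.ord.cof hμω le_rfl hμδ hpow
      (low_isId hδω) (h.card_low_le hκ hns hgen hδω ((Order.le_succ _).trans hμδ) hx0) hx0δ
      hcon2
    exact hNg (h.cofGen_of_le hκ hns hgen hx0 hN hNx)
  have hDsm : ∀ d : D, (d : B) ∈ small κ B := fun d => (small_isId hκ).down _ _ (hDx d.2) hx0
  have hDd : ∀ d : D, δ < #(Iic (d : B)) := fun d => not_le.1 (hDδ d d.2)
  have hDne : ∀ d : D, (d : B) ≠ ⊥ := by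
    rintro d h1
    apply hDδ d d.2
    rw [h1]
    exact (low_isId hδω).bot
  have hDω : ℵ₀ ≤ #D := hμω.trans hDμ
  have : Infinite D := infinite_iff.2 hDω
  apply hx0r
  by_cases hβ0 : β = 0
  · rw [hβ0]
    refine hasRank_zero ?_
    rintro rfl
    rw [card_iic_bot] at hx0δ
    exact absurd (one_lt_aleph0.trans_le hδω) (not_lt_of_gt hx0δ)
  · obtain ⟨f, hf1, hf2⟩ := exists_fibres (D := D) β hβ0 hDω (hβcard.trans hDμ)
    refine HasRank.sum x0 (fun d : D => (d : B)) (fun d => hDx d.2) ?_ hDne β f hf2 ?_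
    · intro d d' hdd'
      exact hDdis d.2 d'.2 (fun h1 => hdd' (Subtype.ext h1))
    · intro d
      exact hmin d (hDsm d) (hDd d) _ (hf1 d)

end Pool.Agent.Lib.MP_8a899a_lc
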