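import Pool.Agent.Lib.MP_8a899a_lc.Exact
import Pool.Agent.Lib.MP_8a899a_lc.Unbounded

set_option autoImplicit false
set_option linter.unusedSectionVars false

/-!
# Counting isomorphism types of small algebras below a large element
-/

universe u

namespace Pool.Agent.Lib.MP_8a899a_lc

open Set Cardinal

variable {B : Type u} [BooleanAlgebra B] {κ : Cardinal.{u}}

section Sum

variable {ι : Type u} {x0 : B} {y : ι → B} {A : ι → BooleanSubalgebra B}
  {hy : ∀ i, y i ∈ A i} (hle : ∀ i, y i ≤ x0)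
  (hdis : Pairwise (Function.onFun Disjoint y)) (hloc : ∀ i, IsLoc (A i) (y i))

include hle hdis hloc

theorem sumAlg_notMem_cb [Infinite ι] (hne : ∀ i, y i ≠ ⊥) (β : Ordinal.{u})
    (hinf : ∀ γ < β, {i | (⟨y i, hy i⟩ : A i) ∉ (cb γ : Set (A i))}.Infinite)
    (hx0S : x0 ∈ sumAlg x0 y A hy) :
    (⟨x0, hx0S⟩ : sumAlg x0 y A hy) ∉ (cb β : Set (sumAlg x0 y A hy)) := by
  classical
  set S := sumAlg x0 y A hy with hS
  have hyS : ∀ i, y i ∈ S := fun i => mem_sumAlg_of_le x0 y A hy hdis le_rfl (hy i)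
  have hcb : ∀ i α, (⟨y i, hyS i⟩ : S) ∈ (cb α : Set S) ↔ (⟨y i, hy i⟩ : A i) ∈
      (cb α : Set (A i)) := fun i α =>
    sumAlg_cb_iff x0 y A hy hdis hloc i α le_rfl (hyS i) (hy i)
  let yS : ι → S := fun i => ⟨y i, hyS i⟩
  let F : Set S := {b | ∃ t : Finset ι, (b : B) ⊓ x0 ≤ t.sup y}
  have hF : IsId F := by
    refine ⟨⟨∅, ?_⟩, ?_, ?_⟩
    · change (⊥ : B) ⊓ x0 ≤ _
      rw [bot_inf_eq]; exact bot_le
    · rintro a b hba ⟨t, ht⟩
      exact ⟨t, (inf_le_inf_right _ (show (b : B) ≤ (a : B) from hba)).trans ht⟩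
    · rintro a b ⟨t, ht⟩ ⟨t', ht'⟩
      refine ⟨t ∪ t', ?_⟩
      change ((a : B) ⊔ (b : B)) ⊓ x0 ≤ _
      rw [inf_sup_right, Finset.sup_union]
      exact sup_le_sup ht ht'
  have key : ∀ γ, γ ≤ β → (cb γ : Set S) ⊆ F := by
    intro γ
    induction γ using WellFoundedLT.induction with
    | ind γ ih =>
      intro hγ z hz
      rw [mem_cb] at hz
      rcases hz with rfl | ⟨γ', hγ', hz⟩
      · exact hF.bot
      · have ih' := ih γ' hγ' (hγ'.le.trans hγ)
        induction hz with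
        | base z hz => exact ih' hz
        | sup z w _ _ ih1 ih2 => exact hF.sup _ _ ih1 ih2
        | atom a ha =>
          by_contra haF
          have hcof : ∃ t : Finset ι, x0 \ (a : B) ≤ t.sup y := by
            rcases a.2.2 with ⟨t, ht⟩ | h1
            · exact absurd ⟨t, ht⟩ haF
            · exact h1
          obtain ⟨t, ht⟩ := hcof
          obtain ⟨i, hi, hit⟩ := (hinf γ' (hγ'.trans_le hγ)).exists_notMem_finset t
          have h1 : yS i ∉ (cb γ' : Set S) := by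
            intro h2
            exact hi ((hcb i γ').1 h2)
          have hdt : Disjoint (y i) (t.sup y) := by
            rw [Finset.disjoint_sup_right]
            intro j hj
            refine hdis ?_
            rintro rfl
            exact hit hj
          have h2 : y i ≤ (a : B) := by
            have h3 : y i \ (a : B) ≤ t.sup y := (sdiff_le_sdiff_right (hle i)).trans ht
            have h4 : y i \ (a : B) = ⊥ := by
              have h5 : y i \ (a : B) ≤ y i ⊓ t.sup y := le_inf sdiff_le h3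
              rwa [hdt.eq_bot, le_bot_iff] at h5
            exact sdiff_eq_bot_iff.1 h4
          rcases ha.2 (yS i) h2 with h3 | h3
          · exact h1 h3
          · obtain ⟨t', ht'⟩ := ih' h3
            apply haF
            refine ⟨insert i t', ?_⟩
            rw [Finset.sup_insert]
            have h4 : (a : B) ⊓ x0 ≤ y i ⊔ ((a : B) \ y i) ⊓ x0 := by
              calc (a : B) ⊓ x0 ≤ (y i ⊔ (a : B) \ y i) ⊓ x0 := by
                    refine inf_le_inf_right _ ?_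
                    rw [sup_sdiff_self_right]
                    exact le_sup_right
                _ ≤ y i ⊔ ((a : B) \ y i) ⊓ x0 := by
                    rw [inf_sup_right]
                    exact sup_le_sup inf_le_left le_rfl
            exact h4.trans (sup_le_sup le_rfl ht')
  intro h1
  obtain ⟨t, ht⟩ := key β le_rfl h1
  obtain ⟨i, hi⟩ := Infinite.exists_notMem_finset t
  have hdt : Disjoint (y i) (t.sup y) := by
    rw [Finset.disjoint_sup_right]
    intro j hj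
    refine hdis ?_
    rintro rfl
    exact hi hj
  have h2 : y i ≤ y i ⊓ t.sup y := by
    refine le_inf le_rfl ((hle i).trans ?_)
    have h3 : x0 ⊓ x0 ≤ t.sup y := ht
    rwa [inf_idem] at h3
  rw [hdt.eq_bot, le_bot_iff] at h2
  exact hne i h2

theorem sumAlg_mem_cb_succ (β : Ordinal.{u})
    (hcb : ∀ i, (⟨y i, hy i⟩ : A i) ∈ (cb β : Set (A i)))
    (hx0S : x0 ∈ sumAlg x0 y A hy)
    (hnot : (⟨x0, hx0S⟩ : sumAlg x0 y A hy) ∉ (cb β : Set (sumAlg x0 y A hy))) :
    (⟨x0, hx0S⟩ : sumAlg x0 y A hy) ∈ (cb (Order.succ β) : Set (sumAlg x0 y A hy)) := by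
  set S := sumAlg x0 y A hy with hS
  have hyS : ∀ i, y i ∈ S := fun i => mem_sumAlg_of_le x0 y A hy hdis le_rfl (hy i)
  have hfin : ∀ z : S, ∀ t : Finset ι, (z : B) ≤ t.sup y → z ∈ (cb β : Set S) := by
    intro z t hzt
    refine sumAlg_mem_of_fin hle hdis hloc (cb_isId β) z.2 hzt fun i _ => ?_
    refine (cb_isId β).down ⟨y i, hyS i⟩ _ (inf_le_right : (z : B) ⊓ y i ≤ y i) ?_
    exact (sumAlg_cb_iff x0 y A hy hdis hloc i β le_rfl (hyS i) (hy i)).2 (hcb i)
  refine AtomMod.mem_cb (Order.lt_succ β) ⟨hnot, fun z hz => ?_⟩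
  have hzx : (z : B) ≤ x0 := hz
  rcases z.2.2 with ⟨t, ht⟩ | ⟨t, ht⟩
  · left
    rw [inf_eq_left.2 hzx] at ht
    exact hfin z t ht
  · right
    exact hfin _ t ht

end Sum

/-- Exact rank. -/
def ExRank (μ : Cardinal.{u}) (x : B) (β : Ordinal.{u}) : Prop :=
  ∃ A : BooleanSubalgebra B, IsLoc A x ∧ LocCard A x μ ∧ ∃ hx : x ∈ A,
    (⟨x, hx⟩ : A) ∈ (cb (Order.succ β) : Set A) ∧ (⟨x, hx⟩ : A) ∉ (cb β : Set A)

/-- Some small local algebra below `x` has no nonzero superatomic element below `x`. -/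
def Atl (μ : Cardinal.{u}) (x : B) : Prop :=
  ∃ A : BooleanSubalgebra B, IsLoc A x ∧ LocCard A x μ ∧
    ∀ z ∈ (cb (ht A) : Set A), (z : B) ≤ x → z = ⊥

/-- Some small local algebra has the invariant `{i}` at `x`. -/
def Spec (μ : Cardinal.{u}) (x : B) (i : Ordinal.{u}) : Prop :=
  ∃ A : BooleanSubalgebra B, IsLoc A x ∧ LocCard A x μ ∧ ∃ hx : x ∈ A,
    (⟨x, hx⟩ : A) ∉ (cb (ht A) : Set A) ∧ (∀ j, Phi j (⟨x, hx⟩ : A) ↔ j = i) ∧
      ∀ α, (⟨x, hx⟩ : A) ∈ Qs α A ↔ Order.succ i ≤ α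

/-- Some small local algebra has the invariant `Z` at `x`. -/
def Coded (μ : Cardinal.{u}) (x : B) (Z : Set Ordinal.{u}) : Prop :=
  ∃ A : BooleanSubalgebra B, IsLoc A x ∧ LocCard A x μ ∧ ∃ hx : x ∈ A,
    ∀ j, Phi j (⟨x, hx⟩ : A) ↔ j ∈ Z

theorem exRank_zero {μ : Cardinal.{u}} (hμ : ℵ₀ ≤ μ) {x : B} (hx : x ≠ ⊥) : ExRank μ x 0 := by
  set A := sub ({⊥} : Set B) isId_bot x with hA
  have hxA : x ∈ A := by right; rw [_root_.sdiff_self]; rfl
  have h0 : (⟨x, hxA⟩ : A) ∉ (cb 0 : Set A) := by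
    rw [mem_cb_zero]
    intro h1
    exact hx (congrArg Subtype.val h1)
  refine ⟨A, ⟨hxA, ?_⟩, ?_, hxA, ?_, h0⟩
  · intro b hb
    rw [hA, mem_sub] at hb ⊢
    rcases hb with hb | hb
    · left; rwa [inf_assoc, inf_idem] at hb
    · right; rwa [sdiff_inf_self_right] at hb
  · have h1 : {b : B | b ∈ A ∧ b ≤ x} ⊆ ({⊥, x} : Set B) := by
      rintro b ⟨hb, hbx⟩
      rw [hA, mem_sub, inf_eq_left.2 hbx] at hb
      rcases hb with hb | hb
      · left; exact hb
      · right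
        exact le_antisymm hbx (sdiff_eq_bot_iff.1 hb)
    refine (mk_le_mk_of_subset h1).trans ?_
    exact ((Set.toFinite ({⊥, x} : Set B)).lt_aleph0.le).trans hμ
  · refine AtomMod.mem_cb (Order.lt_succ 0) ⟨h0, ?_⟩
    intro y hy
    have hyx : (y : B) ≤ x := hy
    rcases y.2 with h1 | h1
    · left
      rw [inf_eq_left.2 hyx] at h1
      exact mem_cb_zero.2 (Subtype.ext h1)
    · right
      exact mem_cb_zero.2 (Subtype.ext h1)

section Star

variable (h : HasStar κ B) (hκ : ℵ₀ ≤ κ) (hns : ¬ Superatomic B)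
  {μ ρ δ : Cardinal.{u}} (hgen : CofGen (small κ B) μ) (hμω : ℵ₀ ≤ μ) (hρω : ℵ₀ ≤ ρ)
  (hρμ : ρ ≤ μ) (hμδ : Order.succ μ ≤ δ) (hpow : ∀ χ < ρ, δ ^ χ ≤ δ)

include h hκ hns hgen hμω hρω hρμ hμδ hpow

theorem HasStar.exists_pieces {x0 : B} (hx0 : x0 ∈ small κ B) (hx0δ : δ < #(Iic x0))
    (ι : Type u) (hι : #ι ≤ ρ) : ∃ y : ι → B, (∀ i, y i ≤ x0) ∧
      Pairwise (Function.onFun Disjoint y) ∧
      ∀ i, y i ∈ small κ B ∧ δ < #(Iic (y i)) := by
  have hδω : ℵ₀ ≤ δ := hμω.trans ((Order.le_succ _).trans hμδ)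
  obtain ⟨D, hDx, hDdis, hDδ, hDμ⟩ : ∃ D : Set B, D ⊆ Iic x0 ∧ D.PairwiseDisjoint id ∧
      (∀ d ∈ D, d ∉ low δ B) ∧ ρ ≤ #D := by
    by_contra hcon2
    push Not at hcon2
    obtain ⟨N, hN, hNx, hNg⟩ := exists_not_cofGen x0 (low δ B) ρ hμω hρμ hμδ hpow
      (low_isId hδω) (h.card_low_le hκ hns hgen hδω ((Order.le_succ _).trans hμδ) hx0) hx0δ
      hcon2
    exact hNg (h.cofGen_of_le hκ hns hgen hx0 hN hNx)
  obtain ⟨g⟩ : Nonempty (ι ↪ D) := hι.trans hDμ
  refine ⟨fun i => (g i : B), fun i => hDx (g i).2, ?_, fun i => ⟨?_, ?_⟩⟩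
  · intro i j hij
    exact hDdis (g i).2 (g j).2 (fun h1 => hij (g.injective (Subtype.ext h1)))
  · exact (small_isId hκ).down _ _ (hDx (g i).2) hx0
  · exact not_le.1 (hDδ (g i) (g i).2)

theorem HasStar.exRank_of_large (β : Ordinal.{u}) : β < ρ.ord →
    ∀ x0 ∈ small κ B, δ < #(Iic x0) → ExRank μ x0 β := by
  have hδω : ℵ₀ ≤ δ := hμω.trans ((Order.le_succ _).trans hμδ)
  have hne : ∀ x : B, δ < #(Iic x) → x ≠ ⊥ := by
    rintro x hx rfl
    rw [card_iic_bot] at hx
    exact absurd (one_lt_aleph0.trans_le hδω) (not_lt_of_gt hx)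
  induction β using WellFoundedLT.induction with
  | ind β ih =>
    intro hβρ x0 hx0 hx0δ
    by_cases hβ0 : β = 0
    · rw [hβ0]
      exact exRank_zero hμω (hne x0 hx0δ)
    · let ι : Type u := β.ToType × ULift.{u} ℕ
      have hβne : Nonempty β.ToType := by
        rw [← mk_ne_zero_iff, mk_toType]
        simpa using hβ0
      have hι : #ι ≤ ρ := by
        rw [mk_prod, lift_id, lift_id, mk_toType, mk_uLift, mk_nat, lift_aleph0]
        exact mul_le_of_le hρω (lt_ord.1 hβρ).le hρω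
      have : Infinite ι := inferInstance
      obtain ⟨y, hyx, hdis, hyl⟩ := h.exists_pieces hκ hns hgen hμω hρω hρμ hμδ hpow hx0 hx0δ
        ι hι
      have hR : ∀ i : ι, ExRank μ (y i) (i.1.toOrd : Ordinal.{u}) := fun i =>
        ih _ i.1.toOrd.2 ((show (i.1.toOrd : Ordinal.{u}) < β from i.1.toOrd.2).trans hβρ) _
          (hyl i).1 (hyl i).2
      choose A hloc hcard hyA hsucc hnot using hR
      have hSloc : IsLoc (sumAlg x0 y A hyA) x0 := sumAlg_isLoc x0 y A hyA hyx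
      have hx0not := sumAlg_notMem_cb (hy := hyA) hyx hdis hloc (fun i => hne _ (hyl i).2) β (by
        intro γ hγ
        have h1 : Function.Injective
            (fun n : ℕ => ((Ordinal.ToType.mk ⟨γ, hγ⟩, ULift.up n) : ι)) := by
          intro m n hmn
          simpa using hmn
        refine Set.infinite_of_injective_forall_mem h1 ?_
        intro n h2
        apply hnot (Ordinal.ToType.mk ⟨γ, hγ⟩, ULift.up n)
        simpa using h2) hSloc.1
      refine ⟨sumAlg x0 y A hyA, hSloc, ?_, hSloc.1, ?_, hx0not⟩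
      · exact sumAlg_locCard x0 y A hyA hμω (hι.trans hρμ) hyx hcard
      · refine sumAlg_mem_cb_succ hyx hdis hloc β ?_ hSloc.1 hx0not
        intro i
        exact cb_mono (Order.succ_le_of_lt i.1.toOrd.2) (hsucc i)

end Star

end Pool.Agent.Lib.MP_8a899a_lc
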