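import Pool.Agent.Lib.MP_8a899a_lc.Fam

set_option autoImplicit false
set_option linter.unusedSectionVars false

/-!
# Families of prime classes in a context
-/

universe u

namespace Pool.Agent.Lib.MP_8a899a_lc

open Set Cardinal

/-- A context: an ideal class `K` and a class `D` of trivial elements. -/
structure Ctx (K D : Cls.{u}) : Prop where
  locK : LocInv K
  locD : LocInv D
  bot : ∀ (C : Type u) [BooleanAlgebra C], K C ⊥
  down : ∀ (C : Type u) [BooleanAlgebra C] (z w : C), w ≤ z → K C z → K C w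
  sup : ∀ (C : Type u) [BooleanAlgebra C] (z w : C), K C z → K C w → K C (z ⊔ w)
  downD : ∀ (C : Type u) [BooleanAlgebra C] (z w : C), w ≤ z → D C z → D C w
  ext : ∀ (A : Type u) [BooleanAlgebra A] (b : A) (N : Set A), (∀ a ∈ N, K A a) →
    (∀ z ≤ b, z ∈ N ∨ b \ z ∈ N) → (∀ z ≤ b, b \ z ∈ N → ∃ a ∈ N, a ≤ z ∧ ¬ D A a) → K A b

/-- All elements of the classes of the family are in `K` and not in `D`. -/
def Over (K D : Cls.{u}) {Λ : Type u} (P : Λ → Cls.{u}) : Prop :=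
  ∀ x (C : Type u) [BooleanAlgebra C] (z : C), P x C z → K C z ∧ ¬ D C z

/-- The trivial context. -/
theorem ctx_top : Ctx.{u} (fun _ _ _ => True) (fun _ _ _ => False) where
  locK _ _ _ _ _ _ _ _ := Iff.rfl
  locD _ _ _ _ _ _ _ _ := Iff.rfl
  bot _ _ := trivial
  down _ _ _ _ _ _ := trivial
  sup _ _ _ _ _ _ := trivial
  downD _ _ _ _ _ h := h
  ext _ _ _ _ _ _ _ := trivial

theorem over_top {Λ : Type u} (P : Λ → Cls.{u}) :
    Over (fun _ _ _ => True) (fun _ _ _ => False) P := fun _ _ _ _ _ => ⟨trivial, fun h => h⟩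

/-- The ideal class of a subcontext. -/
def subK (K : Cls.{u}) {Λ : Type u} (P : Λ → Cls.{u}) (E : Set Λ) : Cls.{u} :=
  fun (C : Type u) [BooleanAlgebra C] (z : C) => K C z ∧ Rz P C z ⊆ E

/-- The trivial elements of a subcontext. -/
def subD (D : Cls.{u}) {Λ : Type u} (P : Λ → Cls.{u}) (E : Set Λ) : Cls.{u} :=
  fun (C : Type u) [BooleanAlgebra C] (z : C) => D C z ∨ Rz P C z ∩ E = ∅

section Family

variable {Λ : Type u} {P : Λ → Cls.{u}} {K D : Cls.{u}} (hc : Ctx K D) (hF : Fam Λ P)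

include hc hF

theorem Ctx.subctx (E : Set Λ) : Ctx (subK K P E) (subD D P E) := by
  refine ⟨?_, ?_, ?_, ?_, ?_, ?_, ?_⟩
  · intro A C _ _ f hf z hz
    have h1 := hc.locK A C f hf z hz
    have h2 : Rz P A z = Rz P C (f z) := hF.rz_local f hf hz le_rfl
    unfold subK
    rw [h1, h2]
  · intro A C _ _ f hf z hz
    have h1 := hc.locD A C f hf z hz
    have h2 : Rz P A z = Rz P C (f z) := hF.rz_local f hf hz le_rfl
    unfold subD
    rw [h1, h2]
  · intro C _
    refine ⟨hc.bot C, ?_⟩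
    rw [hF.rz_bot]
    exact Set.empty_subset _
  · intro C _ z w hwz h
    exact ⟨hc.down C z w hwz h.1, (Rz_mono hwz).trans h.2⟩
  · intro C _ z w hz hw
    refine ⟨hc.sup C z w hz.1 hw.1, ?_⟩
    rw [hF.rz_sup]
    exact Set.union_subset hz.2 hw.2
  · intro C _ z w hwz h
    rcases h with h | h
    · exact Or.inl (hc.downD C z w hwz h)
    · right
      rw [← Set.subset_empty_iff, ← h]
      exact Set.inter_subset_inter_left _ (Rz_mono hwz)
  · intro A _ b N h1 h2 h3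
    refine ⟨?_, ?_⟩
    · refine hc.ext A b N (fun a ha => (h1 a ha).1) h2 fun z hz hbz => ?_
      obtain ⟨a, ha, haz, haD⟩ := h3 z hz hbz
      exact ⟨a, ha, haz, fun h4 => haD (Or.inl h4)⟩
    · rintro c ⟨z, hz, hcz⟩
      rcases h2 z hz with h4 | h4
      · exact (h1 z h4).2 ⟨z, le_rfl, hcz⟩
      · obtain ⟨a, _, haz, haD⟩ := h3 z hz h4
        have h5 : (Rz P A a ∩ E).Nonempty := by
          rw [Set.nonempty_iff_ne_empty]
          exact fun h6 => haD (Or.inr h6)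
        obtain ⟨d, ⟨w, hw, hdw⟩, hdE⟩ := h5
        have h6 := hF.indep c d A z w (hw.trans haz) hcz hdw
        rw [h6]; exact hdE

theorem Over.sub (hO : Over K D P) {Λ' : Type u} (g : Λ' → Λ) {E : Set Λ} (hg : ∀ i, g i ∈ E) :
    Over (subK K P E) (subD D P E) (fun i => P (g i)) := by
  intro i C _ z hz
  have h1 := hO (g i) C z hz
  have h2 := hF.rz_eq hz
  refine ⟨⟨h1.1, ?_⟩, ?_⟩
  · rw [h2]
    exact Set.singleton_subset_iff.2 (hg i)
  · rintro (h3 | h3)
    · exact h1.2 h3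
    · rw [h2] at h3
      have h4 : g i ∈ ({g i} ∩ E : Set Λ) := ⟨rfl, hg i⟩
      rw [h3] at h4
      exact h4

omit hc hF in
theorem Over.of_sub {Λ' : Type u} {P' : Λ' → Cls.{u}} {E : Set Λ}
    (hO : Over (subK K P E) (subD D P E) P') : Over K D P' := by
  intro i C _ z hz
  have h1 := hO i C z hz
  exact ⟨h1.1.1, fun h2 => h1.2 (Or.inl h2)⟩

omit hc hF in
theorem Over.rz_sub {Λ' : Type u} {P' : Λ' → Cls.{u}} {E : Set Λ}
    (hO : Over (subK K P E) (subD D P E) P') (i : Λ') {C : Type u} [BooleanAlgebra C] {z : C}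
    (hz : P' i C z) : Rz P C z ⊆ E ∧ (Rz P C z ∩ E).Nonempty := by
  have h1 := hO i C z hz
  refine ⟨h1.1.2, ?_⟩
  rw [Set.nonempty_iff_ne_empty]
  exact fun h2 => h1.2 (Or.inr h2)

omit hc hF in
/-- The next classes inside a context. -/
def NxtK (K : Cls.{u}) (P : Λ → Cls.{u}) (Y : Set Λ) : Cls.{u} :=
  fun (C : Type u) [BooleanAlgebra C] (z : C) => K C z ∧ Nxt P Y C z

theorem Fam.nextK {Λ' : Type u} (g : Λ' → Set Λ)
    (hg : ∀ i j, i ≠ j → (g i \ g j).Infinite ∨ (g j \ g i).Infinite) :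
    Fam Λ' (fun i => NxtK K P (g i)) := by
  have hN := hF.next g hg
  refine ⟨?_, ?_, ?_, ?_⟩
  · intro i A C _ _ f hf z hz
    exact and_congr (hc.locK A C f hf z hz) (hN.loc i A C f hf z hz)
  · intro i C _ h
    exact hN.bot i C h.2
  · intro i C _ z b h
    rcases hN.split i C z b h.2 with h1 | h1
    · exact Or.inl ⟨hc.down C z _ inf_le_left h.1, h1⟩
    · exact Or.inr ⟨hc.down C z _ sdiff_le h.1, h1⟩
  · intro i j C _ z z' hz h h'
    exact hN.indep i j C z z' hz h.2 h'.2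

omit hF in
theorem Over.next (hO : Over K D P) {Λ' : Type u} (g : Λ' → Set Λ) :
    Over K D (fun i => NxtK K P (g i)) := by
  intro i C _ z hz
  refine ⟨hz.1, fun h1 => ?_⟩
  obtain ⟨x, z', hz', hx⟩ := hz.2.1.nonempty
  exact (hO x C z' hx).2 (hc.downD C z z' hz' h1)

/-- If all classes are realized below `b` then the next classes are realized by local
subalgebras. -/
theorem Fam.exists_algK (hO : Over K D P) {B : Type u} [BooleanAlgebra B] {b : B}
    (hb : ∀ x, ∃ z ≤ b, P x B z) {Y : Set Λ} (hY : Y.Infinite) :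
    ∃ A : BooleanSubalgebra B, IsLoc A b ∧ ∃ hbA : b ∈ A, NxtK K P Y A ⟨b, hbA⟩ := by
  set Q : Set B := {a | K B a ∧ Rz P B a ⊆ Y ∧ (Rz P B a).Finite} with hQdef
  have hQ : IsId Q := by
    refine ⟨?_, ?_, ?_⟩
    · refine ⟨hc.bot B, ?_, ?_⟩
      · rw [hF.rz_bot]; exact Set.empty_subset _
      · rw [hF.rz_bot]; exact Set.finite_empty
    · rintro x y hyx ⟨h0, h1, h2⟩
      exact ⟨hc.down B x y hyx h0, (Rz_mono hyx).trans h1, h2.subset (Rz_mono hyx)⟩
    · rintro x y ⟨h0, h1, h2⟩ ⟨h0', h3, h4⟩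
      refine ⟨hc.sup B x y h0 h0', ?_, ?_⟩
      · rw [hF.rz_sup]; exact Set.union_subset h1 h3
      · rw [hF.rz_sup]; exact h2.union h4
  set A := sub Q hQ b with hA
  have hbA : b ∈ A := by right; rw [_root_.sdiff_self]; exact hQ.bot
  have hloc : IsLoc A b := by
    refine ⟨hbA, ?_⟩
    intro x hx
    rw [hA, mem_sub] at hx ⊢
    rcases hx with hx | hx
    · left; rwa [inf_assoc, inf_idem] at hx
    · right; rwa [sdiff_inf_self_right] at hx
  have hQA : ∀ a ∈ Q, a ∈ A := fun a ha => mem_sub_of_mem ha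
  have hmem : ∀ a : A, (a : B) ≤ b → (a : B) ∈ Q ∨ b \ (a : B) ∈ Q := by
    rintro ⟨a, ha⟩ hab
    have h1 : a ⊓ b ∈ Q ∨ b \ a ∈ Q := ha
    have hab' : a ≤ b := hab
    rwa [inf_eq_left.2 hab'] at h1
  -- locality
  have hinj : Function.Injective A.subtype := A.subtype_injective
  have hdown : ∀ a : A, (a : B) ∈ Q → ∀ y ≤ A.subtype a, ∃ w, A.subtype w = y := by
    intro a ha y hy
    exact ⟨⟨y, hQA y (hQ.down _ _ hy ha)⟩, rfl⟩
  have hRz : ∀ a : A, (a : B) ∈ Q → Rz P A a = Rz P B (a : B) := fun a ha =>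
    hF.rz_local A.subtype hinj (hdown a ha) le_rfl
  -- parts of cofinite elements
  have hpart : ∀ a : A, b \ (a : B) ∈ Q → ∀ x ∈ Y, x ∉ Rz P B (b \ (a : B)) →
      ∃ w : A, w ≤ a ∧ (w : B) ∈ Q ∧ P x A w ∧ P x B (w : B) := by
    rintro a ha x hxY hx
    obtain ⟨z, hzb, hz⟩ := hb x
    rcases hF.split x B z (a : B) hz with h1 | h1
    · have h2 : z ⊓ (a : B) ∈ Q := by
        change K B (z ⊓ (a : B)) ∧ Rz P B (z ⊓ (a : B)) ⊆ Y ∧ (Rz P B (z ⊓ (a : B))).Finite
        rw [hF.rz_eq h1]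
        exact ⟨hc.down B z _ inf_le_left (hO x B z hz).1, Set.singleton_subset_iff.2 hxY,
          Set.finite_singleton x⟩
      refine ⟨⟨z ⊓ (a : B), hQA _ h2⟩, (inf_le_right : z ⊓ (a : B) ≤ a), h2, ?_, h1⟩
      exact (hF.loc x A B A.subtype hinj ⟨z ⊓ (a : B), hQA _ h2⟩ (hdown _ h2)).2 h1
    · exact absurd ⟨z \ (a : B), sdiff_le_sdiff_right hzb, h1⟩ hx
  have hcofin : ∀ a : A, b \ (a : B) ∈ Q → (Y \ Rz P A a).Finite := by
    intro a ha
    refine ha.2.2.subset ?_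
    rintro x ⟨hx, hx'⟩
    by_contra h1
    obtain ⟨w, hw, _, h3, _⟩ := hpart a ha x hx h1
    exact hx' ⟨w, hw, h3⟩
  have hsub : ∀ a : A, (a : B) ≤ b → Rz P A a ⊆ Y := by
    rintro a hab x ⟨z, hz, hx⟩
    have hzb : (z : B) ≤ b := le_trans (show (z : B) ≤ (a : B) from hz) hab
    rcases hmem z hzb with h1 | h1
    · have h2 : x ∈ Rz P A z := ⟨z, le_rfl, hx⟩
      rw [hRz z h1] at h2
      exact h1.2.1 h2
    · exfalso
      have h2 := hcofin z h1
      rw [hF.rz_eq hx] at h2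
      apply hY
      refine (h2.union (Set.finite_singleton x)).subset ?_
      intro y hy
      by_cases h3 : y = x
      · right; exact h3
      · left; exact ⟨hy, h3⟩
  have htop : b \ ((⟨b, hbA⟩ : A) : B) ∈ Q := by
    change b \ b ∈ Q
    rw [_root_.sdiff_self]
    exact hQ.bot
  refine ⟨A, hloc, hbA, ?_, ?_, hsub _ le_rfl, hcofin _ htop, ?_⟩
  · refine hc.ext A ⟨b, hbA⟩ {a : A | (a : B) ∈ Q} ?_ ?_ ?_
    · intro a ha
      exact (hc.locK A B A.subtype hinj a (hdown a ha)).2 ha.1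
    · intro z hz
      exact hmem z hz
    · intro z _ hbz
      have hbz' : b \ (z : B) ∈ Q := hbz
      obtain ⟨x, hxY, hx⟩ := (hY.sdiff hbz'.2.2).nonempty
      obtain ⟨w, hw, hwQ, _, h4⟩ := hpart z hbz' x hxY hx
      refine ⟨w, hwQ, hw, fun h5 => ?_⟩
      exact (hO x B (w : B) h4).2 ((hc.locD A B A.subtype hinj w (hdown w hwQ)).1 h5)
  · intro h1
    apply hY
    refine (h1.union (hcofin _ htop)).subset ?_
    intro y hy
    by_cases h3 : y ∈ Rz P A ⟨b, hbA⟩
    · left; exact h3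
    · right; exact ⟨hy, h3⟩
  · intro z hz
    have hzb : (z : B) ≤ b := hz
    rcases hmem z hzb with h1 | h1
    · left
      rw [hRz z h1]
      exact h1.2.2
    · right
      have h2 : (((⟨b, hbA⟩ : A) \ z : A) : B) ∈ Q := h1
      rw [hRz _ h2]
      exact h2.2.2

end Family

end Pool.Agent.Lib.MP_8a899a_lc
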