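import Pool.Agent.Lib.MP_8a899a_lc.Sum

set_option autoImplicit false
set_option linter.unusedSectionVars false

/-!
# Sums of local subalgebras: sizes and invariants
-/

universe u

namespace Pool.Agent.Lib.MP_8a899a_lc

open Set Cardinal

variable {B : Type u} [BooleanAlgebra B] {κ : Cardinal.{u}}

/-- The part below `x` of the subalgebra `A` has at most `μ` elements. -/
def LocCard (A : BooleanSubalgebra B) (x : B) (μ : Cardinal.{u}) : Prop :=
  #{b : B | b ∈ A ∧ b ≤ x} ≤ μ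

section Sum

variable {ι : Type u} (x0 : B) (y : ι → B) (A : ι → BooleanSubalgebra B)
  (hy : ∀ i, y i ∈ A i)

theorem eq_sup_inf {b : B} {t : Finset ι} (hb : b ≤ t.sup y) : b = t.sup (fun i => b ⊓ y i) := by
  have h1 : b = b ⊓ t.sup y := (inf_eq_left.2 hb).symm
  conv_lhs => rw [h1]
  rw [Finset.sup_inf_distrib_left]

theorem sumAlg_locCard {μ : Cardinal.{u}} (hμ : ℵ₀ ≤ μ) (hι : #ι ≤ μ) (hle : ∀ i, y i ≤ x0)
    (hA : ∀ i, LocCard (A i) (y i) μ) : LocCard (sumAlg x0 y A hy) x0 μ := by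
  classical
  let U : Set B := ⋃ i, {b : B | b ∈ A i ∧ b ≤ y i}
  have hU : #U ≤ μ := by
    refine (mk_iUnion_le _).trans (mul_le_of_le hμ hι (ciSup_le' fun i => hA i))
  let Fin : Set B := range (fun s : Finset U => s.sup (fun u => (u : B)))
  have hFin : #Fin ≤ μ := by
    refine mk_range_le.trans ?_
    rcases finite_or_infinite U with hf | hf
    · exact (lt_aleph0_of_finite _).le.trans hμ
    · rw [mk_finset_of_infinite]; exact hU
  have hmem : ∀ b ∈ sumAlg x0 y A hy, (∃ t : Finset ι, b ≤ t.sup y) → b ∈ Fin := by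
    rintro b hb ⟨t, hbt⟩
    refine ⟨t.image (fun i => (⟨b ⊓ y i, mem_iUnion.2 ⟨i, hb.1 i, inf_le_right⟩⟩ : U)), ?_⟩
    change (t.image _).sup _ = b
    rw [Finset.sup_image]
    exact (eq_sup_inf y hbt).symm
  have h1 : {b : B | b ∈ sumAlg x0 y A hy ∧ b ≤ x0} ⊆ Fin ∪ (x0 \ ·) '' Fin := by
    rintro b ⟨hb, hbx⟩
    rcases hb.2 with ⟨t, hbt⟩ | ⟨t, hbt⟩
    · left
      refine hmem b hb ⟨t, ?_⟩
      rwa [inf_eq_left.2 hbx] at hbt
    · right
      refine ⟨x0 \ b, ?_, sdiff_sdiff_eq_self hbx⟩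
      refine ⟨t.image (fun i => (⟨(x0 \ b) ⊓ y i, mem_iUnion.2 ⟨i, ?_, inf_le_right⟩⟩ : U)), ?_⟩
      · have : (x0 \ b) ⊓ y i = y i \ (b ⊓ y i) := by
          rw [sdiff_inf_self_right, _root_.sdiff_eq, _root_.sdiff_eq, inf_right_comm,
            inf_eq_right.2 (hle i)]
        rw [this]
        exact (A i).sdiff_mem (hy i) (hb.1 i)
      · change (t.image _).sup _ = x0 \ b
        rw [Finset.sup_image]
        exact (eq_sup_inf y hbt).symm
  exact (mk_le_mk_of_subset h1).trans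
    (card_union_le_of_le hμ hFin (mk_image_le.trans hFin))

end Sum

/-- `w` lies in the ideal `Qs (j + 1)`, up to a part, but not in `Qs j` up to a superatomic
element. -/
def Phi (j : Ordinal.{u}) (w : B) : Prop :=
  ∃ z ≤ w, z ∈ Qs (Order.succ j) B ∧ ∀ s ∈ (cb (ht B) : Set B), z \ s ∉ Qs j B

theorem phi_iso {B' : Type u} [BooleanAlgebra B'] (e : B' ≃o B) (j : Ordinal.{u}) (w : B') :
    Phi j w ↔ Phi j (e w) := by
  constructor
  · rintro ⟨z, hz, hzQ, hs⟩
    refine ⟨e z, e.monotone hz, (mem_Qs_iso e _ z).1 hzQ, fun s hs' h1 => ?_⟩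
    refine hs (e.symm s) ?_ ?_
    · rw [cb_iff_of_iso e, ht_iso e]; simpa using hs'
    · rw [mem_Qs_iso e, map_sdiff']; simpa using h1
  · rintro ⟨z, hz, hzQ, hs⟩
    refine ⟨e.symm z, (e.symm_apply_le).2 hz, ?_, fun s hs' h1 => ?_⟩
    · rw [mem_Qs_iso e]; simpa using hzQ
    · refine hs (e s) ?_ ?_
      · rw [← ht_iso e, ← cb_iff_of_iso e]; exact hs'
      · rw [mem_Qs_iso e, map_sdiff'] at h1; simpa using h1

theorem phi_mono {j : Ordinal.{u}} {w w' : B} (h : w ≤ w') (hw : Phi j w) : Phi j w' := by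
  obtain ⟨z, hz, h1⟩ := hw
  exact ⟨z, hz.trans h, h1⟩

theorem not_phi_of_mem_cb {j : Ordinal.{u}} {w : B} (hw : w ∈ (cb (ht B) : Set B)) :
    ¬ Phi j w := by
  rintro ⟨z, hz, _, hs⟩
  refine hs z ((cb_isId _).down _ _ hz hw) ?_
  rw [_root_.sdiff_self]
  exact (Qs_isId j).bot

theorem not_phi_of_atomless {j : Ordinal.{u}} {w : B}
    (hw : ∀ z ∈ (cb (ht B) : Set B), z ≤ w → z = ⊥) : ¬ Phi j w := by
  rintro ⟨z, hz, _, hs⟩
  refine hs ⊥ (cb_isId _).bot ?_
  intro x hx hxz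
  rw [hw x hx ((hxz.trans sdiff_le).trans hz)]
  exact (cb_isId _).bot

theorem mem_Qs_of_atomless {α : Ordinal.{u}} {w : B}
    (hw : ∀ z ∈ (cb (ht B) : Set B), z ≤ w → z = ⊥) : w ∈ Qs α B := by
  intro x hx hxw
  rw [hw x hx hxw]
  exact (cb_isId _).bot

theorem mem_Qs_iff_of_mem_cb {α : Ordinal.{u}} {w : B} (hw : w ∈ (cb (ht B) : Set B)) :
    w ∈ Qs α B ↔ w ∈ (cb α : Set B) :=
  ⟨fun h => h w hw le_rfl, fun h _ _ hxw => (cb_isId α).down _ _ hxw h⟩

section Sum

variable {ι : Type u} {x0 : B} {y : ι → B} {A : ι → BooleanSubalgebra B}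
  {hy : ∀ i, y i ∈ A i} (hle : ∀ i, y i ≤ x0)
  (hdis : Pairwise (Function.onFun Disjoint y)) (hloc : ∀ i, IsLoc (A i) (y i))

include hle hdis hloc

theorem sumAlg_sa_iff (i : ι) {z : B} (hz : z ≤ y i)
    (hzS : z ∈ sumAlg x0 y A hy) (hzA : z ∈ A i) :
    (⟨z, hzS⟩ : sumAlg x0 y A hy) ∈ (cb (ht (sumAlg x0 y A hy)) : Set (sumAlg x0 y A hy)) ↔
      (⟨z, hzA⟩ : A i) ∈ (cb (ht (A i)) : Set (A i)) := by
  constructor
  · intro h
    exact cb_subset_ht _ ((sumAlg_cb_iff x0 y A hy hdis hloc i _ hz hzS hzA).1 h)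
  · intro h
    exact cb_subset_ht _ ((sumAlg_cb_iff x0 y A hy hdis hloc i _ hz hzS hzA).2 h)

theorem sumAlg_Qs_iff (i : ι) (α : Ordinal.{u}) {z : B} (hz : z ≤ y i)
    (hzS : z ∈ sumAlg x0 y A hy) (hzA : z ∈ A i) :
    (⟨z, hzS⟩ : sumAlg x0 y A hy) ∈ Qs α (sumAlg x0 y A hy) ↔
      (⟨z, hzA⟩ : A i) ∈ Qs α (A i) := by
  constructor
  · intro h x hx hxz
    have hxy : (x : B) ≤ y i := le_trans (show (x : B) ≤ z from hxz) hz
    have hxS : (x : B) ∈ sumAlg x0 y A hy := mem_sumAlg_of_le x0 y A hy hdis hxy x.2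
    have h1 := (sumAlg_sa_iff hle hdis hloc i hxy hxS x.2).2 hx
    exact (sumAlg_cb_iff x0 y A hy hdis hloc i _ hxy hxS x.2).1 (h ⟨x, hxS⟩ h1 hxz)
  · intro h x hx hxz
    have hxy : (x : B) ≤ y i := le_trans (show (x : B) ≤ z from hxz) hz
    have hxA : (x : B) ∈ A i := sumAlg_le x0 y A hy hloc i x.2
    have h1 := (sumAlg_sa_iff hle hdis hloc i hxy x.2 hxA).1 hx
    exact (sumAlg_cb_iff x0 y A hy hdis hloc i _ hxy x.2 hxA).2 (h ⟨x, hxA⟩ h1 hxz)

theorem sumAlg_inf_mem {z : B} (hz : z ∈ sumAlg x0 y A hy) (i : ι) :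
    z ⊓ y i ∈ sumAlg x0 y A hy :=
  mem_sumAlg_of_le x0 y A hy hdis inf_le_right (hz.1 i)

/-- Superatomic elements meet only finitely many summands. -/
theorem sumAlg_fin_of_sa
    (hN : {i | (⟨y i, hy i⟩ : A i) ∉ (cb (ht (A i)) : Set (A i))}.Infinite)
    {z : B} (hzS : z ∈ sumAlg x0 y A hy) (hzx : z ≤ x0)
    (hz : (⟨z, hzS⟩ : sumAlg x0 y A hy) ∈
      (cb (ht (sumAlg x0 y A hy)) : Set (sumAlg x0 y A hy))) :
    ∃ t : Finset ι, z ≤ t.sup y := by
  rcases hzS.2 with ⟨t, hzt⟩ | ⟨t, hzt⟩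
  · rw [inf_eq_left.2 hzx] at hzt
    exact ⟨t, hzt⟩
  · exfalso
    obtain ⟨i, hi, hit⟩ := hN.exists_notMem_finset t
    have hdt : Disjoint (y i) (t.sup y) := by
      rw [Finset.disjoint_sup_right]
      intro j hj
      refine hdis ?_
      rintro rfl
      exact hit hj
    have h2 : y i ≤ z := by
      have h3 : y i \ z ≤ t.sup y := (sdiff_le_sdiff_right (hle i)).trans hzt
      have h4 : y i \ z = ⊥ := by
        have h5 : y i \ z ≤ y i ⊓ t.sup y := le_inf sdiff_le h3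
        rwa [hdt.eq_bot, le_bot_iff] at h5
      exact sdiff_eq_bot_iff.1 h4
    have hyS : y i ∈ sumAlg x0 y A hy := mem_sumAlg_of_le x0 y A hy hdis le_rfl (hy i)
    have h3 : (⟨y i, hyS⟩ : sumAlg x0 y A hy) ∈
        (cb (ht (sumAlg x0 y A hy)) : Set (sumAlg x0 y A hy)) :=
      (cb_isId _).down _ _ (show (⟨y i, hyS⟩ : sumAlg x0 y A hy) ≤ ⟨z, hzS⟩ from h2) hz
    exact hi ((sumAlg_sa_iff hle hdis hloc i le_rfl hyS (hy i)).1 h3)

theorem sumAlg_mem_of_fin {R : Set (sumAlg x0 y A hy)} (hR : IsId R) {z : B}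
    (hzS : z ∈ sumAlg x0 y A hy) {t : Finset ι} (hzt : z ≤ t.sup y)
    (h : ∀ i ∈ t, (⟨z ⊓ y i, sumAlg_inf_mem hle hdis hloc hzS i⟩ : sumAlg x0 y A hy) ∈ R) :
    (⟨z, hzS⟩ : sumAlg x0 y A hy) ∈ R := by
  have h1 := hR.sup_mem t (fun i => (⟨z ⊓ y i, sumAlg_inf_mem hle hdis hloc hzS i⟩ :
    sumAlg x0 y A hy)) h
  have h2 : t.sup (fun i => (⟨z ⊓ y i, sumAlg_inf_mem hle hdis hloc hzS i⟩ :
      sumAlg x0 y A hy)) = ⟨z, hzS⟩ := by
    apply Subtype.ext
    have h3 := map_finset_sup (sumAlg x0 y A hy).subtype t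
      (fun i => (⟨z ⊓ y i, sumAlg_inf_mem hle hdis hloc hzS i⟩ : sumAlg x0 y A hy))
    refine h3.trans ?_
    exact (eq_sup_inf y hzt).symm
  rwa [h2] at h1

theorem sumAlg_mem_Qs_iff
    (hN : {i | (⟨y i, hy i⟩ : A i) ∉ (cb (ht (A i)) : Set (A i))}.Infinite)
    {z : B} (hzS : z ∈ sumAlg x0 y A hy) (hzx : z ≤ x0) (α : Ordinal.{u}) :
    (⟨z, hzS⟩ : sumAlg x0 y A hy) ∈ Qs α (sumAlg x0 y A hy) ↔
      ∀ i, (⟨z ⊓ y i, hzS.1 i⟩ : A i) ∈ Qs α (A i) := by
  constructor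
  · intro h i
    rw [← sumAlg_Qs_iff hle hdis hloc i α inf_le_right (sumAlg_inf_mem hle hdis hloc hzS i)]
    exact (Qs_isId α).down _ _ (inf_le_left : z ⊓ y i ≤ z) h
  · intro h x hx hxz
    have hxz' : (x : B) ≤ z := hxz
    obtain ⟨t, hxt⟩ := sumAlg_fin_of_sa hle hdis hloc hN x.2 (hxz'.trans hzx) hx
    refine sumAlg_mem_of_fin hle hdis hloc (cb_isId α) x.2 hxt fun i _ => ?_
    have h1 : (⟨z ⊓ y i, sumAlg_inf_mem hle hdis hloc hzS i⟩ : sumAlg x0 y A hy) ∈
        Qs α (sumAlg x0 y A hy) :=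
      (sumAlg_Qs_iff hle hdis hloc i α inf_le_right _ (hzS.1 i)).2 (h i)
    refine h1 _ ((cb_isId _).down _ _ (inf_le_left : (x : B) ⊓ y i ≤ x) hx) ?_
    exact inf_le_inf_right (y i) hxz'

/-- The invariants of a sum. -/
theorem sumAlg_phi_iff [Infinite ι]
    (hN : {i | (⟨y i, hy i⟩ : A i) ∉ (cb (ht (A i)) : Set (A i))}.Infinite)
    (hx0 : x0 ∈ sumAlg x0 y A hy) (j : Ordinal.{u}) :
    Phi j (⟨x0, hx0⟩ : sumAlg x0 y A hy) ↔
      (∃ i, Phi j (⟨y i, hy i⟩ : A i)) ∨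
      ({i | (⟨y i, hy i⟩ : A i) ∉ Qs (Order.succ j) (A i)}.Finite ∧
        {i | (⟨y i, hy i⟩ : A i) ∉ Qs j (A i)}.Infinite) := by
  classical
  set S := sumAlg x0 y A hy with hS
  have hyS : ∀ i, y i ∈ S := fun i => mem_sumAlg_of_le x0 y A hy hdis le_rfl (hy i)
  constructor
  · rintro ⟨⟨z, hzS⟩, hz, hzQ, hs⟩
    have hzx : z ≤ x0 := hz
    by_contra hcon
    push Not at hcon
    obtain ⟨hno, hfin⟩ := hcon
    have hzQ' := (sumAlg_mem_Qs_iff hle hdis hloc hN hzS hzx _).1 hzQ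
    -- superatomic parts of the traces
    have h1 : ∀ i, ∃ s : A i, s ∈ (cb (ht (A i)) : Set (A i)) ∧ (s : B) ≤ y i ∧
        (⟨z ⊓ y i, hzS.1 i⟩ : A i) \ s ∈ Qs j (A i) := by
      intro i
      have h2 := hno i
      by_contra hcon2
      push Not at hcon2
      apply h2
      refine ⟨⟨z ⊓ y i, hzS.1 i⟩, inf_le_right, hzQ' i, fun s hs' h3 => ?_⟩
      refine hcon2 (s ⊓ ⟨y i, hy i⟩) ((cb_isId _).down _ _ inf_le_left hs') inf_le_right ?_
      have h4 : (⟨z ⊓ y i, hzS.1 i⟩ : A i) \ (s ⊓ ⟨y i, hy i⟩) = ⟨z ⊓ y i, hzS.1 i⟩ \ s := by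
        have h5 : (⟨z ⊓ y i, hzS.1 i⟩ : A i) \ ⟨y i, hy i⟩ = ⊥ := by
          rw [sdiff_eq_bot_iff]
          exact (inf_le_right : z ⊓ y i ≤ y i)
        rw [sdiff_inf, h5, sup_bot_eq]
      rw [h4]; exact h3
    choose s hsa hsy hsQ using h1
    by_cases hNfin : {i | (⟨z ⊓ y i, hzS.1 i⟩ : A i) ∉ Qs j (A i)}.Finite
    · -- subtract finitely many superatomic elements
      let t : Finset ι := hNfin.toFinset
      have hsS : ∀ i, ((s i : A i) : B) ∈ S := fun i =>
        mem_sumAlg_of_le x0 y A hy hdis (hsy i) (s i).2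
      let sS : ι → S := fun i => ⟨s i, hsS i⟩
      have hsup : t.sup sS ∈ (cb (ht S) : Set S) := by
        refine (cb_isId _).sup_mem t sS fun i _ => ?_
        exact (sumAlg_sa_iff hle hdis hloc i (hsy i) (hsS i) (s i).2).2 (hsa i)
      refine hs _ hsup ?_
      have hcoe : ((t.sup sS : S) : B) = t.sup (fun i => ((s i : A i) : B)) :=
        map_finset_sup S.subtype t sS
      have hmem : (⟨z, hzS⟩ \ t.sup sS : S) = ⟨z \ t.sup (fun i => ((s i : A i) : B)),
          by rw [← hcoe]; exact S.sdiff_mem hzS (t.sup sS).2⟩ := by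
        apply Subtype.ext
        exact congrArg (z \ ·) hcoe
      rw [hmem, sumAlg_mem_Qs_iff hle hdis hloc hN _ (sdiff_le.trans hzx)]
      intro i
      by_cases hi : i ∈ t
      · refine (Qs_isId j).down _ _ ?_ (hsQ i)
        change (z \ t.sup (fun i => ((s i : A i) : B))) ⊓ y i ≤ (z ⊓ y i) \ (s i : B)
        have h5 : z \ t.sup (fun i => ((s i : A i) : B)) ≤ z \ (s i : B) :=
          sdiff_le_sdiff_left (Finset.le_sup (f := fun i => ((s i : A i) : B)) hi)
        calc (z \ t.sup (fun i => ((s i : A i) : B))) ⊓ y i ≤ (z \ (s i : B)) ⊓ y i :=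
              inf_le_inf_right _ h5
          _ = (z ⊓ y i) \ (s i : B) := by
              rw [_root_.sdiff_eq, _root_.sdiff_eq, inf_right_comm]
      · have h6 : (⟨z ⊓ y i, hzS.1 i⟩ : A i) ∈ Qs j (A i) := by
          by_contra h7
          exact hi ((Set.Finite.mem_toFinset hNfin).2 h7)
        refine (Qs_isId j).down _ _ ?_ h6
        exact inf_le_inf_right _ sdiff_le
    · -- `z` contains almost all summands
      have hNinf : {i | (⟨z ⊓ y i, hzS.1 i⟩ : A i) ∉ Qs j (A i)}.Infinite := hNfin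
      rcases hzS.2 with ⟨t, hzt⟩ | ⟨t, hzt⟩
      · rw [inf_eq_left.2 hzx] at hzt
        obtain ⟨i, hi, hit⟩ := hNinf.exists_notMem_finset t
        apply hi
        have hdt : Disjoint z (y i) := by
          refine Disjoint.mono_left hzt ?_
          rw [Finset.disjoint_sup_left]
          intro k hk
          refine hdis ?_
          rintro rfl
          exact hit hk
        have h8 : (⟨z ⊓ y i, hzS.1 i⟩ : A i) = ⊥ := Subtype.ext hdt.eq_bot
        rw [h8]
        exact (Qs_isId j).bot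
      · have hyz : ∀ i, i ∉ t → y i ≤ z := by
          intro i hit
          have hdt : Disjoint (y i) (t.sup y) := by
            rw [Finset.disjoint_sup_right]
            intro k hk
            refine hdis ?_
            rintro rfl
            exact hit hk
          have h3 : y i \ z ≤ t.sup y := (sdiff_le_sdiff_right (hle i)).trans hzt
          have h4 : y i \ z = ⊥ := by
            have h5 : y i \ z ≤ y i ⊓ t.sup y := le_inf sdiff_le h3
            rwa [hdt.eq_bot, le_bot_iff] at h5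
          exact sdiff_eq_bot_iff.1 h4
        have hfin1 : {i | (⟨y i, hy i⟩ : A i) ∉ Qs (Order.succ j) (A i)}.Finite := by
          refine (Finset.finite_toSet t).subset fun i hi => ?_
          by_contra hit
          apply hi
          have h5 : (⟨z ⊓ y i, hzS.1 i⟩ : A i) = ⟨y i, hy i⟩ :=
            Subtype.ext (inf_eq_right.2 (hyz i hit))
          rw [← h5]
          exact hzQ' i
        refine hNinf ((hfin hfin1).subset fun i hi => ?_)
        intro h5
        exact hi ((Qs_isId j).down _ _ (inf_le_right : z ⊓ y i ≤ y i) h5)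
  · rintro (⟨i, ⟨z, hzA⟩, hz, hzQ, hs⟩ | ⟨hfin, hinf⟩)
    · have hzy : z ≤ y i := hz
      have hzS : z ∈ S := mem_sumAlg_of_le x0 y A hy hdis hzy hzA
      refine ⟨⟨z, hzS⟩, hzy.trans (hle i), (sumAlg_Qs_iff hle hdis hloc i _ hzy hzS hzA).2 hzQ,
        fun s hsS h1 => ?_⟩
      have hsA : (s : B) ⊓ y i ∈ A i := s.2.1 i
      have h2 : (⟨(s : B) ⊓ y i, hsA⟩ : A i) ∈ (cb (ht (A i)) : Set (A i)) := by
        rw [← sumAlg_sa_iff hle hdis hloc i inf_le_right
          (sumAlg_inf_mem hle hdis hloc s.2 i)]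
        exact (cb_isId _).down _ _ (inf_le_left : (s : B) ⊓ y i ≤ s) hsS
      refine hs _ h2 ?_
      have h3 : z \ (s : B) ∈ S := S.sdiff_mem hzS s.2
      have h4 : z \ (s : B) ∈ A i := sumAlg_le x0 y A hy hloc i h3
      have h5 := (sumAlg_Qs_iff hle hdis hloc i j (sdiff_le.trans hzy) h3 h4).1 h1
      have h6 : (⟨z, hzA⟩ : A i) \ ⟨(s : B) ⊓ y i, hsA⟩ = ⟨z \ (s : B), h4⟩ := by
        apply Subtype.ext
        change z \ ((s : B) ⊓ y i) = z \ (s : B)
        rw [sdiff_inf, sdiff_eq_bot_iff.2 hzy, sup_bot_eq]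
      rw [h6]; exact h5
    · let t : Finset ι := hfin.toFinset
      have htS : t.sup y ∈ S := by
        have h1 := map_finset_sup S.subtype t (fun i => (⟨y i, hyS i⟩ : S))
        have h2 : t.sup y = ((t.sup (fun i => (⟨y i, hyS i⟩ : S)) : S) : B) := h1.symm
        rw [h2]
        exact (t.sup (fun i => (⟨y i, hyS i⟩ : S))).2
      have hzS : x0 \ t.sup y ∈ S := S.sdiff_mem hx0 htS
      have htr : ∀ i, i ∉ t → y i ≤ x0 \ t.sup y := by
        intro i hit
        rw [le_sdiff]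
        refine ⟨hle i, ?_⟩
        rw [Finset.disjoint_sup_right]
        intro k hk
        refine hdis ?_
        rintro rfl
        exact hit hk
      refine ⟨⟨x0 \ t.sup y, hzS⟩, sdiff_le, ?_, ?_⟩
      · rw [sumAlg_mem_Qs_iff hle hdis hloc hN hzS sdiff_le]
        intro i
        by_cases hi : i ∈ t
        · have h1 : (⟨(x0 \ t.sup y) ⊓ y i, hzS.1 i⟩ : A i) = ⊥ := by
            apply Subtype.ext
            change (x0 \ t.sup y) ⊓ y i = ⊥
            rw [← le_bot_iff]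
            calc (x0 \ t.sup y) ⊓ y i ≤ (x0 \ t.sup y) ⊓ t.sup y :=
                  inf_le_inf_left _ (Finset.le_sup (f := y) hi)
              _ = ⊥ := by rw [inf_comm, inf_sdiff_self_right]
          rw [h1]
          exact (Qs_isId _).bot
        · have h1 : (⟨y i, hy i⟩ : A i) ∈ Qs (Order.succ j) (A i) := by
            by_contra h2
            exact hi ((Set.Finite.mem_toFinset hfin).2 h2)
          exact (Qs_isId _).down _ _ (inf_le_right : (x0 \ t.sup y) ⊓ y i ≤ y i) h1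
      · intro s hsS h1
        -- the part of `s` below `x0` meets finitely many summands
        have hsx : (s : B) ⊓ x0 ∈ S := S.inf_mem s.2 hx0
        obtain ⟨t', hst⟩ := sumAlg_fin_of_sa hle hdis hloc hN hsx inf_le_right
          ((cb_isId _).down _ _ (inf_le_left : (s : B) ⊓ x0 ≤ s) hsS)
        obtain ⟨i, hi, hit⟩ := hinf.exists_notMem_finset (t ∪ t')
        rw [Finset.mem_union, not_or] at hit
        apply hi
        have h2 : (x0 \ t.sup y) \ (s : B) ∈ S := S.sdiff_mem hzS s.2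
        have h3 := (sumAlg_mem_Qs_iff hle hdis hloc hN h2 (sdiff_le.trans sdiff_le) j).1 h1 i
        refine (Qs_isId j).down _ _ ?_ h3
        change y i ≤ ((x0 \ t.sup y) \ (s : B)) ⊓ y i
        refine le_inf ?_ le_rfl
        rw [le_sdiff]
        refine ⟨htr i hit.1, ?_⟩
        have h4 : Disjoint (y i) (t'.sup y) := by
          rw [Finset.disjoint_sup_right]
          intro k hk
          refine hdis ?_
          rintro rfl
          exact hit.2 hk
        have h5 : y i ⊓ (s : B) ≤ y i ⊓ t'.sup y := by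
          refine le_inf inf_le_left ?_
          refine le_trans ?_ hst
          exact le_inf inf_le_right (inf_le_left.trans (hle i))
        rw [disjoint_iff_inf_le]
        rw [h4.eq_bot] at h5
        exact h5

end Sum

end Pool.Agent.Lib.MP_8a899a_lc
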