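import Pool.Agent.Lib.MP_8a899a_lc.Cont

set_option autoImplicit false
set_option linter.unusedSectionVars false

/-!
# Families of prime classes of elements
-/

universe u

namespace Pool.Agent.Lib.MP_8a899a_lc

open Set Cardinal

/-- Classes of elements of Boolean algebras. -/
abbrev Cls := ∀ (C : Type u) [BooleanAlgebra C], C → Prop

/-- The class depends only on the algebra below the element. -/
def LocInv (P : Cls.{u}) : Prop :=
  ∀ (A C : Type u) [BooleanAlgebra A] [BooleanAlgebra C] (f : BoundedLatticeHom A C),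
    Function.Injective f → ∀ z : A, (∀ y ≤ f z, ∃ w, f w = y) → (P A z ↔ P C (f z))

/-- An independent family of prime classes. -/
structure Fam (Λ : Type u) (P : Λ → Cls.{u}) : Prop where
  loc : ∀ x, LocInv (P x)
  bot : ∀ x (C : Type u) [BooleanAlgebra C], ¬ P x C ⊥
  split : ∀ x (C : Type u) [BooleanAlgebra C] (z b : C), P x C z →
    P x C (z ⊓ b) ∨ P x C (z \ b)
  indep : ∀ x y (C : Type u) [BooleanAlgebra C] (z z' : C), z' ≤ z → P x C z → P y C z' → x = y

/-- The classes realized below an element. -/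
def Rz {Λ : Type u} (P : Λ → Cls.{u}) (C : Type u) [BooleanAlgebra C] (z : C) : Set Λ :=
  {x | ∃ z' ≤ z, P x C z'}

section Hom

variable {A C : Type u} [BooleanAlgebra A] [BooleanAlgebra C] (f : BoundedLatticeHom A C)
  (hf : Function.Injective f)

include hf

theorem hom_le_iff {x y : A} : f x ≤ f y ↔ x ≤ y := by
  constructor
  · intro h
    have h1 : f (x ⊓ y) = f x := by rw [map_inf]; exact inf_eq_left.2 h
    exact inf_eq_left.1 (hf h1)
  · intro h
    exact OrderHomClass.mono f h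

theorem sa_local {z : A} (hz : ∀ y ≤ f z, ∃ w, f w = y) {w : A} (hw : w ≤ z) :
    w ∈ (cb (ht A) : Set A) ↔ f w ∈ (cb (ht C) : Set C) := by
  have key : ∀ α : Ordinal.{u}, w ∈ (cb α : Set A) ↔ f w ∈ (cb α : Set C) := by
    intro α
    refine cb_iff_of_local f hf (Iic z) (fun x y hyx hx => le_trans hyx hx) ?_ α w hw
    intro x hx y hy
    exact hz y (hy.trans ((hom_le_iff f hf).2 hx))
  constructor
  · intro h
    exact cb_subset_ht _ ((key _).1 h)
  · intro h
    exact cb_subset_ht _ ((key _).2 h)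

theorem qs_local {z : A} (hz : ∀ y ≤ f z, ∃ w, f w = y) (α : Ordinal.{u}) {w : A} (hw : w ≤ z) :
    w ∈ Qs α A ↔ f w ∈ Qs α C := by
  have key : ∀ v ≤ z, v ∈ (cb α : Set A) ↔ f v ∈ (cb α : Set C) := by
    intro v hv
    refine cb_iff_of_local f hf (Iic z) (fun x y hyx hx => le_trans hyx hx) ?_ α v hv
    intro x hx y hy
    exact hz y (hy.trans ((hom_le_iff f hf).2 hx))
  constructor
  · intro h y hy hyw
    obtain ⟨x, rfl⟩ := hz y (hyw.trans ((hom_le_iff f hf).2 hw))
    have hxw : x ≤ w := (hom_le_iff f hf).1 hyw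
    have hxz : x ≤ z := hxw.trans hw
    exact (key x hxz).1 (h x ((sa_local f hf hz hxz).2 hy) hxw)
  · intro h x hx hxw
    have hxz : x ≤ z := hxw.trans hw
    exact (key x hxz).2 (h _ ((sa_local f hf hz hxz).1 hx) ((hom_le_iff f hf).2 hxw))

theorem phi_local {z : A} (hz : ∀ y ≤ f z, ∃ w, f w = y) (j : Ordinal.{u}) :
    Phi j z ↔ Phi j (f z) := by
  constructor
  · rintro ⟨w, hw, hwQ, hs⟩
    refine ⟨f w, (hom_le_iff f hf).2 hw, (qs_local f hf hz _ hw).1 hwQ, fun s hs' h1 => ?_⟩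
    obtain ⟨t, ht⟩ := hz (s ⊓ f z) inf_le_right
    have htz : t ≤ z := by rw [← hom_le_iff f hf, ht]; exact inf_le_right
    have htS : t ∈ (cb (Pool.Agent.Lib.MP_8a899a_lc.ht A) : Set A) := by
      rw [sa_local f hf hz htz, ht]
      exact (cb_isId _).down _ _ inf_le_left hs'
    refine hs t htS ?_
    rw [qs_local f hf hz _ (sdiff_le.trans hw), map_sdiff', ht]
    refine (Qs_isId j).down _ _ ?_ h1
    have h2 : f w \ (s ⊓ f z) = f w \ s := by
      rw [sdiff_inf, sdiff_eq_bot_iff.2 ((hom_le_iff f hf).2 hw), sup_bot_eq]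
    rw [h2]
  · rintro ⟨v, hv, hvQ, hs⟩
    obtain ⟨w, rfl⟩ := hz v hv
    have hw : w ≤ z := (hom_le_iff f hf).1 hv
    refine ⟨w, hw, (qs_local f hf hz _ hw).2 hvQ, fun s hs' h1 => ?_⟩
    have h2 : (s ⊓ z : A) ∈ (cb (Pool.Agent.Lib.MP_8a899a_lc.ht A) : Set A) :=
      (cb_isId _).down _ _ inf_le_left hs'
    refine hs (f (s ⊓ z)) ((sa_local f hf hz inf_le_right).1 h2) ?_
    rw [← map_sdiff', ← qs_local f hf hz _ (sdiff_le.trans hw)]
    have h3 : w \ (s ⊓ z) = w \ s := by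
      rw [sdiff_inf, sdiff_eq_bot_iff.2 hw, sup_bot_eq]
    rw [h3]
    exact h1

end Hom

section Family

variable {Λ : Type u} {P : Λ → Cls.{u}} (hF : Fam Λ P)

theorem Rz_mono {C : Type u} [BooleanAlgebra C] {z w : C} (h : z ≤ w) : Rz P C z ⊆ Rz P C w := by
  rintro x ⟨z', hz', hx⟩
  exact ⟨z', hz'.trans h, hx⟩

include hF

theorem Fam.rz_bot {C : Type u} [BooleanAlgebra C] : Rz P C ⊥ = ∅ := by
  rw [Set.eq_empty_iff_forall_notMem]
  rintro x ⟨z', hz', hx⟩
  rw [le_bot_iff] at hz'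
  subst hz'
  exact hF.bot x C hx

theorem Fam.rz_sup {C : Type u} [BooleanAlgebra C] (a b : C) :
    Rz P C (a ⊔ b) = Rz P C a ∪ Rz P C b := by
  apply Set.Subset.antisymm
  · rintro x ⟨z', hz', hx⟩
    rcases hF.split x C z' a hx with h1 | h1
    · left
      exact ⟨_, inf_le_right, h1⟩
    · right
      refine ⟨_, ?_, h1⟩
      rw [sdiff_le_iff]
      exact hz'
  · exact Set.union_subset (Rz_mono le_sup_left) (Rz_mono le_sup_right)

theorem Fam.rz_eq {C : Type u} [BooleanAlgebra C] {z : C} {x : Λ} (h : P x C z) :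
    Rz P C z = {x} := by
  apply Set.Subset.antisymm
  · rintro y ⟨z', hz', hy⟩
    exact (hF.indep x y C z z' hz' h hy).symm
  · rintro _ rfl
    exact ⟨z, le_rfl, h⟩

theorem Fam.rz_local {A C : Type u} [BooleanAlgebra A] [BooleanAlgebra C]
    (f : BoundedLatticeHom A C) (hf : Function.Injective f) {z : A}
    (hz : ∀ y ≤ f z, ∃ w, f w = y) {w : A} (hw : w ≤ z) : Rz P A w = Rz P C (f w) := by
  ext x
  constructor
  · rintro ⟨v, hv, hx⟩
    refine ⟨f v, (hom_le_iff f hf).2 hv, ?_⟩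
    refine (hF.loc x A C f hf v fun y hy => hz y (hy.trans ?_)).1 hx
    exact (hom_le_iff f hf).2 (hv.trans hw)
  · rintro ⟨y, hy, hx⟩
    obtain ⟨v, rfl⟩ := hz y (hy.trans ((hom_le_iff f hf).2 hw))
    have hv : v ≤ w := (hom_le_iff f hf).1 hy
    refine ⟨v, hv, ?_⟩
    refine (hF.loc x A C f hf v fun y hy => hz y (hy.trans ?_)).2 hx
    exact (hom_le_iff f hf).2 (hv.trans hw)

omit hF in
/-- The class of the elements below which almost exactly the classes in `Y` are realized, and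
which cannot be split. -/
def Nxt (P : Λ → Cls.{u}) (Y : Set Λ) : Cls.{u} := fun (C : Type u) [BooleanAlgebra C] (z : C) =>
  (Rz P C z).Infinite ∧ Rz P C z ⊆ Y ∧ (Y \ Rz P C z).Finite ∧
    ∀ z' ≤ z, (Rz P C z').Finite ∨ (Rz P C (z \ z')).Finite

omit hF in
theorem nxt_iff {Y : Set Λ} {C : Type u} [BooleanAlgebra C] {z : C} : Nxt P Y C z ↔
    (Rz P C z).Infinite ∧ Rz P C z ⊆ Y ∧ (Y \ Rz P C z).Finite ∧
      ∀ z' ≤ z, (Rz P C z').Finite ∨ (Rz P C (z \ z')).Finite := Iff.rfl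

theorem Fam.nxt_of_finite {Y : Set Λ} {C : Type u} [BooleanAlgebra C] {z w : C}
    (h : Nxt P Y C z) (hw : w ≤ z) (hfin : (Rz P C (z \ w)).Finite) : Nxt P Y C w := by
  obtain ⟨h1, h2, h3, h4⟩ := h
  have hz : Rz P C z = Rz P C w ∪ Rz P C (z \ w) := by
    rw [← hF.rz_sup, sup_sdiff_cancel_right hw]
  refine ⟨?_, (Rz_mono hw).trans h2, ?_, ?_⟩
  · intro h5
    apply h1
    rw [hz]
    exact h5.union hfin
  · refine (h3.union hfin).subset ?_
    rintro x ⟨hx, hx'⟩
    by_cases h5 : x ∈ Rz P C z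
    · right
      rw [hz] at h5
      exact h5.resolve_left hx'
    · left
      exact ⟨hx, h5⟩
  · intro z' hz'
    rcases h4 z' (hz'.trans hw) with h5 | h5
    · exact Or.inl h5
    · exact Or.inr (h5.subset (Rz_mono (sdiff_le_sdiff_right hw)))

/-- The next family. -/
theorem Fam.next {Λ' : Type u} (g : Λ' → Set Λ)
    (hg : ∀ i j, i ≠ j → (g i \ g j).Infinite ∨ (g j \ g i).Infinite) :
    Fam Λ' (fun i => Nxt P (g i)) := by
  refine ⟨?_, ?_, ?_, ?_⟩
  · intro i A C _ _ f hf z hz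
    have h1 : ∀ w ≤ z, Rz P A w = Rz P C (f w) := fun w hw => hF.rz_local f hf hz hw
    rw [nxt_iff, nxt_iff, h1 z le_rfl]
    refine and_congr_right fun _ => and_congr_right fun _ => and_congr_right fun _ => ?_
    constructor
    · intro h2 y hy
      obtain ⟨w, rfl⟩ := hz y hy
      have hw : w ≤ z := (hom_le_iff f hf).1 hy
      have h3 := h2 w hw
      rwa [h1 w hw, h1 _ sdiff_le, map_sdiff'] at h3
    · intro h2 w hw
      have h3 := h2 (f w) ((hom_le_iff f hf).2 hw)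
      rwa [← map_sdiff', ← h1 w hw, ← h1 _ sdiff_le] at h3
  · intro i C _ h
    have h1 : (Rz P C ⊥).Infinite := h.1
    rw [hF.rz_bot] at h1
    exact h1 Set.finite_empty
  · intro i C _ z b h
    rcases h.2.2.2 (z ⊓ b) inf_le_left with h1 | h1
    · right
      refine hF.nxt_of_finite h sdiff_le ?_
      rwa [_root_.sdiff_sdiff_right_self]
    · left
      exact hF.nxt_of_finite h inf_le_left h1
  · intro i j C _ z z' hzz h h'
    by_contra hij
    have hfin : (Rz P C (z \ z')).Finite := (h.2.2.2 z' hzz).resolve_left h'.1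
    have hz : Rz P C z = Rz P C z' ∪ Rz P C (z \ z') := by
      rw [← hF.rz_sup, sup_sdiff_cancel_right hzz]
    rcases hg i j hij with h1 | h1
    · apply h1
      refine (h.2.2.1.union hfin).subset ?_
      rintro x ⟨hx, hx'⟩
      by_cases h5 : x ∈ Rz P C z
      · right
        rw [hz] at h5
        exact h5.resolve_left fun h6 => hx' (h'.2.1 h6)
      · left
        exact ⟨hx, h5⟩
    · apply h1
      refine h'.2.2.1.subset ?_
      rintro x ⟨hx, hx'⟩
      exact ⟨hx, fun h6 => hx' (h.2.1 (Rz_mono hzz h6))⟩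

/-- If all classes are realized below `b` then the next classes are realized by local
subalgebras. -/
theorem Fam.exists_alg {B : Type u} [BooleanAlgebra B] {b : B} (hb : ∀ x, ∃ z ≤ b, P x B z)
    {Y : Set Λ} (hY : Y.Infinite) : ∃ A : BooleanSubalgebra B, IsLoc A b ∧ ∃ hbA : b ∈ A,
      Nxt P Y A ⟨b, hbA⟩ := by
  set Q : Set B := {a | Rz P B a ⊆ Y ∧ (Rz P B a).Finite} with hQdef
  have hQ : IsId Q := by
    refine ⟨?_, ?_, ?_⟩
    · refine ⟨?_, ?_⟩
      · rw [hF.rz_bot]; exact Set.empty_subset _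
      · rw [hF.rz_bot]; exact Set.finite_empty
    · rintro x y hyx ⟨h1, h2⟩
      exact ⟨(Rz_mono hyx).trans h1, h2.subset (Rz_mono hyx)⟩
    · rintro x y ⟨h1, h2⟩ ⟨h3, h4⟩
      refine ⟨?_, ?_⟩
      · rw [hF.rz_sup]; exact Set.union_subset h1 h3
      · rw [hF.rz_sup]; exact h2.union h4
  set A := sub Q hQ b with hA
  have hbA : b ∈ A := by right; rw [_root_.sdiff_self]; exact hQ.bot
  have hloc : IsLoc A b := by
    refine ⟨hbA, ?_⟩
    intro x hx
    rw [hA, mem_sub] at hx ⊢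
    rcases hx with hx | hx
    · left; rwa [inf_assoc, inf_idem] at hx
    · right; rwa [sdiff_inf_self_right] at hx
  have hQA : ∀ a ∈ Q, a ∈ A := fun a ha => mem_sub_of_mem ha
  have hmem : ∀ a : A, (a : B) ≤ b → (a : B) ∈ Q ∨ b \ (a : B) ∈ Q := by
    rintro ⟨a, ha⟩ hab
    have h1 : a ⊓ b ∈ Q ∨ b \ a ∈ Q := ha
    have hab' : a ≤ b := hab
    rwa [inf_eq_left.2 hab'] at h1
  -- locality
  have hinj : Function.Injective A.subtype := A.subtype_injective
  have hdown : ∀ a : A, (a : B) ∈ Q → ∀ y ≤ A.subtype a, ∃ w, A.subtype w = y := by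
    intro a ha y hy
    exact ⟨⟨y, hQA y (hQ.down _ _ hy ha)⟩, rfl⟩
  have hRz : ∀ a : A, (a : B) ∈ Q → Rz P A a = Rz P B (a : B) := fun a ha =>
    hF.rz_local A.subtype hinj (hdown a ha) le_rfl
  -- realized classes below cofinite elements
  have hbig : ∀ a : A, b \ (a : B) ∈ Q → Y \ Rz P B (b \ (a : B)) ⊆ Rz P A a := by
    rintro a ha x ⟨hxY, hx⟩
    obtain ⟨z, hzb, hz⟩ := hb x
    have hzx := hF.rz_eq hz
    rcases hF.split x B z (a : B) hz with h1 | h1
    · have h2 : z ⊓ (a : B) ∈ Q := by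
        change Rz P B (z ⊓ (a : B)) ⊆ Y ∧ (Rz P B (z ⊓ (a : B))).Finite
        rw [hF.rz_eq h1]
        exact ⟨Set.singleton_subset_iff.2 hxY, Set.finite_singleton x⟩
      refine ⟨⟨z ⊓ (a : B), hQA _ h2⟩, (inf_le_right : z ⊓ (a : B) ≤ a), ?_⟩
      exact (hF.loc x A B A.subtype hinj ⟨z ⊓ (a : B), hQA _ h2⟩ (hdown _ h2)).2 h1
    · exact absurd ⟨z \ (a : B), sdiff_le_sdiff_right hzb, h1⟩ hx
  have hcofin : ∀ a : A, b \ (a : B) ∈ Q → (Y \ Rz P A a).Finite := by
    intro a ha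
    refine ha.2.subset ?_
    rintro x ⟨hx, hx'⟩
    by_contra h1
    exact hx' (hbig a ha ⟨hx, h1⟩)
  have hsub : ∀ a : A, (a : B) ≤ b → Rz P A a ⊆ Y := by
    rintro a hab x ⟨z, hz, hx⟩
    have hzb : (z : B) ≤ b := le_trans (show (z : B) ≤ (a : B) from hz) hab
    rcases hmem z hzb with h1 | h1
    · have h2 : x ∈ Rz P A z := ⟨z, le_rfl, hx⟩
      rw [hRz z h1] at h2
      exact h1.1 h2
    · exfalso
      have h2 := hcofin z h1
      rw [hF.rz_eq hx] at h2
      apply hY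
      refine (h2.union (Set.finite_singleton x)).subset ?_
      intro y hy
      by_cases h3 : y = x
      · right; exact h3
      · left; exact ⟨hy, h3⟩
  have htop : b \ ((⟨b, hbA⟩ : A) : B) ∈ Q := by
    change b \ b ∈ Q
    rw [_root_.sdiff_self]
    exact hQ.bot
  refine ⟨A, hloc, hbA, ?_, hsub _ le_rfl, hcofin _ htop, ?_⟩
  · intro h1
    apply hY
    refine (h1.union (hcofin _ htop)).subset ?_
    intro y hy
    by_cases h3 : y ∈ Rz P A ⟨b, hbA⟩
    · left; exact h3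
    · right; exact ⟨hy, h3⟩
  · intro z hz
    have hzb : (z : B) ≤ b := hz
    rcases hmem z hzb with h1 | h1
    · left
      rw [hRz z h1]
      exact h1.2
    · right
      have h2 : (((⟨b, hbA⟩ : A) \ z : A) : B) ∈ Q := h1
      rw [hRz _ h2]
      exact h2.2

end Family

end Pool.Agent.Lib.MP_8a899a_lc
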