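import Pool.Agent.Lib.MP_8a899a_lc.Arith
import Pool.Agent.Lib.MP_8a899a_lc.Code

set_option autoImplicit false
set_option linter.unusedSectionVars false

/-!
# Superatomicity for singular cardinals with few covering sets
-/

universe u

namespace Pool.Agent.Lib.MP_8a899a_lc

open Set Cardinal

variable {B : Type u} [BooleanAlgebra B] {κ : Cardinal.{u}}

/-- The general criterion. -/
theorem HasStar.superatomic_of_smallCover (h : HasStar κ B) (hκ : ℵ₀ < κ)
    (h1 : ∃ ρ δ : Cardinal.{u}, ℵ₀ ≤ ρ ∧ ρ ≤ κ.ord.cof ∧ κ.ord.cof < 2 ^ ρ ∧ δ < κ ∧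
      Order.succ κ.ord.cof ≤ δ ∧ ∀ χ < ρ, δ ^ χ ≤ δ)
    (h2 : ∀ ν < κ, ∃ l1 < κ, ∀ l, l1 < l → l < κ → SmallCover κ ν l) : Superatomic B := by
  by_contra hns
  obtain ⟨ρ, δ, hρω, hρμ, hμρ, hδκ, hμδ, hpow⟩ := h1
  obtain ⟨ν, hν, hbd⟩ := h.bounded' hκ.le hns hρω hρμ hμρ hδκ hμδ hpow
  obtain ⟨l1, hl1, hcov⟩ := h2 (max ν ℵ₀) (max_lt hν hκ)
  obtain ⟨α, hα, hαc⟩ := h.exists_card_Qs hκ.le hns hκ
    (max_lt hl1 (max_lt hν hκ) : max l1 (max ν ℵ₀) < κ)
  refine h.not_smallCover hκ.le hns (ν := max ν ℵ₀) (fun x hx => (hbd x hx).trans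
    (le_max_left _ _)) (le_max_right _ _) hα ((le_max_right _ _).trans_lt hαc) ?_
  exact hcov _ ((le_max_left _ _).trans_lt hαc) (h.card_lt_of_lt_ht hκ.le hns hα)

/-- Singular cardinals with few covering sets. -/
theorem HasStar.superatomic_of_fewCover (h : HasStar κ B) (hκ : κ.IsSingular)
    (hcov : ∀ ν l : Cardinal.{u}, ℵ₀ ≤ ν → ν < l → l < κ → FewCover κ ν l) :
    Superatomic B := by
  have hμκ : κ.ord.cof < κ := hκ.cof_ord_lt
  have hμω : ℵ₀ ≤ κ.ord.cof := aleph0_le_cof hκ.aleph0_le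
  refine h.superatomic_of_smallCover (hμω.trans_lt hμκ) (exists_rho_delta hκ hcov) ?_
  intro ν hν
  refine ⟨max ν κ.ord.cof, max_lt hν hμκ, fun l hl hlκ => ?_⟩
  have hω : ℵ₀ ≤ max ν κ.ord.cof := hμω.trans (le_max_right _ _)
  exact SmallCover.of_fewCover (hcov _ l hω hl hlκ) hω (le_max_right _ _) (le_max_left _ _) hl

/-- The cardinals `ℵ_(o + ω)`. -/
theorem HasStar.superatomic_of_aleph (o : Ordinal.{u})
    (h : HasStar (ℵ_ (o + Ordinal.omega0)) B) : Superatomic B := by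
  set κ : Cardinal.{u} := ℵ_ (o + Ordinal.omega0) with hκ
  have hcof : κ.ord.cof = ℵ₀ := by
    rw [hκ, ord_aleph, Ordinal.cof_omega]
    · rw [Ordinal.cof_add _ Ordinal.omega0_ne_zero, Ordinal.cof_omega0]
    · exact Ordinal.isSuccLimit_add _ Ordinal.isSuccLimit_omega0
  have hoκ : ℵ_ o < κ := by
    rw [hκ, aleph_lt_aleph]
    exact lt_add_of_pos_right _ Ordinal.omega0_pos
  have h1κ : ℵ_ 1 < κ := by
    rw [hκ, aleph_lt_aleph]
    exact Ordinal.one_lt_omega0.trans_le le_add_self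
  have h0κ : ℵ₀ < κ := by
    rw [← aleph_zero]
    refine lt_trans ?_ h1κ
    rw [aleph_lt_aleph]
    exact zero_lt_one
  refine h.superatomic_of_smallCover h0κ ⟨ℵ₀, ℵ_ 1, le_rfl, hcof.ge, ?_, h1κ, ?_, ?_⟩ ?_
  · rw [hcof]; exact cantor _
  · rw [hcof, succ_aleph0]
  · intro χ hχ
    obtain ⟨n, rfl⟩ := lt_aleph0.1 hχ
    exact power_nat_le (aleph0_le_aleph 1)
  · intro ν hν
    refine ⟨max ν (ℵ_ o), max_lt hν hoκ, fun l hl hlκ => ?_⟩
    have hol : ℵ_ o < l := (le_max_right _ _).trans_lt hl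
    obtain ⟨p, rfl⟩ : l ∈ range aleph := by
      rw [mem_range_aleph_iff]
      exact (aleph0_le_aleph o).trans hol.le
    rw [aleph_lt_aleph] at hol
    rw [hκ, aleph_lt_aleph] at hlκ
    have hp : p - o < Ordinal.omega0 := Ordinal.sub_lt_of_lt_add hlκ Ordinal.omega0_pos
    obtain ⟨n, hn⟩ := Ordinal.lt_omega0.1 hp
    have hpo : o + n = p := by rw [← hn]; exact Ordinal.add_sub_cancel_of_le hol.le
    have hn0 : n ≠ 0 := by
      rintro rfl
      rw [Nat.cast_zero, add_zero] at hpo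
      exact absurd hol (by rw [hpo]; exact lt_irrefl _)
    obtain ⟨m, rfl⟩ := Nat.exists_eq_succ_of_ne_zero hn0
    have hreg : (ℵ_ p).IsRegular := by
      have h3 : p = (o + m) + 1 := by
        rw [← hpo, Nat.cast_succ, add_assoc]
      rw [h3]
      exact isRegular_aleph_add_one _
    refine SmallCover.of_isRegular hreg (by rw [aleph_lt_aleph]; exact hlκ) ?_
      ((le_max_left _ _).trans_lt hl)
    rw [hcof]
    exact (aleph0_le_aleph o).trans_lt ((le_max_right _ _).trans_lt hl)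

end Pool.Agent.Lib.MP_8a899a_lc
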