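import Pool.Agent.Lib.MP_8a899a_lc.Ideal

set_option autoImplicit false
set_option linter.unusedSectionVars false

/-!
# Generators of the canonical ideal when its principal ideals are of unbounded size
-/

universe u

namespace Pool.Agent.Lib.MP_8a899a_lc

open Set Cardinal

variable {B : Type u} [BooleanAlgebra B] {κ : Cardinal.{u}}

/-- A cofinal family of cardinals below `κ`, indexed by a set of size `κ.ord.cof`. -/
theorem exists_cofinal_family (κ : Cardinal.{u}) : ∃ (ι : Type u) (c : ι → Cardinal.{u}),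
    #ι = κ.ord.cof ∧ (∀ i, c i < κ) ∧ ∀ ν < κ, ∃ i, ν ≤ c i := by
  obtain ⟨s, hs, hs'⟩ := Order.exists_cof_eq κ.ord.ToType
  refine ⟨s, fun i => ((i : κ.ord.ToType).toOrd : Ordinal.{u}).card, ?_, ?_, ?_⟩
  · rw [hs', Ordinal.cof_toType]
  · intro i
    exact lt_ord.1 (i : κ.ord.ToType).toOrd.2
  · intro ν hν
    obtain ⟨i, hi, hle⟩ := hs (Ordinal.ToType.mk ⟨ν.ord, ord_lt_ord.2 hν⟩)
    refine ⟨⟨i, hi⟩, ?_⟩
    have h1 : ν.ord ≤ (i.toOrd : Ordinal.{u}) := by
      have h2 := Ordinal.ToType.mk.symm.monotone hle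
      rw [OrderIso.symm_apply_apply] at h2
      exact h2
    calc ν = ν.ord.card := (card_ord ν).symm
      _ ≤ _ := Ordinal.card_le_card h1

theorem aleph0_le_cof (hκ : ℵ₀ ≤ κ) : ℵ₀ ≤ κ.ord.cof :=
  Ordinal.aleph0_le_cof_iff.2 (Ordinal.one_lt_cof_iff.2 (isSuccLimit_ord hκ))

/-- The ideal generated by a family. -/
def gen {ι : Type u} (x : ι → B) : Set B := {y | ∃ t : Finset ι, y ≤ t.sup x}

theorem gen_isId {ι : Type u} (x : ι → B) : IsId (gen x) where
  bot := ⟨∅, bot_le⟩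
  down := by
    rintro y z hzy ⟨t, ht⟩
    exact ⟨t, hzy.trans ht⟩
  sup := by
    classical
    rintro y z ⟨t, ht⟩ ⟨t', ht'⟩
    refine ⟨t ∪ t', ?_⟩
    rw [Finset.sup_union]
    exact sup_le_sup ht ht'

theorem gen_subset {ι : Type u} {x : ι → B} {R : Set B} (hR : IsId R) (h : ∀ i, x i ∈ R) :
    gen x ⊆ R := by
  rintro y ⟨t, ht⟩
  exact hR.down _ _ ht (hR.sup_mem t x fun i _ => h i)

theorem le_gen {ι : Type u} (x : ι → B) (i : ι) {y : B} (hy : y ≤ x i) : y ∈ gen x :=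
  ⟨{i}, by simpa using hy⟩

theorem gen_cofGen {ι : Type u} (x : ι → B) {μ : Cardinal.{u}} (hμ : ℵ₀ ≤ μ) (hι : #ι ≤ μ) :
    CofGen (gen x) μ := by
  refine ⟨range (fun t : Finset ι => t.sup x), ?_, ?_, ?_⟩
  · rintro _ ⟨t, rfl⟩
    exact ⟨t, le_rfl⟩
  · refine mk_range_le.trans ?_
    rcases finite_or_infinite ι with hf | hf
    · exact (lt_aleph0_of_finite _).le.trans hμ
    · rw [mk_finset_of_infinite]; exact hι
  · rintro y ⟨t, ht⟩
    exact ⟨_, ⟨t, rfl⟩, ht⟩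

variable (B) in
theorem card_ht_le_cb : (ht B).card ≤ #(cb (ht B) : Set B) := by
  have hex : ∀ i : (ht B).ToType, ∃ x : B, AtomMod (cb (i.toOrd : Ordinal.{u})) x :=
    fun i => exists_atom_of_lt_ht i.toOrd.2
  choose f hf using hex
  rw [← mk_toType]
  refine mk_le_of_injective (f := fun i => (⟨f i, (hf i).mem_cb i.toOrd.2⟩ : (cb (ht B) : Set B)))
    ?_
  intro i j hij
  have hij' : f i = f j := congrArg Subtype.val hij
  rcases lt_trichotomy i j with h1 | h1 | h1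
  · have h2 : (i.toOrd : Ordinal.{u}) < j.toOrd := by simpa using h1
    exact absurd ((hf i).mem_cb h2) (by rw [hij']; exact (hf j).1)
  · exact h1
  · have h2 : (j.toOrd : Ordinal.{u}) < i.toOrd := by simpa using h1
    exact absurd ((hf j).mem_cb h2) (by rw [← hij']; exact (hf i).1)

section Star

variable (h : HasStar κ B) (hκ : ℵ₀ ≤ κ) (hns : ¬ Superatomic B)

include h hκ hns

/-- If the principal ideals are of unbounded size then the canonical ideal is generated by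
`cof κ` elements. -/
theorem HasStar.cofGen_small (hA : ∀ ν < κ, ∃ x ∈ small κ B, ν < #(Iic x)) :
    CofGen (small κ B) κ.ord.cof := by
  obtain ⟨ι, c, hι, hc, hcof⟩ := exists_cofinal_family κ
  have h1 : ∀ i, ∃ x ∈ small κ B, c i < #(Iic x) := fun i => hA _ (hc i)
  choose x hx hcx using h1
  have hRs : gen x ⊆ small κ B := gen_subset (small_isId hκ) hx
  have hRκ : κ ≤ #(gen x) := by
    by_contra hcon
    push Not at hcon
    obtain ⟨i, hi⟩ := hcof _ hcon
    have h2 : #(Iic (x i)) ≤ #(gen x) := mk_le_mk_of_subset fun y hy => le_gen x i hy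
    exact absurd (h2.trans hi) (not_le_of_gt (hcx i))
  exact (h.cofGen_iff hκ (gen_isId x) hRs hRκ _).1 (gen_cofGen x (aleph0_le_cof hκ) hι.le)

/-- All ideals below an element of the canonical ideal are generated by few elements. -/
theorem HasStar.cofGen_of_le {μ : Cardinal.{u}} (hgen : CofGen (small κ B) μ) {x : B}
    (hx : x ∈ small κ B) {N : Set B} (hN : IsId N) (hNx : N ⊆ Iic x) : CofGen N μ := by
  have hsm : IsId (small κ B) := small_isId hκ
  set R : Set B := {y | y ∈ small κ B ∧ y ⊓ x ∈ N} with hR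
  have hRid : IsId R := by
    refine ⟨⟨hsm.bot, by rw [bot_inf_eq]; exact hN.bot⟩, ?_, ?_⟩
    · rintro y z hzy ⟨hy1, hy2⟩
      exact ⟨hsm.down _ _ hzy hy1, hN.down _ _ (inf_le_inf_right _ hzy) hy2⟩
    · rintro y z ⟨hy1, hy2⟩ ⟨hz1, hz2⟩
      refine ⟨hsm.sup _ _ hy1 hz1, ?_⟩
      rw [inf_sup_right]
      exact hN.sup _ _ hy2 hz2
  have hRκ : κ ≤ #R := by
    refine (h.le_card_orth hκ hns hx).trans (mk_le_mk_of_subset ?_)
    rintro y ⟨hy1, hy2⟩
    exact ⟨hy1, by rw [hy2]; exact hN.bot⟩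
  obtain ⟨G, hG, hGμ, hGc⟩ := (h.cofGen_iff hκ hRid (fun y hy => hy.1) hRκ μ).2 hgen
  refine ⟨(· ⊓ x) '' G, ?_, mk_image_le.trans hGμ, ?_⟩
  · rintro _ ⟨g, hg, rfl⟩
    exact (hG hg).2
  · intro y hy
    have hyx : y ≤ x := hNx hy
    have h1 : y ∈ R := ⟨hsm.down _ _ hyx hx, by rw [inf_eq_left.2 hyx]; exact hy⟩
    obtain ⟨g, hg, hyg⟩ := hGc y h1
    exact ⟨_, ⟨g, hg, rfl⟩, le_inf hyg hyx⟩

theorem HasStar.card_low_le {μ δ : Cardinal.{u}} (hgen : CofGen (small κ B) μ) (hδ : ℵ₀ ≤ δ)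
    (hμδ : μ ≤ δ) {x : B} (hx : x ∈ small κ B) : #(low δ B ∩ Iic x : Set B) ≤ δ := by
  obtain ⟨G, hG, hGμ, hGc⟩ := h.cofGen_of_le hκ hns hgen hx
    ((low_isId hδ).inter (isId_iic x)) inter_subset_right
  have h1 : (low δ B ∩ Iic x : Set B) ⊆ ⋃ g : G, Iic (g : B) := by
    intro y hy
    obtain ⟨g, hg, hyg⟩ := hGc y hy
    exact mem_iUnion.2 ⟨⟨g, hg⟩, hyg⟩
  refine (mk_le_mk_of_subset h1).trans ((mk_iUnion_le _).trans ?_)
  refine mul_le_of_le hδ (hGμ.trans hμδ) (ciSup_le' ?_)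
  intro g
  exact (hG g.2).1

theorem HasStar.card_low_inter_small_le {μ δ : Cardinal.{u}} (hgen : CofGen (small κ B) μ)
    (hδ : ℵ₀ ≤ δ) (hμδ : μ ≤ δ) : #(low δ B ∩ small κ B : Set B) ≤ δ := by
  obtain ⟨G, hG, hGμ, hGc⟩ := hgen
  have h1 : (low δ B ∩ small κ B : Set B) ⊆ ⋃ g : G, (low δ B ∩ Iic (g : B)) := by
    intro y hy
    obtain ⟨g, hg, hyg⟩ := hGc y hy.2
    exact mem_iUnion.2 ⟨⟨g, hg⟩, hy.1, hyg⟩
  refine (mk_le_mk_of_subset h1).trans ((mk_iUnion_le _).trans ?_)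
  refine mul_le_of_le hδ (hGμ.trans hμδ) (ciSup_le' ?_)
  intro g
  exact h.card_low_le hκ hns ⟨G, hG, hGμ, hGc⟩ hδ hμδ (hG g.2)

/-- The superatomic elements have at most `μ` elements below. -/
theorem HasStar.cb_subset_low {μ : Cardinal.{u}} (hgen : CofGen (small κ B) μ) (hμ : ℵ₀ ≤ μ)
    (α : Ordinal.{u}) : (cb α : Set B) ⊆ low μ B := by
  have hlow : IsId (low μ B) := low_isId hμ
  induction α using WellFoundedLT.induction with
  | ind α ih =>
    intro x hx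
    rw [mem_cb] at hx
    rcases hx with rfl | ⟨β, hβ, hx⟩
    · exact hlow.bot
    · induction hx with
      | base x hx => exact ih β hβ hx
      | sup x y _ _ ih1 ih2 => exact hlow.sup _ _ ih1 ih2
      | atom a ha =>
        have hasm : a ∈ small κ B := h.cb_subset_small hns (Order.succ β)
          (ha.mem_cb (Order.lt_succ β))
        have h1 : (Iic a : Set B) ⊆
            (low μ B ∩ Iic a : Set B) ∪ (a \ ·) '' (low μ B ∩ Iic a : Set B) := by
          intro y hy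
          rcases ha.2 y hy with h2 | h2
          · exact Or.inl ⟨ih β hβ h2, hy⟩
          · exact Or.inr ⟨a \ y, ⟨ih β hβ h2, (sdiff_le : a \ y ≤ a)⟩, sdiff_sdiff_eq_self hy⟩
        have h2 := h.card_low_le hκ hns hgen hμ le_rfl hasm
        exact (mk_le_mk_of_subset h1).trans (card_union_le_of_le hμ h2 (mk_image_le.trans h2))

theorem HasStar.card_cb_le {μ : Cardinal.{u}} (hgen : CofGen (small κ B) μ) (hμ : ℵ₀ ≤ μ)
    (α : Ordinal.{u}) : #(cb α : Set B) ≤ μ := by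
  have h1 : (cb α : Set B) ⊆ low μ B ∩ small κ B := fun x hx =>
    ⟨h.cb_subset_low hκ hns hgen hμ α hx, h.cb_subset_small hns α hx⟩
  exact (mk_le_mk_of_subset h1).trans (h.card_low_inter_small_le hκ hns hgen hμ le_rfl)

theorem HasStar.card_ht_le {μ : Cardinal.{u}} (hgen : CofGen (small κ B) μ) (hμ : ℵ₀ ≤ μ) :
    (ht B).card ≤ μ :=
  (card_ht_le_cb B).trans (h.card_cb_le hκ hns hgen hμ (ht B))

end Star

end Pool.Agent.Lib.MP_8a899a_lc
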