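import Pool.Agent.Lib.MP_8a899a_lc.Indep

set_option autoImplicit false
set_option linter.unusedSectionVars false

/-!
# The canonical ideal of an algebra with property `(∗)_κ`
-/

universe u

namespace Pool.Agent.Lib.MP_8a899a_lc

open Set Cardinal

variable {B : Type u} [BooleanAlgebra B] {κ : Cardinal.{u}}

/-- The elements with fewer than `κ` elements below. -/
def small (κ : Cardinal.{u}) (B : Type u) [BooleanAlgebra B] : Set B := {x | #(Iic x) < κ}

theorem mem_small {x : B} : x ∈ small κ B ↔ #(Iic x) < κ := Iff.rfl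

theorem card_iic_sup_le (x y : B) : #(Iic (x ⊔ y)) ≤ #(Iic x) * #(Iic y) :=
  card_le_mul (Iic (x ⊔ y)) (Iic y) x (fun _ hw => sdiff_le_iff.2 hw)

theorem card_iic_mono {x y : B} (h : x ≤ y) : #(Iic x) ≤ #(Iic y) :=
  mk_le_mk_of_subset (Iic_subset_Iic.2 h)

theorem card_iic_bot : #(Iic (⊥ : B)) = 1 := by
  rw [Iic_bot]; exact mk_singleton _

theorem small_isId (hκ : ℵ₀ ≤ κ) : IsId (small κ B) where
  bot := by
    rw [mem_small, card_iic_bot]
    exact one_lt_aleph0.trans_le hκ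
  down _ _ h hx := (card_iic_mono h).trans_lt hx
  sup x y hx hy := (card_iic_sup_le x y).trans_lt (mul_lt_of_lt hκ hx hy)

/-- The elements with at most `δ` elements below. -/
def low (δ : Cardinal.{u}) (B : Type u) [BooleanAlgebra B] : Set B := {x | #(Iic x) ≤ δ}

theorem mem_low {δ : Cardinal.{u}} {x : B} : x ∈ low δ B ↔ #(Iic x) ≤ δ := Iff.rfl

theorem low_isId {δ : Cardinal.{u}} (hδ : ℵ₀ ≤ δ) : IsId (low δ B) where
  bot := by
    rw [mem_low, card_iic_bot]
    exact one_le_aleph0.trans hδ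
  down _ _ h hx := (card_iic_mono h).trans hx
  sup x y hx hy := (card_iic_sup_le x y).trans (mul_le_of_le hδ hx hy)

theorem IsId.sup_mem {R : Set B} (hR : IsId R) {ι : Type*} (t : Finset ι) (f : ι → B)
    (h : ∀ i ∈ t, f i ∈ R) : t.sup f ∈ R := by
  classical
  induction t using Finset.induction_on with
  | empty => rw [Finset.sup_empty]; exact hR.bot
  | insert a t _ ih =>
    rw [Finset.sup_insert]
    exact hR.sup _ _ (h a (Finset.mem_insert_self _ _))
      (ih fun i hi => h i (Finset.mem_insert_of_mem hi))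

theorem IsId.inter {R R' : Set B} (h : IsId R) (h' : IsId R') : IsId (R ∩ R') where
  bot := ⟨h.bot, h'.bot⟩
  down x y hyx hx := ⟨h.down x y hyx hx.1, h'.down x y hyx hx.2⟩
  sup x y hx hy := ⟨h.sup x y hx.1 hy.1, h'.sup x y hx.2 hy.2⟩

section Iso

variable {A : Type u} [BooleanAlgebra A]

theorem card_iic_iso (e : A ≃o B) (a : A) : #(Iic (e a)) = #(Iic a) := by
  refine (mk_congr ?_).symm
  exact
    { toFun := fun y => ⟨e y, e.monotone y.2⟩
      invFun := fun z => ⟨e.symm z, by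
        have h : (z : B) ≤ e a := z.2
        exact (e.symm_apply_le).2 h⟩
      left_inv := fun y => Subtype.ext (e.symm_apply_apply _)
      right_inv := fun z => Subtype.ext (e.apply_symm_apply _) }

theorem mem_small_iso (e : A ≃o B) (a : A) : e a ∈ small κ B ↔ a ∈ small κ A := by
  rw [mem_small, mem_small, card_iic_iso]

theorem ht_iso (e : A ≃o B) : ht A = ht B := by
  unfold ht
  congr 1
  ext α
  constructor
  · intro h b hb
    refine h (e.symm b) ?_
    rw [atomMod_iff_of_iso e]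
    simpa using hb
  · intro h a ha
    exact h (e a) ((atomMod_iff_of_iso e α a).1 ha)

end Iso

/-- The elements all of whose superatomic parts have rank at most `α`. -/
def Qs (α : Ordinal.{u}) (B : Type u) [BooleanAlgebra B] : Set B :=
  {y | ∀ x ∈ (cb (ht B) : Set B), x ≤ y → x ∈ cb α}

theorem Qs_isId (α : Ordinal.{u}) : IsId (Qs α B) := by
  have hSid : IsId (cb (ht B) : Set B) := cb_isId _
  refine ⟨?_, ?_, ?_⟩
  · intro x _ hx
    rw [le_bot_iff.1 hx]; exact (cb_isId α).bot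
  · intro x y hyx hx z hz hzy
    exact hx z hz (hzy.trans hyx)
  · intro x y hx hy z hz hzle
    have : z = (z ⊓ x) ⊔ (z ⊓ y) := by
      rw [← inf_sup_left]; exact (inf_eq_left.2 hzle).symm
    rw [this]
    exact (cb_isId α).sup _ _ (hx _ (hSid.down _ _ inf_le_left hz) inf_le_right)
      (hy _ (hSid.down _ _ inf_le_left hz) inf_le_right)

theorem mem_Qs_iso {A : Type u} [BooleanAlgebra A] (e : A ≃o B) (α : Ordinal.{u}) (a : A) :
    a ∈ Qs α A ↔ e a ∈ Qs α B := by
  constructor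
  · intro h x hx hxa
    have h1 : e.symm x ∈ (cb (ht A) : Set A) := by
      rw [cb_iff_of_iso e, ht_iso e]
      simpa using hx
    have h2 := h _ h1 ((e.symm_apply_le).2 hxa)
    rw [cb_iff_of_iso e] at h2
    simpa using h2
  · intro h x hx hxa
    rw [cb_iff_of_iso e]
    refine h (e x) ?_ (e.monotone hxa)
    rw [← ht_iso e, ← cb_iff_of_iso e]
    exact hx

section Star

theorem HasStar.cb_subset_small (h : HasStar κ B) (hns : ¬ Superatomic B) (α : Ordinal.{u}) :
    (cb α : Set B) ⊆ small κ B := by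
  intro s hs
  have h1 : Iic s ⊆ (cb (ht B) : Set B) := fun y hy =>
    (cb_isId _).down _ _ hy (cb_subset_ht α hs)
  exact (mk_le_mk_of_subset h1).trans_lt (h.card_lt hns)

/-- The canonical ideal is maximal. -/
theorem HasStar.mem_small_or (h : HasStar κ B) (hκ : ℵ₀ ≤ κ) (hns : ¬ Superatomic B) (b : B) :
    b ∈ small κ B ∨ bᶜ ∈ small κ B := by
  by_contra hcon
  push Not at hcon
  obtain ⟨h1, h2⟩ := hcon
  rw [mem_small, not_lt] at h1 h2
  have hbS : b ∉ (cb (ht B) : Set B) := fun hb =>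
    absurd (h.cb_subset_small hns _ hb) (not_lt_of_ge h1)
  obtain ⟨α, hα, s, hs, hαs⟩ := h.bound hbS h2
  have h3 : b \ s ∈ small κ B := h.card_iic_lt hκ hα hαs
  have h4 : s ∈ small κ B := h.cb_subset_small hns _ hs
  have h5 : b ∈ small κ B := by
    refine (small_isId hκ).down (b \ s ⊔ s) b ?_ ((small_isId hκ).sup _ _ h3 h4)
    rw [sdiff_sup_self]
    exact le_sup_left
  exact absurd h5 (not_lt_of_ge h1)

theorem HasStar.top_notMem_small (h : HasStar κ B) : (⊤ : B) ∉ small κ B := by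
  rw [mem_small, Iic_top, mk_univ, h.1]
  exact lt_irrefl _

theorem HasStar.compl_notMem_small (h : HasStar κ B) (hκ : ℵ₀ ≤ κ) {x : B}
    (hx : x ∈ small κ B) : xᶜ ∉ small κ B := by
  intro h1
  apply h.top_notMem_small
  rw [← sup_compl_eq_top (x := x)]
  exact (small_isId hκ).sup _ _ hx h1

theorem HasStar.le_card_small (h : HasStar κ B) (hκ : ℵ₀ ≤ κ) (hns : ¬ Superatomic B) :
    κ ≤ #(small κ B) := by
  by_contra hcon
  push Not at hcon
  have h1 : (univ : Set B) ⊆ small κ B ∪ compl '' small κ B := by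
    intro b _
    rcases h.mem_small_or hκ hns b with h2 | h2
    · exact Or.inl h2
    · exact Or.inr ⟨_, h2, compl_compl b⟩
  have h2 : κ ≤ #(small κ B ∪ compl '' small κ B : Set B) := by
    have h3 := mk_le_mk_of_subset h1
    rwa [mk_univ, h.1] at h3
  refine absurd h2 (not_le_of_gt ((mk_union_le _ _).trans_lt (add_lt_of_lt hκ hcon ?_)))
  exact mk_image_le.trans_lt hcon

/-- The big part of the canonical ideal orthogonal to one of its elements. -/
theorem HasStar.le_card_orth (h : HasStar κ B) (hκ : ℵ₀ ≤ κ) (hns : ¬ Superatomic B) {x : B}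
    (hx : x ∈ small κ B) : κ ≤ #{y : B | y ∈ small κ B ∧ y ⊓ x = ⊥} := by
  by_contra hcon
  push Not at hcon
  have h1 : #(small κ B) ≤ #(Iic x) * #{y : B | y ∈ small κ B ∧ y ⊓ x = ⊥} := by
    refine card_le_mul _ _ x (fun w hw => ⟨(small_isId hκ).down _ _ sdiff_le hw, ?_⟩)
    rw [inf_comm, inf_sdiff_self_right]
  exact absurd ((h.le_card_small hκ hns).trans h1) (not_le_of_gt (mul_lt_of_lt hκ hx hcon))

/-- The subalgebra `R ∪ {xᶜ : x ∈ R}`. -/
def ofId (R : Set B) (hR : IsId R) : BooleanSubalgebra B := sub R hR ⊤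

theorem mem_ofId {R : Set B} {hR : IsId R} {x : B} : x ∈ ofId R hR ↔ x ∈ R ∨ xᶜ ∈ R := by
  unfold ofId
  rw [mem_sub, inf_top_eq, top_sdiff]

theorem mem_ofId_of_mem {R : Set B} {hR : IsId R} {x : B} (h : x ∈ R) : x ∈ ofId R hR :=
  mem_ofId.2 (Or.inl h)

/-- A big ideal contained in the canonical ideal is transported to the canonical ideal. -/
theorem HasStar.exists_iso (h : HasStar κ B) (hκ : ℵ₀ ≤ κ) {R : Set B} (hR : IsId R)
    (hRs : R ⊆ small κ B) (hRκ : κ ≤ #R) :
    ∃ e : ofId R hR ≃o B, ∀ a : ofId R hR, (a : B) ∈ R ↔ e a ∈ small κ B := by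
  obtain ⟨e⟩ := h.iso (ofId R hR) R (fun x hx => mem_ofId_of_mem hx) hRκ
  have h1 : ∀ a : ofId R hR, (a : B) ∈ R → a ∈ small κ (ofId R hR) := by
    intro a ha
    have h2 := hRs ha
    rw [mem_small] at h2 ⊢
    refine lt_of_le_of_lt ?_ h2
    refine mk_le_of_injective (f := fun y : Iic a => (⟨((y : ofId R hR) : B), y.2⟩ : Iic (a : B)))
      ?_
    intro y z hyz
    have h3 : ((y : ofId R hR) : B) = ((z : ofId R hR) : B) :=
      congrArg (fun w : Iic (a : B) => (w : B)) hyz
    exact Subtype.ext (Subtype.ext h3)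
  refine ⟨e, fun a => ⟨fun ha => (mem_small_iso e a).2 (h1 a ha), fun ha => ?_⟩⟩
  rcases mem_ofId.1 a.2 with h2 | h2
  · exact h2
  · exfalso
    have h3 : aᶜ ∈ small κ (ofId R hR) := h1 aᶜ h2
    have h4 : e aᶜ ∈ small κ B := (mem_small_iso e _).2 h3
    rw [map_compl'] at h4
    exact h.compl_notMem_small hκ ha h4

/-- Cofinal generation of the canonical ideal and of its big subideals. -/
theorem HasStar.cofGen_iff (h : HasStar κ B) (hκ : ℵ₀ ≤ κ) {R : Set B} (hR : IsId R)
    (hRs : R ⊆ small κ B) (hRκ : κ ≤ #R) (μ : Cardinal.{u}) :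
    CofGen R μ ↔ CofGen (small κ B) μ := by
  obtain ⟨e, he⟩ := h.exists_iso hκ hR hRs hRκ
  constructor
  · rintro ⟨G, hG, hGμ, hGc⟩
    refine ⟨(fun g : G => e ⟨g, mem_ofId_of_mem (hG g.2)⟩) '' univ, ?_, ?_, ?_⟩
    · rintro _ ⟨g, _, rfl⟩
      exact (he _).1 (hG g.2)
    · refine mk_image_le.trans ?_
      rw [mk_univ]; exact hGμ
    · intro x hx
      have h1 : ((e.symm x : ofId R hR) : B) ∈ R := (he _).2 (by simpa using hx)
      obtain ⟨g, hg, hxg⟩ := hGc _ h1
      refine ⟨_, ⟨⟨g, hg⟩, mem_univ _, rfl⟩, ?_⟩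
      rw [← e.symm_apply_le]
      exact hxg
  · rintro ⟨G, hG, hGμ, hGc⟩
    refine ⟨(fun g => ((e.symm g : ofId R hR) : B)) '' G, ?_, mk_image_le.trans hGμ, ?_⟩
    · rintro _ ⟨g, hg, rfl⟩
      exact (he _).2 (by simpa using hG hg)
    · intro x hx
      have h1 : e ⟨x, mem_ofId_of_mem hx⟩ ∈ small κ B := (he _).1 hx
      obtain ⟨g, hg, hxg⟩ := hGc _ h1
      refine ⟨_, ⟨g, hg, rfl⟩, ?_⟩
      have h2 : (⟨x, mem_ofId_of_mem hx⟩ : ofId R hR) ≤ e.symm g := by
        rw [e.le_symm_apply]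
        exact hxg
      exact h2

end Star

end Pool.Agent.Lib.MP_8a899a_lc
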