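import Pool.Agent.Lib.MP_8a899a_lc.Main

set_option autoImplicit false
set_option linter.unusedSectionVars false

/-!
# Independent sequences from a chain condition

If `x0` has more than `δ` elements below it, at most `δ` of them in an ideal `J`, and
`δ ^ χ ≤ δ` for `χ < ρ`, then either there are `ρ` pairwise disjoint elements outside `J` below
`x0`, or there is an ideal below `x0` which is not generated by `μ` elements.
-/

universe u

namespace Pool.Agent.Lib.MP_8a899a_lc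

open Set Cardinal

variable {B : Type u} [BooleanAlgebra B]

/-- `R` has a cofinal subset of at most `μ` elements. -/
def CofGen (R : Set B) (μ : Cardinal.{u}) : Prop :=
  ∃ G ⊆ R, #G ≤ μ ∧ ∀ x ∈ R, ∃ g ∈ G, x ≤ g

/-- The unions of an operator along the ordinals. -/
def chain (Φ : Set B → Set B) (ξ : Ordinal.{u}) : Set B :=
  {t | ∃ η, ∃ (_ : η < ξ), t ∈ Φ (chain Φ η)}
termination_by ξ

theorem mem_chain {Φ : Set B → Set B} {ξ : Ordinal.{u}} {t : B} :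
    t ∈ chain Φ ξ ↔ ∃ η, η < ξ ∧ t ∈ Φ (chain Φ η) := by
  rw [chain]; simp

theorem chain_mono {Φ : Set B → Set B} {ξ ζ : Ordinal.{u}} (h : ξ ≤ ζ) :
    chain Φ ξ ⊆ chain Φ ζ := by
  intro t ht
  rw [mem_chain] at ht ⊢
  obtain ⟨η, hη, ht⟩ := ht
  exact ⟨η, hη.trans_le h, ht⟩

theorem subset_chain {Φ : Set B → Set B} {ξ ζ : Ordinal.{u}} (h : ξ < ζ) :
    Φ (chain Φ ξ) ⊆ chain Φ ζ := fun _ ht => mem_chain.2 ⟨ξ, h, ht⟩

theorem card_chain_le {Φ : Set B → Set B} {δ : Cardinal.{u}} (hδ : ℵ₀ ≤ δ)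
    (hΦ : ∀ M : Set B, #M ≤ δ → #(Φ M) ≤ δ) (ξ : Ordinal.{u}) (hξ : ξ.card ≤ δ) :
    #(chain Φ ξ) ≤ δ := by
  induction ξ using WellFoundedLT.induction with
  | ind ξ ih =>
    have h1 : chain Φ ξ = ⋃ j < ξ, Φ (chain Φ j) := by
      ext t
      rw [mem_chain]
      simp
    rw [h1]
    refine mk_biUnion_le_of_le hξ hδ _ ?_
    intro j hj
    exact hΦ _ (ih j hj ((Ordinal.card_le_card hj.le).trans hξ))

/-- A maximal disjoint family of elements of `K`. -/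
theorem exists_max_disj (K : Set B) : ∃ D ⊆ K, D.PairwiseDisjoint id ∧
    ∀ m ∈ K, (∀ d ∈ D, Disjoint m d) → m = ⊥ := by
  obtain ⟨D, hD⟩ := zorn_subset {D : Set B | D ⊆ K ∧ D.PairwiseDisjoint id} (by
    intro c hc hchain
    refine ⟨⋃₀ c, ⟨?_, ?_⟩, fun s hs => subset_sUnion_of_mem hs⟩
    · exact sUnion_subset fun s hs => (hc hs).1
    · intro a ha b hb hab
      obtain ⟨s, hs, has⟩ := ha
      obtain ⟨t, ht, hbt⟩ := hb
      rcases hchain.total hs ht with h | h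
      · exact (hc ht).2 (h has) hbt hab
      · exact (hc hs).2 has (h hbt) hab)
  refine ⟨D, hD.prop.1, hD.prop.2, fun m hm hdis => ?_⟩
  by_contra hne
  have h1 : insert m D ∈ {D : Set B | D ⊆ K ∧ D.PairwiseDisjoint id} := by
    refine ⟨insert_subset hm hD.prop.1, ?_⟩
    refine hD.prop.2.insert ?_
    intro d hd _
    exact hdis d hd
  have h2 : m ∈ D := hD.le_of_ge h1 (subset_insert _ _) (mem_insert _ _)
  exact hne (disjoint_self.1 (hdis m h2))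

section Ind

variable (x0 : B) (J : Set B) (ρ : Cardinal.{u})

/-- Pairs of subsets of `M` of cardinality less than `ρ`. -/
def SPairs (M : Set B) : Set (Set B × Set B) :=
  {s | s ⊆ M ∧ #s < ρ} ×ˢ {s | s ⊆ M ∧ #s < ρ}

/-- `a` splits all elements of `M` which are disjoint from `p`. -/
def Splits (M : Set B) (p : Set B × Set B) (a : B) : Prop :=
  a ≤ x0 ∧ ∀ m ∈ M, m ≤ x0 → m ∉ J → (∀ b ∈ p.1 ∪ p.2, Disjoint m b) → m ⊓ a ∉ J ∧ m \ a ∉ J

open Classical in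
/-- An element outside `J` disjoint from `p`. -/
noncomputable def wit (p : Set B × Set B) : B :=
  if h : ∃ w, w ≤ x0 ∧ w ∉ J ∧ ∀ b ∈ p.1 ∪ p.2, Disjoint w b then h.choose else ⊥

open Classical in
/-- An element between the two parts of `p`. -/
noncomputable def sepa (p : Set B × Set B) : B :=
  if h : ∃ a, a ≤ x0 ∧ (∀ b ∈ p.1, b ≤ a) ∧ ∀ b ∈ p.2, Disjoint b a then h.choose else ⊥

open Classical in
/-- A splitting element. -/
noncomputable def spl (M : Set B) (p : Set B × Set B) : B :=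
  if h : ∃ a, Splits x0 J M p a then h.choose else ⊥

theorem wit_spec {p : Set B × Set B}
    (h : ∃ w, w ≤ x0 ∧ w ∉ J ∧ ∀ b ∈ p.1 ∪ p.2, Disjoint w b) :
    wit x0 J p ≤ x0 ∧ wit x0 J p ∉ J ∧ ∀ b ∈ p.1 ∪ p.2, Disjoint (wit x0 J p) b := by
  unfold wit
  rw [dif_pos h]
  exact h.choose_spec

theorem sepa_spec {p : Set B × Set B}
    (h : ∃ a, a ≤ x0 ∧ (∀ b ∈ p.1, b ≤ a) ∧ ∀ b ∈ p.2, Disjoint b a) :
    sepa x0 p ≤ x0 ∧ (∀ b ∈ p.1, b ≤ sepa x0 p) ∧ ∀ b ∈ p.2, Disjoint b (sepa x0 p) := by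
  unfold sepa
  rw [dif_pos h]
  exact h.choose_spec

theorem spl_spec {M : Set B} {p : Set B × Set B} (h : ∃ a, Splits x0 J M p a) :
    Splits x0 J M p (spl x0 J M p) := by
  unfold spl
  rw [dif_pos h]
  exact h.choose_spec

/-- One step of the closure. -/
noncomputable def clo (M : Set B) : Set B :=
  M ∪ (J ∩ Iic x0) ∪ image2 (· ⊓ ·) M M ∪ image2 (· \ ·) M M ∪ image2 (· ⊔ ·) M M ∪
    wit x0 J '' SPairs ρ M ∪ sepa x0 '' SPairs ρ M ∪ spl x0 J M '' SPairs ρ M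

theorem card_union_le_of_le {X : Type u} {δ : Cardinal.{u}} (hδ : ℵ₀ ≤ δ) {s t : Set X}
    (hs : #s ≤ δ) (ht : #t ≤ δ) : #(s ∪ t : Set X) ≤ δ :=
  (mk_union_le _ _).trans (add_le_of_le hδ hs ht)

theorem card_spairs_le {δ : Cardinal.{u}} (hδ : ℵ₀ ≤ δ) (hμδ : ρ ≤ δ)
    (hpow : ∀ χ < ρ, δ ^ χ ≤ δ) (M : Set B) (hM : #M ≤ δ) : #(SPairs ρ M) ≤ δ := by
  have h1 : #{s : Set B | s ⊆ M ∧ #s < ρ} ≤ δ := by
    have h2 : {s : Set B | s ⊆ M ∧ #s < ρ} ⊆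
        ⋃ j < ρ.ord, {s : Set B | s ⊆ M ∧ #s ≤ j.card} := by
      rintro s ⟨hs1, hs2⟩
      refine mem_iUnion₂.2 ⟨(#s).ord, ?_, hs1, ?_⟩
      · exact ord_lt_ord.2 hs2
      · rw [card_ord]
    refine (mk_le_mk_of_subset h2).trans ?_
    refine mk_biUnion_le_of_le ?_ hδ _ ?_
    · rw [card_ord]; exact hμδ
    · intro j hj
      have h3 : j.card < ρ := lt_ord.1 hj
      refine (mk_bounded_subset_le M j.card).trans ?_
      refine (power_le_power_right (max_le hM hδ)).trans (hpow _ h3)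
  unfold SPairs
  rw [mk_setProd]
  exact mul_le_of_le hδ h1 h1

theorem card_clo_le {δ : Cardinal.{u}} (hδ : ℵ₀ ≤ δ) (hμδ : ρ ≤ δ)
    (hpow : ∀ χ < ρ, δ ^ χ ≤ δ) (hJ : #(J ∩ Iic x0 : Set B) ≤ δ) (M : Set B) (hM : #M ≤ δ) :
    #(clo x0 J ρ M) ≤ δ := by
  have h2 : ∀ f : B → B → B, #(image2 f M M) ≤ δ := by
    intro f
    refine (mk_image2_le).trans ?_
    exact mul_le_of_le hδ hM hM
  have hP := card_spairs_le ρ hδ hμδ hpow M hM
  have h3 : ∀ f : Set B × Set B → B, #(f '' SPairs ρ M) ≤ δ := by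
    intro f
    exact mk_image_le.trans hP
  unfold clo
  exact card_union_le_of_le hδ (card_union_le_of_le hδ (card_union_le_of_le hδ
    (card_union_le_of_le hδ (card_union_le_of_le hδ (card_union_le_of_le hδ
    (card_union_le_of_le hδ hM hJ) (h2 _)) (h2 _)) (h2 _)) (h3 _)) (h3 _)) (h3 _)

theorem clo_subset {M : Set B} : M ⊆ clo x0 J ρ M := fun _ h => by
  unfold clo; simp [h]

theorem exists_splits_pair {M : Set B} (hJ : IsId J) (hJM : J ∩ Iic x0 ⊆ M)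
    (hsd : ∀ a ∈ M, ∀ b ∈ M, a \ b ∈ M)
    (hc : ∀ D : Set B, D ⊆ Iic x0 → D.PairwiseDisjoint id → (∀ d ∈ D, d ∉ J) → #D < ρ)
    {a : B} (ha : a ≤ x0) :
    ∃ p ∈ SPairs ρ M, (∀ b ∈ p.1, b ≤ a) ∧ (∀ b ∈ p.2, Disjoint b a) ∧ Splits x0 J M p a := by
  obtain ⟨D1, hD1, hd1, hm1⟩ := exists_max_disj {m | m ∈ M ∧ m ≤ a ∧ m ∉ J}
  obtain ⟨D2, hD2, hd2, hm2⟩ := exists_max_disj {m | m ∈ M ∧ m ≤ x0 ∧ Disjoint m a ∧ m ∉ J}
  refine ⟨(D1, D2), ⟨⟨fun m hm => (hD1 hm).1, ?_⟩, ⟨fun m hm => (hD2 hm).1, ?_⟩⟩,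
    fun b hb => (hD1 hb).2.1, fun b hb => (hD2 hb).2.2.1, ha, ?_⟩
  · exact hc D1 (fun m hm => (hD1 hm).2.1.trans ha) hd1 (fun m hm => (hD1 hm).2.2)
  · exact hc D2 (fun m hm => (hD2 hm).2.1) hd2 (fun m hm => (hD2 hm).2.2.2)
  · intro m hmM hmx hmJ hdis
    have hsplit : (m ⊓ a) ⊔ (m \ a) = m := sup_inf_sdiff m a
    constructor
    · intro h1
      -- `m \ a` is in `M`, disjoint from `a`, not in `J`
      have h2 : m ⊓ a ∈ M := hJM ⟨h1, (inf_le_left.trans hmx : m ⊓ a ≤ x0)⟩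
      have h3 : m \ a ∈ M := by
        have : m \ (m ⊓ a) = m \ a := by rw [sdiff_inf_self_left]
        rw [← this]
        exact hsd _ hmM _ h2
      have h4 : m \ a ∉ J := fun h => hmJ (hsplit ▸ hJ.sup _ _ h1 h)
      have h5 := hm2 (m \ a) ⟨h3, sdiff_le.trans hmx, disjoint_sdiff_self_left, h4⟩
        (fun d hd => (hdis d (Or.inr hd)).mono_left sdiff_le)
      exact h4 (h5 ▸ hJ.bot)
    · intro h1
      have h2 : m \ a ∈ M := hJM ⟨h1, (sdiff_le.trans hmx : m \ a ≤ x0)⟩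
      have h3 : m ⊓ a ∈ M := by
        have : m \ (m \ a) = m ⊓ a := _root_.sdiff_sdiff_right_self
        rw [← this]
        exact hsd _ hmM _ h2
      have h4 : m ⊓ a ∉ J := fun h => hmJ (hsplit ▸ hJ.sup _ _ h h1)
      have h5 := hm1 (m ⊓ a) ⟨h3, inf_le_right, h4⟩
        (fun d hd => (hdis d (Or.inl hd)).mono_left inf_le_left)
      exact h4 (h5 ▸ hJ.bot)

/-- The main lemma on the chain condition. -/
theorem exists_not_cofGen {μ δ : Cardinal.{u}} (hω : ℵ₀ ≤ μ) (hρμ : ρ ≤ μ)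
    (hμδ : Order.succ μ ≤ δ) (hpow : ∀ χ < ρ, δ ^ χ ≤ δ) (hJ : IsId J) (hJc : #(J ∩ Iic x0 : Set B) ≤ δ)
    (hx0 : δ < #(Iic x0))
    (hc : ∀ D : Set B, D ⊆ Iic x0 → D.PairwiseDisjoint id → (∀ d ∈ D, d ∉ J) → #D < ρ) :
    ∃ N : Set B, IsId N ∧ N ⊆ Iic x0 ∧ ¬ CofGen N μ := by
  have hμδ' : μ ≤ δ := (Order.le_succ μ).trans hμδ
  have hδ : ℵ₀ ≤ δ := hω.trans hμδ'
  set Φ : Set B → Set B := clo x0 J ρ with hΦ
  set C : Ordinal.{u} → Set B := chain Φ with hC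
  set Λ : Ordinal.{u} := (Order.succ μ).ord with hΛ
  have hreg : (Order.succ μ).IsRegular := isRegular_succ hω
  have hΛlim : Order.IsSuccLimit Λ := isSuccLimit_ord (hω.trans (Order.le_succ μ))
  have hΦsub : ∀ M : Set B, M ⊆ Φ M := fun M => clo_subset x0 J ρ
  have hstep : ∀ {ξ ζ : Ordinal.{u}}, ξ < ζ → Φ (C ξ) ⊆ C ζ := fun h => subset_chain h
  have hmono : ∀ {ξ ζ : Ordinal.{u}}, ξ ≤ ζ → C ξ ⊆ C ζ := fun h => chain_mono h
  have hcard : ∀ ξ : Ordinal.{u}, ξ.card ≤ δ → #(C ξ) ≤ δ := fun ξ hξ =>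
    card_chain_le hδ (fun M hM => card_clo_le x0 J ρ hδ (hρμ.trans hμδ') hpow hJc M hM) ξ hξ
  set M : Set B := C Λ with hM
  have hMcard : #M ≤ δ := hcard Λ (by rw [hΛ, card_ord]; exact hμδ)
  -- closure under the finite operations
  have hbin : ∀ (ζ : Ordinal.{u}), Order.IsSuccLimit ζ → ∀ a ∈ C ζ, ∀ b ∈ C ζ,
      a ⊓ b ∈ C ζ ∧ a \ b ∈ C ζ ∧ a ⊔ b ∈ C ζ := by
    intro ζ hζ a ha b hb
    rw [hC, mem_chain] at ha hb
    obtain ⟨η, hη, ha⟩ := ha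
    obtain ⟨η', hη', hb⟩ := hb
    have h1 : a ∈ C (Order.succ (max η η')) := hstep (Order.lt_succ_of_le (le_max_left _ _)) ha
    have h2 : b ∈ C (Order.succ (max η η')) := hstep (Order.lt_succ_of_le (le_max_right _ _)) hb
    have h3 : Order.succ (max η η') < ζ := hζ.succ_lt (max_lt hη hη')
    refine ⟨hstep h3 ?_, hstep h3 ?_, hstep h3 ?_⟩
    · rw [hΦ]; unfold clo
      simp only [mem_union]
      exact Or.inl (Or.inl (Or.inl (Or.inl (Or.inl (Or.inr ⟨a, h1, b, h2, rfl⟩)))))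
    · rw [hΦ]; unfold clo
      simp only [mem_union]
      exact Or.inl (Or.inl (Or.inl (Or.inl (Or.inr ⟨a, h1, b, h2, rfl⟩))))
    · rw [hΦ]; unfold clo
      simp only [mem_union]
      exact Or.inl (Or.inl (Or.inl (Or.inr ⟨a, h1, b, h2, rfl⟩)))
  have hJM : ∀ ζ : Ordinal.{u}, 0 < ζ → J ∩ Iic x0 ⊆ C ζ := by
    intro ζ hζ t ht
    refine hstep hζ ?_
    rw [hΦ]; unfold clo
    simp only [mem_union]
    exact Or.inl (Or.inl (Or.inl (Or.inl (Or.inl (Or.inl (Or.inr ht))))))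
  have hΛpos : 0 < Λ := hΛlim.bot_lt
  -- small subsets of `M` are caught
  have hcatch : ∀ s : Set B, s ⊆ M → #s ≤ μ → ∃ ξ < Λ, s ⊆ C ξ := by
    intro s hs hsμ
    have h1 : ∀ t : s, ∃ η < Λ, (t : B) ∈ Φ (C η) := by
      intro t
      have := hs t.2
      rw [hM, hC, mem_chain] at this
      obtain ⟨η, hη, h⟩ := this
      exact ⟨η, hη, h⟩
    choose f hf hf' using h1
    refine ⟨⨆ t, Order.succ (f t), ?_, ?_⟩
    · refine Cardinal.iSup_lt_ord_of_isRegular hreg (Order.lt_succ_of_le hsμ) ?_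
      intro t
      exact hΛlim.succ_lt (hf t)
    · intro t ht
      have h2 : f ⟨t, ht⟩ < ⨆ t, Order.succ (f t) :=
        (Order.lt_succ _).trans_le (Ordinal.le_iSup (fun t => Order.succ (f t)) ⟨t, ht⟩)
      exact hstep h2 (hf' ⟨t, ht⟩)
  -- pairs of subsets of `M`
  have hcatchp : ∀ p ∈ SPairs ρ M, ∃ ξ < Λ, p ∈ SPairs ρ (C ξ) := by
    rintro ⟨p1, p2⟩ ⟨⟨h1, h1'⟩, h2, h2'⟩
    obtain ⟨ξ1, hξ1, hp1⟩ := hcatch p1 h1 (h1'.le.trans hρμ)
    obtain ⟨ξ2, hξ2, hp2⟩ := hcatch p2 h2 (h2'.le.trans hρμ)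
    exact ⟨max ξ1 ξ2, max_lt hξ1 hξ2, ⟨hp1.trans (hmono (le_max_left _ _)), h1'⟩,
      hp2.trans (hmono (le_max_right _ _)), h2'⟩
  have hwit : ∀ p ∈ SPairs ρ M, wit x0 J p ∈ M := by
    intro p hp
    obtain ⟨ξ, hξ, hp'⟩ := hcatchp p hp
    refine hstep hξ ?_
    rw [hΦ]; unfold clo
    simp only [mem_union]
    exact Or.inl (Or.inl (Or.inr ⟨p, hp', rfl⟩))
  have hsepa : ∀ p ∈ SPairs ρ M, sepa x0 p ∈ M := by
    intro p hp
    obtain ⟨ξ, hξ, hp'⟩ := hcatchp p hp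
    refine hstep hξ ?_
    rw [hΦ]; unfold clo
    simp only [mem_union]
    exact Or.inl (Or.inr ⟨p, hp', rfl⟩)
  -- an element outside `M`
  obtain ⟨a, hax, haM⟩ : ∃ a, a ≤ x0 ∧ a ∉ M := by
    by_contra hcon
    push Not at hcon
    have : Iic x0 ⊆ M := fun a ha => hcon a ha
    exact absurd ((mk_le_mk_of_subset this).trans hMcard) (not_le_of_gt hx0)
  obtain ⟨p, hpM, hp1, hp2, hsp⟩ := exists_splits_pair x0 J ρ hJ (hJM Λ hΛpos)
    (fun a ha b hb => (hbin Λ hΛlim a ha b hb).2.1) hc hax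
  -- there is an element outside `J` disjoint from the pair
  have hw : ∃ w, w ≤ x0 ∧ w ∉ J ∧ ∀ b ∈ p.1 ∪ p.2, Disjoint w b := by
    by_contra hcon
    push Not at hcon
    apply haM
    have hs := sepa_spec x0 (p := p) ⟨a, hax, hp1, hp2⟩
    set a' := sepa x0 p with ha'
    have ha'M : a' ∈ M := hsepa p hpM
    have h1 : a \ a' ∈ J := by
      by_contra h
      obtain ⟨b, hb, hdis⟩ := hcon (a \ a') (sdiff_le.trans hax) h
      apply hdis
      rcases hb with hb | hb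
      · exact (disjoint_sdiff_self_left.mono_right (hs.2.1 b hb))
      · exact ((hp2 b hb).mono_right sdiff_le).symm
    have h2 : a' \ a ∈ J := by
      by_contra h
      obtain ⟨b, hb, hdis⟩ := hcon (a' \ a) (sdiff_le.trans hs.1) h
      apply hdis
      rcases hb with hb | hb
      · exact (disjoint_sdiff_self_left.mono_right (hp1 b hb))
      · exact ((hs.2.2 b hb).mono_right sdiff_le).symm
    have h1M : a \ a' ∈ M := hJM Λ hΛpos ⟨h1, (sdiff_le.trans hax : a \ a' ≤ x0)⟩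
    have h2M : a' \ a ∈ M := hJM Λ hΛpos ⟨h2, (sdiff_le.trans hs.1 : a' \ a ≤ x0)⟩
    have h3 : (a' \ (a' \ a)) ⊔ (a \ a') = a := by
      rw [_root_.sdiff_sdiff_right_self, inf_comm]
      exact sup_inf_sdiff a a'
    rw [← h3]
    exact (hbin Λ hΛlim _ (hbin Λ hΛlim _ ha'M _ h2M).2.1 _ h1M).2.2
  have hwM := hwit p hpM
  obtain ⟨hwx, hwJ, hwd⟩ := wit_spec x0 J hw
  set w := wit x0 J p with hwdef
  -- the starting ordinal
  obtain ⟨ξ1, hξ1, hpξ1⟩ := hcatchp p hpM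
  obtain ⟨ξ2, hξ2, hwξ2⟩ := hcatch {w} (by simpa using hwM) (by
    rw [mk_singleton]; exact one_le_aleph0.trans hω)
  set ξ0 : Ordinal.{u} := max (max ξ1 ξ2) 1 with hξ0
  have hξ0Λ : ξ0 < Λ := max_lt (max_lt hξ1 hξ2) (by
    have := hΛlim.succ_lt hΛpos
    rwa [Ordinal.succ_zero] at this)
  have hom : ∀ ξ : Ordinal.{u}, ξ ≤ Ordinal.omega0 * ξ := fun ξ =>
    Ordinal.le_mul_right ξ Ordinal.omega0_pos
  have hlimω : ∀ ξ : Ordinal.{u}, ξ0 ≤ ξ → Order.IsSuccLimit (Ordinal.omega0 * ξ) := by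
    intro ξ hξ
    have : 0 < ξ := (by simp : (0 : Ordinal.{u}) < 1).trans_le ((le_max_right _ _).trans hξ)
    exact Ordinal.isSuccLimit_mul_left Ordinal.isSuccLimit_omega0 this
  have hωΛ : ∀ ξ < Λ, Ordinal.omega0 * ξ < Λ := by
    intro ξ hξ
    rw [hΛ, lt_ord, Ordinal.card_mul, Ordinal.card_omega0, Order.lt_succ_iff]
    have : ξ.card ≤ μ := by
      rw [hΛ, lt_ord, Order.lt_succ_iff] at hξ
      exact hξ
    exact mul_le_of_le hω hω this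
  set D : Ordinal.{u} → Set B := fun ξ => C (Ordinal.omega0 * ξ) with hD
  have hpD : ∀ ξ, ξ0 ≤ ξ → p ∈ SPairs ρ (D ξ) := by
    intro ξ hξ
    have h1 : ξ1 ≤ Ordinal.omega0 * ξ :=
      ((le_max_left _ _).trans (le_max_left _ _)).trans (hξ.trans (hom ξ))
    exact ⟨⟨hpξ1.1.1.trans (hmono h1), hpξ1.1.2⟩, hpξ1.2.1.trans (hmono h1), hpξ1.2.2⟩
  have hwD : ∀ ξ, ξ0 ≤ ξ → w ∈ D ξ := by
    intro ξ hξ
    have h1 : ξ2 ≤ Ordinal.omega0 * ξ :=
      ((le_max_right _ _).trans (le_max_left _ _)).trans (hξ.trans (hom ξ))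
    exact hmono h1 (hwξ2 rfl)
  set s : Ordinal.{u} → B := fun ξ => spl x0 J (D ξ) p with hs
  have hsSp : ∀ ξ, ξ < Λ → Splits x0 J (D ξ) p (s ξ) := by
    intro ξ hξ
    refine spl_spec x0 J ⟨a, hsp.1, fun m hm => hsp.2 m ?_⟩
    exact hmono (hωΛ ξ hξ).le hm
  have hsD : ∀ ξ ζ, ξ0 ≤ ξ → ξ < ζ → s ξ ∈ D ζ := by
    intro ξ ζ hξ hξζ
    have h1 : Ordinal.omega0 * ξ < Ordinal.omega0 * ζ :=
      (mul_lt_mul_iff_right₀ Ordinal.omega0_pos).2 hξζ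
    refine hstep h1 ?_
    rw [hΦ]; unfold clo
    simp only [mem_union]
    exact Or.inr ⟨p, hpD ξ hξ, rfl⟩
  -- independence
  have key : ∀ F : Finset Ordinal.{u}, (∀ η ∈ F, ξ0 ≤ η ∧ η < Λ) →
      w \ F.sup s ∉ J ∧ ∀ ξ, ξ0 ≤ ξ → (∀ η ∈ F, η < ξ) → w \ F.sup s ∈ D ξ := by
    intro F
    induction F using Finset.induction_on_max with
    | empty =>
      intro _
      simp only [Finset.sup_empty, sdiff_bot]
      exact ⟨hwJ, fun ξ hξ _ => hwD ξ hξ⟩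
    | insert m F hF ih =>
      intro hmF
      obtain ⟨ih1, ih2⟩ := ih (fun η hη => hmF η (Finset.mem_insert_of_mem hη))
      obtain ⟨hm0, hmΛ⟩ := hmF m (Finset.mem_insert_self _ _)
      have h1 : w \ F.sup s ∈ D m := ih2 m hm0 hF
      have h2 : w \ (insert m F).sup s = (w \ F.sup s) \ s m := by
        rw [Finset.sup_insert, sdiff_sdiff_left, sup_comm]
      rw [h2]
      constructor
      · exact ((hsSp m hmΛ).2 _ h1 (sdiff_le.trans hwx) ih1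
          (fun b hb => (hwd b hb).mono_left sdiff_le)).2
      · intro ξ hξ hξF
        have h3 : m < ξ := hξF m (Finset.mem_insert_self _ _)
        have h4 : w \ F.sup s ∈ D ξ := ih2 ξ hξ (fun η hη => hξF η (Finset.mem_insert_of_mem hη))
        exact (hbin _ (hlimω ξ hξ) _ h4 _ (hsD m ξ hm0 h3)).2.1
  have key2 : ∀ F : Finset Ordinal.{u}, ∀ ξ, ξ0 ≤ ξ → ξ < Λ →
      (∀ η ∈ F, ξ0 ≤ η ∧ η < ξ) → ¬ s ξ ≤ F.sup s := by
    intro F ξ hξ hξΛ hF hle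
    obtain ⟨h1, h2⟩ := key F (fun η hη => ⟨(hF η hη).1, (hF η hη).2.trans hξΛ⟩)
    have h3 := h2 ξ hξ (fun η hη => (hF η hη).2)
    have h4 := ((hsSp ξ hξΛ).2 _ h3 (sdiff_le.trans hwx) h1
      (fun b hb => (hwd b hb).mono_left sdiff_le)).1
    apply h4
    have : (w \ F.sup s) ⊓ s ξ = ⊥ := by
      rw [← le_bot_iff]
      calc (w \ F.sup s) ⊓ s ξ ≤ (w \ F.sup s) ⊓ F.sup s := inf_le_inf_left _ hle
        _ = ⊥ := by rw [inf_comm, inf_sdiff_self_right]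
    rw [this]
    exact hJ.bot
  -- the ideal
  refine ⟨{y | ∃ F : Finset Ordinal.{u}, (∀ η ∈ F, ξ0 ≤ η ∧ η < Λ) ∧ y ≤ F.sup s}, ?_, ?_, ?_⟩
  · refine ⟨⟨∅, by simp, bot_le⟩, ?_, ?_⟩
    · rintro x y hyx ⟨F, hF, hx⟩
      exact ⟨F, hF, hyx.trans hx⟩
    · rintro x y ⟨F, hF, hx⟩ ⟨F', hF', hy⟩
      classical
      refine ⟨F ∪ F', ?_, ?_⟩
      · intro η hη
        rcases Finset.mem_union.1 hη with h | h
        · exact hF η h
        · exact hF' η h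
      · rw [Finset.sup_union]
        exact sup_le_sup hx hy
  · rintro y ⟨F, hF, hy⟩
    refine hy.trans (Finset.sup_le ?_)
    intro η hη
    exact (hsSp η (hF η hη).2).1
  · rintro ⟨G, hG, hGμ, hGc⟩
    have h1 : ∀ g : G, ∃ F : Finset Ordinal.{u}, (∀ η ∈ F, ξ0 ≤ η ∧ η < Λ) ∧ (g : B) ≤ F.sup s :=
      fun g => hG g.2
    choose F hF hgF using h1
    have h2 : ∀ g : G, (F g).sup Order.succ < Λ := by
      intro g
      rw [Finset.sup_lt_iff hΛpos]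
      intro η hη
      exact hΛlim.succ_lt (hF g η hη).2
    set ζ : Ordinal.{u} := ⨆ g : G, (F g).sup Order.succ with hζ
    have hζΛ : ζ < Λ := Cardinal.iSup_lt_ord_of_isRegular hreg (Order.lt_succ_of_le hGμ) h2
    set ξ : Ordinal.{u} := max ξ0 ζ with hξ
    have hξΛ : ξ < Λ := max_lt hξ0Λ hζΛ
    obtain ⟨g, hg, hsg⟩ := hGc (s ξ) ⟨{ξ}, by simpa using ⟨le_max_left _ _, hξΛ⟩, by simp⟩
    refine key2 (F ⟨g, hg⟩) ξ (le_max_left _ _) hξΛ ?_ (hsg.trans (hgF ⟨g, hg⟩))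
    intro η hη
    refine ⟨(hF ⟨g, hg⟩ η hη).1, ?_⟩
    calc η < Order.succ η := Order.lt_succ η
      _ ≤ (F ⟨g, hg⟩).sup Order.succ := Finset.le_sup (f := Order.succ) hη
      _ ≤ ζ := Ordinal.le_iSup (fun g : G => (F g).sup Order.succ) ⟨g, hg⟩
      _ ≤ ξ := le_max_right _ _

end Ind

end Pool.Agent.Lib.MP_8a899a_lc
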