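import Pool.Agent.Lib.MP_8a899a_lc.Rank
import Pool.Agent.Lib.MP_8a899a_lc.Final

set_option autoImplicit false
set_option linter.unusedSectionVars false

/-!
# Bounded principal ideals, without hypotheses on the cardinal arithmetic
-/

universe u

namespace Pool.Agent.Lib.MP_8a899a_lc

open Set Cardinal

variable {B : Type u} [BooleanAlgebra B] {κ : Cardinal.{u}}

/-- Few small subsets of the successor of a regular cardinal `μ` with `2 ^ χ ≤ μ` for `χ < μ`. -/
theorem small_subsets_succ_le {μ : Cardinal.{u}} (hμ : μ.IsRegular) (h2 : ∀ χ < μ, 2 ^ χ ≤ μ) :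
    #{s : Set (Order.succ μ).ord.ToType | #s < μ} ≤ Order.succ μ := by
  have hreg : (Order.succ μ).IsRegular := isRegular_succ hμ.aleph0_le
  have h1 : {s : Set (Order.succ μ).ord.ToType | #s < μ} ⊆
      ⋃ j : (Order.succ μ).ord.ToType, {s | s ⊆ Iio j ∧ #s < μ} := by
    intro s hs
    obtain ⟨j, hj⟩ := exists_gt_of_card_lt hreg s (lt_trans hs (Order.lt_succ μ))
    exact mem_iUnion.2 ⟨j, hj, hs⟩
  refine (mk_le_mk_of_subset h1).trans ((mk_iUnion_le _).trans ?_)
  refine mul_le_of_le (hμ.aleph0_le.trans (Order.le_succ μ)) ?_ (ciSup_le' fun j => ?_)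
  · rw [mk_toType, card_ord]
  · refine le_trans ?_ (Order.le_succ μ)
    have hj : #(Iio j) ≤ μ := Order.lt_succ_iff.1 (mk_Iio_toType_ord_lt j)
    refine le_trans ?_ (bounded_subsets_le hμ le_rfl h2 hj)
    refine mk_le_of_injective (f := fun s : {s : Set (Order.succ μ).ord.ToType |
      s ⊆ Iio j ∧ #s < μ} => (⟨Subtype.val ⁻¹' (s : Set _), ?_⟩ : {t : Set (Iio j) | #t < μ})) ?_
    · refine lt_of_le_of_lt ?_ s.2.2
      exact mk_preimage_of_injective _ _ Subtype.val_injective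
    · intro s t hst
      have h3 : (Subtype.val ⁻¹' (s : Set (Order.succ μ).ord.ToType) : Set (Iio j)) =
          Subtype.val ⁻¹' (t : Set (Order.succ μ).ord.ToType) := congrArg Subtype.val hst
      apply Subtype.ext
      rw [Subtype.preimage_coe_eq_preimage_coe_iff] at h3
      rwa [inter_eq_right.2 s.2.1, inter_eq_right.2 t.2.1] at h3

/-- If the cofinality `λ` of the singular cardinal `κ` is less than `2 ^ χ` for some `χ < λ`,
then some independent family of size `λ ⁺` is realized below one small element. -/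
theorem HasStar.jointF_succ_cof (h : HasStar κ B) (hκ : κ.IsSingular) (hns : ¬ Superatomic B)
    {χ : Cardinal.{u}} (hχ : χ < κ.ord.cof) (hχ2 : κ.ord.cof < 2 ^ χ) :
    ℵ₀ ≤ χ ∧ Order.succ κ.ord.cof < κ ∧ JointF κ B (Order.succ κ.ord.cof) := by
  have hκω : ℵ₀ ≤ κ := hκ.aleph0_le
  have hμκ : κ.ord.cof < κ := hκ.cof_ord_lt
  have hμω : ℵ₀ ≤ κ.ord.cof := aleph0_le_cof hκω
  have hχω : ℵ₀ ≤ χ := by
    by_contra hcon
    rw [not_le] at hcon
    have h1 : (2 : Cardinal.{u}) ^ χ < ℵ₀ := power_lt_aleph0 (natCast_lt_aleph0 (n := 2)) hcon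
    exact absurd (hχ2.trans h1) (not_lt_of_ge hμω)
  have hJ := h.jointF_below_cof hκω hns (hμω.trans_lt hμκ) hχ
  have hR := (h.realF_two_power hκω hJ hχω).mono (Order.succ_le_of_lt hχ2)
  have hsκ : Order.succ κ.ord.cof < κ := hκ.isSuccLimit.succ_lt hμκ
  have hreg : (Order.succ κ.ord.cof).IsRegular := isRegular_succ hμω
  refine ⟨hχω, hsκ, h.jointF_of_cof_lt hκω hns hR (hμω.trans (Order.le_succ _)) ?_ hsκ⟩
  rw [hreg.cof_ord]
  exact Order.lt_succ _

/-- In an algebra with property `(∗)_κ` which is not superatomic, `κ` singular, the principal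
ideals of the small elements are of bounded size. -/
theorem HasStar.bounded_of_isSingular (h : HasStar κ B) (hκ : κ.IsSingular)
    (hns : ¬ Superatomic B) : ∃ ν < κ, ∀ x ∈ small κ B, #(Iic x) ≤ ν := by
  have hκω : ℵ₀ ≤ κ := hκ.aleph0_le
  have hμκ : κ.ord.cof < κ := hκ.cof_ord_lt
  have hμω : ℵ₀ ≤ κ.ord.cof := aleph0_le_cof hκω
  have hsκ : Order.succ κ.ord.cof < κ := hκ.isSuccLimit.succ_lt hμκ
  by_cases hc : ∃ χ < κ.ord.cof, κ.ord.cof < 2 ^ χ
  · obtain ⟨χ, hχ, hχ2⟩ := hc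
    obtain ⟨hχω, _, hJ⟩ := h.jointF_succ_cof hκ hns hχ hχ2
    obtain ⟨h1, _⟩ := h.jointF_two_power hκω hns hJ (hμω.trans (Order.le_succ _))
      (Order.le_succ _)
    refine h.bounded' hκω hns hχω hχ.le hχ2 h1 (cantor _).le fun χ' hχ' => ?_
    rw [← power_mul, mul_comm]
    refine power_le_power_left two_ne_zero ?_
    exact mul_le_of_le (hμω.trans (Order.le_succ _))
      ((hχ'.trans hχ).le.trans (Order.le_succ _)) le_rfl
  · push Not at hc
    have hreg : κ.ord.cof.IsRegular := isRegular_cof (isSuccLimit_ord hκω)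
    have hle := small_subsets_succ_le hreg hc
    refine h.bounded' hκω hns (ρ := κ.ord.cof)
      (δ := #{s : Set (Order.succ κ.ord.cof).ord.ToType | #s < κ.ord.cof}) hμω le_rfl (cantor _)
      (hle.trans_lt hsκ) ?_ ?_
    · have h1 : #(Order.succ κ.ord.cof).ord.ToType ≤
          #{s : Set (Order.succ κ.ord.cof).ord.ToType | #s < κ.ord.cof} := by
        refine mk_le_of_injective (f := fun x => ⟨{x}, ?_⟩) ?_
        · change #({x} : Set (Order.succ κ.ord.cof).ord.ToType) < κ.ord.cof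
          rw [mk_singleton]
          exact one_lt_aleph0.trans_le hμω
        · intro x y hxy
          exact singleton_injective (congrArg Subtype.val hxy)
      rwa [mk_toType, card_ord] at h1
    · intro χ hχ
      refine bounded_power hreg ?_ hχ
      rw [mk_toType, card_ord]
      exact Order.le_succ _

/-- There is a family of fewer than `κ` subsets of a set of size `l`, of size less than `l` (and of
size at most `ρ` for a fixed `ρ < l`, in case `l` and `κ` have the same cofinality), such that every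
subset of size at most `ν` is contained in a member of the family. -/
def WeakCover (κ ν l : Cardinal.{u}) : Prop :=
  ∃ (X : Type u) (F : Set (Set X)), #X = l ∧ #F < κ ∧ (∀ A ∈ F, #A < l) ∧
    (l.ord.cof = κ.ord.cof → ∃ ρ < l, ∀ A ∈ F, #A ≤ ρ) ∧ ∀ s : Set X, #s ≤ ν → ∃ A ∈ F, s ⊆ A

theorem exists_gt_of_card_lt_cof {l : Cardinal.{u}} (s : Set l.ord.ToType)
    (hs : #s < l.ord.cof) : ∃ j, ∀ x ∈ s, x < j := by
  by_contra hcon
  push Not at hcon
  have h1 : IsCofinal s := fun j => by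
    obtain ⟨x, hx, hjx⟩ := hcon j
    exact ⟨x, hx, hjx⟩
  have h2 := Order.cof_le h1
  rw [Ordinal.cof_toType] at h2
  exact absurd hs (not_lt_of_ge h2)

/-- The proper initial segments of a cardinal of large cofinality form a covering family. -/
theorem WeakCover.of_cof_lt {κ ν l : Cardinal.{u}} (hlκ : l < κ)
    (hcof : κ.ord.cof < l.ord.cof) (hν : ν < l.ord.cof) : WeakCover κ ν l := by
  refine ⟨l.ord.ToType, range (fun i => Iio i), by rw [mk_toType, card_ord], ?_, ?_, ?_, ?_⟩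
  · refine lt_of_le_of_lt mk_range_le ?_
    rw [mk_toType, card_ord]; exact hlκ
  · rintro _ ⟨i, rfl⟩
    exact mk_Iio_toType_ord_lt i
  · intro h1
    rw [h1] at hcof
    exact absurd hcof (lt_irrefl _)
  · intro s hs
    obtain ⟨j, hj⟩ := exists_gt_of_card_lt_cof s (hs.trans_lt hν)
    exact ⟨_, ⟨j, rfl⟩, hj⟩

/-- From a covering family with members of unbounded weight one can choose `cf κ` members of
cofinal weight whose union is small. -/
theorem exists_small_union {κ l : Cardinal.{u}} (hκ : ℵ₀ ≤ κ) (hl : ℵ₀ ≤ l) (hcl : κ.ord.cof < l)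
    {X : Type u} {F : Set (Set X)} (hF : ∀ A ∈ F, #A < l)
    (hF2 : l.ord.cof = κ.ord.cof → ∃ ρ < l, ∀ A ∈ F, #A ≤ ρ) (w : Set X → Cardinal.{u})
    (hw : ∀ ρ < κ, ∃ A ∈ F, ρ < w A) : ∃ (ι : Type u) (A : ι → Set X), (∀ i, A i ∈ F) ∧
      (∀ ρ < κ, ∃ i, ρ < w (A i)) ∧ #(⋃₀ (range A) : Set X) < l := by
  obtain ⟨ι, c, hι, hc, hcof⟩ := exists_cofinal_family κ
  have hcofω : ℵ₀ ≤ κ.ord.cof := aleph0_le_cof hκ
  -- it suffices to bound the sizes
  have key : ∀ F' ⊆ F, (∀ ρ < κ, ∃ A ∈ F', ρ < w A) →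
      (∀ A : ι → Set X, (∀ i, A i ∈ F') → ∃ ρ < l, ∀ i, #(A i) ≤ ρ) →
      ∃ (ι : Type u) (A : ι → Set X), (∀ i, A i ∈ F) ∧
        (∀ ρ < κ, ∃ i, ρ < w (A i)) ∧ #(⋃₀ (range A) : Set X) < l := by
    intro F' hF' hw' hb
    have h1 : ∀ i, ∃ A ∈ F', c i < w A := fun i => hw' _ (hc i)
    choose A hA hcA using h1
    obtain ⟨ρ, hρ, hle⟩ := hb A hA
    refine ⟨ι, A, fun i => hF' (hA i), fun ρ hρ => ?_, ?_⟩
    · obtain ⟨i, hi⟩ := hcof ρ hρ
      exact ⟨i, hi.trans_lt (hcA i)⟩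
    · rw [sUnion_range]
      refine (mk_iUnion_le _).trans_lt (mul_lt_of_lt hl (by rw [hι]; exact hcl) ?_)
      exact lt_of_le_of_lt (ciSup_le' hle) hρ
  rcases lt_trichotomy l.ord.cof κ.ord.cof with h1 | h1 | h1
  · -- small cofinality
    obtain ⟨ι', d, hι', hd, hdcof⟩ := exists_cofinal_family l
    obtain ⟨j, hj⟩ : ∃ j, ∀ ρ < κ, ∃ A ∈ F, #A ≤ d j ∧ ρ < w A := by
      by_contra hcon
      push Not at hcon
      choose ρ hρ hle using hcon
      have h2 : (⨆ j, ρ j) < κ := iSup_lt_of_lt_cof_ord (by rw [hι']; exact h1) hρ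
      obtain ⟨A, hA, hwA⟩ := hw _ h2
      obtain ⟨j, hj⟩ := hdcof _ (hF A hA)
      have h3 := (hle j A hA hj).trans (le_ciSup (f := ρ) bddAbove_of_small j)
      exact absurd hwA (not_lt_of_ge h3)
    refine key {A | A ∈ F ∧ #A ≤ d j} (fun A hA => hA.1) ?_ ?_
    · intro ρ hρ
      obtain ⟨A, h2, h3, h4⟩ := hj ρ hρ
      exact ⟨A, ⟨h2, h3⟩, h4⟩
    · intro A hA
      exact ⟨d j, hd j, fun i => (hA i).2⟩
  · obtain ⟨ρ, hρ, hle⟩ := hF2 h1
    exact key F (fun A hA => hA) hw fun A hA => ⟨ρ, hρ, fun i => hle _ (hA i)⟩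
  · refine key F (fun A hA => hA) hw fun A hA => ⟨⨆ i, #(A i), ?_, fun i => ?_⟩
    · exact iSup_lt_of_lt_cof_ord (by rw [hι]; exact h1) fun i => hF _ (hA i)
    · exact le_ciSup (f := fun i => #(A i)) bddAbove_of_small i

section Star

variable (h : HasStar κ B) (hκ : ℵ₀ ≤ κ) (hns : ¬ Superatomic B)

include h hκ hns

theorem HasStar.not_weakCover {ν : Cardinal.{u}} (hν : ∀ x ∈ small κ B, #(Iic x) ≤ ν)
    (hνω : ℵ₀ ≤ ν) (hcν : κ.ord.cof ≤ ν) {α : Ordinal.{u}} (hα : α < ht B)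
    (hνα : ν < #(Qs α B)) : ¬ WeakCover κ ν #(Qs α B) := by
  classical
  rintro ⟨X, F, hX, hF, hFl, hFl2, hcov⟩
  obtain ⟨e⟩ : Nonempty (X ≃ Qs α B) := by
    rw [← Cardinal.eq]; exact hX
  have hsm : IsId (small κ B) := small_isId hκ
  have hQid : IsId (Qs α B : Set B) := Qs_isId α
  have hQsm := h.Qs_subset_small hκ hns hα
  let G : Set X → Set B := fun A => gen (fun x : A => ((e x : Qs α B) : B))
  have hGQ : ∀ A, G A ⊆ Qs α B := fun A => gen_subset hQid fun x => (e x).2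
  have hGmono : ∀ A A' : Set X, A ⊆ A' → G A ⊆ G A' := by
    rintro A A' hAA'
    refine gen_subset (gen_isId _) fun x => ?_
    exact le_gen (fun x : A' => ((e x : Qs α B) : B)) ⟨x, hAA' x.2⟩ le_rfl
  have hGcard : ∀ A : Set X, #A < #(Qs α B) → #(G A) < #(Qs α B) := by
    intro A hA
    have h1 : G A ⊆ ⋃ t : Finset A, Iic (t.sup (fun x : A => ((e x : Qs α B) : B))) := by
      rintro y ⟨t, hyt⟩
      exact mem_iUnion.2 ⟨t, hyt⟩
    refine (mk_le_mk_of_subset h1).trans_lt ((mk_iUnion_le _).trans_lt ?_)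
    refine mul_lt_of_lt (hνω.trans hνα.le) ?_ (lt_of_le_of_lt (ciSup_le' ?_) hνα)
    · rcases finite_or_infinite A with hf | hf
      · exact (lt_aleph0_of_finite _).trans_le (hνω.trans hνα.le)
      · rw [mk_finset_of_infinite]; exact hA
    · intro t
      exact hν _ (hsm.sup_mem t _ fun i _ => hQsm (e i).2)
  let I : Set X → Set B := fun A => {x | x ∈ small κ B ∧ ∀ y ∈ Qs α B, y ≤ x → y ∈ G A}
  have hIid : ∀ A, IsId (I A) := by
    intro A
    refine ⟨⟨hsm.bot, ?_⟩, ?_, ?_⟩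
    · intro y _ hy
      rw [le_bot_iff.1 hy]; exact (gen_isId _).bot
    · rintro x z hzx ⟨hx1, hx2⟩
      exact ⟨hsm.down _ _ hzx hx1, fun y hy hyz => hx2 y hy (hyz.trans hzx)⟩
    · rintro x z ⟨hx1, hx2⟩ ⟨hz1, hz2⟩
      refine ⟨hsm.sup _ _ hx1 hz1, fun y hy hyxz => ?_⟩
      have h1 : y = (y ⊓ x) ⊔ (y ⊓ z) := by
        rw [← inf_sup_left]; exact (inf_eq_left.2 hyxz).symm
      rw [h1]
      exact (gen_isId _).sup _ _ (hx2 _ (hQid.down _ _ inf_le_left hy) inf_le_right)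
        (hz2 _ (hQid.down _ _ inf_le_left hy) inf_le_right)
  have hImono : ∀ A A' : Set X, A ⊆ A' → I A ⊆ I A' := fun A A' hAA' x hx =>
    ⟨hx.1, fun y hy hyx => hGmono A A' hAA' (hx.2 y hy hyx)⟩
  have hIcov : ∀ x ∈ small κ B, ∃ A ∈ F, x ∈ I A := by
    intro x hx
    obtain ⟨A, hA, hsA⟩ := hcov {z | ((e z : Qs α B) : B) ≤ x} (by
      refine le_trans ?_ (hν x hx)
      refine mk_le_of_injective (f := fun z : {z | ((e z : Qs α B) : B) ≤ x} =>
        (⟨((e z : Qs α B) : B), z.2⟩ : Iic x)) ?_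
      intro z w hzw
      have h1 : ((e z : Qs α B) : B) = ((e w : Qs α B) : B) :=
        congrArg (fun v : Iic x => (v : B)) hzw
      exact Subtype.ext (e.injective (Subtype.ext h1)))
    refine ⟨A, hA, hx, fun y hy hyx => ?_⟩
    have h2 : e.symm ⟨y, hy⟩ ∈ A := hsA (by
      change ((e (e.symm ⟨y, hy⟩) : Qs α B) : B) ≤ x
      rw [e.apply_symm_apply]; exact hyx)
    have h3 := le_gen (fun x : A => ((e x : Qs α B) : B)) ⟨_, h2⟩ (y := y) (by
      rw [e.apply_symm_apply])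
    exact h3
  have hbig : ∀ ρ < κ, ∃ A ∈ F, ρ < #(I A) := by
    intro ρ hρ
    by_contra hcon
    push Not at hcon
    have h1 : small κ B ⊆ ⋃ A ∈ F, I A := by
      intro x hx
      obtain ⟨A, hA, hxA⟩ := hIcov x hx
      exact mem_iUnion₂.2 ⟨A, hA, hxA⟩
    have h2 : #(small κ B) ≤ #F * ρ := by
      refine (mk_le_mk_of_subset h1).trans ((mk_biUnion_le _ _).trans ?_)
      refine mul_le_mul' le_rfl (ciSup_le' ?_)
      intro A
      exact hcon A A.2
    exact absurd ((h.le_card_small hκ hns).trans h2) (not_le_of_gt (mul_lt_of_lt hκ hF hρ))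
  obtain ⟨ι, A, hAF, hcA, hĀcard⟩ := exists_small_union hκ (hνω.trans hνα.le)
    (hcν.trans_lt hνα) hFl hFl2 (fun A => #(I A)) hbig
  set Ā : Set X := ⋃₀ (range A) with hĀ
  set R : Set B := I Ā with hR
  have hRid : IsId R := hIid _
  have hRs : R ⊆ small κ B := fun x hx => hx.1
  have hRκ : κ ≤ #R := by
    by_contra hcon
    push Not at hcon
    obtain ⟨i, hi⟩ := hcA _ hcon
    have h2 : #(I (A i)) ≤ #R := mk_le_mk_of_subset
      (hImono _ _ (subset_sUnion_of_mem (mem_range_self i)))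
    exact absurd hi (not_lt_of_ge h2)
  obtain ⟨e', he'⟩ := h.exists_iso hκ hRid hRs hRκ
  have hcardQ : #(Qs α B) ≤ #(Qs α (ofId R hRid)) := by
    refine mk_le_of_injective (f := fun y : Qs α B => (⟨e'.symm y, by
      rw [mem_Qs_iso e']
      simpa using y.2⟩ : Qs α (ofId R hRid))) ?_
    intro y z hyz
    have h2 : e'.symm y = e'.symm z :=
      congrArg (fun w : Qs α (ofId R hRid) => (w : ofId R hRid)) hyz
    exact Subtype.ext (e'.symm.injective h2)
  have hcardG : #(Qs α (ofId R hRid)) ≤ #(G Ā) := by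
    have hmem : ∀ y : ofId R hRid, y ∈ Qs α (ofId R hRid) → (y : B) ∈ G Ā := by
      intro y hy
      have h2 : (y : B) ∈ R := (he' y).2 (hQsm ((mem_Qs_iso e' α y).1 hy))
      refine h2.2 _ ?_ le_rfl
      intro x hx hxy
      have hxR : x ∈ R := hRid.down _ _ hxy h2
      have hcoe := fun β => cb_coe_iff (ofId R hRid) R hRid.down
        (fun x hx => mem_ofId_of_mem hx) β ⟨x, mem_ofId_of_mem hxR⟩ hxR
      have h3 : (⟨x, mem_ofId_of_mem hxR⟩ : ofId R hRid) ∈
          (cb (ht (ofId R hRid)) : Set (ofId R hRid)) := by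
        rw [ht_iso e']
        exact (hcoe _).2 hx
      exact (hcoe α).1 (hy _ h3 hxy)
    refine mk_le_of_injective (f := fun y : Qs α (ofId R hRid) =>
      (⟨((y : ofId R hRid) : B), hmem y y.2⟩ : G Ā)) ?_
    intro y z hyz
    have h2 : ((y : ofId R hRid) : B) = ((z : ofId R hRid) : B) :=
      congrArg (fun w : G Ā => (w : B)) hyz
    exact Subtype.ext (Subtype.ext h2)
  exact absurd (hcardQ.trans hcardG) (not_le_of_gt (hGcard _ hĀcard))

end Star

/-- Superatomicity from covering families at the large cardinals of small cofinality. -/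
theorem HasStar.superatomic_of_largeCover (h : HasStar κ B) (hκ : κ.IsSingular)
    (h2 : ∀ ν, κ.ord.cof ≤ ν → ν < κ → ∃ l1 < κ, ∀ l, l1 < l → l < κ → l.ord.cof ≤ ν →
      WeakCover κ ν l) : Superatomic B := by
  by_contra hns
  have hκω : ℵ₀ ≤ κ := hκ.aleph0_le
  have hμκ : κ.ord.cof < κ := hκ.cof_ord_lt
  have hμω : ℵ₀ ≤ κ.ord.cof := aleph0_le_cof hκω
  have hκω' : ℵ₀ < κ := hμω.trans_lt hμκ
  obtain ⟨ν0, hν0, hbd⟩ := h.bounded_of_isSingular hκ hns
  set ν : Cardinal.{u} := max ν0 κ.ord.cof with hνdef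
  have hν : ν < κ := max_lt hν0 hμκ
  have hνω : ℵ₀ ≤ ν := hμω.trans (le_max_right _ _)
  obtain ⟨l1, hl1, hcov⟩ := h2 ν (le_max_right _ _) hν
  obtain ⟨α, hα, hαc⟩ := h.exists_card_Qs hκω hns hκω' (max_lt hl1 hν : max l1 ν < κ)
  have hlκ : #(Qs α B) < κ := h.card_lt_of_lt_ht hκω hns hα
  refine h.not_weakCover hκω hns (ν := ν) (fun x hx => (hbd x hx).trans
    (le_max_left _ _)) hνω (le_max_right _ _) hα ((le_max_right _ _).trans_lt hαc) ?_
  rcases le_or_gt (#(Qs α B)).ord.cof ν with h3 | h3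
  · exact hcov _ ((le_max_left _ _).trans_lt hαc) hlκ h3
  · exact WeakCover.of_cof_lt hlκ ((le_max_right _ _).trans_lt h3) h3

end Pool.Agent.Lib.MP_8a899a_lc
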