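import Pool.Agent.Lib.MP_8a899a_lc.Sub

set_option autoImplicit false

/-!
# Superatomicity for regular cardinals
-/

universe u

namespace Pool.Agent.Lib.MP_8a899a_lc

open Set Cardinal

variable {B : Type u} [BooleanAlgebra B] {κ : Cardinal.{u}}

theorem HasStar.iso (h : HasStar κ B) (A : BooleanSubalgebra B) (T : Set B) (hT : ∀ x ∈ T, x ∈ A)
    (hκ : κ ≤ #T) : Nonempty (A ≃o B) := by
  refine h.2 A (le_antisymm ?_ ?_)
  · rw [← h.1]
    exact mk_le_of_injective (f := fun x : A => (x : B)) Subtype.coe_injective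
  · refine hκ.trans ?_
    exact mk_le_of_injective (f := fun x : T => (⟨(x : B), hT x x.2⟩ : A))
      (fun x y hxy => Subtype.ext (by simpa using hxy))

theorem HasStar.exists_atom (h : HasStar κ B) (A : BooleanSubalgebra B) (T : Set B)
    (hT : ∀ x ∈ T, x ∈ A) (hκ : κ ≤ #T) {α : Ordinal.{u}} (hα : α < ht B) :
    ∃ a : A, AtomMod (cb α) a := by
  obtain ⟨e⟩ := h.iso A T hT hκ
  obtain ⟨b, hb⟩ := exists_atom_of_lt_ht hα
  refine ⟨e.symm b, ?_⟩
  rw [atomMod_iff_of_iso e]
  simpa using hb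

theorem HasStar.no_atom (h : HasStar κ B) (A : BooleanSubalgebra B) (T : Set B)
    (hT : ∀ x ∈ T, x ∈ A) (hκ : κ ≤ #T) (a : A) : ¬ AtomMod (cb (ht B)) a := by
  obtain ⟨e⟩ := h.iso A T hT hκ
  rw [atomMod_iff_of_iso e]
  exact ht_spec _

/-- (a) The superatomic ideal is small. -/
theorem HasStar.card_lt (h : HasStar κ B) (hns : ¬ Superatomic B) :
    #(cb (ht B) : Set B) < κ := by
  by_contra hcon
  push Not at hcon
  have htop : (⊤ : B) ∉ cb (ht B) := fun h' => hns (superatomic_of_top_mem h')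
  set S : Set B := cb (ht B) with hS
  have hSid : IsId S := cb_isId _
  let A := sub S hSid ⊤
  have hSA : ∀ x ∈ S, x ∈ A := fun x hx => mem_sub_of_mem hx
  have hcoe : ∀ x : A, (x : B) ∈ S → (x ∈ cb (ht B) ↔ (x : B) ∈ cb (ht B)) :=
    fun x hx => cb_coe_iff A S hSid.down hSA _ x hx
  refine h.no_atom A S hSA hcon ⊤ ⟨?_, ?_⟩
  · intro h1
    obtain ⟨e⟩ := h.iso A S hSA hcon
    rw [cb_iff_of_iso e, map_top] at h1
    exact htop h1
  · intro y _
    rcases y.2 with hy | hy
    · left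
      rw [inf_top_eq] at hy
      exact (hcoe y hy).2 hy
    · right
      have : ((⊤ \ y : A) : B) ∈ S := hy
      exact (hcoe _ this).2 this

/-- (b) -/
theorem HasStar.bound (h : HasStar κ B) {b : B} (hb : b ∉ cb (ht B)) (hbκ : κ ≤ #(Iic bᶜ)) :
    ∃ α < ht B, ∃ s ∈ (cb (ht B) : Set B), ∀ x ∈ (cb (ht B) : Set B), x ≤ b \ s → x ∈ cb α := by
  by_contra hcon
  push Not at hcon
  set S : Set B := cb (ht B) with hS
  have hSid : IsId S := cb_isId _
  let A := sub S hSid b
  have hSA : ∀ x ∈ S, x ∈ A := fun x hx => mem_sub_of_mem hx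
  have hCA : ∀ x ∈ Iic bᶜ, x ∈ A := fun x hx => mem_sub_of_le_compl hx
  have hcoe : ∀ (α : Ordinal.{u}) (x : A), (x : B) ∈ S → (x ∈ cb α ↔ (x : B) ∈ cb α) :=
    fun α x hx => cb_coe_iff A S hSid.down hSA α x hx
  -- the ideals of `A` are those of `B`
  have key : ∀ α ≤ ht B, ∀ x : A, x ∈ cb α → (x : B) ∈ cb α := by
    intro α
    induction α using WellFoundedLT.induction with
    | ind α ih =>
      intro hα x hx
      suffices hxS : (x : B) ∈ S from (hcoe α x hxS).1 hx
      rw [mem_cb] at hx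
      rcases hx with rfl | ⟨γ, hγ, hx⟩
      · exact hSid.bot
      · have hγθ : γ < ht B := hγ.trans_le hα
        induction hx with
        | base x hx => exact cb_subset_ht γ (ih γ hγ hγθ.le x hx)
        | sup x y _ _ ih1 ih2 => exact hSid.sup _ _ ih1 ih2
        | atom a ha =>
          have hJS : ∀ x : A, x ∈ cb γ → (x : B) ∈ S :=
            fun x hx => cb_subset_ht γ (ih γ hγ hγθ.le x hx)
          rcases a.2 with hab | hab
          · -- `a ⊓ b ∈ S`
            have hmem : (a : B) \ b ∈ A := hCA _ (by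
              change (a : B) \ b ≤ bᶜ
              rw [_root_.sdiff_eq]; exact inf_le_right)
            have hsd : (a : B) \ b ∈ S := by
              by_cases h1 : (⟨(a : B) \ b, hmem⟩ : A) ∈ cb γ
              · exact hJS _ h1
              · refine AtomMod.mem_cb hγθ ⟨?_, ?_⟩
                · intro h2
                  exact h1 ((hcoe γ ⟨(a : B) \ b, hmem⟩ (cb_subset_ht γ h2)).2 h2)
                · intro y hy
                  have hyA : y ∈ A := hCA _ (by
                    refine hy.trans ?_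
                    rw [_root_.sdiff_eq]; exact inf_le_right)
                  have hya : (⟨y, hyA⟩ : A) ≤ a := by
                    change y ≤ (a : B)
                    exact hy.trans sdiff_le
                  rcases ha.2 ⟨y, hyA⟩ hya with h3 | h3
                  · left; exact ih γ hγ hγθ.le _ h3
                  · right
                    refine (cb_isId γ).down _ _ ?_ (ih γ hγ hγθ.le _ h3)
                    exact sdiff_le_sdiff_right sdiff_le
            rw [← sup_inf_sdiff (a : B) b]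
            exact hSid.sup _ _ hab hsd
          · -- `b \ a ∈ S`
            obtain ⟨x, hxS, hxle, hxα⟩ := hcon γ hγθ _ hab
            have hxa : x ≤ (a : B) := by
              refine hxle.trans ?_
              rw [_root_.sdiff_sdiff_right_self]; exact inf_le_right
            have hxA : x ∈ A := hSA x hxS
            rcases ha.2 ⟨x, hxA⟩ hxa with h3 | h3
            · exact absurd (ih γ hγ hγθ.le _ h3) hxα
            · have := hJS _ h3
              rw [← sup_sdiff_cancel_right hxa]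
              exact hSid.sup _ _ hxS this
  have hbA : b ∈ A := by
    right; rw [_root_.sdiff_self]; exact hSid.bot
  refine h.no_atom A _ hCA hbκ ⟨b, hbA⟩ ⟨?_, ?_⟩
  · intro h1
    exact hb (key _ le_rfl _ h1)
  · intro y hy
    rcases y.2 with h1 | h1
    · left
      have : (y : B) ∈ S := by
        rwa [inf_eq_left.2 (show (y : B) ≤ b from hy)] at h1
      exact (hcoe _ y this).2 this
    · right
      exact (hcoe _ (⟨b, hbA⟩ \ y) h1).2 h1

/-- Splitting below an element of size `κ`. -/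
theorem exists_split (hκ : ℵ₀ ≤ κ) {q : B} (c : B) (hq : κ ≤ #(Iic q)) :
    κ ≤ #(Iic c) ∨ κ ≤ #(Iic (q \ c)) := by
  by_contra hcon
  push Not at hcon
  have h1 : #(Iic q) ≤ #(Iic c) * #(Iic (q \ c)) :=
    card_le_mul (Iic q) (Iic (q \ c)) c (fun w hw => sdiff_le_sdiff_right hw)
  exact absurd (hq.trans h1) (not_le_of_gt (mul_lt_of_lt hκ hcon.1 hcon.2))

/-- (c0) -/
theorem HasStar.card_iic_lt (h : HasStar κ B) (hκ : ℵ₀ ≤ κ) {q : B} {α : Ordinal.{u}}
    (hα : α < ht B) (hq : ∀ x ∈ (cb (ht B) : Set B), x ≤ q → x ∈ cb α) : #(Iic q) < κ := by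
  by_contra hcon
  push Not at hcon
  have hcon' := hcon
  set S : Set B := cb (ht B) with hS
  have hSid : IsId S := cb_isId _
  let A := sub (Iic q) (isId_iic q) ⊤
  have hQA : ∀ x ∈ Iic q, x ∈ A := fun x hx => mem_sub_of_mem hx
  have hcoe : ∀ (α : Ordinal.{u}) (x : A), (x : B) ∈ Iic q → (x ∈ cb α ↔ (x : B) ∈ cb α) :=
    fun α x hx => cb_coe_iff A (Iic q) (isId_iic q).down hQA α x hx
  have hno : ∀ x : A, (x : B) ≤ q → ¬ AtomMod (cb α) x := by
    intro x hx hat
    have h1 : x ∈ cb (ht B) := hat.mem_cb hα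
    have h2 := (hcoe _ x hx).1 h1
    exact hat.1 ((hcoe _ x hx).2 (hq _ h2 hx))
  obtain ⟨a, ha⟩ := h.exists_atom A _ hQA hcon hα
  have haq : qᶜ ≤ (a : B) := by
    rcases a.2 with h1 | h1
    · rw [inf_top_eq] at h1
      exact absurd ha (hno a h1)
    · rw [top_sdiff] at h1
      exact compl_le_of_compl_le h1
  have hqA : qᶜ ∈ A := BooleanSubalgebra.compl_mem (hQA q le_rfl)
  -- `qᶜ` is an atom of `A` or `⊥`
  have hqat : ∀ y : A, (y : B) ≤ qᶜ → y = ⊥ ∨ (y : B) = qᶜ := by
    intro y hy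
    rcases y.2 with h1 | h1
    · left
      rw [inf_top_eq] at h1
      apply Subtype.ext
      change (y : B) = ⊥
      have : (y : B) ≤ q ⊓ qᶜ := le_inf h1 hy
      rwa [inf_compl_self, le_bot_iff] at this
    · right
      rw [top_sdiff] at h1
      exact le_antisymm hy (compl_le_of_compl_le h1)
  have hqcb : (⟨qᶜ, hqA⟩ : A) ∉ cb α := by
    intro h1
    have h2 : AtomMod (cb α) (a ⊓ ⟨q, hQA q le_rfl⟩) := by
      refine ha.mono_right (cb_isId α) inf_le_left ?_
      intro h3
      apply ha.1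
      have : a = (a ⊓ ⟨q, hQA q le_rfl⟩) ⊔ ⟨qᶜ, hqA⟩ := by
        apply Subtype.ext
        change (a : B) = ((a : B) ⊓ q) ⊔ qᶜ
        rw [sup_inf_right, sup_compl_eq_top, inf_top_eq, sup_eq_left.2 haq]
      rw [this]
      exact (cb_isId α).sup _ _ h3 h1
    exact hno _ inf_le_right h2
  -- so `α = 0`
  have hα0 : α = 0 := by
    by_contra hne
    have hpos : 0 < α := pos_iff_ne_zero.2 hne
    apply hqcb
    by_cases h0 : (⟨qᶜ, hqA⟩ : A) ∈ cb 0
    · exact cb_mono hpos.le h0
    · refine AtomMod.mem_cb hpos ⟨h0, fun y hy => ?_⟩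
      rcases hqat y hy with rfl | h1
      · left; exact (cb_isId 0).bot
      · right
        have : (⟨qᶜ, hqA⟩ : A) \ y = ⊥ := by
          rw [sdiff_eq_bot_iff]
          change qᶜ ≤ (y : B)
          rw [h1]
        rw [this]; exact (cb_isId 0).bot
  subst hα0
  have cb0 : ∀ {D : Type u} [BooleanAlgebra D] (x : D), x ∈ cb 0 ↔ x = ⊥ := by
    intro D _ x
    rw [mem_cb]
    constructor
    · rintro (h1 | ⟨β, hβ, _⟩)
      · exact h1
      · exact absurd hβ (not_lt_zero)
    · exact Or.inl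
  have atom0 : ∀ {D : Type u} [BooleanAlgebra D] (x : D), AtomMod (cb 0) x ↔ IsAtom x := by
    intro D _ x
    unfold AtomMod
    rw [cb0, IsAtom]
    refine and_congr_right fun hx => ?_
    constructor
    · intro h1 y hy
      rcases h1 y hy.le with h2 | h2
      · exact (cb0 _).1 h2
      · rw [cb0, sdiff_eq_bot_iff] at h2
        exact absurd h2 (not_le_of_gt hy)
    · intro h1 y hy
      rcases hy.eq_or_lt with h2 | h2
      · right; rw [h2, _root_.sdiff_self]; exact (cb0 _).2 rfl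
      · left; exact (cb0 _).2 (h1 y h2)
  -- `A` has only one atom
  have hAone : ∀ x y : A, IsAtom x → IsAtom y → x = y := by
    have : ∀ x : A, IsAtom x → (x : B) = qᶜ := by
      intro x hx
      have hx' := (atom0 x).2 hx
      have hxq : qᶜ ≤ (x : B) := by
        rcases x.2 with h1 | h1
        · rw [inf_top_eq] at h1
          exact absurd hx' (hno x h1)
        · rw [top_sdiff] at h1
          exact compl_le_of_compl_le h1
      have hle : (⟨qᶜ, hqA⟩ : A) ≤ x := hxq
      rcases hx.le_iff.1 hle with h1 | h1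
      · exact absurd ((cb0 _).2 h1) hqcb
      · rw [← h1]
    intro x y hx hy
    exact Subtype.ext ((this x hx).trans (this y hy).symm)
  obtain ⟨e⟩ := h.iso A _ hQA hcon
  have hBone : ∀ x y : B, IsAtom x → IsAtom y → x = y := by
    intro x y hx hy
    exact e.symm.injective (hAone _ _ ((e.symm.isAtom_iff x).2 hx) ((e.symm.isAtom_iff y).2 hy))
  obtain ⟨t, ht0⟩ := exists_atom_of_lt_ht hα
  have htat : IsAtom t := (atom0 t).1 ht0
  have htS : t ∈ S := ht0.mem_cb hα
  have htq : t ≤ qᶜ := by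
    rw [le_compl_iff_disjoint_right]
    by_contra h1
    have h2 : t ⊓ q ≠ ⊥ := fun h2 => h1 (disjoint_iff.2 h2)
    have h3 : t ⊓ q = t := by
      by_contra h4
      exact h2 (htat.2 _ (lt_of_le_of_ne inf_le_left h4))
    exact ht0.1 (hq t htS (inf_eq_left.1 h3))
  -- find `c` strictly between `⊥` and `q` with many elements below
  have hqat' : ¬ IsAtom q := by
    intro h1
    have h2 : q ∈ S := ((atom0 q).2 h1).mem_cb hα
    exact h1.1 ((cb0 q).1 (hq q h2 le_rfl))
  have hq0 : q ≠ ⊥ := by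
    rintro rfl
    have : #(Iic (⊥ : B)) = 1 := by
      rw [Iic_bot]; exact mk_singleton _
    rw [this] at hcon
    exact absurd (hκ.trans hcon) (not_le_of_gt one_lt_aleph0)
  obtain ⟨c, hcq, hc0⟩ : ∃ c, c < q ∧ c ≠ ⊥ := by
    by_contra h1
    push Not at h1
    exact hqat' ⟨hq0, fun y hy => h1 y hy⟩
  obtain ⟨d, hdq, hd0, hdκ⟩ : ∃ d ≤ q, d ≠ ⊥ ∧ κ ≤ #(Iic (q \ d)) := by
    rcases exists_split hκ c hcon with h1 | h1
    · refine ⟨q \ c, sdiff_le, ?_, ?_⟩
      · intro h2
        rw [sdiff_eq_bot_iff] at h2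
        exact absurd h2 (not_le_of_gt hcq)
      · rw [sdiff_sdiff_eq_self hcq.le]; exact h1
    · exact ⟨c, hcq.le, hc0, h1⟩
  -- the subalgebra in which `d` is an atom
  let A2 := sub ({⊥} : Set B) isId_bot d
  have hCA2 : ∀ x ∈ Iic (q \ d), x ∈ A2 := by
    intro x hx
    refine mem_sub_of_le_compl ?_
    refine (show x ≤ q \ d from hx).trans ?_
    rw [_root_.sdiff_eq]; exact inf_le_right
  obtain ⟨e2⟩ := h.iso A2 _ hCA2 hdκ
  have hdA : d ∈ A2 := by right; rw [_root_.sdiff_self]; rfl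
  have htA : t ∈ A2 := mem_sub_of_le_compl (htq.trans (compl_le_compl hdq))
  have hdat : IsAtom (⟨d, hdA⟩ : A2) := by
    refine ⟨?_, ?_⟩
    · intro h1
      exact hd0 (congrArg Subtype.val h1)
    · intro y hy
      have hyd : (y : B) < d := hy
      rcases y.2 with h1 | h1
      · rw [inf_eq_left.2 hyd.le] at h1
        exact Subtype.ext h1
      · rw [mem_singleton_iff, sdiff_eq_bot_iff] at h1
        exact absurd h1 (not_le_of_gt hyd)
  have htat2 : IsAtom (⟨t, htA⟩ : A2) := by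
    refine ⟨?_, ?_⟩
    · intro h1
      exact htat.1 (congrArg Subtype.val h1)
    · intro y hy
      exact Subtype.ext (htat.2 _ hy)
  have h1 : (⟨d, hdA⟩ : A2) = ⟨t, htA⟩ := by
    apply e2.injective
    exact hBone _ _ ((e2.isAtom_iff _).2 hdat) ((e2.isAtom_iff _).2 htat2)
  have h2 : d = t := congrArg Subtype.val h1
  have h3 : d ≤ q ⊓ qᶜ := le_inf hdq (h2 ▸ htq)
  rw [inf_compl_self, le_bot_iff] at h3
  exact hd0 h3

/-- (c) -/
theorem HasStar.card_lt_of_lt_ht (h : HasStar κ B) (hκ : ℵ₀ ≤ κ) (hns : ¬ Superatomic B)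
    {α : Ordinal.{u}} (hα : α < ht B) :
    #{y : B | ∀ x ∈ (cb (ht B) : Set B), x ≤ y → x ∈ cb α} < κ := by
  by_contra hcon
  push Not at hcon
  set S : Set B := cb (ht B) with hS
  have hSid : IsId S := cb_isId _
  set Q : Set B := {y : B | ∀ x ∈ S, x ≤ y → x ∈ cb α} with hQ
  have hQid : IsId Q := by
    refine ⟨?_, ?_, ?_⟩
    · intro x _ hx
      rw [le_bot_iff.1 hx]; exact (cb_isId α).bot
    · intro x y hyx hx z hz hzy
      exact hx z hz (hzy.trans hyx)
    · intro x y hx hy z hz hzle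
      have : z = (z ⊓ x) ⊔ (z ⊓ y) := by
        rw [← inf_sup_left]; exact (inf_eq_left.2 hzle).symm
      rw [this]
      exact (cb_isId α).sup _ _ (hx _ (hSid.down _ _ inf_le_left hz) inf_le_right)
        (hy _ (hSid.down _ _ inf_le_left hz) inf_le_right)
  let A := sub Q hQid ⊤
  have hQA : ∀ x ∈ Q, x ∈ A := fun x hx => mem_sub_of_mem hx
  have hcoe : ∀ (α : Ordinal.{u}) (x : A), (x : B) ∈ Q → (x ∈ cb α ↔ (x : B) ∈ cb α) :=
    fun α x hx => cb_coe_iff A Q hQid.down hQA α x hx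
  obtain ⟨a, ha⟩ := h.exists_atom A _ hQA hcon hα
  have haQ : (a : B)ᶜ ∈ Q := by
    rcases a.2 with h1 | h1
    · rw [inf_top_eq] at h1
      exfalso
      have h2 : a ∈ cb (ht B) := ha.mem_cb hα
      have h3 := (hcoe _ a h1).1 h2
      exact ha.1 ((hcoe _ a h1).2 (h1 _ h3 le_rfl))
    · rwa [top_sdiff] at h1
  obtain ⟨p, hpQ, hp⟩ : ∃ p ∈ Q, ∀ w ∈ Q, w \ p ∈ S := by
    by_cases hcase : ∀ y : A, (y : B) ∈ Q → y ≤ a → y ∈ cb α
    · refine ⟨_, haQ, fun w hw => ?_⟩
      have hwa : w \ (a : B)ᶜ ∈ Q := hQid.down _ _ sdiff_le hw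
      have h1 := hcase ⟨w \ (a : B)ᶜ, hQA _ hwa⟩ hwa (by
        change w \ (a : B)ᶜ ≤ (a : B)
        rw [_root_.sdiff_eq, compl_compl]; exact inf_le_right)
      exact cb_subset_ht α ((hcoe α _ hwa).1 h1)
    · push Not at hcase
      obtain ⟨y, hyQ, hya, hyα⟩ := hcase
      have hz := (ha.2 y hya).resolve_left hyα
      refine ⟨(a : B)ᶜ ⊔ y, hQid.sup _ _ haQ hyQ, fun w hw => ?_⟩
      have hwQ : w \ ((a : B)ᶜ ⊔ y) ∈ Q := hQid.down _ _ sdiff_le hw
      have h1 : (⟨w \ ((a : B)ᶜ ⊔ y), hQA _ hwQ⟩ : A) ∈ cb α := by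
        refine (cb_isId α).down _ _ ?_ hz
        change w \ ((a : B)ᶜ ⊔ y) ≤ (a : B) \ y
        rw [← sdiff_sdiff_left, _root_.sdiff_eq (x := w), compl_compl]
        exact sdiff_le_sdiff_right inf_le_right
      exact cb_subset_ht α ((hcoe α _ hwQ).1 h1)
  have h1 : #Q ≤ #(Iic p) * #S := card_le_mul Q S p hp
  have h2 : #(Iic p) < κ := h.card_iic_lt hκ hα hpQ
  have h3 : #S < κ := h.card_lt hns
  exact absurd (hcon.trans h1) (not_le_of_gt (mul_lt_of_lt hκ h2 h3))

/-- The main theorem for regular cardinals. -/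
theorem HasStar.superatomic (h : HasStar κ B) (hκ : κ.IsRegular) : Superatomic B := by
  by_contra hns
  set S : Set B := cb (ht B) with hS
  have hSid : IsId S := cb_isId _
  have hScard : #S < κ := h.card_lt hns
  have hω : ℵ₀ ≤ κ := hκ.aleph0_le
  let Q : Ordinal.{u} → Set B := fun α => {y : B | ∀ x ∈ S, x ≤ y → x ∈ cb α}
  let ι : Type u := Shrink.{u} (Iio (ht B))
  let r : ι → Iio (ht B) := (equivShrink _).symm
  have hr : Function.Injective r := (equivShrink _).symm.injective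
  let Y : Set B := ⋃ i : ι, Q (r i)
  have hex : ∀ i : ι, ∃ x : B, AtomMod (cb (r i : Ordinal.{u})) x :=
    fun i => exists_atom_of_lt_ht (r i).2
  choose f hf using hex
  have hι : #ι < κ := by
    refine lt_of_le_of_lt ?_ hScard
    refine mk_le_of_injective (f := fun i => (⟨f i, (hf i).mem_cb (r i).2⟩ : S)) ?_
    intro i j hij
    have hij' : f i = f j := congrArg Subtype.val hij
    apply hr
    apply Subtype.ext
    rcases lt_trichotomy (r i : Ordinal.{u}) (r j) with h1 | h1 | h1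
    · exact absurd ((hf i).mem_cb h1) (by rw [hij']; exact (hf j).1)
    · exact h1
    · exact absurd ((hf j).mem_cb h1) (by rw [← hij']; exact (hf i).1)
  have hY : #Y < κ := by
    rw [card_iUnion_lt_iff_forall_of_isRegular hκ hι]
    intro i
    exact h.card_lt_of_lt_ht hω hns (r i).2
  have hY' : #(Y ∪ {⊥} : Set B) < κ := by
    refine (mk_union_le _ _).trans_lt (add_lt_of_lt hω hY ?_)
    rw [mk_singleton]
    exact one_lt_aleph0.trans_le hω
  let T : Set B := (fun p : B × B => p.1 ⊔ p.2) '' (S ×ˢ (Y ∪ {⊥}))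
  have hT : #T < κ := by
    refine mk_image_le.trans_lt ?_
    rw [mk_setProd]
    simpa using mul_lt_of_lt hω hScard hY'
  have hT' : #(compl '' T : Set B) < κ := mk_image_le.trans_lt hT
  have key : ∀ b : B, κ ≤ #(Iic bᶜ) → b ∈ T := by
    intro b hb
    by_cases hbS : b ∈ S
    · exact ⟨(b, ⊥), ⟨hbS, Or.inr rfl⟩, sup_bot_eq _⟩
    · obtain ⟨α, hα, s, hs, hαs⟩ := h.bound hbS hb
      refine ⟨(b ⊓ s, b \ s), ⟨hSid.down _ _ inf_le_right hs, Or.inl ?_⟩, sup_inf_sdiff _ _⟩
      refine mem_iUnion.2 ⟨equivShrink _ ⟨α, hα⟩, ?_⟩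
      have : r (equivShrink _ ⟨α, hα⟩) = ⟨α, hα⟩ := Equiv.symm_apply_apply _ _
      rw [this]
      exact hαs
  have hall : (univ : Set B) ⊆ T ∪ compl '' T := by
    intro b _
    have hκ1 : κ ≤ #(Iic (⊤ : B)) := by
      rw [Iic_top, mk_univ, h.1]
    rcases exists_split hω b hκ1 with h1 | h1
    · right
      exact ⟨bᶜ, key _ (by rw [compl_compl]; exact h1), compl_compl b⟩
    · left
      exact key _ (by rwa [top_sdiff] at h1)
  have h1 : κ ≤ #(T ∪ compl '' T : Set B) := by
    rw [← h.1, ← mk_univ]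
    exact mk_le_mk_of_subset hall
  exact absurd h1 (not_le_of_gt ((mk_union_le _ _).trans_lt (add_lt_of_lt hω hT hT')))

end Pool.Agent.Lib.MP_8a899a_lc
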