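import Pool.Agent.Lib.MP_8a899a_lc.Basic

set_option autoImplicit false

/-!
# Subalgebras attached to an ideal and an element
-/

universe u

namespace Pool.Agent.Lib.MP_8a899a_lc

open Set Cardinal

variable {B : Type u} [BooleanAlgebra B]

/-- The subalgebra of all `x` with `x ⊓ b ∈ Q` or `b \ x ∈ Q`. -/
def sub (Q : Set B) (hQ : IsId Q) (b : B) : BooleanSubalgebra B where
  carrier := {x | x ⊓ b ∈ Q ∨ b \ x ∈ Q}
  supClosed' := by
    rintro x (hx | hx) y (hy | hy)
    · left; rw [inf_sup_right]; exact hQ.sup _ _ hx hy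
    · right; exact hQ.down _ _ (sdiff_le_sdiff_left le_sup_right) hy
    · right; exact hQ.down _ _ (sdiff_le_sdiff_left le_sup_left) hx
    · right; exact hQ.down _ _ (sdiff_le_sdiff_left le_sup_left) hx
  infClosed' := by
    rintro x (hx | hx) y (hy | hy)
    · left; exact hQ.down _ _ (inf_le_inf_right _ inf_le_left) hx
    · left; exact hQ.down _ _ (inf_le_inf_right _ inf_le_left) hx
    · left; exact hQ.down _ _ (inf_le_inf_right _ inf_le_right) hy
    · right; rw [sdiff_inf]; exact hQ.sup _ _ hx hy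
  compl_mem' := by
    rintro x (hx | hx)
    · right; rw [_root_.sdiff_eq, compl_compl, inf_comm]; exact hx
    · left; rw [inf_comm, ← _root_.sdiff_eq]; exact hx
  bot_mem' := by left; rw [bot_inf_eq]; exact hQ.bot

theorem mem_sub {Q : Set B} {hQ : IsId Q} {b x : B} :
    x ∈ sub Q hQ b ↔ x ⊓ b ∈ Q ∨ b \ x ∈ Q := Iff.rfl

theorem mem_sub_of_mem {Q : Set B} {hQ : IsId Q} {b x : B} (h : x ∈ Q) : x ∈ sub Q hQ b :=
  Or.inl (hQ.down _ _ inf_le_left h)

theorem mem_sub_of_le_compl {Q : Set B} {hQ : IsId Q} {b x : B} (h : x ≤ bᶜ) :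
    x ∈ sub Q hQ b := by
  left
  rw [(le_compl_iff_disjoint_right.1 h).eq_bot]
  exact hQ.bot

/-- Ranks of elements of an ideal of `B` contained in a subalgebra are the same. -/
theorem cb_coe_iff (A : BooleanSubalgebra B) (Q : Set B) (hQ : ∀ x y, y ≤ x → x ∈ Q → y ∈ Q)
    (hQA : ∀ x ∈ Q, x ∈ A) (α : Ordinal.{u}) (x : A) (hx : (x : B) ∈ Q) :
    x ∈ cb α ↔ (x : B) ∈ cb α := by
  refine cb_iff_of_local A.subtype A.subtype_injective {x : A | (x : B) ∈ Q} ?_ ?_ α x hx
  · intro x y hxy hx
    exact hQ _ _ hxy hx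
  · intro x hx y hy
    exact ⟨⟨y, hQA y (hQ _ _ hy hx)⟩, rfl⟩

theorem isId_iic (q : B) : IsId (Iic q) where
  bot := bot_le
  down _ _ h hx := h.trans hx
  sup _ _ hx hy := sup_le hx hy

theorem isId_bot : IsId ({⊥} : Set B) where
  bot := rfl
  down _ _ h hx := by
    rw [mem_singleton_iff] at hx ⊢
    rw [hx] at h
    exact le_bot_iff.1 h
  sup _ _ hx hy := by
    rw [mem_singleton_iff] at hx hy ⊢
    rw [hx, hy, sup_bot_eq]

/-- If `w \ p ∈ T` for all `w ∈ Q` then `#Q ≤ #(Iic p) * #T`. -/
theorem card_le_mul (Q T : Set B) (p : B) (h : ∀ w ∈ Q, w \ p ∈ T) :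
    #Q ≤ #(Iic p) * #T := by
  rw [mul_def]
  let f : Q → Iic p := fun w => ⟨(w : B) ⊓ p, inf_le_right⟩
  let g : Q → T := fun w => ⟨(w : B) \ p, h w w.2⟩
  refine mk_le_of_injective (f := fun w : Q => (f w, g w)) ?_
  intro x y hxy
  have h1 : f x = f y := congrArg Prod.fst hxy
  have h2 : g x = g y := congrArg Prod.snd hxy
  have h1' : (x : B) ⊓ p = (y : B) ⊓ p := congrArg Subtype.val h1
  have h2' : (x : B) \ p = (y : B) \ p := congrArg Subtype.val h2
  apply Subtype.ext
  rw [← sup_inf_sdiff (x : B) p, ← sup_inf_sdiff (y : B) p, h1', h2']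

/-- `B` is superatomic: every homomorphic image of `B` is atomic. -/
def Superatomic (B : Type u) [BooleanAlgebra B] : Prop :=
  ∀ (C : Type u) [BooleanAlgebra C] (f : BoundedLatticeHom B C), Function.Surjective f →
    IsAtomic C

/-- Property `(∗)_κ`: `B` has cardinality `κ` and is isomorphic to all its subalgebras of
cardinality `κ`. -/
def HasStar (κ : Cardinal.{u}) (B : Type u) [BooleanAlgebra B] : Prop :=
  #B = κ ∧ ∀ A : BooleanSubalgebra B, #A = κ → Nonempty (A ≃o B)

theorem superatomic_of_top_mem {α : Ordinal.{u}} (h : (⊤ : B) ∈ cb α) : Superatomic B := by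
  intro C _ f hf
  refine ⟨fun c => ?_⟩
  by_contra hcon
  push Not at hcon
  obtain ⟨hc, hcon⟩ := hcon
  have key : ∀ β : Ordinal.{u}, ∀ x ∈ (cb β : Set B), f x ⊓ c = ⊥ := by
    intro β
    induction β using WellFoundedLT.induction with
    | ind β ih =>
      intro x hx
      rw [mem_cb] at hx
      rcases hx with rfl | ⟨γ, hγ, hx⟩
      · rw [map_bot, bot_inf_eq]
      · induction hx with
        | base x hx => exact ih γ hγ x hx
        | sup x y _ _ ih1 ih2 => rw [map_sup, inf_sup_right, ih1, ih2, sup_bot_eq]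
        | atom a ha =>
          by_contra hne
          have hna := hcon (f a ⊓ c)
          have : ¬ IsAtom (f a ⊓ c) := fun h => hna h inf_le_right
          rw [IsAtom] at this
          push Not at this
          obtain ⟨d, hd, hd0⟩ := this hne
          obtain ⟨y, rfl⟩ := hf d
          have hya : f (y ⊓ a) = f y := by
            rw [map_inf]; exact inf_eq_left.2 (hd.le.trans inf_le_left)
          rcases ha.2 (y ⊓ a) inf_le_right with h1 | h1
          · have := ih γ hγ _ h1
            rw [hya, inf_eq_left.2 (hd.le.trans inf_le_right)] at this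
            exact hd0 this
          · have := ih γ hγ _ h1
            rw [map_sdiff', hya] at this
            have h2 : f a ⊓ c ≤ f y := by
              rw [← sdiff_eq_bot_iff, ← this, _root_.sdiff_eq, _root_.sdiff_eq]
              ac_rfl
            exact absurd h2 (not_le_of_gt hd)
  have := key α ⊤ h
  rw [map_top, top_inf_eq] at this
  exact hc this

end Pool.Agent.Lib.MP_8a899a_lc
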