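import Pool.Agent.Lib.MP_8a899a_lc.Large

set_option autoImplicit false
set_option linter.unusedSectionVars false

/-!
# Counting the large subideals of the canonical ideal
-/

universe u

namespace Pool.Agent.Lib.MP_8a899a_lc

open Set Cardinal

variable {B : Type u} [BooleanAlgebra B] {κ : Cardinal.{u}}

/-- The subalgebra of the elements which split no element of `D`. -/
def unsplit (D : Set B) : BooleanSubalgebra B where
  carrier := {x | ∀ d ∈ D, x ⊓ d = ⊥ ∨ d ≤ x}
  supClosed' := by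
    intro x hx y hy d hd
    rcases hx d hd with h1 | h1
    · rcases hy d hd with h2 | h2
      · left; rw [inf_sup_right, h1, h2, sup_bot_eq]
      · right; exact h2.trans le_sup_right
    · right; exact h1.trans le_sup_left
  infClosed' := by
    intro x hx y hy d hd
    rcases hx d hd with h1 | h1
    · left
      exact le_bot_iff.1 (h1 ▸ inf_le_inf_right d inf_le_left)
    · rcases hy d hd with h2 | h2
      · left
        exact le_bot_iff.1 (h2 ▸ inf_le_inf_right d inf_le_right)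
      · right; exact le_inf h1 h2
  compl_mem' := by
    intro x hx d hd
    rcases hx d hd with h1 | h1
    · right
      rw [le_compl_iff_disjoint_left, disjoint_iff]
      exact h1
    · left
      rw [← disjoint_iff]
      exact (disjoint_compl_left : Disjoint xᶜ x).mono_right h1
  bot_mem' := by
    intro d _
    left; exact bot_inf_eq _

theorem mem_unsplit {D : Set B} {x : B} : x ∈ unsplit D ↔ ∀ d ∈ D, x ⊓ d = ⊥ ∨ d ≤ x := Iff.rfl

/-- There are fewer than `κ` pairwise disjoint elements. -/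
theorem HasStar.card_disj_lt (h : HasStar κ B) (hns : ¬ Superatomic B) {D : Set B}
    (hD : D.PairwiseDisjoint id) (h0 : ∀ d ∈ D, d ≠ ⊥) : #D < κ := by
  by_contra hcon
  push Not at hcon
  have hmem : ∀ d ∈ D, d ∈ unsplit D := by
    intro d hd d' hd'
    by_cases hdd : d = d'
    · right; rw [hdd]
    · left
      have := hD hd hd' hdd
      exact disjoint_iff.1 this
  obtain ⟨e⟩ := h.iso (unsplit D) D hmem hcon
  have hcb : ∀ d (hd : d ∈ D), e ⟨d, hmem d hd⟩ ∈ (cb (ht B) : Set B) := by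
    intro d hd
    apply cb_subset_ht 1
    rw [← cb_iff_of_iso e]
    refine AtomMod.mem_cb (β := 0) zero_lt_one ⟨?_, ?_⟩
    · rw [mem_cb_zero]
      intro h1
      exact h0 d hd (congrArg Subtype.val h1)
    · intro y hy
      have hy' : (y : B) ≤ d := hy
      rcases y.2 d hd with h1 | h1
      · left
        rw [mem_cb_zero]
        apply Subtype.ext
        change (y : B) = ⊥
        rw [← h1]; exact (inf_eq_left.2 hy').symm
      · right
        rw [mem_cb_zero, sdiff_eq_bot_iff]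
        exact h1
  have h1 : #D ≤ #(cb (ht B) : Set B) := by
    refine mk_le_of_injective (f := fun d : D =>
      (⟨e ⟨d, hmem d d.2⟩, hcb d d.2⟩ : (cb (ht B) : Set B))) ?_
    intro d d' hdd
    have h2 : e ⟨d, hmem d d.2⟩ = e ⟨d', hmem d' d'.2⟩ := congrArg Subtype.val hdd
    have h3 := e.injective h2
    exact Subtype.ext (congrArg (fun z : unsplit D => (z : B)) h3)
  exact absurd (hcon.trans h1) (not_le_of_gt (h.card_lt hns))

theorem card_gen_le (hκ : ℵ₀ ≤ κ) {ν δ : Cardinal.{u}} (hν : ∀ x ∈ small κ B, #(Iic x) ≤ ν)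
    {ι : Type u} (x : ι → B) (hx : ∀ i, x i ∈ small κ B) (hδ : ℵ₀ ≤ δ) (hνδ : ν ≤ δ)
    (hι : #ι ≤ δ) : #(gen x) ≤ δ := by
  have h1 : gen x ⊆ ⋃ t : Finset ι, Iic (t.sup x) := by
    rintro y ⟨t, hyt⟩
    exact mem_iUnion.2 ⟨t, hyt⟩
  refine (mk_le_mk_of_subset h1).trans ((mk_iUnion_le _).trans ?_)
  refine mul_le_of_le hδ ?_ (ciSup_le' fun t => ?_)
  · rcases finite_or_infinite ι with hf | hf
    · exact (lt_aleph0_of_finite _).le.trans hδ
    · rw [mk_finset_of_infinite]; exact hι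
  · exact (hν _ ((small_isId hκ).sup_mem t _ fun i _ => hx i)).trans hνδ

/-- A maximal family of elements of `K` which are disjoint modulo `P`. -/
theorem exists_max_disjMod (K P : Set B) : ∃ D ⊆ K, D.Pairwise (fun x y => x ⊓ y ∈ P) ∧
    ∀ m ∈ K, m ∉ P → ∃ d ∈ D, m ⊓ d ∉ P := by
  obtain ⟨D, hD⟩ := zorn_subset {D : Set B | D ⊆ K ∧ D.Pairwise (fun x y => x ⊓ y ∈ P)} (by
    intro c hc hchain
    refine ⟨⋃₀ c, ⟨?_, ?_⟩, fun s hs => subset_sUnion_of_mem hs⟩
    · exact sUnion_subset fun s hs => (hc hs).1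
    · intro a ha b hb hab
      obtain ⟨s, hs, has⟩ := ha
      obtain ⟨t, ht, hbt⟩ := hb
      rcases hchain.total hs ht with h | h
      · exact (hc ht).2 (h has) hbt hab
      · exact (hc hs).2 has (h hbt) hab)
  refine ⟨D, hD.prop.1, hD.prop.2, fun m hm hmP => ?_⟩
  by_contra hne
  push Not at hne
  have h1 : insert m D ∈ {D : Set B | D ⊆ K ∧ D.Pairwise (fun x y => x ⊓ y ∈ P)} := by
    refine ⟨insert_subset hm hD.prop.1, ?_⟩
    intro a ha b hb hab
    rcases ha with rfl | ha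
    · rcases hb with rfl | hb
      · exact absurd rfl hab
      · exact hne b hb
    · rcases hb with rfl | hb
      · rw [inf_comm]; exact hne a ha
      · exact hD.prop.2 ha hb hab
  have h2 : m ∈ D := hD.le_of_ge h1 (subset_insert _ _) (mem_insert _ _)
  have h3 := hne m h2
  rw [inf_idem] at h3
  exact hmP h3

/-- For every `δ < κ` there are more than `δ` elements which are disjoint modulo an ideal. -/
theorem exists_disjMod (hκ : ℵ₀ ≤ κ) (hsm : κ ≤ #(small κ B)) {ν δ : Cardinal.{u}}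
    (hν : ∀ x ∈ small κ B, #(Iic x) ≤ ν) {G : Set B} (hG : G ⊆ small κ B) (hGδ : #G ≤ δ)
    (hδ : ℵ₀ ≤ δ) (hνδ : Order.succ ν ≤ δ) (hδκ : δ < κ) :
    ∃ P D : Set B, IsId P ∧ G ⊆ P ∧ P ⊆ small κ B ∧ D ⊆ small κ B ∧ (∀ x ∈ D, x ∉ P) ∧
      D.Pairwise (fun x y => x ⊓ y ∈ P) ∧ δ < #D := by
  classical
  by_contra hcon
  push Not at hcon
  have hsmId := small_isId (B := B) hκ
  -- the ideal generated by `M` and `G`
  let P : Set B → Set B := fun M => gen (fun x : ((M ∩ small κ B) ∪ G : Set B) => (x : B))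
  have hPid : ∀ M, IsId (P M) := fun M => gen_isId _
  have hPG : ∀ M, G ⊆ P M := fun M x hx => le_gen _ ⟨x, Or.inr hx⟩ le_rfl
  have hPM : ∀ M, M ∩ small κ B ⊆ P M := fun M x hx => le_gen _ ⟨x, Or.inl hx⟩ le_rfl
  have hPs : ∀ M, P M ⊆ small κ B := by
    intro M
    refine gen_subset hsmId ?_
    rintro ⟨x, hx | hx⟩
    · exact hx.2
    · exact hG hx
  have hex := fun M => exists_max_disjMod (small κ B \ P M) (P M)
  choose D hDK hDpw hDmax using hex
  have hDcard : ∀ M, #(D M) ≤ δ := fun M =>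
    hcon (P M) (D M) (hPid M) (hPG M) (hPs M) (fun x hx => (hDK M hx).1)
      (fun x hx => (hDK M hx).2) (hDpw M)
  let Φ : Set B → Set B := fun M => gen (fun x : (((M ∩ small κ B) ∪ G) ∪ D M : Set B) => (x : B))
  have hΦs : ∀ M, Φ M ⊆ small κ B := by
    intro M
    refine gen_subset hsmId ?_
    rintro ⟨x, (hx | hx) | hx⟩
    · exact hx.2
    · exact hG hx
    · exact (hDK M hx).1
  have hPΦ : ∀ M, P M ⊆ Φ M := by
    intro M
    refine gen_subset (gen_isId _) ?_
    rintro ⟨x, hx⟩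
    exact le_gen (fun x : (((M ∩ small κ B) ∪ G) ∪ D M : Set B) => (x : B))
      ⟨x, Or.inl hx⟩ le_rfl
  have hDΦ : ∀ M, D M ⊆ Φ M := fun M x hx =>
    le_gen (fun x : (((M ∩ small κ B) ∪ G) ∪ D M : Set B) => (x : B)) ⟨x, Or.inr hx⟩ le_rfl
  have hΦcard : ∀ M : Set B, #M ≤ δ → #(Φ M) ≤ δ := by
    intro M hM
    refine card_gen_le hκ hν _ (fun x => hΦs M ?_) hδ ((Order.le_succ ν).trans hνδ) ?_
    · exact le_gen (fun x : (((M ∩ small κ B) ∪ G) ∪ D M : Set B) => (x : B)) x le_rfl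
    · refine card_union_le_of_le hδ (card_union_le_of_le hδ ?_ hGδ) (hDcard M)
      exact (mk_le_mk_of_subset inter_subset_left).trans hM
  have hTcard : #(chain Φ (Order.succ ν).ord) ≤ δ :=
    card_chain_le hδ hΦcard _ (by rw [card_ord]; exact hνδ)
  obtain ⟨x, hx, hxT⟩ : ∃ x ∈ small κ B, x ∉ chain Φ (Order.succ ν).ord := by
    by_contra hc
    push Not at hc
    exact absurd (hsm.trans ((mk_le_mk_of_subset hc).trans hTcard)) (not_le_of_gt hδκ)
  -- many elements below `x`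
  have hchs : ∀ η, η < (Order.succ ν).ord → x ∉ Φ (chain Φ η) := fun η hη hxη =>
    hxT (subset_chain hη hxη)
  have hd : ∀ η : (Order.succ ν).ord.ToType, ∃ d ∈ D (chain Φ (η.toOrd : Ordinal.{u})),
      x ⊓ d ∉ P (chain Φ (η.toOrd : Ordinal.{u})) := by
    intro η
    have hη : (η.toOrd : Ordinal.{u}) < (Order.succ ν).ord := η.toOrd.2
    have h1 : x ∉ P (chain Φ (η.toOrd : Ordinal.{u})) := fun h2 => hchs _ hη (hPΦ _ h2)
    exact hDmax _ x ⟨hx, h1⟩ h1
  choose d hdD hdP using hd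
  have hlt : ∀ η η' : (Order.succ ν).ord.ToType, η < η' → x ⊓ d η ≠ x ⊓ d η' := by
    intro η η' hηη heq
    have h1 : (η.toOrd : Ordinal.{u}) < (η'.toOrd : Ordinal.{u}) := by
      simpa using hηη
    have h2 : x ⊓ d η ∈ Φ (chain Φ (η.toOrd : Ordinal.{u})) :=
      (gen_isId _).down _ _ inf_le_right (hDΦ _ (hdD η))
    have h3 : x ⊓ d η ∈ chain Φ (η'.toOrd : Ordinal.{u}) := subset_chain h1 h2
    have h4 : x ⊓ d η ∈ P (chain Φ (η'.toOrd : Ordinal.{u})) := hPM _ ⟨h3, hΦs _ h2⟩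
    rw [heq] at h4
    exact hdP η' h4
  have hinj : Function.Injective (fun η : (Order.succ ν).ord.ToType => (⟨x ⊓ d η, inf_le_left⟩ :
      Iic x)) := by
    intro η η' heq
    have h1 : x ⊓ d η = x ⊓ d η' := congrArg Subtype.val heq
    rcases lt_trichotomy η η' with h2 | h2 | h2
    · exact absurd h1 (hlt _ _ h2)
    · exact h2
    · exact absurd h1.symm (hlt _ _ h2)
  have h5 := mk_le_of_injective hinj
  rw [mk_toType, card_ord] at h5
  exact absurd (h5.trans (hν x hx)) (not_le_of_gt (Order.lt_succ ν))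

/-- The elements of the canonical ideal which are disjoint modulo `P` from the `x a`, `a ∉ X`. -/
def NN (κ : Cardinal.{u}) (P : Set B) {Δ : Type u} (x : Δ → B) (X : Set Δ) : Set B :=
  {y | y ∈ small κ B ∧ ∀ a, a ∉ X → y ⊓ x a ∈ P}

theorem NN_isId (hκ : ℵ₀ ≤ κ) {P : Set B} (hP : IsId P) {Δ : Type u} (x : Δ → B) (X : Set Δ) :
    IsId (NN κ P x X) where
  bot := ⟨(small_isId hκ).bot, fun a _ => by rw [bot_inf_eq]; exact hP.bot⟩
  down y z hzy hy := ⟨(small_isId hκ).down _ _ hzy hy.1, fun a ha =>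
    hP.down _ _ (inf_le_inf_right _ hzy) (hy.2 a ha)⟩
  sup y z hy hz := ⟨(small_isId hκ).sup _ _ hy.1 hz.1, fun a ha => by
    rw [inf_sup_right]; exact hP.sup _ _ (hy.2 a ha) (hz.2 a ha)⟩

theorem NN_mono {P : Set B} {Δ : Type u} (x : Δ → B) {X X' : Set Δ} (h : X ⊆ X') :
    NN κ P x X ⊆ NN κ P x X' := fun _ hy => ⟨hy.1, fun a ha => hy.2 a fun h' => ha (h h')⟩

theorem subset_NN {P : Set B} (hP : IsId P) (hPs : P ⊆ small κ B) {Δ : Type u} (x : Δ → B)
    (X : Set Δ) : P ⊆ NN κ P x X := fun _ hy => ⟨hPs hy, fun _ _ => hP.down _ _ inf_le_left hy⟩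

/-- One of the orthogonal complements of many families, which are together disjoint modulo `P`,
is large. -/
theorem exists_large_NN (hκ : ℵ₀ ≤ κ) (hsm : κ ≤ #(small κ B)) {ν δ : Cardinal.{u}}
    (hν : ∀ x ∈ small κ B, #(Iic x) ≤ ν) (hcν : κ.ord.cof ≤ ν) (hνκ : Order.succ ν < κ)
    {P D : Set B} (hPid : IsId P)
    (hD : D.Pairwise (fun x y => x ⊓ y ∈ P)) (hδ : ℵ₀ ≤ δ) (hνδ : Order.succ ν ≤ δ)
    (hδD : δ ≤ #D) : ∃ x : δ.ord.ToType → B, Function.Injective x ∧ (∀ a, x a ∈ D) ∧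
      κ ≤ #(NN κ P x ∅) := by
  classical
  have hνω : ℵ₀ ≤ ν := (aleph0_le_cof hκ).trans hcν
  have hreg : (Order.succ ν).IsRegular := isRegular_succ hνω
  have hcard : #((Order.succ ν).ord.ToType × δ.ord.ToType) ≤ #D := by
    rw [mk_prod, lift_id, lift_id, mk_toType, mk_toType, card_ord, card_ord]
    exact (mul_le_of_le hδ hνδ le_rfl).trans hδD
  obtain ⟨F⟩ := (le_def _ _).1 hcard
  let x : (Order.succ ν).ord.ToType → δ.ord.ToType → B := fun j a => (F (j, a) : B)
  have hxinj : ∀ j, Function.Injective (x j) := by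
    intro j a a' haa
    have h1 : F (j, a) = F (j, a') := Subtype.ext haa
    exact (Prod.ext_iff.1 (F.injective h1)).2
  have hxpw : ∀ j j', j ≠ j' → ∀ a a', x j a ⊓ x j' a' ∈ P := by
    intro j j' hjj a a'
    refine hD (F (j, a)).2 (F (j', a')).2 ?_
    intro h1
    have h2 : F (j, a) = F (j', a') := Subtype.ext h1
    exact hjj (Prod.ext_iff.1 (F.injective h2)).1
  by_contra hcon
  push Not at hcon
  have hlt : ∀ j, #(NN κ P (x j) ∅) < κ := fun j => hcon (x j) (hxinj j) (fun a => (F (j, a)).2)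
  obtain ⟨ι, c, hι, hc, hcof⟩ := exists_cofinal_family κ
  have hi : ∀ j, ∃ i, #(NN κ P (x j) ∅) ≤ c i := fun j => hcof _ (hlt j)
  choose i hi using hi
  obtain ⟨i0, hi0⟩ := infinite_pigeonhole_card i (Order.succ ν) (by rw [mk_toType, card_ord])
    hreg.aleph0_le (by rw [hreg.cof_ord, hι]; exact hcν.trans_lt (Order.lt_succ ν))
  have hsub : small κ B ⊆ ⋃ j : (i ⁻¹' {i0} : Set _), NN κ P (x j) ∅ := by
    intro y hy
    by_contra hyn
    rw [mem_iUnion] at hyn
    push Not at hyn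
    have h1 : ∀ j : (i ⁻¹' {i0} : Set _), ∃ a, y ⊓ x j a ∉ P := by
      intro j
      by_contra h2
      push Not at h2
      exact hyn j ⟨hy, fun a _ => h2 a⟩
    choose a ha using h1
    have h3 : #(i ⁻¹' {i0} : Set _) ≤ #(Iic y) := by
      refine mk_le_of_injective (f := fun j => (⟨y ⊓ x j (a j), inf_le_left⟩ : Iic y)) ?_
      intro j j' hjj
      have h4 : y ⊓ x j (a j) = y ⊓ x j' (a j') := congrArg Subtype.val hjj
      by_contra hne
      have hne' : (j : (Order.succ ν).ord.ToType) ≠ j' := fun h5 => hne (Subtype.ext h5)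
      apply ha j
      refine hPid.down _ _ ?_ (hxpw _ _ hne' (a j) (a j'))
      refine le_inf inf_le_right ?_
      rw [h4]; exact inf_le_right
    exact absurd (hi0.trans (h3.trans (hν y hy))) (not_le_of_gt (Order.lt_succ ν))
  have hfin : #(small κ B) ≤ Order.succ ν * c i0 := by
    refine (mk_le_mk_of_subset hsub).trans ((mk_iUnion_le _).trans ?_)
    refine mul_le_mul' ?_ (ciSup_le' ?_)
    · refine (mk_set_le _).trans ?_
      rw [mk_toType, card_ord]
    · rintro ⟨j, hj⟩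
      have hj' : i j = i0 := hj
      have h6 := hi j
      rw [hj'] at h6
      exact h6
  exact absurd (hsm.trans hfin) (not_le_of_gt (mul_lt_of_lt hκ hνκ (hc i0)))

/-- The large ideals which contain a dense set are determined by their isomorphisms with the
canonical ideal, restricted to the dense set. -/
theorem HasStar.two_power_le_power (h : HasStar κ B) (hκ : ℵ₀ ≤ κ) {P G : Set B} (hPid : IsId P)
    (hPs : P ⊆ small κ B) (hGP : G ⊆ P)
    (hGd : ∀ x ∈ small κ B, x ≠ ⊥ → ∃ b ∈ G, b ≠ ⊥ ∧ b ≤ x)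
    {Δ : Type u} {x : Δ → B} (hxs : ∀ a, x a ∈ small κ B) (hxP : ∀ a, x a ∉ P)
    (hxpw : ∀ a a', a ≠ a' → x a ⊓ x a' ∈ P) (hN : κ ≤ #(NN κ P x ∅)) :
    (2 : Cardinal.{u}) ^ #Δ ≤ κ ^ #G := by
  classical
  have hex := fun X : Set Δ => h.exists_iso hκ (NN_isId hκ hPid x X) (fun y hy => hy.1)
    (hN.trans (mk_le_mk_of_subset (NN_mono x (empty_subset X))))
  choose e he using hex
  let f : Set Δ → B → B := fun X y => ((e X).symm y : B)
  have hfle : ∀ X y z, f X y ≤ f X z ↔ y ≤ z := fun X y z => (e X).symm.le_iff_le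
  have hfbot : ∀ X, f X ⊥ = ⊥ := fun X => by
    change (((e X).symm ⊥ : ofId _ _) : B) = ⊥
    rw [map_bot]; rfl
  have hfne : ∀ X y, y ≠ ⊥ → f X y ≠ ⊥ := by
    intro X y hy h1
    apply hy
    rw [← le_bot_iff, ← hfle X, h1]
    exact bot_le
  have hfmem : ∀ X y, y ∈ small κ B → f X y ∈ NN κ P x X := by
    intro X y hy
    exact (he X _).2 (by simpa using hy)
  have hfsurj : ∀ X b, b ∈ NN κ P x X → ∃ a ∈ small κ B, f X a = b := by
    intro X b hb
    refine ⟨e X ⟨b, mem_ofId_of_mem hb⟩, (he X _).1 hb, ?_⟩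
    change (((e X).symm (e X ⟨b, mem_ofId_of_mem hb⟩) : ofId _ _) : B) = b
    rw [(e X).symm_apply_apply]
  have key : ∀ X X' : Set Δ, (∀ g ∈ G, f X g = f X' g) → ∀ y ∈ small κ B, f X y ≤ f X' y := by
    intro X X' hXX y hy
    by_contra hcon
    have h1 : f X y \ f X' y ≠ ⊥ := fun h2 => hcon (sdiff_eq_bot_iff.1 h2)
    have h2 : f X y \ f X' y ∈ small κ B :=
      (small_isId hκ).down _ _ sdiff_le (hfmem X y hy).1
    obtain ⟨b, hbG, hb0, hb⟩ := hGd _ h2 h1
    obtain ⟨a, has, hab⟩ := hfsurj X b (subset_NN hPid hPs x X (hGP hbG))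
    have hay : a ≤ y := by
      rw [← hfle X, hab]; exact hb.trans sdiff_le
    have ha0 : a ≠ ⊥ := by
      rintro rfl
      rw [hfbot] at hab
      exact hb0 hab.symm
    obtain ⟨a', haG', ha0', haa⟩ := hGd a has ha0
    have h3 : f X a' ≤ b := by rw [← hab, hfle]; exact haa
    have h4 : f X a' ≤ f X' y := by
      rw [hXX a' haG', hfle]; exact haa.trans hay
    apply hfne X a' ha0'
    rw [← le_bot_iff]
    calc f X a' ≤ (f X y \ f X' y) ⊓ f X' y := le_inf (h3.trans hb) h4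
      _ = ⊥ := by rw [inf_comm, inf_sdiff_self_right]
  have hinj : Function.Injective (fun (X : Set Δ) (g : G) => f X g) := by
    intro X X' hXX
    have h1 : ∀ g ∈ G, f X g = f X' g := fun g hg => congrFun hXX ⟨g, hg⟩
    have h2 : ∀ y ∈ small κ B, f X y = f X' y := fun y hy =>
      le_antisymm (key X X' h1 y hy) (key X' X (fun g hg => (h1 g hg).symm) y hy)
    have h3 : ∀ b, b ∈ NN κ P x X ↔ b ∈ NN κ P x X' := by
      intro b
      constructor
      · intro hb
        obtain ⟨a, has, rfl⟩ := hfsurj X b hb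
        rw [h2 a has]; exact hfmem X' a has
      · intro hb
        obtain ⟨a, has, rfl⟩ := hfsurj X' b hb
        rw [← h2 a has]; exact hfmem X a has
    have h4 : ∀ (X : Set Δ) a, x a ∈ NN κ P x X ↔ a ∈ X := by
      intro X a
      constructor
      · intro h5
        by_contra h6
        have h7 := h5.2 a h6
        rw [inf_idem] at h7
        exact hxP a h7
      · intro h5
        exact ⟨hxs a, fun a' ha' => hxpw _ _ fun h6 => ha' (h6 ▸ h5)⟩
    ext a
    rw [← h4 X, ← h4 X', h3]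
  have h5 := mk_le_of_injective hinj
  rwa [mk_set, mk_pi, prod_const, lift_id, lift_id, h.1] at h5

/-- Superatomicity from the growth of the powers. -/
theorem HasStar.superatomic_of_power (h : HasStar κ B) (hκ : κ.IsSingular)
    (hpow : ∀ g < κ, ∃ μ < κ, κ ^ g < (2 : Cardinal.{u}) ^ μ) : Superatomic B := by
  by_contra hns
  have hκω : ℵ₀ ≤ κ := hκ.aleph0_le
  have hμκ : κ.ord.cof < κ := hκ.cof_ord_lt
  have hμω : ℵ₀ ≤ κ.ord.cof := aleph0_le_cof hκω
  have hsm := h.le_card_small hκω hns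
  obtain ⟨ν0, hν0, hbd⟩ := h.bounded_of_isSingular hκ hns
  set ν : Cardinal.{u} := max ν0 κ.ord.cof with hνdef
  have hν : ν < κ := max_lt hν0 hμκ
  have hνω : ℵ₀ ≤ ν := hμω.trans (le_max_right _ _)
  have hcν : κ.ord.cof ≤ ν := le_max_right _ _
  have hbd' : ∀ x ∈ small κ B, #(Iic x) ≤ ν := fun x hx => (hbd x hx).trans (le_max_left _ _)
  have hsν : Order.succ ν < κ := hκ.isSuccLimit.succ_lt hν
  -- a dense ideal
  obtain ⟨D, hDK, hDd, hDmax⟩ := exists_max_disj (small κ B \ {⊥})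
  have hDκ : #D < κ := h.card_disj_lt hns hDd fun d hd => (hDK hd).2
  set G : Set B := gen (fun d : D => (d : B)) with hG
  have hGs : G ⊆ small κ B := gen_subset (small_isId hκω) fun d => (hDK d.2).1
  have hGκ : #G < κ := by
    refine lt_of_le_of_lt (card_gen_le (δ := max ν #D) hκω hbd' _ (fun d => (hDK d.2).1)
      (hνω.trans (le_max_left _ _)) (le_max_left _ _) (le_max_right _ _)) (max_lt hν hDκ)
  have hGd : ∀ x ∈ small κ B, x ≠ ⊥ → ∃ b ∈ G, b ≠ ⊥ ∧ b ≤ x := by
    intro x hx hx0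
    by_contra hcon
    push Not at hcon
    apply hx0
    refine hDmax x ⟨hx, hx0⟩ fun d hd => ?_
    rw [disjoint_iff]
    by_contra hne
    exact hcon (x ⊓ d) (le_gen (fun d : D => (d : B)) ⟨d, hd⟩ inf_le_right) hne inf_le_left
  obtain ⟨μ, hμ, hlt⟩ := hpow _ hGκ
  set δ : Cardinal.{u} := max (max μ #G) (Order.succ ν) with hδdef
  have hδκ : δ < κ := max_lt (max_lt hμ hGκ) hsν
  have hδω : ℵ₀ ≤ δ := (hνω.trans (Order.le_succ ν)).trans (le_max_right _ _)
  obtain ⟨P, D', hPid, hGP, hPs, hDs', hDP', hDpw', hδD⟩ := exists_disjMod hκω hsm hbd' hGs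
    ((le_max_right _ _).trans (le_max_left _ _)) hδω (le_max_right _ _) hδκ
  obtain ⟨x, hxinj, hxD, hN⟩ := exists_large_NN hκω hsm hbd' hcν hsν hPid hDpw' hδω
    (le_max_right _ _) hδD.le
  have h1 := h.two_power_le_power hκω hPid hPs hGP hGd (fun a => hDs' (hxD a))
    (fun a => hDP' _ (hxD a)) (fun a a' haa => hDpw' (hxD a) (hxD a') fun h2 => haa (hxinj h2)) hN
  rw [mk_toType, card_ord] at h1
  have h2 : (2 : Cardinal.{u}) ^ μ ≤ 2 ^ δ :=
    power_le_power_left two_ne_zero ((le_max_left _ _).trans (le_max_left _ _))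
  exact absurd (h2.trans h1) (not_le_of_gt hlt)

/-- Superatomicity if the continuum function is not eventually constant below the singular
cardinal `κ`. -/
theorem HasStar.superatomic_of_not_constant (h : HasStar κ B) (hκ : κ.IsSingular)
    (hpow : ∀ g < κ, ∃ μ < κ, (2 : Cardinal.{u}) ^ g < 2 ^ μ) : Superatomic B := by
  by_cases hsl : κ.IsStrongLimit
  · exact h.superatomic_of_strongLimit hsl
  · refine h.superatomic_of_power hκ fun g hg => ?_
    have hκω : ℵ₀ ≤ κ := hκ.aleph0_le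
    obtain ⟨θ, hθ, hκθ⟩ : ∃ θ < κ, κ ≤ 2 ^ θ := by
      by_contra hcon
      push Not at hcon
      exact hsl ⟨(aleph0_pos.trans_le hκω).ne', fun {x} hx => hcon x hx⟩
    obtain ⟨μ, hμ, hlt⟩ := hpow (θ * g) (mul_lt_of_lt hκω hθ hg)
    refine ⟨μ, hμ, lt_of_le_of_lt ?_ hlt⟩
    rw [power_mul]
    exact power_le_power_right hκθ

end Pool.Agent.Lib.MP_8a899a_lc
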