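import Pool.Agent.Lib.MP_8a899a_lc.Gener

set_option autoImplicit false
set_option linter.unusedSectionVars false

/-!
# One-point compactifications of sums of superatomic algebras
-/

universe u

namespace Pool.Agent.Lib.MP_8a899a_lc

open Set Cardinal

variable {B : Type u} [BooleanAlgebra B] {κ : Cardinal.{u}}

/-- The subalgebra `A` contains everything disjoint from `x`. -/
def IsLoc (A : BooleanSubalgebra B) (x : B) : Prop := x ∈ A ∧ ∀ b, b ⊓ x ∈ A → b ∈ A

/-- Some subalgebra of the algebra below `x` is superatomic and of rank at least `β`. -/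
def HasRank (x : B) (β : Ordinal.{u}) : Prop :=
  ∃ A : BooleanSubalgebra B, IsLoc A x ∧ ∃ hx : x ∈ A,
    (⟨x, hx⟩ : A) ∈ (cb (ht A) : Set A) ∧ (⟨x, hx⟩ : A) ∉ (cb β : Set A)

theorem mem_cb_zero {x : B} : x ∈ (cb 0 : Set B) ↔ x = ⊥ := by
  rw [mem_cb]
  constructor
  · rintro (h1 | ⟨β, hβ, _⟩)
    · exact h1
    · exact absurd hβ not_lt_zero
  · exact Or.inl

theorem hasRank_zero {x : B} (hx : x ≠ ⊥) : HasRank x 0 := by
  set A := sub ({⊥} : Set B) isId_bot x with hA
  have hxA : x ∈ A := by right; rw [_root_.sdiff_self]; rfl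
  have h0 : (⟨x, hxA⟩ : A) ∉ (cb 0 : Set A) := by
    rw [mem_cb_zero]
    intro h1
    exact hx (congrArg Subtype.val h1)
  refine ⟨A, ⟨hxA, ?_⟩, hxA, ?_, h0⟩
  · intro b hb
    rw [hA, mem_sub] at hb ⊢
    rcases hb with hb | hb
    · left; rwa [inf_assoc, inf_idem] at hb
    · right; rwa [sdiff_inf_self_right] at hb
  · refine cb_subset_ht 1 (AtomMod.mem_cb (β := 0) (by simp) ⟨h0, ?_⟩)
    intro y hy
    have hyx : (y : B) ≤ x := hy
    rcases y.2 with h1 | h1
    · left
      rw [inf_eq_left.2 hyx] at h1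
      exact mem_cb_zero.2 (Subtype.ext h1)
    · right
      exact mem_cb_zero.2 (Subtype.ext h1)

theorem HasStar.not_hasRank (h : HasStar κ B) (hκ : ℵ₀ ≤ κ) {x : B}
    (hx : x ∈ small κ B) : ¬ HasRank x (ht B) := by
  rintro ⟨A, ⟨_, hA⟩, hxA, h1, h2⟩
  have h3 : ∀ b ∈ Iic xᶜ, b ∈ A := by
    intro b hb
    apply hA
    have hb' : b ≤ xᶜ := hb
    rw [(le_compl_iff_disjoint_right.1 hb').eq_bot]
    exact A.bot_mem
  have h4 : κ ≤ #(Iic xᶜ) := not_lt.1 (h.compl_notMem_small hκ hx)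
  obtain ⟨e⟩ := h.iso A _ h3 h4
  rw [ht_iso e] at h1
  exact h2 h1

section Sum

variable {ι : Type u} (x0 : B) (y : ι → B) (A : ι → BooleanSubalgebra B)
  (hy : ∀ i, y i ∈ A i)

/-- The algebra of the `b` with `b ⊓ y i ∈ A i` for all `i`, and which contain all but finitely
many `y i` or avoid all but finitely many `y i`. -/
def sumAlg (hy : ∀ i, y i ∈ A i) : BooleanSubalgebra B where
  carrier := {b | (∀ i, b ⊓ y i ∈ A i) ∧
    ((∃ t : Finset ι, b ⊓ x0 ≤ t.sup y) ∨ (∃ t : Finset ι, x0 \ b ≤ t.sup y))}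
  supClosed' := by
    classical
    rintro b ⟨hb, hb'⟩ c ⟨hc, hc'⟩
    refine ⟨fun i => ?_, ?_⟩
    · rw [inf_sup_right]; exact (A i).sup_mem (hb i) (hc i)
    · rcases hb' with ⟨t, ht⟩ | ⟨t, ht⟩
      · rcases hc' with ⟨t', ht'⟩ | ⟨t', ht'⟩
        · left
          refine ⟨t ∪ t', ?_⟩
          rw [inf_sup_right, Finset.sup_union]
          exact sup_le_sup ht ht'
        · right
          exact ⟨t', (sdiff_le_sdiff_left le_sup_right).trans ht'⟩
      · right
        exact ⟨t, (sdiff_le_sdiff_left le_sup_left).trans ht⟩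
  infClosed' := by
    classical
    rintro b ⟨hb, hb'⟩ c ⟨hc, hc'⟩
    refine ⟨fun i => ?_, ?_⟩
    · have : b ⊓ c ⊓ y i = (b ⊓ y i) ⊓ (c ⊓ y i) := by
        rw [inf_inf_inf_comm, inf_idem]
      rw [this]; exact (A i).inf_mem (hb i) (hc i)
    · rcases hb' with ⟨t, ht⟩ | ⟨t, ht⟩
      · left
        exact ⟨t, (inf_le_inf_right _ inf_le_left).trans ht⟩
      · rcases hc' with ⟨t', ht'⟩ | ⟨t', ht'⟩
        · left
          exact ⟨t', (inf_le_inf_right _ inf_le_right).trans ht'⟩
        · right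
          refine ⟨t ∪ t', ?_⟩
          rw [sdiff_inf, Finset.sup_union]
          exact sup_le_sup ht ht'
  compl_mem' := by
    rintro b ⟨hb, hb'⟩
    refine ⟨fun i => ?_, ?_⟩
    · have : bᶜ ⊓ y i = y i \ (b ⊓ y i) := by
        rw [sdiff_inf_self_right, _root_.sdiff_eq, inf_comm]
      rw [this]; exact (A i).sdiff_mem (hy i) (hb i)
    · rcases hb' with ⟨t, ht⟩ | ⟨t, ht⟩
      · right
        refine ⟨t, ?_⟩
        rw [_root_.sdiff_eq, compl_compl, inf_comm]; exact ht
      · left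
        refine ⟨t, ?_⟩
        rw [inf_comm, ← _root_.sdiff_eq]; exact ht
  bot_mem' := by
    refine ⟨fun i => ?_, Or.inl ⟨∅, ?_⟩⟩
    · rw [bot_inf_eq]; exact (A i).bot_mem
    · rw [bot_inf_eq]; exact bot_le

theorem mem_sumAlg {b : B} : b ∈ sumAlg x0 y A hy ↔ (∀ i, b ⊓ y i ∈ A i) ∧
    ((∃ t : Finset ι, b ⊓ x0 ≤ t.sup y) ∨ (∃ t : Finset ι, x0 \ b ≤ t.sup y)) := Iff.rfl

theorem sumAlg_isLoc (hle : ∀ i, y i ≤ x0) : IsLoc (sumAlg x0 y A hy) x0 := by
  refine ⟨⟨fun i => ?_, Or.inr ⟨∅, ?_⟩⟩, ?_⟩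
  · rw [inf_eq_right.2 (hle i)]; exact hy i
  · rw [_root_.sdiff_self]; exact bot_le
  · rintro b ⟨hb, hb'⟩
    refine ⟨fun i => ?_, ?_⟩
    · have := hb i
      rwa [inf_assoc, inf_eq_right.2 (hle i)] at this
    · rcases hb' with ⟨t, ht⟩ | ⟨t, ht⟩
      · left
        exact ⟨t, by rwa [inf_assoc, inf_idem] at ht⟩
      · right
        exact ⟨t, by rwa [sdiff_inf_self_right] at ht⟩

theorem sumAlg_le (hloc : ∀ i, IsLoc (A i) (y i)) (i : ι) : sumAlg x0 y A hy ≤ A i :=
  fun _ hb => (hloc i).2 _ (hb.1 i)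

theorem mem_sumAlg_of_le (hdis : Pairwise (Function.onFun Disjoint y))
    {i : ι} {z : B} (hz : z ≤ y i) (hzA : z ∈ A i) : z ∈ sumAlg x0 y A hy := by
  refine ⟨fun j => ?_, Or.inl ⟨{i}, ?_⟩⟩
  · by_cases hij : i = j
    · subst hij
      rw [inf_eq_left.2 hz]; exact hzA
    · have h1 : Disjoint z (y j) := (hdis hij).mono_left hz
      rw [h1.eq_bot]; exact (A j).bot_mem
  · rw [Finset.sup_singleton]
    exact inf_le_left.trans hz

theorem sumAlg_cb_iff (hdis : Pairwise (Function.onFun Disjoint y))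
    (hloc : ∀ i, IsLoc (A i) (y i)) (i : ι) (α : Ordinal.{u}) {z : B} (hz : z ≤ y i)
    (hzS : z ∈ sumAlg x0 y A hy) (hzA : z ∈ A i) :
    (⟨z, hzS⟩ : sumAlg x0 y A hy) ∈ (cb α : Set (sumAlg x0 y A hy)) ↔
      (⟨z, hzA⟩ : A i) ∈ (cb α : Set (A i)) := by
  have hsub := sumAlg_le x0 y A hy hloc i
  have := cb_iff_of_local (BooleanSubalgebra.inclusion hsub) (by
    intro a b hab
    apply Subtype.ext
    exact congrArg (fun w : A i => (w : B)) hab)
    {b : sumAlg x0 y A hy | (b : B) ≤ y i} (fun a b hba ha => le_trans hba ha) (by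
    intro a ha w hw
    have h1 : (w : B) ≤ y i := le_trans (show (w : B) ≤ (a : B) from hw) ha
    exact ⟨⟨w, mem_sumAlg_of_le x0 y A hy hdis h1 w.2⟩, rfl⟩) α ⟨z, hzS⟩ hz
  exact this

theorem HasRank.sum [Infinite ι] (hle : ∀ i, y i ≤ x0)
    (hdis : Pairwise (Function.onFun Disjoint y)) (hne : ∀ i, y i ≠ ⊥) (β : Ordinal.{u})
    (f : ι → Ordinal.{u}) (hinf : ∀ γ < β, {i | γ ≤ f i}.Infinite)
    (hR : ∀ i, HasRank (y i) (f i)) : HasRank x0 β := by
  classical
  choose A hloc hyA hsa hnot using hR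
  set S := sumAlg x0 y A hyA with hS
  have hSloc : IsLoc S x0 := sumAlg_isLoc x0 y A hyA hle
  have hyS : ∀ i, y i ∈ S := fun i => mem_sumAlg_of_le x0 y A hyA hdis le_rfl (hyA i)
  have hcb : ∀ i α, (⟨y i, hyS i⟩ : S) ∈ (cb α : Set S) ↔ (⟨y i, hyA i⟩ : A i) ∈
      (cb α : Set (A i)) := fun i α =>
    sumAlg_cb_iff x0 y A hyA hdis hloc i α le_rfl (hyS i) (hyA i)
  let yS : ι → S := fun i => ⟨y i, hyS i⟩
  have hcoe : ∀ t : Finset ι, ((t.sup yS : S) : B) = t.sup y := by
    intro t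
    exact map_finset_sup S.subtype t yS
  let F : Set S := {b | ∃ t : Finset ι, (b : B) ⊓ x0 ≤ t.sup y}
  have hF : IsId F := by
    refine ⟨⟨∅, ?_⟩, ?_, ?_⟩
    · change (⊥ : B) ⊓ x0 ≤ _
      rw [bot_inf_eq]; exact bot_le
    · rintro a b hba ⟨t, ht⟩
      exact ⟨t, (inf_le_inf_right _ (show (b : B) ≤ (a : B) from hba)).trans ht⟩
    · rintro a b ⟨t, ht⟩ ⟨t', ht'⟩
      refine ⟨t ∪ t', ?_⟩
      change ((a : B) ⊔ (b : B)) ⊓ x0 ≤ _
      rw [inf_sup_right, Finset.sup_union]
      exact sup_le_sup ht ht'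
  -- elements below `x0` avoiding all but finitely many `y i` are superatomic
  have hFsa : ∀ b : S, (b : B) ≤ x0 → b ∈ F → b ∈ (cb (ht S) : Set S) := by
    rintro b hb ⟨t, hbt⟩
    refine (cb_isId (ht S)).down (t.sup yS) b ?_ ?_
    · change (b : B) ≤ ((t.sup yS : S) : B)
      rw [hcoe]
      exact (le_inf le_rfl hb).trans hbt
    · refine (cb_isId (ht S)).sup_mem t yS fun i _ => ?_
      exact cb_subset_ht _ ((hcb i _).2 (hsa i))
  have hx0S : x0 ∈ S := hSloc.1
  refine ⟨S, hSloc, hx0S, ?_, ?_⟩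
  · by_contra hcon
    refine ht_spec (⟨x0, hx0S⟩ : S) ⟨hcon, fun z hz => ?_⟩
    have hzx : (z : B) ≤ x0 := hz
    rcases z.2.2 with ⟨t, ht⟩ | ⟨t, ht⟩
    · left
      exact hFsa z hzx ⟨t, ht⟩
    · right
      refine hFsa _ (sdiff_le : x0 \ (z : B) ≤ x0) ⟨t, ?_⟩
      exact inf_le_left.trans ht
  · -- rank at least `β`
    have key : ∀ γ, γ ≤ β → (cb γ : Set S) ⊆ F := by
      intro γ
      induction γ using WellFoundedLT.induction with
      | ind γ ih =>
        intro hγ z hz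
        rw [mem_cb] at hz
        rcases hz with rfl | ⟨γ', hγ', hz⟩
        · exact hF.bot
        · have ih' := ih γ' hγ' (hγ'.le.trans hγ)
          induction hz with
          | base z hz => exact ih' hz
          | sup z w _ _ ih1 ih2 => exact hF.sup _ _ ih1 ih2
          | atom a ha =>
            by_contra haF
            have hcof : ∃ t : Finset ι, x0 \ (a : B) ≤ t.sup y := by
              rcases a.2.2 with ⟨t, ht⟩ | h1
              · exact absurd ⟨t, ht⟩ haF
              · exact h1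
            obtain ⟨t, ht⟩ := hcof
            obtain ⟨i, hi, hit⟩ := (hinf γ' (hγ'.trans_le hγ)).exists_notMem_finset t
            have h1 : yS i ∉ (cb γ' : Set S) := by
              intro h2
              exact hnot i (cb_mono hi ((hcb i γ').1 h2))
            have hdt : Disjoint (y i) (t.sup y) := by
              rw [Finset.disjoint_sup_right]
              intro j hj
              refine hdis ?_
              rintro rfl
              exact hit hj
            have h2 : y i ≤ (a : B) := by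
              have h3 : y i \ (a : B) ≤ t.sup y := (sdiff_le_sdiff_right (hle i)).trans ht
              have h4 : y i \ (a : B) = ⊥ := by
                have h5 : y i \ (a : B) ≤ y i ⊓ t.sup y := le_inf sdiff_le h3
                rwa [hdt.eq_bot, le_bot_iff] at h5
              exact sdiff_eq_bot_iff.1 h4
            rcases ha.2 (yS i) h2 with h3 | h3
            · exact h1 h3
            · obtain ⟨t', ht'⟩ := ih' h3
              apply haF
              refine ⟨insert i t', ?_⟩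
              rw [Finset.sup_insert]
              have h4 : (a : B) ⊓ x0 ≤ y i ⊔ ((a : B) \ y i) ⊓ x0 := by
                calc (a : B) ⊓ x0 ≤ (y i ⊔ (a : B) \ y i) ⊓ x0 := by
                      refine inf_le_inf_right _ ?_
                      rw [sup_sdiff_self_right]
                      exact le_sup_right
                  _ ≤ y i ⊔ ((a : B) \ y i) ⊓ x0 := by
                      rw [inf_sup_right]
                      exact sup_le_sup inf_le_left le_rfl
              exact h4.trans (sup_le_sup le_rfl ht')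
    intro h1
    obtain ⟨t, ht⟩ := key β le_rfl h1
    obtain ⟨i, hi⟩ := Infinite.exists_notMem_finset t
    have hdt : Disjoint (y i) (t.sup y) := by
      rw [Finset.disjoint_sup_right]
      intro j hj
      refine hdis ?_
      rintro rfl
      exact hi hj
    have h2 : y i ≤ y i ⊓ t.sup y := by
      refine le_inf le_rfl ((hle i).trans ?_)
      have h3 : x0 ⊓ x0 ≤ t.sup y := ht
      rwa [inf_idem] at h3
    rw [hdt.eq_bot, le_bot_iff] at h2
    exact hne i h2

end Sum

end Pool.Agent.Lib.MP_8a899a_lc
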