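import Pool.Agent.Lib.MP_8a899a_lc.Count

set_option autoImplicit false
set_option linter.unusedSectionVars false

/-!
# A countable atomless algebra below an element which is not superatomic
-/

universe u

namespace Pool.Agent.Lib.MP_8a899a_lc

open Set Cardinal

variable {B : Type u} [BooleanAlgebra B]

/-- The tree of splittings. -/
def tr (g : B → B) (y : B) : List Bool → B
  | [] => y
  | true :: l => g (tr g y l)
  | false :: l => tr g y l \ g (tr g y l)

/-- The levels of the tree. -/
def lv : ℕ → Finset (List Bool)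
  | 0 => {[]}
  | n + 1 => (lv n).image (List.cons true) ∪ (lv n).image (List.cons false)

section Tree

variable {S : Set B} {g : B → B} {y : B}
  (hg : ∀ a, a ∉ S → g a ≤ a ∧ g a ∉ S ∧ a \ g a ∉ S) (hyS : y ∉ S)

include hg hyS

theorem tr_notMem (l : List Bool) : tr g y l ∉ S := by
  induction l with
  | nil => exact hyS
  | cons b l ih =>
    cases b with
    | true => exact (hg _ ih).2.1
    | false => exact (hg _ ih).2.2

theorem tr_cons_le (b : Bool) (l : List Bool) : tr g y (b :: l) ≤ tr g y l := by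
  cases b with
  | true => exact (hg _ (tr_notMem hg hyS l)).1
  | false => exact sdiff_le

theorem tr_sup (l : List Bool) : tr g y (true :: l) ⊔ tr g y (false :: l) = tr g y l :=
  sup_sdiff_cancel_right (hg _ (tr_notMem hg hyS l)).1

theorem lv_sup (n : ℕ) : (lv n).sup (tr g y) = y := by
  induction n with
  | zero => simp [lv, tr]
  | succ n ih =>
    rw [lv, Finset.sup_union, Finset.sup_image, Finset.sup_image]
    conv_rhs => rw [← ih]
    rw [← Finset.sup_sup]
    refine Finset.sup_congr rfl fun l _ => ?_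
    exact tr_sup hg hyS l

theorem lv_disjoint (n : ℕ) : ∀ l ∈ lv n, ∀ l' ∈ lv n, l ≠ l' →
    Disjoint (tr g y l) (tr g y l') := by
  induction n with
  | zero =>
    intro l hl l' hl' hne
    simp only [lv, Finset.mem_singleton] at hl hl'
    exact absurd (hl.trans hl'.symm) hne
  | succ n ih =>
    have hmem : ∀ l ∈ lv (n + 1), ∃ b, ∃ k ∈ lv n, l = b :: k := by
      intro l hl
      rw [lv, Finset.mem_union, Finset.mem_image, Finset.mem_image] at hl
      rcases hl with ⟨k, hk, rfl⟩ | ⟨k, hk, rfl⟩
      · exact ⟨true, k, hk, rfl⟩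
      · exact ⟨false, k, hk, rfl⟩
    intro l hl l' hl' hne
    obtain ⟨b, k, hk, rfl⟩ := hmem l hl
    obtain ⟨b', k', hk', rfl⟩ := hmem l' hl'
    by_cases hkk : k = k'
    · subst hkk
      have hbb : b ≠ b' := fun h1 => hne (by rw [h1])
      cases b <;> cases b'
      · exact absurd rfl hbb
      · exact disjoint_sdiff_self_left
      · exact disjoint_sdiff_self_right
      · exact absurd rfl hbb
    · exact (ih k hk k' hk' hkk).mono (tr_cons_le hg hyS b k) (tr_cons_le hg hyS b' k')

/-- The finite unions of elements of a level. -/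
theorem lv_raise {n m : ℕ} (hnm : n ≤ m) {s : Finset (List Bool)} (hs : s ⊆ lv n) :
    ∃ t ⊆ lv m, t.sup (tr g y) = s.sup (tr g y) := by
  induction m, hnm using Nat.le_induction with
  | base => exact ⟨s, hs, rfl⟩
  | succ m _ ih =>
    obtain ⟨t, ht, hts⟩ := ih
    refine ⟨t.image (List.cons true) ∪ t.image (List.cons false), ?_, ?_⟩
    · rw [lv]
      exact Finset.union_subset_union (Finset.image_subset_image ht)
        (Finset.image_subset_image ht)
    · rw [Finset.sup_union, Finset.sup_image, Finset.sup_image, ← hts, ← Finset.sup_sup]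
      exact Finset.sup_congr rfl fun l _ => tr_sup hg hyS l

theorem lv_compl {n : ℕ} {s : Finset (List Bool)} (hs : s ⊆ lv n) :
    y \ s.sup (tr g y) = (lv n \ s).sup (tr g y) := by
  have h1 : s.sup (tr g y) ⊔ (lv n \ s).sup (tr g y) = y := by
    rw [← Finset.sup_union, Finset.union_sdiff_of_subset hs, lv_sup hg hyS]
  have h2 : Disjoint (s.sup (tr g y)) ((lv n \ s).sup (tr g y)) := by
    rw [Finset.disjoint_sup_left]
    intro l hl
    rw [Finset.disjoint_sup_right]
    intro l' hl'
    rw [Finset.mem_sdiff] at hl'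
    refine lv_disjoint hg hyS n l (hs hl) l' hl'.1 ?_
    rintro rfl
    exact hl'.2 hl
  have h3 := h2.sup_sdiff_cancel_left
  rwa [h1] at h3

/-- The atomless algebra. -/
theorem exists_tree_alg : ∃ A : BooleanSubalgebra B, ∀ b, b ∈ A ↔
    ∃ n, ∃ s ⊆ lv n, b ⊓ y = s.sup (tr g y) := by
  have hsup : ∀ a b : B, (∃ n, ∃ s ⊆ lv n, a = s.sup (tr g y)) →
      (∃ n, ∃ s ⊆ lv n, b = s.sup (tr g y)) → ∃ n, ∃ s ⊆ lv n, a ⊔ b = s.sup (tr g y) := by
    rintro a b ⟨n, s, hs, rfl⟩ ⟨m, t, ht, rfl⟩
    obtain ⟨s', hs', hs's⟩ := lv_raise hg hyS (le_max_left n m) hs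
    obtain ⟨t', ht', ht't⟩ := lv_raise hg hyS (le_max_right n m) ht
    refine ⟨max n m, s' ∪ t', Finset.union_subset hs' ht', ?_⟩
    rw [Finset.sup_union, hs's, ht't]
  have hcompl : ∀ a : B, (∃ n, ∃ s ⊆ lv n, a = s.sup (tr g y)) →
      ∃ n, ∃ s ⊆ lv n, y \ a = s.sup (tr g y) := by
    rintro a ⟨n, s, hs, rfl⟩
    exact ⟨n, lv n \ s, Finset.sdiff_subset, lv_compl hg hyS hs⟩
  refine ⟨{ carrier := {b | ∃ n, ∃ s ⊆ lv n, b ⊓ y = s.sup (tr g y)}
            supClosed' := ?_
            infClosed' := ?_
            compl_mem' := ?_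
            bot_mem' := ?_ }, fun b => Iff.rfl⟩
  · intro a ha b hb
    change ∃ n, ∃ s ⊆ lv n, (a ⊔ b) ⊓ y = s.sup (tr g y)
    rw [inf_sup_right]
    exact hsup _ _ ha hb
  · intro a ha b hb
    have h1 := hcompl _ (hsup _ _ (hcompl _ ha) (hcompl _ hb))
    have h2 : y \ ((y \ (a ⊓ y)) ⊔ (y \ (b ⊓ y))) = (a ⊓ b) ⊓ y := by
      rw [← sdiff_inf, _root_.sdiff_sdiff_right_self]
      rw [inf_comm y, inf_inf_inf_comm, inf_idem, inf_assoc, inf_idem]
    rw [h2] at h1
    exact h1
  · intro a ha
    have h1 := hcompl _ ha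
    have h2 : y \ (a ⊓ y) = aᶜ ⊓ y := by
      rw [sdiff_inf_self_right, _root_.sdiff_eq, inf_comm]
    rw [h2] at h1
    exact h1
  · exact ⟨0, ∅, Finset.empty_subset _, by rw [bot_inf_eq, Finset.sup_empty]⟩

end Tree

/-- An element which is not superatomic has a countable atomless local algebra. -/
theorem atl_of_notMem {μ : Cardinal.{u}} (hμ : ℵ₀ ≤ μ) {y : B}
    (hyS : y ∉ (cb (ht B) : Set B)) : Atl μ y := by
  set S : Set B := cb (ht B) with hS
  have h1 : ∀ a : B, ∃ z, a ∉ S → z ≤ a ∧ z ∉ S ∧ a \ z ∉ S := by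
    intro a
    by_cases ha : a ∈ S
    · exact ⟨⊥, fun h2 => absurd ha h2⟩
    · by_contra hcon
      push Not at hcon
      refine ht_spec a ⟨ha, fun z hz => ?_⟩
      by_contra hcon2
      push Not at hcon2
      exact hcon2.2 ((hcon z).2 hz hcon2.1)
  choose g hg using h1
  obtain ⟨A, hA⟩ := exists_tree_alg hg hyS
  have hbot : (⊥ : B) ∈ S := (cb_isId _).bot
  refine ⟨A, ⟨?_, ?_⟩, ?_, ?_⟩
  · rw [hA]
    refine ⟨0, lv 0, le_rfl, ?_⟩
    rw [lv_sup hg hyS, inf_idem]
  · intro b hb
    rw [hA] at hb ⊢
    rwa [inf_assoc, inf_idem] at hb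
  · have h2 : {b : B | b ∈ A ∧ b ≤ y} ⊆ range (fun s : Finset (List Bool) => s.sup (tr g y)) := by
      rintro b ⟨hb, hby⟩
      rw [hA, inf_eq_left.2 hby] at hb
      obtain ⟨n, s, _, rfl⟩ := hb
      exact ⟨s, rfl⟩
    refine (mk_le_mk_of_subset h2).trans (le_trans ?_ hμ)
    exact (countable_range _).le_aleph0
  · have key : ∀ α : Ordinal.{u}, ∀ z ∈ (cb α : Set A), (z : B) ≤ y → z = ⊥ := by
      intro α
      induction α using WellFoundedLT.induction with
      | ind α ih =>
        intro z hz hzy
        rw [mem_cb] at hz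
        rcases hz with hz | ⟨β, hβ, hz⟩
        · exact hz
        · induction hz with
          | base z hz => exact ih β hβ z hz hzy
          | sup z w _ _ ih1 ih2 =>
            have h3 : (z : B) ⊔ (w : B) ≤ y := hzy
            rw [ih1 (le_sup_left.trans h3), ih2 (le_sup_right.trans h3), sup_bot_eq]
          | atom a ha =>
            exfalso
            obtain ⟨n, s, hs, has⟩ := (hA _).1 a.2
            rw [inf_eq_left.2 hzy] at has
            have hane : a ≠ ⊥ := fun h3 => ha.1 (h3 ▸ (cb_isId β).bot)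
            have hsne : s.Nonempty := by
              rw [Finset.nonempty_iff_ne_empty]
              rintro rfl
              rw [Finset.sup_empty] at has
              exact hane (Subtype.ext has)
            obtain ⟨l, hl⟩ := hsne
            have hla : tr g y l ≤ (a : B) := by
              rw [has]; exact Finset.le_sup (f := tr g y) hl
            have hzA : tr g y (true :: l) ∈ A := by
              rw [hA]
              refine ⟨n + 1, {true :: l}, ?_, ?_⟩
              · rw [lv, Finset.singleton_subset_iff, Finset.mem_union, Finset.mem_image]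
                exact Or.inl ⟨l, hs hl, rfl⟩
              · rw [Finset.sup_singleton, inf_eq_left]
                exact ((tr_cons_le hg hyS true l).trans hla).trans hzy
            have hza : tr g y (true :: l) ≤ (a : B) := (tr_cons_le hg hyS true l).trans hla
            rcases ha.2 ⟨_, hzA⟩ hza with h3 | h3
            · have h4 := ih β hβ _ h3 (hza.trans hzy)
              have h5 : tr g y (true :: l) = ⊥ := congrArg Subtype.val h4
              exact tr_notMem hg hyS (true :: l) (h5 ▸ hbot)
            · have h4 := ih β hβ _ h3 ((sdiff_le : (a : B) \ tr g y (true :: l) ≤ a).trans hzy)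
              have h5 : (a : B) \ tr g y (true :: l) = ⊥ := congrArg Subtype.val h4
              have h6 : tr g y (false :: l) ≤ (a : B) \ tr g y (true :: l) :=
                sdiff_le_sdiff_right hla
              rw [h5, le_bot_iff] at h6
              exact tr_notMem hg hyS (false :: l) (h6 ▸ hbot)
    exact key (ht A)

end Pool.Agent.Lib.MP_8a899a_lc
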